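import Mathlib

/-!
Elimination of a variable from two polynomials without a common factor.
-/

set_option autoImplicit false

open MvPolynomial

namespace Pool.Agent.Y172

section

variable {M : Type} [Field M] {l : ℕ}

/-- elimination in one variable over a unique factorization domain -/
theorem elim_poly {R : Type} [CommRing R] [IsDomain R] [UniqueFactorizationMonoid R]
    {g Q : Polynomial R} (hg : Irreducible g) (hg0 : g.natDegree ≠ 0) (hQ : ¬ g ∣ Q) :
    ∃ (α β : Polynomial R) (r : R), r ≠ 0 ∧ α * g + β * Q = Polynomial.C r := by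
  classical
  let _ : NormalizedGCDMonoid R := Classical.choice inferInstance
  have hp := hg.isPrimitive hg0
  have h1 : Irreducible (g.map (algebraMap R (FractionRing R))) :=
    (Polynomial.IsPrimitive.irreducible_iff_irreducible_map_fraction_map hp).1 hg
  have h2 : ¬ g.map (algebraMap R (FractionRing R)) ∣ Q.map (algebraMap R (FractionRing R)) :=
    fun h => hQ (hp.dvd_of_fraction_map_dvd_fraction_map h)
  obtain ⟨a, b, hab⟩ := (h1.coprime_iff_not_dvd).2 h2
  obtain ⟨c, hc, hc'⟩ := IsLocalization.integerNormalization_spec (nonZeroDivisors R) a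
  obtain ⟨d, hd, hd'⟩ := IsLocalization.integerNormalization_spec (nonZeroDivisors R) b
  have hc0 := nonZeroDivisors.ne_zero hc
  have hd0 := nonZeroDivisors.ne_zero hd
  refine ⟨Polynomial.C d * IsLocalization.integerNormalization (nonZeroDivisors R) a,
    Polynomial.C c * IsLocalization.integerNormalization (nonZeroDivisors R) b, c * d,
    mul_ne_zero hc0 hd0, ?_⟩
  apply Polynomial.map_injective _ (IsFractionRing.injective R (FractionRing R))
  rw [Polynomial.map_add, Polynomial.map_mul, Polynomial.map_mul, Polynomial.map_mul,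
    Polynomial.map_mul, hc', hd', Polynomial.map_C, Polynomial.map_C, Polynomial.map_C,
    Algebra.smul_def, Algebra.smul_def, map_mul]
  have h3 : ∀ r : R, algebraMap R (Polynomial (FractionRing R)) r =
      Polynomial.C (algebraMap R (FractionRing R) r) := fun r => rfl
  rw [h3, h3, map_mul]
  linear_combination (Polynomial.C (algebraMap R (FractionRing R) c) *
    Polynomial.C (algebraMap R (FractionRing R) d)) * hab

/-- **Elimination.** -/
theorem elim {g Q : MvPolynomial (Fin l) M} (hg : Irreducible g) (j0 : Fin l)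
    (hg0 : ∀ c : MvPolynomial {i // i ≠ j0} M, g ≠ rename Subtype.val c) (hQ : ¬ g ∣ Q) :
    ∃ (α β : MvPolynomial (Fin l) M) (r : MvPolynomial {i // i ≠ j0} M), r ≠ 0 ∧
      α * g + β * Q = rename Subtype.val r := by
  classical
  let e : MvPolynomial (Fin l) M ≃ₐ[M] Polynomial (MvPolynomial {i // i ≠ j0} M) :=
    (renameEquiv M (Equiv.optionSubtypeNe j0).symm).trans (optionEquivLeft M {i // i ≠ j0})
  have he : ∀ c, e.symm (Polynomial.C c) = rename Subtype.val c := by
    intro c
    have h1 : (optionEquivLeft M {i // i ≠ j0}).symm (Polynomial.C c) = rename some c := by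
      change Polynomial.aevalTower (MvPolynomial.rename some) (X none) (Polynomial.C c) = _
      rw [Polynomial.aevalTower_C]
    change (renameEquiv M (Equiv.optionSubtypeNe j0).symm).symm
      ((optionEquivLeft M {i // i ≠ j0}).symm (Polynomial.C c)) = _
    rw [h1, renameEquiv_symm, Equiv.symm_symm, renameEquiv_apply, rename_rename]
    rfl
  have h1 : Irreducible (e g) := (MulEquiv.irreducible_iff e).2 hg
  have h2 : (e g).natDegree ≠ 0 := by
    intro h
    rw [Polynomial.natDegree_eq_zero] at h
    obtain ⟨c, hc⟩ := h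
    apply hg0 c
    rw [← he, hc, AlgEquiv.symm_apply_apply]
  have h3 : ¬ e g ∣ e Q := by
    rintro ⟨z, hz⟩
    apply hQ
    refine ⟨e.symm z, ?_⟩
    apply e.injective
    rw [map_mul, AlgEquiv.apply_symm_apply, hz]
  obtain ⟨α, β, r, hr, h4⟩ := elim_poly h1 h2 h3
  refine ⟨e.symm α, e.symm β, r, hr, ?_⟩
  rw [← he, ← h4, map_add, map_mul, map_mul, AlgEquiv.symm_apply_apply, AlgEquiv.symm_apply_apply]

end

end Pool.Agent.Y172
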