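import Pool.Agent.Y172.Gauss
import Pool.Agent.Y172.Elim
import Pool.Agent.TH122.AB.Der
import Pool.Agent.W619.PQ.Core

/-!
Places and the vector fields of a torus.
-/

set_option autoImplicit false

open FF Pool.Agent.W602.GT Pool.Agent.W603.LV Pool.Agent.TH122.AB

namespace Pool.Agent.Y172

section

variable {k K : Type} [Field k] [CharZero k] [Field K] [Algebra k K]

/-- a regular derivation which vanishes on an element with nonzero order is logarithmic -/
theorem log_of_kill {P : Place k K} {D : Derivation k K K} (hD : DerReg P D) {z : K} (hz : z ≠ 0)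
    (hDz : D z = 0) (ho : P.ord z ≠ 0) : DerLog P D := by
  intro f
  by_cases hf : f = 0
  · rw [hf, map_zero, zero_div]
    exact P.reg_zero
  obtain ⟨g, hg⟩ : ∃ g, g = f ^ (P.ord z) * z ^ (-P.ord f) := ⟨_, rfl⟩
  have h1 : f ^ (P.ord z) ≠ 0 := zpow_ne_zero _ hf
  have h2 : z ^ (-P.ord f) ≠ 0 := zpow_ne_zero _ hz
  have hg0 : g ≠ 0 := hg ▸ mul_ne_zero h1 h2
  have hgo : P.ord g = 0 := by
    rw [hg, P.ord_mul h1 h2, P.ord_zpow, P.ord_zpow]
    ring
  have h3 : D g / g = (P.ord z : K) * (D f / f) := by
    rw [hg, logd_mul D h1 h2, der_zpow D hf, der_zpow D hz, hDz]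
    field_simp
    ring
  have h4 := ge_logder_reg hD hg0 hgo
  rw [h3] at h4
  have h5 : Ge P 0 ((P.ord z : K)⁻¹) := by
    have := Ge.const (P := P) ((P.ord z : k)⁻¹)
    rwa [map_inv₀, map_intCast] at this
  have h6 := h5.mul h4
  have h7 : (P.ord z : K) ≠ 0 := by
    have hk : CharZero K := charZero_of_injective_algebraMap (algebraMap k K).injective
    exact_mod_cast ho
  rw [← mul_assoc, inv_mul_cancel₀ h7, one_mul, add_zero] at h6
  exact h6

omit [CharZero k] in
theorem DerLog.ge {P : Place k K} {D : Derivation k K K} (hD : DerLog P D) {N : ℤ} {f : K}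
    (hf : Ge P N f) : Ge P N (D f) := by
  by_cases h0 : f = 0
  · rw [h0, map_zero]
    exact Ge.zero
  have h2 : Ge P 0 (D f / f) := hD f
  have h1 := h2.mul hf
  rw [div_mul_cancel₀ _ h0, zero_add] at h1
  exact h1

omit [CharZero k] in
/-- **Eigenvectors.** -/
theorem vand {ι : Type} {l : ℕ} (W : Submodule k K) (H : Fin l → Derivation k K K)
    (hW : ∀ j, ∀ x ∈ W, H j x ∈ W) (s : Finset ι) (χ : ι → Fin l → k) :
    ∀ x : ι → K, (∀ a ∈ s, ∀ j, H j (x a) = algebraMap k K (χ a j) * x a) →
      (∀ a ∈ s, ∀ b ∈ s, (∀ j, χ a j = χ b j) → a = b) → ∑ a ∈ s, x a ∈ W → ∀ a ∈ s, x a ∈ W := by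
  classical
  induction s using Finset.induction_on with
  | empty => exact fun x _ _ _ a ha => absurd ha (Finset.notMem_empty a)
  | insert b s hb ih =>
    intro x hx hinj hsum
    have h1 : ∀ a ∈ s, x a ∈ W := by
      intro a ha
      have hab : ∃ j, χ a j ≠ χ b j := by
        by_contra hcon
        push Not at hcon
        have := hinj a (Finset.mem_insert_of_mem ha) b (Finset.mem_insert_self b s) hcon
        exact hb (this ▸ ha)
      obtain ⟨j, hj⟩ := hab
      have h2 := ih (fun a' => (χ a' j - χ b j) • x a') (by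
        intro a' ha' j'
        rw [(H j').map_smul, hx a' (Finset.mem_insert_of_mem ha') j', Algebra.smul_def,
          Algebra.smul_def]
        ring)
        (fun a' ha' b' hb' => hinj a' (Finset.mem_insert_of_mem ha') b'
          (Finset.mem_insert_of_mem hb')) (by
        have h3 := W.sub_mem (hW j _ hsum) (W.smul_mem (χ b j) hsum)
        convert h3 using 1
        rw [Finset.sum_insert hb, map_add, map_sum, hx b (Finset.mem_insert_self b s) j,
          smul_add, Algebra.smul_def (χ b j) (x b), Finset.smul_sum]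
        have h4 : ∀ a' ∈ s, (χ a' j - χ b j) • x a' = H j (x a') - χ b j • x a' := by
          intro a' ha'
          rw [hx a' (Finset.mem_insert_of_mem ha') j, sub_smul, Algebra.smul_def (χ a' j)]
        rw [Finset.sum_congr rfl h4, Finset.sum_sub_distrib]
        ring) a ha
      have h5 : x a = (χ a j - χ b j)⁻¹ • ((χ a j - χ b j) • x a) := by
        rw [smul_smul, inv_mul_cancel₀ (sub_ne_zero.2 hj), one_smul]
      rw [h5]
      exact W.smul_mem _ h2
    intro a ha
    rcases Finset.mem_insert.1 ha with rfl | ha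
    · have h2 : x a = ∑ a' ∈ insert a s, x a' - ∑ a' ∈ s, x a' := by
        rw [Finset.sum_insert hb]
        ring
      rw [h2]
      exact W.sub_mem hsum (W.sum_mem h1)
    · exact h1 a ha

variable {M : IntermediateField k K} {l : ℕ} {u : Fin l → K}

/-- a term of a polynomial -/
noncomputable def trm (u : Fin l → K) (g : MvPolynomial (Fin l) M) (a : Fin l →₀ ℕ) : K :=
  ((MvPolynomial.coeff a g : M) : K) * mono u (fun i => (a i : ℤ))

omit [CharZero k] in
theorem aeval_eq (u : Fin l → K) (g : MvPolynomial (Fin l) M) : MvPolynomial.aeval u g =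
    ∑ a ∈ g.support, trm u g a := by
  rw [MvPolynomial.aeval_def, MvPolynomial.eval₂_eq']
  refine Finset.sum_congr rfl fun a _ => ?_
  simp only [trm, mono, zpow_natCast]
  rfl

omit [CharZero k] in
theorem trm_ne (hu : ∀ j, u j ≠ 0) {g : MvPolynomial (Fin l) M} {a : Fin l →₀ ℕ}
    (ha : a ∈ g.support) : trm u g a ≠ 0 :=
  mul_ne_zero (fun h => MvPolynomial.mem_support_iff.1 ha (Subtype.ext h)) (mono_ne hu _)

omit [CharZero k] in
/-- the derivations of the torus on the terms -/
theorem der_trm (hu : ∀ j, u j ≠ 0) {H : Derivation k K K} (hHM : Kills H M) {j : Fin l}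
    (hHu : ∀ i, H (u i) = if j = i then u i else 0) (g : MvPolynomial (Fin l) M)
    (a : Fin l →₀ ℕ) : H (trm u g a) = (a j : K) * trm u g a := by
  rw [trm, H.leibniz, hHM _ (Subtype.coe_prop _), smul_zero, add_zero, logd_mono H hu,
    Finset.sum_eq_single j]
  · rw [hHu, if_pos rfl, div_self (hu j), smul_eq_mul]
    push_cast
    ring
  · intro i _ hi
    rw [hHu, if_neg (Ne.symm hi), zero_div, mul_zero]
  · intro h
    exact absurd (Finset.mem_univ j) h

omit [CharZero k] in
/-- the terms have at least the order of the polynomial if the derivations are logarithmic -/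
theorem ge_trm [CharZero k] (hu : ∀ j, u j ≠ 0) {H : Fin l → Derivation k K K}
    (hHM : ∀ j, Kills (H j) M) (hHu : ∀ i j, H i (u j) = if i = j then u j else 0)
    {P : Place k K} (hlog : ∀ j, DerLog P (H j)) (g : MvPolynomial (Fin l) M) {a : Fin l →₀ ℕ}
    (ha : a ∈ g.support) {N : ℤ} (hN : Ge P N (MvPolynomial.aeval u g)) : Ge P N (trm u g a) := by
  let W : Submodule k K :=
    { carrier := {f | Ge P N f}
      add_mem' := fun h h' => Ge.add h h'
      zero_mem' := Ge.zero
      smul_mem' := by
        intro c f hf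
        change Ge P N (c • f)
        rw [Algebra.smul_def]
        simpa using (Ge.const (P := P) c).mul hf }
  refine vand W H (fun j x hx => DerLog.ge (hlog j) hx) g.support (fun a j => (a j : k))
    (trm u g) (fun a _ j => ?_) (fun a _ b _ h => ?_) ?_ a ha
  · rw [der_trm hu (hHM j) (hHu j), map_natCast]
  · ext j
    exact_mod_cast h j
  · change Ge P N _
    rw [← aeval_eq]
    exact hN

/-- the place is the one of the polynomial `g` -/
def Adic (P : Place k K) (u : Fin l → K) (g : MvPolynomial (Fin l) M) : Prop :=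
  ∀ Q : MvPolynomial (Fin l) M, Q ≠ 0 → 0 ≤ P.ord (MvPolynomial.aeval u Q) ∧
    (P.ord (MvPolynomial.aeval u Q) = 0 ↔ ¬ g ∣ Q)

omit [CharZero k] in
theorem aeval_rename_val {j0 : Fin l} (c : MvPolynomial {i // i ≠ j0} M) :
    MvPolynomial.aeval u (MvPolynomial.rename Subtype.val c) =
      MvPolynomial.aeval (fun i : {i // i ≠ j0} => u i) c := by
  rw [MvPolynomial.aeval_rename]
  rfl

omit [CharZero k] in
theorem aeval_mem_acl {ι : Type} (v : ι → K) (c : MvPolynomial ι M) :
    MvPolynomial.aeval v c ∈ acl k ((M : Set K) ∪ Set.range v) := by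
  induction c using MvPolynomial.induction_on with
  | C m =>
    rw [MvPolynomial.aeval_C]
    exact subset_acl _ (Or.inl m.2)
  | add p q hp hq => rw [map_add]; exact add_mem hp hq
  | mul_X p i hp =>
    rw [map_mul, MvPolynomial.aeval_X]
    exact mul_mem hp (subset_acl _ (Or.inr ⟨i, rfl⟩))

omit [CharZero k] in
/-- **Identification of a place.** -/
theorem adic_of [CharZero k] {P : Place k K} (hM : ∀ m ∈ M, P.ord m = 0) (hu : ∀ j, u j ≠ 0)
    (huP : ∀ j, P.ord (u j) = 0) (hind : AlgebraicIndependent M u)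
    {H : Fin l → Derivation k K K} (hHM : ∀ j, Kills (H j) M)
    (hHu : ∀ i j, H i (u j) = if i = j then u j else 0) (hreg : ∀ j, DerReg P (H j))
    {g : MvPolynomial (Fin l) M} (hg : Irreducible g) (hgP : 0 < P.ord (MvPolynomial.aeval u g)) :
    Adic P u g := by
  classical
  have hne : ∀ Q : MvPolynomial (Fin l) M, Q ≠ 0 → MvPolynomial.aeval u Q ≠ 0 := fun Q hQ h =>
    hQ ((injective_iff_map_eq_zero _).1 hind Q h)
  have htrm : ∀ (Q : MvPolynomial (Fin l) M), ∀ a ∈ Q.support, P.ord (trm u Q a) = 0 := by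
    intro Q a ha
    have h1 : ((MvPolynomial.coeff a Q : M) : K) ≠ 0 := fun h =>
      MvPolynomial.mem_support_iff.1 ha (Subtype.ext h)
    rw [trm, P.ord_mul h1 (mono_ne hu _), hM _ (Subtype.coe_prop _), zero_add, mono,
      Pool.Agent.W619.PQ.ord_prod _ P _ fun i _ => zpow_ne_zero _ (hu i)]
    exact Finset.sum_eq_zero fun i _ => by rw [P.ord_zpow, huP, mul_zero]
  have hnn : ∀ Q : MvPolynomial (Fin l) M, Ge P 0 (MvPolynomial.aeval u Q) := by
    intro Q
    rw [aeval_eq]
    exact Ge.sum _ _ fun a ha => Or.inr (htrm Q a ha).ge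
  -- some derivation is not logarithmic
  obtain ⟨j0, hj0⟩ : ∃ j0, ¬ DerLog P (H j0) := by
    by_contra hcon
    push Not at hcon
    obtain ⟨a, ha⟩ := MvPolynomial.support_nonempty.2 hg.ne_zero
    have h1 := ge_trm hu hHM hHu hcon g ha (Or.inr le_rfl)
    rcases h1 with h1 | h1
    · exact trm_ne hu ha h1
    · rw [htrm g a ha] at h1
      omega
  have hR : ∀ c : MvPolynomial {i // i ≠ j0} M, c ≠ 0 →
      P.ord (MvPolynomial.aeval (fun i : {i // i ≠ j0} => u i) c) = 0 := by
    intro c hc
    by_contra hcon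
    apply hj0
    refine log_of_kill (hreg j0) (z := MvPolynomial.aeval (fun i : {i // i ≠ j0} => u i) c)
      ?_ ?_ hcon
    · rw [← aeval_rename_val]
      apply hne
      intro h
      exact hc ((MvPolynomial.rename_injective _ Subtype.val_injective)
        (h.trans (map_zero _).symm))
    · have h1 := aeval_mem_acl (fun i : {i // i ≠ j0} => u i) c
      have h2 : Kills (H j0) (acl k ((M : Set K) ∪ Set.range fun i : {i // i ≠ j0} => u i)) := by
        refine kills_acl ?_
        rintro y (hy | ⟨i, rfl⟩)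
        · exact hHM j0 y hy
        · rw [hHu, if_neg (Ne.symm i.2)]
      exact h2 _ h1
  have hg0 : ∀ c : MvPolynomial {i // i ≠ j0} M, g ≠ MvPolynomial.rename Subtype.val c := by
    intro c hc
    have hc0 : c ≠ 0 := by
      rintro rfl
      rw [map_zero] at hc
      exact hg.ne_zero hc
    have h1 := hR c hc0
    rw [← aeval_rename_val, ← hc] at h1
    omega
  intro Q hQ
  have hQn := (hnn Q).resolve_left (hne Q hQ)
  refine ⟨hQn, fun h0 hdvd => ?_, fun hdvd => ?_⟩
  · obtain ⟨R, rfl⟩ := hdvd
    have hR0 : R ≠ 0 := right_ne_zero_of_mul hQ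
    have h1 := (hnn R).resolve_left (hne R hR0)
    rw [map_mul, P.ord_mul (hne g hg.ne_zero) (hne R hR0)] at h0
    omega
  · by_contra hcon
    obtain ⟨α, β, r, hr, h1⟩ := elim hg j0 hg0 hdvd
    have h2 := congrArg (MvPolynomial.aeval u) h1
    rw [map_add, map_mul, map_mul, aeval_rename_val] at h2
    have h3 : Ge P 1 (MvPolynomial.aeval (fun i : {i // i ≠ j0} => u i) r) := by
      rw [← h2]
      refine Ge.add ?_ ?_
      · have := (hnn α).mul (Or.inr (by omega : (1 : ℤ) ≤ P.ord (MvPolynomial.aeval u g)))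
        simpa using this
      · have := (hnn β).mul (Or.inr (by omega : (1 : ℤ) ≤ P.ord (MvPolynomial.aeval u Q)))
        simpa using this
    rcases h3 with h3 | h3
    · rw [← aeval_rename_val] at h3
      refine hne _ ?_ h3
      intro h
      exact hr ((MvPolynomial.rename_injective _ Subtype.val_injective)
        (h.trans (map_zero _).symm))
    · rw [hR r hr] at h3
      omega

end

end Pool.Agent.Y172
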