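import Pool.Agent.W602.GT.Der
import Pool.Agent.W602.GT.Defs

/-!
Subfields which are algebraically closed, and the derivations which vanish on them.
-/

set_option autoImplicit false

open FF Pool.Agent.W602.GT

namespace Pool.Agent.Y172

section

variable {k K : Type} [Field k] [CharZero k] [Field K] [Algebra k K]

/-- `D` vanishes on `M` -/
def Kills (D : Derivation k K K) (M : IntermediateField k K) : Prop := ∀ x ∈ M, D x = 0

/-- `M` is algebraically closed in `K` -/
def Closed (M : IntermediateField k K) : Prop := ∀ x : K, IsAlgebraic M x → x ∈ M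

/-- a derivation which vanishes on `M` is linear over `M` -/
def liftD (D : Derivation k K K) (M : IntermediateField k K) (h : Kills D M) :
    Derivation M K K :=
  Derivation.mk'
    { toFun := fun x => D x
      map_add' := fun x y => map_add D x y
      map_smul' := fun c x => by
        have h1 : D (c : K) = 0 := h c c.2
        change D ((c : K) * x) = (c : K) * D x
        rw [D.leibniz, h1]; simp }
    (fun x y => D.leibniz x y)

omit [CharZero k] in
theorem liftD_apply (D : Derivation k K K) (M : IntermediateField k K) (h : Kills D M) (x : K) :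
    liftD D M h x = D x := rfl

instance instCharZeroIF (M : IntermediateField k K) : CharZero M :=
  charZero_of_injective_algebraMap (algebraMap k M).injective

theorem kills_alg {D : Derivation k K K} {M : IntermediateField k K} (h : Kills D M) {x : K}
    (hx : IsAlgebraic M x) : D x = 0 := by
  have hint := hx.isIntegral
  have h1 : liftD D M h (Polynomial.aeval x (minpoly M x)) = 0 := by
    rw [minpoly.aeval, map_zero]
  rw [Derivation.map_aeval] at h1
  have h2 : Polynomial.aeval x (Polynomial.derivative (minpoly M x)) ≠ 0 :=
    (minpoly.irreducible hint).separable.aeval_derivative_ne_zero (minpoly.aeval _ _)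
  rw [smul_eq_mul, liftD_apply] at h1
  exact (mul_eq_zero.mp h1).resolve_left h2

theorem ext_over {M : IntermediateField k K} {ι : Type} {t : ι → K}
    (ht : IsTranscendenceBasis M t) {D D' : Derivation k K K} (hD : Kills D M) (hD' : Kills D' M)
    (h : ∀ i, D (t i) = D' (t i)) : D = D' := by
  have h1 := der_ext t ht (D := liftD D M hD) (D' := liftD D' M hD') h
  ext x
  exact congrArg (fun E => E x) h1

theorem exists_der_over {M : IntermediateField k K} {ι : Type} {t : ι → K}
    (ht : IsTranscendenceBasis M t) (c : ι → K) :
    ∃ D : Derivation k K K, Kills D M ∧ ∀ i, D (t i) = c i := by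
  obtain ⟨D, hD⟩ := exists_der t ht c
  refine ⟨D.restrictScalars k, fun x hx => ?_, hD⟩
  exact D.map_algebraMap ⟨x, hx⟩

/-- an independent family is part of a transcendence basis -/
theorem exists_basis_ext {M : IntermediateField k K} {ι : Type} {t : ι → K}
    (ht : AlgebraicIndependent M t) : ∃ (κ : Type) (s : κ → K),
      IsTranscendenceBasis M (Sum.elim t s) := by
  obtain ⟨S, hS1, hS2⟩ := exists_isTranscendenceBasis_superset (s := Set.range t)
    ht.coe_range
  classical
  refine ⟨(S \ Set.range t : Set K), Subtype.val, ?_⟩
  have hinj : Function.Injective t := ht.injective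
  let f : ι ⊕ (S \ Set.range t : Set K) → S := Sum.elim (fun i => ⟨t i, hS1 ⟨i, rfl⟩⟩)
    fun s => ⟨s, s.2.1⟩
  have hf : Function.Bijective f := by
    constructor
    · rintro (i | s) (j | s') h
      · exact congrArg _ (hinj (congrArg Subtype.val h))
      · exact absurd ⟨i, congrArg Subtype.val h⟩ s'.2.2
      · exact absurd ⟨j, (congrArg Subtype.val h).symm⟩ s.2.2
      · have h' := congrArg Subtype.val h
        exact congrArg Sum.inr (Subtype.ext h')
    · rintro ⟨x, hx⟩
      by_cases h : x ∈ Set.range t
      · obtain ⟨i, rfl⟩ := h
        exact ⟨Sum.inl i, rfl⟩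
      · exact ⟨Sum.inr ⟨x, hx, h⟩, rfl⟩
  have h1 : IsTranscendenceBasis M ((Subtype.val : S → K) ∘ (Equiv.ofBijective f hf)) :=
    hS2.comp_equiv _
  convert h1 using 1
  funext x
  rcases x with i | s <;> rfl

/-- derivations with given values on an independent family -/
theorem exists_der_ind {M : IntermediateField k K} {ι : Type} {t : ι → K}
    (ht : AlgebraicIndependent M t) (c : ι → K) :
    ∃ D : Derivation k K K, Kills D M ∧ ∀ i, D (t i) = c i := by
  obtain ⟨κ, s, hs⟩ := exists_basis_ext ht
  obtain ⟨D, h1, h2⟩ := exists_der_over hs (Sum.elim c fun _ => 0)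
  exact ⟨D, h1, fun i => h2 (Sum.inl i)⟩

/-- an element which is not algebraic is moved by a derivation -/
theorem exists_der_ne {M : IntermediateField k K} (hM : Closed M) {x : K} (hx : x ∉ M) :
    ∃ D : Derivation k K K, Kills D M ∧ D x = 1 := by
  have h1 : AlgebraicIndependent M (fun _ : Unit => x) := by
    rw [algebraicIndependent_unique_type_iff]
    exact fun h => hx (hM x h)
  obtain ⟨D, h2, h3⟩ := exists_der_ind h1 fun _ => 1
  exact ⟨D, h2, h3 ()⟩

/-- an independent family is a transcendence basis if only the derivation zero vanishes on it -/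
theorem basis_of_kill {M : IntermediateField k K} {ι : Type} {t : ι → K}
    (ht : AlgebraicIndependent M t)
    (h : ∀ D : Derivation k K K, Kills D M → (∀ i, D (t i) = 0) → D = 0) :
    IsTranscendenceBasis M t := by
  obtain ⟨κ, s, hs⟩ := exists_basis_ext ht
  have hκ : IsEmpty κ := by
    by_contra hne
    rw [not_isEmpty_iff] at hne
    obtain ⟨D, h1, h2⟩ := exists_der_over hs (Sum.elim (fun _ => 0) fun _ => 1)
    have h3 := h D h1 fun i => h2 (Sum.inl i)
    have h4 := h2 (Sum.inr hne.some)
    rw [h3] at h4
    simp at h4
  have h1 := hs.comp_equiv (Equiv.sumEmpty ι κ).symm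
  exact h1

/-- the elements which are algebraic over the field generated by `S` -/
noncomputable def acl (k : Type) {K : Type} [Field k] [Field K] [Algebra k K] (S : Set K) :
    IntermediateField k K :=
  (algebraicClosure (IntermediateField.adjoin k S) K).restrictScalars k

omit [CharZero k] in
theorem mem_acl {S : Set K} {x : K} : x ∈ acl k S ↔ IsAlgebraic (IntermediateField.adjoin k S) x :=
  mem_algebraicClosure_iff

omit [CharZero k] in
theorem adjoin_le_acl (S : Set K) : IntermediateField.adjoin k S ≤ acl k S := fun x hx =>
  mem_acl.2 (isAlgebraic_algebraMap (⟨x, hx⟩ : IntermediateField.adjoin k S))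

omit [CharZero k] in
theorem subset_acl (S : Set K) : S ⊆ acl k S := fun _ hx =>
  adjoin_le_acl S (IntermediateField.subset_adjoin k S hx)

omit [CharZero k] in
/-- algebraic elements over a subfield of a closed field -/
theorem Closed.mem_of_le {M F : IntermediateField k K} (hM : Closed M) (h : F ≤ M) {x : K}
    (hx : IsAlgebraic F x) : x ∈ M := by
  apply hM
  let _ : Algebra F M := (IntermediateField.inclusion h).toRingHom.toAlgebra
  have : IsScalarTower F M K := IsScalarTower.of_algebraMap_eq fun _ => rfl
  exact hx.extendScalars (IntermediateField.inclusion h).toRingHom.injective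

omit [CharZero k] in
theorem acl_le {M : IntermediateField k K} (hM : Closed M) {S : Set K} (h : S ⊆ M) :
    acl k S ≤ M := fun _ hx =>
  hM.mem_of_le (IntermediateField.adjoin_le_iff.2 h) (mem_acl.1 hx)

omit [CharZero k] in
theorem acl_closed (S : Set K) : Closed (acl k S) := by
  intro x hx
  rw [mem_acl]
  let _ : Algebra (IntermediateField.adjoin k S) (acl k S) :=
    (IntermediateField.inclusion (adjoin_le_acl S)).toRingHom.toAlgebra
  have : IsScalarTower (IntermediateField.adjoin k S) (acl k S) K :=
    IsScalarTower.of_algebraMap_eq fun _ => rfl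
  have h1 : Algebra.IsAlgebraic (IntermediateField.adjoin k S) (acl k S) := by
    refine ⟨fun y => ?_⟩
    have h2 := mem_acl.1 y.2
    exact (isAlgebraic_algebraMap_iff (A := K) (algebraMap (acl k S) K).injective).1 h2
  exact hx.restrictScalars (IntermediateField.adjoin k S)

theorem kills_acl {D : Derivation k K K} {S : Set K} (h : ∀ s ∈ S, D s = 0) :
    Kills D (acl k S) := by
  have h1 : Kills D (IntermediateField.adjoin k S) := by
    have h2 : IntermediateField.adjoin k S ≤ consts D := by
      rw [IntermediateField.adjoin_le_iff]
      exact h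
    exact fun x hx => h2 hx
  exact fun x hx => kills_alg h1 (mem_acl.1 hx)

omit [CharZero k] in
theorem der_poly (D : Derivation k K K) (A : IntermediateField k K) (p : Polynomial A) (x : K) :
    D (Polynomial.aeval x p) = p.sum (fun i a => D (a : K) * x ^ i) +
      Polynomial.aeval x (Polynomial.derivative p) * D x := by
  induction p using Polynomial.induction_on' with
  | add p q hp hq =>
    rw [map_add, map_add, hp, hq, Polynomial.sum_add_index p q, Polynomial.derivative_add, map_add]
    · ring
    · intro i
      simp
    · intro i a b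
      have : D ((a + b : A) : K) = D (a : K) + D (b : K) := by
        rw [← map_add]
        rfl
      rw [this, add_mul]
  | monomial i a =>
    rw [Polynomial.aeval_monomial, Polynomial.sum_monomial_index, Polynomial.derivative_monomial,
      Polynomial.aeval_monomial, D.leibniz, D.leibniz_pow]
    · change (a : K) • (i • x ^ (i - 1) • D x) + x ^ i • D (a : K) = D (a : K) * x ^ i +
        (((a * (i : A) : A)) : K) * x ^ (i - 1) * D x
      simp only [smul_eq_mul, nsmul_eq_mul]
      push_cast
      ring
    · simp

theorem stab_acl {D : Derivation k K K} {S : Set K} (h : ∀ s ∈ S, D s ∈ acl k S) :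
    ∀ x ∈ acl k S, D x ∈ acl k S := by
  let B : IntermediateField k K :=
    { carrier := {x | x ∈ acl k S ∧ D x ∈ acl k S}
      mul_mem' := by
        rintro a b ⟨ha, ha'⟩ ⟨hb, hb'⟩
        refine ⟨mul_mem ha hb, ?_⟩
        rw [D.leibniz]
        exact add_mem (mul_mem ha hb') (mul_mem hb ha')
      add_mem' := by
        rintro a b ⟨ha, ha'⟩ ⟨hb, hb'⟩
        refine ⟨add_mem ha hb, ?_⟩
        rw [map_add]
        exact add_mem ha' hb'
      algebraMap_mem' := fun r => ⟨(acl k S).algebraMap_mem r, by
        rw [D.map_algebraMap]
        exact zero_mem _⟩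
      inv_mem' := by
        rintro a ⟨ha, ha'⟩
        refine ⟨inv_mem ha, ?_⟩
        rw [D.leibniz_inv]
        exact mul_mem (neg_mem (pow_mem (inv_mem ha) 2)) ha' }
  have hB : IntermediateField.adjoin k S ≤ B := by
    rw [IntermediateField.adjoin_le_iff]
    exact fun s hs => ⟨subset_acl S hs, h s hs⟩
  intro x hx
  have hx' := mem_acl.1 hx
  have hint := hx'.isIntegral
  have h1 := der_poly D (IntermediateField.adjoin k S) (minpoly _ x) x
  rw [minpoly.aeval, map_zero] at h1
  have h2 : Polynomial.aeval x (Polynomial.derivative
      (minpoly (IntermediateField.adjoin k S) x)) ≠ 0 :=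
    (minpoly.irreducible hint).separable.aeval_derivative_ne_zero (minpoly.aeval _ _)
  have h3 : ∀ p : Polynomial (IntermediateField.adjoin k S), Polynomial.aeval x p ∈ acl k S := by
    intro p
    rw [Polynomial.aeval_eq_sum_range]
    refine sum_mem fun i _ => ?_
    rw [Algebra.smul_def]
    exact mul_mem (adjoin_le_acl S (p.coeff i).2) (pow_mem hx i)
  have h4 : (minpoly (IntermediateField.adjoin k S) x).sum (fun i a => D (a : K) * x ^ i) ∈
      acl k S := by
    rw [Polynomial.sum_def]
    exact sum_mem fun i _ => mul_mem (hB (Subtype.coe_prop _)).2 (pow_mem hx i)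
  have h5 : D x = - (minpoly (IntermediateField.adjoin k S) x).sum (fun i a => D (a : K) * x ^ i) /
      Polynomial.aeval x (Polynomial.derivative (minpoly (IntermediateField.adjoin k S) x)) := by
    rw [eq_div_iff h2]
    linear_combination - h1
  rw [h5]
  exact div_mem (neg_mem h4) (h3 _)

end

end Pool.Agent.Y172
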