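import Pool.Agent.Y172.Fib

/-!
Sections along the fibres whose ratios generate the field of the Iitaka fibration.
-/

set_option autoImplicit false
set_option linter.unusedSectionVars false

open FF Pool.Agent.W602.GT Pool.Agent.W603.LV Pool.Agent.TH122.AB

namespace Pool.Agent.Y172

section

variable {k K : Type} [Field k] [CharZero k] [Field K] [Algebra k K]
variable {F M M1 : IntermediateField k K} {r e l l' ρ : ℕ} {t : Fin r → K} {J : Fin e → Fin r}
  {D : Fin e → Derivation k K K} {u : Fin l → K} {H : Fin l → Derivation k K K}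
  {B : MvPolynomial (Fin l) M → Prop} {x : Fin ρ → K} {u' : Fin l' → K}

theorem Fb.le (fb : Fb M M1 u B x u') : M ≤ M1 := by
  rw [fb.eq]
  exact fun y hy => subset_acl _ (Or.inl hy)

theorem Fb.TT_le (fb : Fb M M1 u B x u') : TT u B ⊆ M1 := by
  rw [fb.eq]
  exact fun y hy => subset_acl _ (Or.inr hy)

theorem Fb.closed (fb : Fb M M1 u B x u') : Closed M1 := by
  rw [fb.eq]
  exact acl_closed _

/-- a derivation vanishes if it vanishes on generators -/
theorem Fb.der_zero (fb : Fb M M1 u B x u') {E : Derivation k K K} (hE : Kills E M1)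
    (hEu : ∀ j, E (u' j) = 0) : E = 0 := by
  have h1 : IntermediateField.adjoin k ((M1 : Set K) ∪ Set.range u') ≤ consts E := by
    rw [IntermediateField.adjoin_le_iff]
    rintro y (hy | ⟨j, rfl⟩)
    · exact hE y hy
    · exact hEu j
  rw [fb.top] at h1
  ext y
  exact h1 (x := y) trivial

/-- **The transcendence basis which is adapted to the fibration.** -/
theorem full_basis {n : ℕ} (hn : Algebra.trdeg k K = n) (gs : Gs F M t J D u H)
    (fb : Fb M M1 u B x u') : ∃ (μ : ℕ) (c : Fin μ → K), (∀ b, ∃ i j, c b = D i (t j) / t j) ∧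
      IsTranscendenceBasis F (Sum.elim u' (Sum.elim x c)) := by
  classical
  obtain ⟨μ, c, hcΛ, hci, hck⟩ := pick hn F (Set.range fun p : Fin e × Fin r =>
    D p.1 (t p.2) / t p.2)
  have hcM : ∀ b, c b ∈ M := by
    intro b
    rw [gs.gen]
    exact subset_acl _ (Or.inr (hcΛ b))
  have h1 := tower gs.le hci hcM fb.xi
  have h2 := tower (gs.le.trans fb.le) h1 (by
    rintro (i | b)
    · exact fb.TT_le (fb.xT i)
    · exact fb.le (hcM b)) fb.ui
  refine ⟨μ, c, fun b => ?_, basis_of_kill h2 fun E hE hEy => ?_⟩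
  · obtain ⟨p, hp⟩ := hcΛ b
    exact ⟨p.1, p.2, hp.symm⟩
  have h3 : Kills E M := by
    have h4 := hck E hE fun b => hEy (Sum.inr (Sum.inr b))
    rw [gs.gen]
    refine kills_acl ?_
    rintro y (hy | hy)
    · exact hE y hy
    · exact h4 y hy
  exact fb.der_zero (fb.xk E h3 fun i => hEy (Sum.inr (Sum.inl i))) fun j => hEy (Sum.inl j)

theorem lmat_comb {w : ℕ} (x : Fin w → K) (A : Matrix (Fin w) (Fin w) K)
    (G : Fin w → Derivation k K K) :
    lmat x (fun i => ∑ j, A i j • G j) = A * lmat x G := by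
  ext i j
  rw [Matrix.mul_apply]
  simp only [lmat, Matrix.of_apply]
  rw [sum_smul_apply, Finset.sum_div]
  exact Finset.sum_congr rfl fun s _ => by rw [mul_div_assoc]

theorem pluri_lmat {w : ℕ} (x : Fin w → K) (m : ℕ) (y : K) :
    IsPluri (k := k) m (fun G : Fin w → Derivation k K K => (lmat x G).det ^ m * y) := by
  intro A G
  change (lmat x fun i => ∑ j, A i j • G j).det ^ m * y = A.det ^ m * ((lmat x G).det ^ m * y)
  rw [lmat_comb, Matrix.det_mul, mul_pow, mul_assoc]

theorem Gs.det_self (gs : Gs F M t J D u H) : (lmat (fun a => t (J a)) D).det = 1 := by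
  have h1 : lmat (fun a => t (J a)) D = 1 := by
    ext i j
    simp only [lmat, Matrix.of_apply]
    rw [gs.dual, Matrix.one_apply]
    split_ifs
    · exact div_self (gs.ht _)
    · exact zero_div _
  rw [h1, Matrix.det_one]

theorem Gs.det_update (gs : Gs F M t J D u H) (i : Fin e) (j : Fin r) :
    (lmat (fun a => t (Function.update J i j a)) D).det = D i (t j) / t j := by
  classical
  have h1 : lmat (fun a => t (Function.update J i j a)) D =
      (1 : Matrix (Fin e) (Fin e) K).updateCol i fun a => D a (t j) / t j := by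
    ext a b
    rw [Matrix.updateCol_apply]
    simp only [lmat, Matrix.of_apply]
    by_cases hb : b = i
    · rw [if_pos hb, hb, Function.update_self]
    · rw [if_neg hb, Function.update_of_ne hb, gs.dual, Matrix.one_apply]
      split_ifs
      · exact div_self (gs.ht _)
      · exact zero_div _
  rw [h1, ← Matrix.cramer_apply, Matrix.cramer_one]
  rfl

/-- powers of independent elements -/
theorem indep_pow {ι : Type} {y : ι → K} (hy : AlgebraicIndependent F y) {n : ι → ℕ}
    (hn : ∀ i, n i ≠ 0) : AlgebraicIndependent F fun i => y i ^ n i := by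
  have h1 := hy.polynomial_aeval_of_transcendental (f := fun i => (Polynomial.X : Polynomial F) ^ n i)
    fun i => (Polynomial.transcendental_X F).pow (Nat.pos_of_ne_zero (hn i))
  simpa using h1

/-- **Sections along the fibres.** -/
theorem lower (gs : Gs F M t J D u H) (fb : Fb M M1 u B x u')
    {X : Set (Place k K)} {δ : Place k K → ℝ}
    (hδ0 : ∀ P ∈ X, 0 ≤ δ P) (hBd : ∀ P ∈ X, Bd F t P → 1 ≤ δ P)
    (hB : ∀ g, B g → Irreducible g ∧ ∀ P ∈ X, Adic P u g → 0 < δ P)
    (hfin : ∀ f : K, f ≠ 0 → {P | P ∈ X ∧ P.ord f ≠ 0}.Finite)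
    {μ : ℕ} {c : Fin μ → K} (hc : ∀ b, ∃ i j, c b = D i (t j) / t j)
    (hxc : AlgebraicIndependent F (Sum.elim x c)) :
    ∃ m : ℕ, 0 < m ∧ ∃ θ : Fin (ρ + μ + 1) → (Fin e → Derivation k K K) → K,
      (∀ b, IsPluri m (θ b)) ∧
      (∀ b, ∀ P ∈ X, ∀ G : Fin e → Derivation k K K, (∀ i, Kills (G i) F) →
        (∀ i, DerReg P (G i)) → θ b G = 0 ∨ -(m * δ P) ≤ (P.ord (θ b G) : ℝ)) ∧
      θ 0 D ≠ 0 ∧ AlgebraicIndependent F (fun i : Fin (ρ + μ) => θ i.succ D / θ 0 D) := by
  classical
  choose g hg a ha hx using fb.xT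
  choose i j hij using hc
  have hgu : ∀ b, MvPolynomial.aeval u (g b) ≠ 0 := by
    intro b h
    have h1 := (injective_iff_map_eq_zero _).1 gs.ind (g b) h
    have h2 := ha b
    rw [h1] at h2
    simp at h2
  have hlow := fun b => gs.low hδ0 hBd (hB _ (hg b)).1 (hB _ (hg b)).2 (ha b)
    (hfin _ (div_ne_zero (trm_ne gs.u_ne (ha b)) (hgu b)))
  choose m0 hm0 using hlow
  obtain ⟨m, hm⟩ : ∃ m, m = 1 + ∑ b, m0 b := ⟨_, rfl⟩
  have hmb : ∀ b, m0 b ≤ m := fun b => by
    have := Finset.single_le_sum (f := m0) (fun _ _ => Nat.zero_le _) (Finset.mem_univ b)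
    omega
  -- powers of the forms
  have hpow : ∀ T : Fin e → Fin r, ∀ P ∈ X, ∀ G : Fin e → Derivation k K K,
      (∀ i, Kills (G i) F) → (∀ i, DerReg P (G i)) →
      (lmat (fun a => t (T a)) G).det ^ m = 0 ∨
        -(m * δ P) ≤ (P.ord ((lmat (fun a => t (T a)) G).det ^ m) : ℝ) := by
    intro T P hP G hG hGr
    have hδP := hδ0 P hP
    have hmδ : 0 ≤ m * δ P := by positivity
    by_cases hPB : Bd F t P
    · rcases (beta_ge' gs.ht hGr T).pow m with h | h
      · exact Or.inl h
      · right
        have hδ1 := hBd P hP hPB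
        have h1 : ((m * (-1 : ℤ) : ℤ) : ℝ) ≤
            (P.ord ((lmat (fun a => t (T a)) G).det ^ m) : ℝ) := by exact_mod_cast h
        push_cast at h1
        nlinarith
    · rcases (beta_ge gs.ht hPB hG hGr T).pow m with h | h
      · exact Or.inl h
      · right
        have h1 : ((m * (0 : ℤ) : ℤ) : ℝ) ≤
            (P.ord ((lmat (fun a => t (T a)) G).det ^ m) : ℝ) := by exact_mod_cast h
        push_cast at h1
        linarith
  let ψ : Fin ρ ⊕ Fin μ → (Fin e → Derivation k K K) → K := Sum.elim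
    (fun b G => (lmat (fun a => t (J a)) G).det ^ m * x b)
    fun b G => (lmat (fun a => t (Function.update J (i b) (j b) a)) G).det ^ m * 1
  let θ : Fin (ρ + μ + 1) → (Fin e → Derivation k K K) → K :=
    Fin.cons (fun G => (lmat (fun a => t (J a)) G).det ^ m * 1) fun s => ψ (finSumFinEquiv.symm s)
  have hθ0 : θ 0 = fun G => (lmat (fun a => t (J a)) G).det ^ m * 1 := rfl
  have hθs : ∀ s : Fin (ρ + μ), θ s.succ = ψ (finSumFinEquiv.symm s) := fun s => rfl
  refine ⟨m, by omega, θ, ?_, ?_, ?_, ?_⟩
  · intro b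
    refine Fin.cases ?_ (fun s => ?_) b
    · rw [hθ0]
      exact pluri_lmat _ m 1
    · rw [hθs]
      rcases finSumFinEquiv.symm s with b | b
      · exact pluri_lmat _ m _
      · exact pluri_lmat _ m _
  · intro b
    refine Fin.cases ?_ (fun s => ?_) b
    · rw [hθ0]
      intro P hP G hG hGr
      simp only [mul_one]
      exact hpow _ P hP G hG hGr
    · rw [hθs]
      rcases finSumFinEquiv.symm s with b | b
      · intro P hP G hG hGr
        change (lmat (fun a => t (J a)) G).det ^ m * x b = 0 ∨ -(m * δ P) ≤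
          (P.ord ((lmat (fun a => t (J a)) G).det ^ m * x b) : ℝ)
        rw [hx b]
        exact hm0 b m (hmb b) P hP G hG hGr J
      · intro P hP G hG hGr
        change (lmat (fun a => t (Function.update J (i b) (j b) a)) G).det ^ m * 1 = 0 ∨
          -(m * δ P) ≤ (P.ord
            ((lmat (fun a => t (Function.update J (i b) (j b) a)) G).det ^ m * 1) : ℝ)
        rw [mul_one]
        exact hpow _ P hP G hG hGr
  · rw [hθ0]
    simp only [gs.det_self, one_pow, mul_one]
    exact one_ne_zero
  · have h1 : (fun s : Fin (ρ + μ) => θ s.succ D / θ 0 D) =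
        (fun v : Fin ρ ⊕ Fin μ => Sum.elim x c v ^ (Sum.elim (fun _ => 1) (fun _ => m) v : ℕ)) ∘
          finSumFinEquiv.symm := by
      funext s
      have h2 : θ 0 D = 1 := by
        rw [hθ0]
        simp only [gs.det_self, one_pow, mul_one]
      rw [h2, div_one, hθs, Function.comp_apply]
      rcases finSumFinEquiv.symm s with b | b
      · change (lmat (fun a => t (J a)) D).det ^ m * x b = x b ^ 1
        rw [gs.det_self, one_pow, one_mul, pow_one]
      · change (lmat (fun a => t (Function.update J (i b) (j b) a)) D).det ^ m * 1 = c b ^ m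
        rw [gs.det_update, mul_one, hij b]
    rw [h1]
    refine (indep_pow hxc ?_).comp _ finSumFinEquiv.symm.injective
    rintro (b | b)
    · exact one_ne_zero
    · change m ≠ 0
      omega

end

end Pool.Agent.Y172
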