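import Pool.Agent.Y172.UpE
import Pool.Agent.TH585.SV.Fib9

/-!
Weak abundance for pairs with very affine fibres over a linear system with high multiplicities.
-/

set_option autoImplicit false
set_option linter.unusedSectionVars false

open FF Pool.Agent.W602.GT Pool.Agent.W603.LV Pool.Agent.TH122.AB Pool.Agent.TH585.SV

namespace Pool.Agent.Y172

section

variable {K : Type} [Field K] [Algebra ℂ K] {N : ℕ} {y : Fin (N + 1) → K} {n : ℕ}

/-- a form on derivations over `ℂ` as a form on derivations over a subfield -/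
theorem pluri_restrict {e m : ℕ} {θ : (Fin e → Derivation ℂ K K) → K} (hθ : IsPluri m θ)
    (F : IntermediateField ℂ K) :
    IsPluri m (fun G : Fin e → Derivation F K K => θ fun i => (G i).restrictScalars ℂ) := by
  intro A G
  have h1 : (fun i => (∑ j, A i j • G j).restrictScalars ℂ) =
      fun i => ∑ j, A i j • (G j).restrictScalars ℂ := by
    funext i
    ext f
    rw [sum_smul_apply]
    exact sum_smul_apply _ _ _ _
  change θ (fun i => (∑ j, A i j • G j).restrictScalars ℂ) = _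
  rw [h1]
  exact hθ A _

/-- the decomposition with one component -/
theorem dcp_one {n' q : ℕ} {V : Submodule ℂ K} (hV : Module.finrank ℂ V = n' + 1)
    {φ : Fin q → K} (hφ : Submodule.span ℂ (Set.range φ) = V) :
    Dcp n' V φ (fun _ => (0 : Fin 1)) := by
  classical
  have hfin : Module.Finite ℂ V := Module.finite_of_finrank_pos (by omega)
  let b := Module.finBasisOfFinrankEq ℂ V hV
  have hsp : Submodule.span ℂ (Set.range fun i => (b i : K)) = V := by
    have h1 : (Set.range fun i => (b i : K)) = V.subtype '' Set.range b := by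
      rw [← Set.range_comp]
      rfl
    rw [h1, ← Submodule.map_span, b.span_eq, Submodule.map_top, Submodule.range_subtype]
  refine ⟨fun i => (b i : K), fun _ => 0, b.linearIndependent.map' V.subtype
    (Submodule.ker_subtype V), hsp, fun z => ⟨0, (Subsingleton.elim _ _)⟩, fun i => ?_⟩
  have h2 : (fun i => (b i : K)) '' {a | (0 : Fin 1) = 0} = Set.range fun i => (b i : K) := by
    rw [← Set.image_univ]
    congr 1
    ext a
    simp
  rw [h2, hsp, ← hφ]
  exact Submodule.subset_span ⟨i, rfl⟩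

/-- irreducible configurations have no decomposition into two components -/
theorem not_dcp_two {n' q : ℕ} {V : Submodule ℂ K} {φ : Fin q → K}
    (hirr : ∀ V₁ V₂ : Submodule ℂ K, V₁ ⊔ V₂ = V → V₁ ⊓ V₂ = ⊥ → (∀ i, φ i ∈ V₁ ∨ φ i ∈ V₂) →
      V₁ = ⊥ ∨ V₂ = ⊥) (γ' : Fin q → Fin 2) : ¬ Dcp n' V φ γ' := by
  classical
  rintro ⟨x, g, hx, hxV, hg, hφ⟩
  have hdisj : Disjoint {a | g a = 0} {a | g a = (1 : Fin 2)} := by
    rw [Set.disjoint_left]
    intro a ha hb
    simp only [Set.mem_ofPred_eq] at ha hb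
    rw [ha] at hb
    exact absurd hb (by decide)
  have hun : {a | g a = 0} ∪ {a | g a = (1 : Fin 2)} = Set.univ := by
    ext a
    simp only [Set.mem_union, Set.mem_ofPred_eq, Set.mem_univ, iff_true]
    have : ∀ z : Fin 2, z = 0 ∨ z = 1 := by decide
    exact this _
  have h1 := hirr (Submodule.span ℂ (x '' {a | g a = 0})) (Submodule.span ℂ (x '' {a | g a = 1}))
    (by rw [← Submodule.span_union, ← Set.image_union, hun, Set.image_univ, hxV])
    (by
      rw [← disjoint_iff]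
      exact hx.disjoint_span_image hdisj)
    (fun i => by
      have h2 := hφ i
      have : ∀ z : Fin 2, z = 0 ∨ z = 1 := by decide
      rcases this (γ' i) with h | h
      · rw [h] at h2
        exact Or.inl h2
      · rw [h] at h2
        exact Or.inr h2)
  obtain ⟨a0, ha0⟩ := hg 0
  obtain ⟨a1, ha1⟩ := hg 1
  rcases h1 with h | h
  · have h2 : x a0 ∈ Submodule.span ℂ (x '' {a | g a = 0}) :=
      Submodule.subset_span ⟨a0, ha0, rfl⟩
    rw [h, Submodule.mem_bot] at h2
    exact hx.ne_zero a0 h2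
  · have h2 : x a1 ∈ Submodule.span ℂ (x '' {a | g a = 1}) :=
      Submodule.subset_span ⟨a1, ha1, rfl⟩
    rw [h, Submodule.mem_bot] at h2
    exact hx.ne_zero a1 h2

/-- the orders of the members of a linear system -/
theorem ge_span {q : ℕ} {V : Submodule ℂ K} {φ : Fin q → K}
    (hφ : Submodule.span ℂ (Set.range φ) = V) {P : Place ℂ K} {b : ℤ}
    (h : ∀ i, Ge P b (φ i)) {f : K} (hf : f ∈ V) : Ge P b f := by
  rw [← hφ] at hf
  induction hf using Submodule.span_induction with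
  | mem f hf =>
    obtain ⟨i, rfl⟩ := hf
    exact h i
  | zero => exact Ge.zero
  | add f g _ _ h1 h2 => exact h1.add h2
  | smul c f _ h1 =>
    rw [Algebra.smul_def]
    simpa using (Ge.const (P := P) c).mul h1

/-- **Weak abundance** for pairs with very affine fibres over a linear system with high
multiplicities. -/
theorem main {Δ : Place ℂ K → ℚ} {n' q d r : ℕ} {s : ℝ}
    (hy : NormalModel y) (hn : Algebra.trdeg ℂ K = n) (hΔ : Effective y Δ)
    (hLC : LogCanonical y n Δ)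
    {V : Submodule ℂ K} (hV : Module.finrank ℂ V = n' + 1)
    {φ : Fin q → K} (hφ0 : ∀ i, φ i ≠ 0) (hφ : Submodule.span ℂ (Set.range φ) = V)
    (hirr : ∀ V₁ V₂ : Submodule ℂ K, V₁ ⊔ V₂ = V → V₁ ⊓ V₂ = ⊥ → (∀ i, φ i ∈ V₁ ∨ φ i ∈ V₂) →
      V₁ = ⊥ ∨ V₂ = ⊥)
    (hd : Algebra.trdeg ℂ (rf V) = d) (hdn : d ≤ n')
    (hs : ((n' + 2 : ℕ) : ℝ) * (((n' - d : ℕ) + 1) * ((n' - d : ℕ) + 2)) < 2 * s)
    (h1 : ∀ P, IsPrimeDivisor y P → (∃ i i', P.ord (φ i) ≠ P.ord (φ i')) →
      ∃ i i', s * (1 - Δ P) ≤ ((P.ord (φ i) - P.ord (φ i') : ℤ) : ℝ))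
    {t : Fin r → K} (ht : ∀ j, t j ≠ 0)
    (hgen : IntermediateField.adjoin ℂ ({x : K | IsAlgebraic (rf V) x} ∪ Set.range t) = ⊤)
    (h2 : ∀ P, IsPrimeDivisor y P → (∀ f ∈ rf V, f ≠ 0 → P.ord f = 0) →
      (∃ j, P.ord (t j) ≠ 0) → 1 ≤ Δ P) :
    ∃ κ : ℕ, kodairaDim y n Δ = (κ : WithBot ℕ) ∧
      ∀ A, Effective y A → Integral y A → numericalDim y n Δ A = (κ : EReal) := by
  classical
  have hess := hy.ess
  obtain ⟨F, hF⟩ : ∃ F : IntermediateField ℂ K, F = rf V := ⟨_, rfl⟩
  rw [← hF] at hd hgen h2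
  -- the fibres
  have hgen' : IntermediateField.adjoin ℂ ((acl ℂ (F : Set K) : Set K) ∪ Set.range t) = ⊤ := by
    rw [← top_le_iff, ← hgen, IntermediateField.adjoin_le_iff]
    rintro x (hx | hx)
    · exact IntermediateField.subset_adjoin _ _ (Or.inl ((acl_closed (F : Set K)).mem_of_le
        (fun y hy => subset_acl _ hy) hx))
    · exact IntermediateField.subset_adjoin _ _ (Or.inr hx)
  obtain ⟨e, l, M, J, D, u, H, gs⟩ := exists_gs hn ht hgen'
  obtain ⟨B, hB⟩ : ∃ B : MvPolynomial (Fin l) M → Prop, ∀ g, B g ↔ (Irreducible g ∧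
      ∀ P, IsPrimeDivisor y P → Adic P u g → 0 < Δ P) := ⟨_, fun _ => Iff.rfl⟩
  obtain ⟨M1, l', ρ, x, u', fb⟩ := exists_fb hn gs B
  obtain ⟨μ, c, hc, hbas⟩ := full_basis hn gs fb
  -- the dimensions
  have hFe : Algebra.trdeg F K = e := by
    have h3 := gs.bas.cardinalMk_eq_trdeg
    rw [Cardinal.mk_fin] at h3
    exact h3.symm
  have hne : n = d + e := by
    have h3 := trdeg_add_eq ℂ F (A := K)
    rw [hd, hFe, hn] at h3
    exact_mod_cast h3.symm
  have hel : e = l' + (ρ + μ) := by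
    have h3 := hbas.cardinalMk_eq_trdeg
    rw [hFe, Cardinal.mk_sum, Cardinal.mk_sum, Cardinal.mk_fin, Cardinal.mk_fin, Cardinal.mk_fin,
      Cardinal.lift_natCast, Cardinal.lift_natCast, Cardinal.lift_natCast, ← Nat.cast_add,
      Cardinal.lift_natCast, ← Nat.cast_add] at h3
    exact_mod_cast h3.symm
  -- the upper bound
  obtain ⟨E, hE, hEM, hEu⟩ := exists_adapted hn gs.closed gs.ind gs.top
  have hup : ∀ A, Effective y A → ∃ C : ℕ, ∀ m : ℕ, 1 ≤ m → ∀ (r : ℕ) (f : Fin r → K),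
      LinearIndependent ℂ f → (∀ i, ∃ ω, IsSection y n m (m • Δ + A) ω ∧ ω E = f i) →
      r ≤ C * m ^ (d + (ρ + μ)) := by
    intro A hA
    refine upper hy hn hΔ hLC gs.ind gs.top fb (fun g hg hBg => ?_) hE hEM hEu (by omega) hA
    rw [hB] at hBg
    push Not at hBg
    obtain ⟨P, hP, hPg, hPΔ⟩ := hBg hg
    exact ⟨P, hP, hPg, hPΔ⟩
  -- the coefficients
  let X : Set (Place ℂ K) := {P | IsPrimeDivisor y P}
  have hX : ∀ P, P ∈ X ↔ IsPrimeDivisor y P := fun _ => Iff.rfl
  obtain ⟨mv, hmv⟩ : ∃ mv : Place ℂ K → Prop, ∀ P, mv P ↔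
      ∃ i i', P.ord (φ i) ≠ P.ord (φ i') := ⟨_, fun _ => Iff.rfl⟩
  have hmvF : ∀ P, mv P → ¬ ∀ f ∈ F, f ≠ 0 → P.ord f = 0 := by
    intro P hP hcon
    obtain ⟨i, i', hi⟩ := (hmv P).1 hP
    have hφV : ∀ i, φ i ∈ V := fun i => by
      rw [← hφ]
      exact Submodule.subset_span ⟨i, rfl⟩
    have h3 : φ i / φ i' ∈ F := by
      rw [hF]
      exact IntermediateField.subset_adjoin ℂ _ ⟨φ i, hφV i, φ i', hφV i', rfl⟩
    have h4 := hcon _ h3 (div_ne_zero (hφ0 i) (hφ0 i'))
    rw [P.ord_div (hφ0 i) (hφ0 i')] at h4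
    omega
  let δ₁ : Place ℂ K → ℝ := fun P => if mv P then (Δ P : ℝ) else 0
  let δ₂ : Place ℂ K → ℝ := fun P => if mv P then 0 else (Δ P : ℝ)
  have hΔ0 : ∀ P ∈ X, (0 : ℝ) ≤ Δ P := fun P hP => by exact_mod_cast hΔ.1 P hP
  have hδ₁ : ∀ P ∈ X, 0 ≤ δ₁ P := by
    intro P hP
    change 0 ≤ if mv P then (Δ P : ℝ) else 0
    split_ifs
    · exact hΔ0 P hP
    · exact le_rfl
  have hδ₂ : ∀ P ∈ X, 0 ≤ δ₂ P := by
    intro P hP
    change 0 ≤ if mv P then (0 : ℝ) else Δ P
    split_ifs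
    · exact le_rfl
    · exact hΔ0 P hP
  have hδ : ∀ P ∈ X, δ₁ P + δ₂ P ≤ Δ P := by
    intro P _
    change (if mv P then (Δ P : ℝ) else 0) + (if mv P then 0 else (Δ P : ℝ)) ≤ Δ P
    split_ifs <;> simp
  have hδ₂' : ∀ P, (∀ f ∈ F, f ≠ 0 → P.ord f = 0) → δ₂ P = Δ P := fun P hP =>
    if_neg fun h => hmvF P h hP
  -- the lower bound
  obtain ⟨m, hm, θ, hθ1, hθ2, hθ3, hθ4⟩ := lower gs fb (X := X) (δ := δ₂) hδ₂
    (by
      rintro P hP ⟨hPF, hPt⟩
      rw [hδ₂' P hPF]
      exact_mod_cast h2 P hP hPF hPt)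
    (by
      intro g hg
      rw [hB] at hg
      refine ⟨hg.1, fun P hP hPg => ?_⟩
      rw [hδ₂' P fun f hf hf0 => hPg.triv f (gs.le hf) hf0]
      exact_mod_cast hg.2 P hP hPg)
    (fun f hf => finite_ord hy hf) hc (by
      have h3 := hbas.1.comp (Sum.inr : Fin ρ ⊕ Fin μ → Fin l' ⊕ (Fin ρ ⊕ Fin μ))
        Sum.inr_injective
      exact h3)
  -- the sections
  obtain ⟨m0, hm0, ω, hω, E', hE'0, hE'⟩ : ∃ m0 : ℕ, 0 < m0 ∧
      ∃ ω : Fin (d + (ρ + μ) + 1) → (Fin n → Derivation ℂ K K) → K,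
      (∀ j, IsSection y n m0 (m0 • Δ) (ω j)) ∧ ∃ E' : Fin n → Derivation ℂ K K, ω 0 E' ≠ 0 ∧
        AlgebraicIndependent ℂ (fun i : Fin (d + (ρ + μ)) => ω i.succ E' / ω 0 E') := by
    rcases Nat.eq_zero_or_pos d with hd0 | hd1
    · -- the base is a point
      subst hd0
      obtain rfl : n = e := by omega
      have hFbot : ∀ f ∈ F, ∃ z : ℂ, f = algebraMap ℂ K z := by
        intro f hf
        have h3 : IsAlgebraic ℂ (⟨f, hf⟩ : F) := by
          have h4 : Algebra.trdeg ℂ F = 0 := by exact_mod_cast hd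
          have h5 := trdeg_eq_zero_iff.1 h4
          exact h5.isAlgebraic _
        obtain ⟨z, hz⟩ := const_of_algebraic h3
        exact ⟨z, congrArg Subtype.val hz⟩
      have hkF : ∀ E : Derivation ℂ K K, Kills E F := by
        intro E f hf
        obtain ⟨z, rfl⟩ := hFbot f hf
        exact E.map_algebraMap z
      have htr : ∀ P : Place ℂ K, ∀ f ∈ F, f ≠ 0 → P.ord f = 0 := by
        intro P f hf hf0
        obtain ⟨z, rfl⟩ := hFbot f hf
        exact P.ord_const fun h => hf0 (by rw [h, map_zero])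
      have hz : 0 + (ρ + μ) = ρ + μ := by omega
      refine ⟨m, hm, fun j => θ (Fin.cast (by omega) j), fun j => ⟨hθ1 _, fun P hP G hG => ?_⟩,
        D, hθ3, ?_⟩
      · rcases hθ2 (Fin.cast (by omega) j) P hP G (fun i => hkF _) hG with h3 | h3
        · exact Or.inl h3
        · right
          rw [hδ₂' P (htr P)] at h3
          have e1 : (m • Δ) P = m * Δ P := by rw [Pi.smul_apply, nsmul_eq_mul]
          rw [e1]
          have h4 : ((-(m * Δ P) : ℚ) : ℝ) ≤
              ((P.ord (θ (Fin.cast (by omega) j) G) : ℚ) : ℝ) := by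
            push_cast
            exact h3
          exact_mod_cast h4
      · have h3 : AlgebraicIndependent ℂ (fun i : Fin (ρ + μ) => θ i.succ D / θ 0 D) :=
          hθ4.restrictScalars (R := ℂ) (algebraMap ℂ F).injective
        exact h3.comp (Fin.cast hz) (Fin.cast_injective hz)
    · -- linear systems
      subst hne
      have hGD : ∀ i, ((liftD (D i) F (gs.dk i)).restrictScalars ℂ) = D i := by
        intro i
        ext f
        rfl
      obtain ⟨-, h3⟩ := lin_fib (c := 1) (n := n') (k := n' - d) (lam := ρ + μ) hd1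
        (by omega : d + (n' - d) = n') hn (V := V)
        (by rw [← hF]; exact hd) hφ0 hφ (γ := fun _ => 0) (dcp_one hV hφ)
        (fun γ' => not_dcp_two hirr γ') (R := n' + 2) (Or.inl (by omega)) X δ₁ δ₂
        (fun P => (Δ P : ℝ)) hδ₁ hδ (s := s) hs.le
        (by
          intro P hP _ a ha1 ha2 ha3
          obtain ⟨i0, hi0⟩ := ha3
          have hφV : ∀ i, φ i ∈ V := fun i => by
            rw [← hφ]
            exact Submodule.subset_span ⟨i, rfl⟩
          have h4 : ∃ i i', P.ord (φ i) ≠ P.ord (φ i') := by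
            by_contra hcon
            push Not at hcon
            obtain ⟨f, hf, hf0, hfa⟩ := ha2
            have h5 := (ge_span hφ (P := P) (b := P.ord (φ i0))
              (fun i => Or.inr (hcon i i0).ge) hf).resolve_left hf0
            have h6 := (ha1 (φ i0) (hφV i0)).resolve_left (hφ0 i0)
            omega
          obtain ⟨i, i', h5⟩ := h1 P hP h4
          refine ⟨i, i', rfl, ?_⟩
          have h6 : δ₁ P = Δ P := if_pos ((hmv P).2 h4)
          rw [h6]
          exact h5)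
        hm (θ := fun b G => θ b fun i => (G i).restrictScalars ℂ)
        (by
          intro b
          refine ⟨pluri_restrict (hθ1 b) _, fun P hP _ G hG => ?_⟩
          exact hθ2 b P hP _ (fun i f hf => by
            have : (G i) f = 0 := (G i).map_algebraMap (⟨f, by rw [← hF]; exact hf⟩ : rf V)
            exact this) (fun i f hf => hG i f hf))
        (by
          subst hF
          refine ⟨fun i => liftD (D i) (rf V) (gs.dk i), ?_, ?_⟩
          · simp only [hGD]
            exact hθ3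
          · simp only [hGD]
            exact hθ4)
      obtain ⟨m0, hm0, ω, hω, E', h4, h5⟩ := h3 d rfl hs
      refine ⟨m0, hm0, ω, fun j => ⟨(hω j).1, fun P hP G hG => ?_⟩, E', h4, h5⟩
      rcases (hω j).2 P hP (hP.divisorial hy hn) G hG with h6 | h6
      · exact Or.inl h6
      · right
        have e1 : (m0 • Δ) P = m0 * Δ P := by rw [Pi.smul_apply, nsmul_eq_mul]
        rw [e1]
        have h7 : ((-(m0 * Δ P) : ℚ) : ℝ) ≤ ((P.ord (ω j G) : ℚ) : ℝ) := by
          push_cast
          exact h6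
        exact_mod_cast h7
  exact ⟨d + (ρ + μ), dims hΔ hE hup hm0 hω hE'0 hE'⟩

end

end Pool.Agent.Y172
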