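import Pool.Agent.Y172.Grow
import Pool.Agent.W619.Y.Parts
import Pool.Agent.W513.PG.SYM

/-!
Places in finite extensions, and the descent of functions with algebraically independent ratios.
-/

set_option autoImplicit false
set_option linter.overlappingInstances false
set_option linter.unusedSectionVars false

open FF Pool.Agent.W603.LV Pool.Agent.W619.PQ Pool.Agent.W619.Y

namespace Pool.Agent.Y172

section

variable {k K L : Type} [Field k] [CharZero k] [Field K] [Field L] [Algebra k K] [Algebra k L]
  [Algebra K L] [IsScalarTower k K L]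

theorem place_ext {P P' : Place k K} (h : ∀ f, P.ord f = P'.ord f) : P = P' := by
  have h1 : P.ord = P'.ord := funext h
  cases P
  cases P'
  simp only at h1
  subst h1
  rfl

/-- there is a place over a given place -/
theorem exists_above [FiniteDimensional K L] (P : Place k K) :
    ∃ (Q : Place k L) (e : ℕ), Over Q P e := by
  obtain ⟨S, T, -, hT, hsum⟩ := exists_places_over (K' := L) P
  have hpos : 0 < Module.finrank K L := Module.finrank_pos
  have hne : S.Nonempty := by
    rw [Finset.nonempty_iff_ne_empty]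
    rintro rfl
    simp at hsum
    omega
  obtain ⟨Q, hQ⟩ := hne
  obtain ⟨e, h, -⟩ := hT Q hQ
  exact ⟨Q, e, h⟩

/-- there is a place below a given place -/
theorem exists_below [Algebra.IsAlgebraic K L] (Q : Place k L) :
    ∃ (P : Place k K) (e : ℕ), Over Q P e := by
  obtain ⟨e, P, h⟩ := Pool.Agent.W73.PG.PULL.exists_over' (K := K) Q
  exact ⟨P, e, h⟩

theorem over_unique' {Q : Place k L} {P P' : Place k K} {e e' : ℕ} (h : Over Q P e)
    (h' : Over Q P' e') : P = P' ∧ e = e' := by
  have h1 : ∀ f, (e : ℤ) * P.ord f = e' * P'.ord f := fun f => by rw [← h.2, ← h'.2]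
  obtain ⟨f, -, hf⟩ := P.surj
  obtain ⟨f', -, hf'⟩ := P'.surj
  have h2 := h1 f
  have h3 := h1 f'
  rw [hf, mul_one] at h2
  rw [hf', mul_one] at h3
  have h4 : (e' : ℤ) ∣ e := ⟨_, h2⟩
  have h5 : (e : ℤ) ∣ e' := ⟨_, h3.symm⟩
  have h6 : e = e' := Nat.dvd_antisymm (by exact_mod_cast h5) (by exact_mod_cast h4)
  subst h6
  refine ⟨place_ext fun f => ?_, rfl⟩
  have he : (e : ℤ) ≠ 0 := by
    have := h.1
    positivity
  exact mul_left_cancel₀ he (h1 f)

theorem over_ge {Q : Place k L} {P : Place k K} {e : ℕ} (h : Over Q P e) {c : ℤ} {f : K} :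
    Ge Q (e * c) (algebraMap K L f) ↔ Ge P c f := by
  have he : (0 : ℤ) < e := by exact_mod_cast h.1
  unfold Ge
  rw [h.2, map_eq_zero, mul_le_mul_iff_right₀ he]

end

section

variable {k K L Ω : Type} [Field k] [CharZero k] [Field K] [Field L] [Field Ω] [Algebra k K]
  [Algebra k L] [Algebra k Ω] [Algebra K L] [Algebra K Ω] [IsScalarTower k K L]
  [IsScalarTower k K Ω] [FiniteDimensional K L] [FiniteDimensional K Ω]

/-- the restriction of a place along an embedding -/
theorem below_emb (σ : L →ₐ[K] Ω) {P : Place k K} {Q' : Place k Ω} {e' : ℕ} (h : Over Q' P e') :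
    ∃ (Q : Place k L) (e e1 : ℕ), Over Q P e ∧ 0 < e1 ∧ e' = e1 * e ∧
      ∀ x, Q'.ord (σ x) = e1 * Q.ord x := by
  let iA : Algebra L Ω := σ.toRingHom.toAlgebra
  have h1 : IsScalarTower K L Ω := IsScalarTower.of_algebraMap_eq fun x => (σ.commutes x).symm
  have h2 : IsScalarTower k L Ω := IsScalarTower.of_algebraMap_eq fun c => by
    rw [IsScalarTower.algebraMap_apply k K Ω, IsScalarTower.algebraMap_apply k K L,
      ← IsScalarTower.algebraMap_apply K L Ω]
  have h3 : FiniteDimensional L Ω := FiniteDimensional.right K L Ω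
  have h4 : Algebra.IsAlgebraic L Ω := inferInstance
  have h5 : Algebra.IsAlgebraic K L := inferInstance
  obtain ⟨Q, e1, hQ⟩ := exists_below (k := k) (K := L) (L := Ω) Q'
  obtain ⟨P0, e, hP0⟩ := exists_below (k := k) (K := K) (L := L) Q
  have h6 : Over Q' P0 (e1 * e) := by
    refine ⟨Nat.mul_pos hQ.1 hP0.1, fun f => ?_⟩
    rw [IsScalarTower.algebraMap_apply K L Ω, hQ.2, hP0.2]
    push_cast
    ring
  obtain ⟨h7, h8⟩ := over_unique' h h6
  subst h7
  exact ⟨Q, e, e1, hP0, hQ.1, h8, hQ.2⟩

theorem ge_esy {ι : Type} [Fintype ι] {Q : Place k L} {c : ℤ} {f : ι → L} (h : ∀ i, Ge Q c (f i))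
    (r : ℕ) : Ge Q (r * c) (esy f r) := by
  classical
  unfold esy
  refine Ge.sum _ _ fun T hT => ?_
  have hT' : T.card = r := (Finset.mem_powersetCard.1 hT).2
  have h1 : ∀ S : Finset ι, Ge Q (S.card * c) (∏ i ∈ S, f i) := by
    intro S
    induction S using Finset.induction_on with
    | empty =>
      right
      rw [Finset.prod_empty, Finset.card_empty, Q.ord_one]
      simp
    | insert a S ha ih =>
      rw [Finset.prod_insert ha, Finset.card_insert_of_notMem ha]
      have := (h a).mul ih
      refine this.mono (le_of_eq ?_)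
      push_cast
      ring
  rw [← hT']
  exact h1 T

theorem esy_equiv {ι : Type} [Fintype ι] (s : ι ≃ ι) (f : ι → L) (r : ℕ) :
    esy (fun i => f (s i)) r = esy f r := by
  classical
  unfold esy
  refine Finset.sum_bij (fun T _ => T.map s.toEmbedding) ?_ ?_ ?_ ?_
  · intro T hT
    rw [Finset.mem_powersetCard] at hT ⊢
    exact ⟨Finset.subset_univ _, by rw [Finset.card_map, hT.2]⟩
  · intro T _ T' _ h
    exact Finset.map_injective _ h
  · intro T hT
    rw [Finset.mem_powersetCard] at hT
    refine ⟨T.map s.symm.toEmbedding, ?_, ?_⟩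
    · rw [Finset.mem_powersetCard]
      exact ⟨Finset.subset_univ _, by rw [Finset.card_map, hT.2]⟩
    · ext x
      simp
  · intro T _
    rw [Finset.prod_map]
    rfl

end

section

variable {k K L : Type} [Field k] [CharZero k] [Field K] [Field L] [Algebra k K] [Algebra k L]
  [Algebra K L] [IsScalarTower k K L] [FiniteDimensional K L]

/-- **Descent of functions with algebraically independent ratios.** -/
theorem desc {h : ℕ} {f : Fin (h + 1) → L} (hf : ∀ l, f l ≠ 0)
    (hind : AlgebraicIndependent k (fun l : Fin h => f l.succ / f 0)) :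
    ∃ (R : ℕ) (s : Fin (h + 1) → K), 1 ≤ R ∧ (∀ j, s j ≠ 0) ∧
      AlgebraicIndependent k (fun j : Fin h => s j.succ / s 0) ∧
      ∀ (P : Place k K) (c : ℤ),
        (∀ (Q : Place k L) (e : ℕ), Over Q P e → ∀ l, Ge Q (e * c) (f l)) →
          ∀ j, Ge P (R * c) (s j) := by
  classical
  have hcK : CharZero K := charZero_of_injective_algebraMap (algebraMap k K).injective
  let Ω := IntermediateField.normalClosure K L (AlgebraicClosure L)
  let ik : Algebra k Ω := ((algebraMap K Ω).comp (algebraMap k K)).toAlgebra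
  have htow : IsScalarTower k K Ω := IsScalarTower.of_algebraMap_eq fun _ => rfl
  have hfin : FiniteDimensional K Ω := inferInstance
  have hnorm : Normal K Ω := inferInstance
  have hgal : IsGalois K Ω := IsGalois.mk
  obtain ⟨i0⟩ : Nonempty (L →ₐ[K] Ω) := ⟨IsScalarTower.toAlgHom K L Ω⟩
  have hι : Fintype (L →ₐ[K] Ω) := Fintype.ofFinite _
  obtain ⟨R, t, r, q, hR, hrq, hne, hai⟩ := Pool.Agent.W513.PG.main k Ω (L →ₐ[K] Ω) i0 h
    (fun σ l => σ (f l)) (fun l => by
      rw [Ne, map_eq_zero]
      exact hf l) (by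
      have h1 : AlgebraicIndependent k (fun l : Fin h => (i0.restrictScalars k)
          (f l.succ / f 0)) := hind.map' (f := i0.restrictScalars k) i0.injective
      convert h1 using 1
      funext l
      rw [AlgHom.restrictScalars_apply, map_div₀])
  -- the elements are invariant
  have hfix : ∀ l r, ∃ z : K, algebraMap K Ω z = esy (fun σ : L →ₐ[K] Ω => σ (f l)) r := by
    intro l r
    refine (IsGalois.mem_range_algebraMap_iff_fixed _).2 fun g => ?_
    have h1 : g (esy (fun σ : L →ₐ[K] Ω => σ (f l)) r) =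
        esy (fun σ : L →ₐ[K] Ω => g (σ (f l))) r := by
      unfold esy
      rw [map_sum]
      exact Finset.sum_congr rfl fun T _ => map_prod _ _ _
    let s : (L →ₐ[K] Ω) ≃ (L →ₐ[K] Ω) :=
      { toFun := fun σ => (g : Ω →ₐ[K] Ω).comp σ
        invFun := fun σ => (g.symm : Ω →ₐ[K] Ω).comp σ
        left_inv := fun σ => by
          ext x
          simp
        right_inv := fun σ => by
          ext x
          simp }
    rw [h1]
    exact esy_equiv (L := Ω) s (fun σ => σ (f l)) r
  choose z hz using hfix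
  refine ⟨R, fun j => z (t j) (r j) ^ q j, hR, fun j => ?_, ?_, fun P c hc j => ?_⟩
  · refine pow_ne_zero _ fun h0 => hne j ?_
    have h1 := hz (t j) (r j)
    rw [h0, map_zero] at h1
    exact h1.symm
  · have h1 : AlgebraicIndependent k (fun j : Fin h => (IsScalarTower.toAlgHom k K Ω)
        (z (t j.succ) (r j.succ) ^ q j.succ / z (t 0) (r 0) ^ q 0)) := by
      convert hai using 1
      funext j
      change algebraMap K Ω _ = _
      rw [map_div₀, map_pow, map_pow, hz, hz]
    exact AlgebraicIndependent.of_comp (IsScalarTower.toAlgHom k K Ω) h1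
  · obtain ⟨Q', e', hQ'⟩ := exists_above (k := k) (L := Ω) P
    rw [← over_ge hQ', map_pow, hz]
    have h1 : ∀ σ : L →ₐ[K] Ω, Ge Q' (e' * c) (σ (f (t j))) := by
      intro σ
      obtain ⟨Q, e, e1, hQ, he1, hee, hord⟩ := below_emb σ hQ'
      rcases hc Q e hQ (t j) with h2 | h2
      · left
        rw [h2, map_zero]
      · right
        rw [hord, hee]
        push_cast
        have : (0 : ℤ) ≤ e1 := Int.natCast_nonneg _
        calc (e1 : ℤ) * e * c = e1 * (e * c) := by ring
          _ ≤ e1 * Q.ord (f (t j)) := mul_le_mul_of_nonneg_left h2 this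
    have h2 := (ge_esy (L := Ω) h1 (r j)).pow (q j)
    refine h2.mono (le_of_eq ?_)
    rw [← hrq j]
    push_cast
    ring

end

end Pool.Agent.Y172
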