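import Pool.Agent.Y172.UpD

/-!
The upper bound for the number of the sections.
-/

set_option autoImplicit false
set_option linter.unusedSectionVars false

open FF Pool.Agent.W602.GT Pool.Agent.W603.LV Pool.Agent.TH122.AB

namespace Pool.Agent.Y172

section

variable {k K : Type} [Field k] [CharZero k] [Field K] [Algebra k K]
variable {M M1 : IntermediateField k K} {l l' ρ : ℕ} {u : Fin l → K}
  {B : MvPolynomial (Fin l) M → Prop} {x : Fin ρ → K} {u' : Fin l' → K}

/-- the places at the ends of the torus fibres -/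
theorem place_eps {n κ : ℕ} (hu : AlgebraicIndependent M1 u')
    (htop : IntermediateField.adjoin k ((M1 : Set K) ∪ Set.range u') = ⊤)
    {z : Fin κ → K} (hzM : ∀ i, z i ∈ M1)
    (hext : ∀ (l : ℕ) (v : Fin l → K), AlgebraicIndependent M1 v →
      AlgebraicIndependent k (Sum.elim v z)) (hn : n = κ + l') (j : Fin l') {ε : ℤ}
    (hε : ε * ε = 1) :
    ∃ Q : Place k K, (∀ m ∈ M1, m ≠ 0 → Q.ord m = 0) ∧
      (∀ a : Fin l' → ℤ, Q.ord (mono u' a) = -(ε * a j)) ∧ Divisorial n Q ∧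
      ∀ D : Derivation k K K, (∀ x ∈ M1, D x ∈ M1) → (∀ i, ∃ γ ∈ M1, D (u' i) = γ * u' i) →
        DerLog Q D := by
  classical
  have hu0 : ∀ i, u' i ≠ 0 := fun i => hu.ne_zero i
  obtain ⟨e, he⟩ : ∃ e : Fin l' → ℤ, e = fun i => if i = j then ε else 1 := ⟨_, rfl⟩
  have hee : ∀ i, e i * e i = 1 := by
    intro i
    rw [he]
    change (if i = j then ε else 1) * (if i = j then ε else 1) = 1
    split_ifs
    · exact hε
    · norm_num
  have hej : e j = ε := by
    rw [he]
    simp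
  obtain ⟨v, hv⟩ : ∃ v : Fin l' → K, ∀ i, v i = u' i ^ e i := ⟨_, fun _ => rfl⟩
  have hv0 : ∀ i, v i ≠ 0 := fun i => by
    rw [hv]
    exact zpow_ne_zero _ (hu0 i)
  have huv : ∀ i, u' i = v i ^ e i := fun i => by rw [hv, ← zpow_mul, hee, zpow_one]
  have hmono : ∀ a : Fin l' → ℤ, mono v a = mono u' fun i => e i * a i := by
    intro a
    exact Finset.prod_congr rfl fun i _ => by rw [hv, ← zpow_mul]
  have hDv : ∀ D : Derivation k K K, (∀ i, ∃ γ ∈ M1, D (u' i) = γ * u' i) →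
      ∀ i, ∃ γ ∈ M1, D (v i) = γ * v i := by
    intro D hD i
    obtain ⟨γ, hγ, h1⟩ := hD i
    refine ⟨(e i : K) * γ, mul_mem (by
      have := M1.algebraMap_mem ((e i : ℤ) : k)
      rwa [map_intCast] at this) hγ, ?_⟩
    rw [hv, der_zpow D (hu0 i), h1, mul_div_cancel_right₀ _ (hu0 i)]
    ring
  choose H hHM hHu using fun i : Fin l' => exists_der_ind hu fun j => if i = j then u' j else 0
  have hHev : ∀ b i, ∃ γ ∈ M1, H b (u' i) = γ * u' i := by
    intro b i
    by_cases h : b = i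
    · exact ⟨1, one_mem _, by rw [hHu, if_pos h, one_mul]⟩
    · exact ⟨0, zero_mem _, by rw [hHu, if_neg h, zero_mul]⟩
  have hvi : AlgebraicIndependent M1 v := by
    refine mult_indep hv0 fun a ha => ?_
    obtain ⟨b, hb⟩ : ∃ b, a b ≠ 0 := by
      by_contra hcon
      push Not at hcon
      exact ha (funext hcon)
    refine ⟨H b, hHM b, hDv (H b) (hHev b), ?_⟩
    rw [hmono, logd_mono (H b) hu0, Finset.sum_eq_single b]
    · rw [hHu, if_pos rfl, div_self (hu0 b), mul_one]
      refine mul_ne_zero ?_ (mono_ne hu0 _)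
      have hk : CharZero K := charZero_of_injective_algebraMap (algebraMap k K).injective
      have h1 : e b * a b ≠ 0 := mul_ne_zero (fun h => by
        have := hee b
        rw [h] at this
        norm_num at this) hb
      exact_mod_cast h1
    · intro i _ hi
      rw [hHu, if_neg (Ne.symm hi), zero_div, mul_zero]
    · intro h
      exact absurd (Finset.mem_univ b) h
  have hvtop : IntermediateField.adjoin k ((M1 : Set K) ∪ Set.range v) = ⊤ := by
    rw [← top_le_iff, ← htop, IntermediateField.adjoin_le_iff]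
    rintro y (hy | ⟨i, rfl⟩)
    · exact IntermediateField.subset_adjoin _ _ (Or.inl hy)
    · rw [huv]
      have h1 : v i ∈ IntermediateField.adjoin k ((M1 : Set K) ∪ Set.range v) :=
        IntermediateField.subset_adjoin _ _ (Or.inr ⟨i, rfl⟩)
      exact zpow_mem h1 _
  have hG := gens_of_top hvi hvtop
  obtain ⟨Q, hQ⟩ := deg_place hG j
  have hQv : ∀ i, Q.ord (v i) = -(if j = i then 1 else 0) := by
    intro i
    have h1 := hQ (MvPolynomial.X i) (MvPolynomial.X_ne_zero i)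
    rw [MvPolynomial.aeval_X, MvPolynomial.degreeOf_X] at h1
    rw [h1]
    push_cast
    rfl
  refine ⟨dropP M1 Q, fun m hm hm0 => ?_, fun a => ?_, deg_div hG hQ hzM (hext _ v hvi) hn,
    fun D hD hDu => deg_log hG hQ hD (hDv D hDu)⟩
  · exact Q.ord_const (c := ⟨m, hm⟩) fun h => hm0 (congrArg Subtype.val h)
  · change Q.ord (∏ i, u' i ^ a i) = _
    rw [Pool.Agent.W619.PQ.ord_prod _ Q _ fun i _ => zpow_ne_zero _ (hu0 i),
      Finset.sum_eq_single j]
    · rw [huv, ← zpow_mul, Q.ord_zpow, hQv, if_pos rfl, hej]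
      ring
    · intro i _ hi
      rw [huv, ← zpow_mul, Q.ord_zpow, hQv, if_neg (Ne.symm hi)]
      ring
    · intro h
      exact absurd (Finset.mem_univ j) h

/-- the exponents of a Laurent polynomial -/
theorem lau_terms (hu : AlgebraicIndependent M1 u') {c : (Fin l' → ℤ) →₀ M1} {f : K}
    (hf : f = c.sum fun a m => (m : K) * mono u' a) {Q : Place k K} {j : Fin l'} {ε : ℤ}
    (hQM : ∀ m ∈ M1, m ≠ 0 → Q.ord m = 0)
    (hQu : ∀ a : Fin l' → ℤ, Q.ord (mono u' a) = -(ε * a j))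
    (hQD : ∀ D : Derivation k K K, (∀ x ∈ M1, D x ∈ M1) →
      (∀ i, ∃ γ ∈ M1, D (u' i) = γ * u' i) → DerLog Q D) {N : ℤ} (hN : Ge Q (-N) f)
    {a : Fin l' → ℤ} (ha : a ∈ c.support) : ε * a j ≤ N := by
  classical
  have hu0 : ∀ i, u' i ≠ 0 := fun i => hu.ne_zero i
  choose H hHM hHu using fun i : Fin l' => exists_der_ind hu fun j => if i = j then u' j else 0
  have hlog : ∀ i, DerLog Q (H i) := by
    intro i
    refine hQD (H i) (fun y hy => ?_) fun b => ?_
    · rw [hHM i y hy]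
      exact zero_mem _
    · by_cases h : i = b
      · exact ⟨1, one_mem _, by rw [hHu, if_pos h, one_mul]⟩
      · exact ⟨0, zero_mem _, by rw [hHu, if_neg h, zero_mul]⟩
  let W : Submodule k K :=
    { carrier := {f | Ge Q (-N) f}
      add_mem' := fun h h' => Ge.add h h'
      zero_mem' := Ge.zero
      smul_mem' := by
        intro c f hf
        change Ge Q (-N) (c • f)
        rw [Algebra.smul_def]
        simpa using (Ge.const (P := Q) c).mul hf }
  have h1 := vand W H (fun i x hx => DerLog.ge (hlog i) hx) c.support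
    (fun a i => ((a i : ℤ) : k)) (fun a => (c a : K) * mono u' a) (fun a _ i => by
      rw [(H i).leibniz, hHM i _ (Subtype.coe_prop _), smul_zero, add_zero, logd_mono (H i) hu0,
        Finset.sum_eq_single i]
      · rw [hHu, if_pos rfl, div_self (hu0 i), smul_eq_mul, map_intCast]
        ring
      · intro b _ hb
        rw [hHu, if_neg (Ne.symm hb), zero_div, mul_zero]
      · intro h
        exact absurd (Finset.mem_univ i) h) (fun a _ b _ h => by
      funext i
      exact_mod_cast h i) (by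
      change Ge Q (-N) _
      rw [Finsupp.sum] at hf
      rw [← hf]
      exact hN) a ha
  have h2 : Ge Q (-N) ((c a : K) * mono u' a) := h1
  have hca : (c a : K) ≠ 0 := fun h => Finsupp.mem_support_iff.1 ha (Subtype.ext h)
  have h3 := h2.resolve_left (mul_ne_zero hca (mono_ne hu0 a))
  rw [Q.ord_mul hca (mono_ne hu0 a), hQM _ (Subtype.coe_prop _) hca, hQu] at h3
  omega

/-- Laurent polynomials with bounded exponents as polynomials in a box -/
theorem box_sum (hu0 : ∀ i, u' i ≠ 0) {c : (Fin l' → ℤ) →₀ M1} {f : K}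
    (hf : f = c.sum fun a m => (m : K) * mono u' a) {N : ℕ}
    (hN : ∀ a ∈ c.support, ∀ j, -(N : ℤ) ≤ a j ∧ a j ≤ N) :
    ∃ b : (Fin l' → Fin (2 * N + 1)) → M1, f * mono u' (fun _ => (N : ℤ)) =
      ∑ a, (b a : K) * ∏ j, u' j ^ (a j : ℕ) := by
  classical
  refine ⟨fun a => c fun j => (a j : ℤ) - N, ?_⟩
  rw [hf, Finsupp.sum, Finset.sum_mul]
  refine Finset.sum_of_injOn
    (fun a j => ⟨(a j + N).toNat % (2 * N + 1), Nat.mod_lt _ (by omega)⟩) ?_ ?_ ?_ ?_
  · intro a ha a' ha' h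
    funext j
    have h1 := congrArg Fin.val (congrFun h j)
    simp only at h1
    obtain ⟨h2, h3⟩ := hN a ha j
    obtain ⟨h4, h5⟩ := hN a' ha' j
    rw [Nat.mod_eq_of_lt (by omega), Nat.mod_eq_of_lt (by omega)] at h1
    omega
  · intro a _
    exact Finset.mem_coe.2 (Finset.mem_univ _)
  · intro a _ ha
    by_cases hca : c (fun j => ((a j : ℕ) : ℤ) - N) = 0
    · change ((c (fun j => ((a j : ℕ) : ℤ) - N) : M1) : K) * _ = 0
      rw [hca]
      change (0 : K) * _ = 0
      rw [zero_mul]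
    · exfalso
      apply ha
      refine ⟨fun j => ((a j : ℕ) : ℤ) - N, Finsupp.mem_support_iff.2 hca, ?_⟩
      funext j
      apply Fin.ext
      change (((a j : ℕ) : ℤ) - N + N).toNat % (2 * N + 1) = (a j : ℕ)
      have h1 : (((a j : ℕ) : ℤ) - N + N).toNat = (a j : ℕ) := by omega
      rw [h1, Nat.mod_eq_of_lt (a j).2]
  · intro a ha
    have h1 : ∀ j, (((a j + N).toNat % (2 * N + 1) : ℕ) : ℤ) = a j + N := by
      intro j
      obtain ⟨h2, h3⟩ := hN a ha j
      rw [Nat.mod_eq_of_lt (by omega)]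
      omega
    have h2 : (fun j => (((a j + N).toNat % (2 * N + 1) : ℕ) : ℤ) - N) = a := by
      funext j
      rw [h1]
      ring
    have h3 : ∏ j, u' j ^ ((a j + N).toNat % (2 * N + 1)) = mono u' (a + fun _ => (N : ℤ)) := by
      refine Finset.prod_congr rfl fun j _ => ?_
      rw [← zpow_natCast, h1]
      rfl
    change (c a : K) * mono u' a * mono u' (fun _ => (N : ℤ)) =
      ((c fun j => (((a j + N).toNat % (2 * N + 1) : ℕ) : ℤ) - N : M1) : K) *
        ∏ j, u' j ^ ((a j + N).toNat % (2 * N + 1))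
    rw [h2, h3, mono_add hu0]
    ring

end

section

variable {K : Type} [Field K] [Algebra ℂ K] {N : ℕ} {y : Fin (N + 1) → K} {n : ℕ}
variable {M M1 : IntermediateField ℂ K} {l l' ρ : ℕ} {u : Fin l → K}
  {B : MvPolynomial (Fin l) M → Prop} {x : Fin ρ → K} {u' : Fin l' → K}

/-- **The upper bound for the number of the sections.** -/
theorem upper (hy : NormalModel y) (hn : Algebra.trdeg ℂ K = n) {Δ : Place ℂ K → ℚ}
    (hΔ : Effective y Δ) (hLC : LogCanonical y n Δ) (hu : AlgebraicIndependent M u)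
    (htop : IntermediateField.adjoin ℂ ((M : Set K) ∪ Set.range u) = ⊤)
    (fb : Fb M M1 u B x u')
    (hB : ∀ g, Irreducible g → ¬ B g → ∃ P, IsPrimeDivisor y P ∧ Adic P u g ∧ Δ P ≤ 0)
    {D : Fin n → Derivation ℂ K K} (hD : IsFrame D) (hDM : ∀ i, ∀ x ∈ M, D i x ∈ M)
    (hDu : ∀ i j, ∃ γ ∈ M, D i (u j) = γ * u j) {κ : ℕ} (hκ : n = κ + l')
    {A : Place ℂ K → ℚ} (hA : Effective y A) :
    ∃ C : ℕ, ∀ m : ℕ, 1 ≤ m → ∀ (r : ℕ) (f : Fin r → K), LinearIndependent ℂ f →
      (∀ i, ∃ ω, IsSection y n m (m • Δ + A) ω ∧ ω D = f i) → r ≤ C * m ^ κ := by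
  classical
  have hess := hy.ess
  have hG := gens_of_top hu htop
  have hu0 : ∀ j, u j ≠ 0 := fun j => hu.ne_zero j
  have hu'0 : ∀ j, u' j ≠ 0 := fb.u'_ne
  -- the coordinates
  obtain ⟨κ', z, hzM, hz, hMz, hext⟩ := exists_coord hn fb.closed
  have hb := full_coord hMz (hext l' u' fb.ui) fb.top
  have hnκ := card_coord hn hb
  have hκκ : κ' = κ := by omega
  subst hκκ
  let e : Fin n ≃ Fin l' ⊕ Fin κ' :=
    (finCongr (by omega : n = l' + κ')).trans finSumFinEquiv.symm
  have hZ : IsTranscendenceBasis ℂ (fun i => Sum.elim u' z (e i)) := hb.comp_equiv e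
  -- the derivations preserve `M1`
  have hdm : ∀ i (a : Fin l → ℤ), ∃ γ ∈ M, D i (mono u a) = γ * mono u a := by
    intro i a
    choose γ hγM hγ using hDu i
    refine ⟨∑ j, (a j : K) * γ j, sum_mem fun j _ => mul_mem (by
      have := M.algebraMap_mem ((a j : ℤ) : ℂ)
      rwa [map_intCast] at this) (hγM j), ?_⟩
    rw [logd_mono (D i) hu0]
    congr 1
    exact Finset.sum_congr rfl fun j _ => by rw [hγ, mul_div_cancel_right₀ _ (hu0 j)]
  have htrm : ∀ i (g : MvPolynomial (Fin l) M) (a : Fin l →₀ ℕ), a ∈ g.support →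
      ∃ γ ∈ M, D i (trm u g a) = γ * trm u g a := by
    intro i g a ha
    obtain ⟨γ, hγ, h1⟩ := hdm i fun j => (a j : ℤ)
    have hc : ((MvPolynomial.coeff a g : M) : K) ≠ 0 := fun h =>
      MvPolynomial.mem_support_iff.1 ha (Subtype.ext h)
    refine ⟨D i ((MvPolynomial.coeff a g : M) : K) / ((MvPolynomial.coeff a g : M) : K) + γ,
      add_mem (div_mem (hDM i _ (Subtype.coe_prop _)) (Subtype.coe_prop _)) hγ, ?_⟩
    rw [trm, (D i).leibniz, h1]
    simp only [smul_eq_mul]
    field_simp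
    ring
  have hDM1 : ∀ i, ∀ y ∈ M1, D i y ∈ M1 := by
    intro i
    rw [fb.eq]
    refine stab_acl ?_
    rintro w (hw | ⟨g, hg, a, ha, rfl⟩)
    · exact subset_acl _ (Or.inl (hDM i w hw))
    · obtain ⟨γ, hγ, h1⟩ := htrm i g a ha
      have hg0 : g ≠ 0 := by
        rintro rfl
        simp at ha
      have hgu := hG.ne hg0
      choose! γ' hγ' h2 using htrm i g
      have h3 : D i (MvPolynomial.aeval u g) = ∑ b ∈ g.support, γ' b * trm u g b := by
        rw [aeval_eq, map_sum]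
        exact Finset.sum_congr rfl fun b hb => h2 b hb
      have h4 : D i (trm u g a / MvPolynomial.aeval u g) =
          γ * (trm u g a / MvPolynomial.aeval u g) - (trm u g a / MvPolynomial.aeval u g) *
            ∑ b ∈ g.support, γ' b * (trm u g b / MvPolynomial.aeval u g) := by
        rw [Derivation.leibniz_div, h1, h3]
        have h5 : ∑ b ∈ g.support, γ' b * (trm u g b / MvPolynomial.aeval u g) =
            (∑ b ∈ g.support, γ' b * trm u g b) / MvPolynomial.aeval u g := by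
          rw [Finset.sum_div]
          exact Finset.sum_congr rfl fun b _ => by rw [mul_div_assoc]
        rw [h5]
        simp only [smul_eq_mul]
        field_simp
      rw [h4]
      have hT : ∀ b ∈ g.support, trm u g b / MvPolynomial.aeval u g ∈
          acl ℂ ((M : Set K) ∪ TT u B) := fun b hb => subset_acl _ (Or.inr ⟨g, hg, b, hb, rfl⟩)
      have hMm : ∀ w ∈ M, w ∈ acl ℂ ((M : Set K) ∪ TT u B) := fun w hw =>
        subset_acl _ (Or.inl hw)
      exact sub_mem (mul_mem (hMm _ hγ) (hT a ha)) (mul_mem (hT a ha)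
        (sum_mem fun b hb => mul_mem (hMm _ (hγ' b hb)) (hT b hb)))
  have hDu' : ∀ i j, ∃ γ ∈ M1, D i (u' j) = γ * u' j := by
    intro i j
    obtain ⟨b, hb⟩ := fb.ub j
    obtain ⟨γ, hγ, h1⟩ := hdm i b
    exact ⟨γ, fb.le hγ, by rw [hb, h1]⟩
  -- the places at the ends of the fibres
  have hplace := fun (j : Fin l') (ε : ℤ) (hε : ε * ε = 1) =>
    place_eps fb.ui fb.top hzM hext hκ j hε
  have hbd : ∀ (j : Fin l') (ε : ℤ), ε * ε = 1 → ∃ Q : Place ℂ K,
      (∀ m ∈ M1, m ≠ 0 → Q.ord m = 0) ∧ (∀ a : Fin l' → ℤ, Q.ord (mono u' a) = -(ε * a j)) ∧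
      (∀ D : Derivation ℂ K K, (∀ x ∈ M1, D x ∈ M1) → (∀ i, ∃ γ ∈ M1, D (u' i) = γ * u' i) →
        DerLog Q D) ∧ ∃ b : ℕ, ∀ m : ℕ, 1 ≤ m → ∀ ω, IsSection y n m (m • Δ + A) ω →
          Ge Q (-(b : ℤ)) (ω D) := by
    intro j ε hε
    obtain ⟨Q, h1, h2, h3, h4⟩ := hplace j ε hε
    exact ⟨Q, h1, h2, h4, lc_bound hy hn hLC hA h3 hD fun i => h4 (D i) (hDM1 i) (hDu' i)⟩
  choose Qp hQp1 hQp2 hQp3 bp hbp using fun j => hbd j 1 (by norm_num)
  choose Qm hQm1 hQm2 hQm3 bm hbm using fun j => hbd j (-1) (by norm_num)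
  -- the denominator
  let SA := hA.2.toFinset
  let gP : Place ℂ K → MvPolynomial (Fin l) M := fun P =>
    if h : ∃ g : MvPolynomial (Fin l) M, Irreducible g ∧ Adic P u g then h.choose else 1
  have hgP0 : ∀ P, gP P ≠ 0 := by
    intro P
    by_cases h : ∃ g : MvPolynomial (Fin l) M, Irreducible g ∧ Adic P u g
    · have h1 : gP P = h.choose := dif_pos h
      rw [h1]
      exact h.choose_spec.1.ne_zero
    · have h1 : gP P = 1 := dif_neg h
      rw [h1]
      exact one_ne_zero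
  obtain ⟨p0, hp0⟩ : ∃ p0, p0 = ∏ P ∈ SA, gP P ^ ⌈A P⌉₊ := ⟨_, rfl⟩
  have hp00 : p0 ≠ 0 := by
    rw [hp0]
    exact Finset.prod_ne_zero_iff.2 fun P _ => pow_ne_zero _ (hgP0 P)
  have hp0u := hG.ne hp00
  have hp0A : ∀ P, IsPrimeDivisor y P → (∃ g : MvPolynomial (Fin l) M, Irreducible g ∧
      Adic P u g) → A P ≤ (P.ord (MvPolynomial.aeval u p0) : ℚ) := by
    intro P hP hg
    obtain ⟨g, hg1, hg2⟩ := hg
    by_cases hAP : A P = 0
    · rw [hAP]
      exact_mod_cast (hg2 p0 hp00).1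
    have hPS : P ∈ SA := by
      rw [Set.Finite.mem_toFinset]
      exact ⟨hP, hAP⟩
    have h1 : gP P ^ ⌈A P⌉₊ ∣ p0 := by
      rw [hp0]
      exact Finset.dvd_prod_of_mem _ hPS
    obtain ⟨q, hq⟩ := h1
    have hq0 : q ≠ 0 := by
      rintro rfl
      rw [mul_zero] at hq
      exact hp00 hq
    have hex : ∃ g : MvPolynomial (Fin l) M, Irreducible g ∧ Adic P u g := ⟨g, hg1, hg2⟩
    have h2 : gP P = hex.choose := dif_pos hex
    have h3 := hex.choose_spec
    rw [← h2] at h3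
    have h4 : 0 < P.ord (MvPolynomial.aeval u (gP P)) := by
      have h5 := h3.2 (gP P) (hgP0 P)
      rcases lt_or_eq_of_le h5.1 with h6 | h6
      · exact h6
      · exact absurd dvd_rfl (h5.2.1 h6.symm)
    have h5 := (hg2 q hq0).1
    have h6 : (⌈A P⌉₊ : ℤ) ≤ P.ord (MvPolynomial.aeval u p0) := by
      rw [hq, map_mul, map_pow, P.ord_mul (pow_ne_zero _ (hG.ne (hgP0 P))) (hG.ne hq0),
        P.ord_pow]
      have : (⌈A P⌉₊ : ℤ) * 1 ≤ ⌈A P⌉₊ * P.ord (MvPolynomial.aeval u (gP P)) :=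
        mul_le_mul_of_nonneg_left (by omega) (Int.natCast_nonneg _)
      omega
    have h7 : A P ≤ (⌈A P⌉₊ : ℚ) := Nat.le_ceil _
    exact h7.trans (by exact_mod_cast h6)
  -- the bound for the exponents
  obtain ⟨b, hbdef⟩ : ∃ b : ℕ, b = ∑ j, (bp j + (Qp j |>.ord (MvPolynomial.aeval u p0)).natAbs) +
      ∑ j, (bm j + (Qm j |>.ord (MvPolynomial.aeval u p0)).natAbs) := ⟨_, rfl⟩
  have hbp' : ∀ j, bp j + (Qp j |>.ord (MvPolynomial.aeval u p0)).natAbs ≤ b := by
    intro j
    have := Finset.single_le_sum (f := fun j => bp j +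
      (Qp j |>.ord (MvPolynomial.aeval u p0)).natAbs) (fun _ _ => Nat.zero_le _)
      (Finset.mem_univ j)
    omega
  have hbm' : ∀ j, bm j + (Qm j |>.ord (MvPolynomial.aeval u p0)).natAbs ≤ b := by
    intro j
    have := Finset.single_le_sum (f := fun j => bm j +
      (Qm j |>.ord (MvPolynomial.aeval u p0)).natAbs) (fun _ _ => Nat.zero_le _)
      (Finset.mem_univ j)
    omega
  have hshift : ∀ (Q : Place ℂ K) (b' : ℕ) (f : K), b' + (Q.ord (MvPolynomial.aeval u p0)).natAbs ≤ b →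
      Ge Q (-(b' : ℤ)) f → Ge Q (-(b : ℤ)) (f * MvPolynomial.aeval u p0) := by
    intro Q b' f h1 h2
    have h3 := h2.mul (ge_ord Q (MvPolynomial.aeval u p0))
    exact h3.mono (by omega)
  -- the growth
  obtain ⟨S, hS⟩ := sec_fin hy hΔ hA D
  obtain ⟨C, hC⟩ := growth_rel (a := κ') (l := l') hZ (fd_basis hZ) S
    (fun m => {f | ∃ ω, IsSection y n m (m • Δ + A) ω ∧ ω D = f})
    (by
      intro P
      obtain ⟨C, hC⟩ := sec_all hy hΔ hA D P
      refine ⟨C, ?_⟩
      rintro m hm _ ⟨ω, hω, rfl⟩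
      exact hC m hm ω hω)
    (by
      rintro P hP m hm _ ⟨ω, hω, rfl⟩
      exact hS P hP m hm ω hω)
    fb.ui (p := MvPolynomial.aeval u p0 * mono u' (fun _ => (b : ℤ)))
    (mul_ne_zero hp0u (mono_ne hu'0 _)) hnκ (2 * b + 1)
    (by
      rintro m hm _ ⟨ω, hω, rfl⟩
      by_cases hf0 : ω D = 0
      · refine ⟨fun _ => 0, ?_⟩
        rw [hf0, zero_mul]
        refine (Finset.sum_eq_zero fun a _ => ?_).symm
        change (0 : K) * _ = 0
        rw [zero_mul]
      have hF0 : ω D * MvPolynomial.aeval u p0 ≠ 0 := mul_ne_zero hf0 hp0u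
      obtain ⟨A', C', hC'0, hC'B, hC'⟩ := denom hG hF0 (B := B) fun g hg hBg => by
        obtain ⟨P, hP, hPg, hPΔ⟩ := hB g hg hBg
        refine ⟨P, hPg, ?_⟩
        have h1 := (hω.2 P hP D fun i => hPg.derReg hG hg (hDM i) (hDu i)).resolve_left hf0
        have h2 := hp0A P hP ⟨g, hg, hPg⟩
        have h3 := hΔ.1 P hP
        rw [P.reg_iff hF0, P.ord_mul hf0 hp0u]
        have e1 : (m • Δ + A) P = m * Δ P + A P := by
          rw [Pi.add_apply, Pi.smul_apply, nsmul_eq_mul]
        rw [e1] at h1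
        have h4 : Δ P = 0 := le_antisymm hPΔ h3
        rw [h4] at h1
        have h5 : (0 : ℚ) ≤ ((P.ord (ω D) + P.ord (MvPolynomial.aeval u p0) : ℤ) : ℚ) := by
          push_cast
          linarith
        exact_mod_cast h5
      have hlau := fb.lau_of_denom hu hC'0 hC'B hC'
      obtain ⟨c, hc⟩ := (Finsupp.mem_span_range_iff_exists_finsupp).1 hlau
      have hc' : ω D * MvPolynomial.aeval u p0 = c.sum fun a m => (m : K) * mono u' a := by
        rw [← hc]
        rfl
      obtain ⟨b', hb'⟩ := box_sum hu'0 hc' (N := b) fun a ha j => by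
        have h1 := lau_terms fb.ui hc' (hQp1 j) (hQp2 j) (hQp3 j) (N := (b : ℤ))
          (hshift _ _ _ (hbp' j) (hbp j m hm ω hω)) ha
        have h2 := lau_terms fb.ui hc' (hQm1 j) (hQm2 j) (hQm3 j) (N := (b : ℤ))
          (hshift _ _ _ (hbm' j) (hbm j m hm ω hω)) ha
        constructor <;> omega
      exact ⟨b', by rw [← mul_assoc, hb']⟩)
  exact ⟨C, fun m hm r f hf h => hC m hm r f hf fun i => h i⟩

end

end Pool.Agent.Y172
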