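import Pool.Agent.Y172.Cov2

/-!
Descent of pluricanonical forms in finite extensions.
-/

set_option autoImplicit false
set_option linter.overlappingInstances false
set_option linter.unusedSectionVars false

open FF Pool.Agent.W602.GT Pool.Agent.W603.LV Pool.Agent.W619.PQ

namespace Pool.Agent.Y172

section

variable {k K : Type} [Field k] [CharZero k] [Field K] [Algebra k K] {n : ℕ}

/-- a transcendence basis with the dual vector fields -/
theorem exists_crd (hn : Algebra.trdeg k K = n) : ∃ (y : Fin n → K)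
    (E : Fin n → Derivation k K K), IsTranscendenceBasis k y ∧
      ∀ i j, E i (y j) = if i = j then 1 else 0 := by
  obtain ⟨ι, z, hz⟩ := exists_isTranscendenceBasis' k K
  have h1 := hz.cardinalMk_eq_trdeg
  rw [hn] at h1
  have h2 : Cardinal.lift.{0} (Cardinal.mk ι) = Cardinal.lift.{0} (Cardinal.mk (Fin n)) := by
    rw [h1]
    simp
  obtain ⟨e⟩ := Cardinal.lift_mk_eq'.1 h2
  have h3 : IsTranscendenceBasis k (z ∘ e.symm) := (isTranscendenceBasis_equiv e.symm).2 hz
  choose E hE using fun i : Fin n => exists_der _ h3 fun j => if i = j then 1 else 0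
  exact ⟨_, E, h3, hE⟩

end

section

variable {k K L : Type} [Field k] [CharZero k] [Field K] [Field L] [Algebra k K] [Algebra k L]
  [Algebra K L] [IsScalarTower k K L] [FiniteDimensional K L] {n : ℕ}

theorem exists_lift (hn : Algebra.trdeg k K = n) (D : Derivation k K K) :
    ∃ D' : Derivation k L L, ∀ f, D' (algebraMap K L f) = algebraMap K L (D f) := by
  obtain ⟨D', h, -⟩ := Pool.Agent.W357.PG.main.{0, 0} k K L n hn D
  exact ⟨D', h⟩

theorem trdeg_up (hn : Algebra.trdeg k K = n) : Algebra.trdeg k L = n := by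
  obtain ⟨y, -, hy, -⟩ := exists_crd hn
  have h1 : IsTranscendenceBasis k (algebraMap K L ∘ y) := hy.algebraMap_comp
  rw [← h1.cardinalMk_eq_trdeg]
  simp

/-- the frame of the lifted vector fields -/
theorem lift_dual {y : Fin n → K} {E : Fin n → Derivation k K K}
    (hE : ∀ i j, E i (y j) = if i = j then 1 else 0) {E' : Fin n → Derivation k L L}
    (hE' : ∀ i f, E' i (algebraMap K L f) = algebraMap K L (E i f)) (i j : Fin n) :
    E' i (algebraMap K L (y j)) = if i = j then 1 else 0 := by
  rw [hE', hE, apply_ite (algebraMap K L), map_one, map_zero]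

/-- **Descent of pluricanonical forms.** -/
theorem descend1 [Algebra.EssFiniteType k K] [Algebra.EssFiniteType k L]
    (hn : Algebra.trdeg k K = n) {h M : ℕ} {X : Set (Place k K)} (hX : ∀ P ∈ X, Divisorial n P)
    {Δ : Place k K → ℚ} (hint : ∀ P ∈ X, ∃ z : ℤ, (M : ℚ) * Δ P = z)
    {W : Fin (h + 1) → (Fin n → Derivation k L L) → L} (hW : ∀ j, IsPluri M (W j))
    (hreg : ∀ P ∈ X, ∀ (Q : Place k L) (e : ℕ), Over Q P e → ∀ j,
      ∀ G : Fin n → Derivation k L L, (∀ i, DerReg Q (G i)) →
        W j G = 0 ∨ -(M * (1 - e * (1 - (Δ P : ℝ)))) ≤ (Q.ord (W j G) : ℝ))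
    {G0 : Fin n → Derivation k L L} (hG0 : W 0 G0 ≠ 0)
    (hind : AlgebraicIndependent k (fun i : Fin h => W i.succ G0 / W 0 G0)) :
    ∃ (R : ℕ) (Ω : Fin (h + 1) → (Fin n → Derivation k K K) → K), 1 ≤ R ∧
      (∀ j, IsPluri (M * R) (Ω j)) ∧
      (∀ P ∈ X, ∀ j, ∀ G : Fin n → Derivation k K K, (∀ i, DerReg P (G i)) →
        Ω j G = 0 ∨ -((M * R : ℕ) * Δ P) ≤ P.ord (Ω j G)) ∧
      ∃ E, Ω 0 E ≠ 0 ∧ AlgebraicIndependent k (fun i : Fin h => Ω i.succ E / Ω 0 E) := by
  classical
  have hnL : Algebra.trdeg k L = n := trdeg_up (K := K) hn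
  obtain ⟨y, E, hy, hE⟩ := exists_crd hn
  choose E' hE' using fun i => exists_lift (L := L) hn (E i)
  have hyL : IsTranscendenceBasis k (fun j => algebraMap K L (y j)) := hy.algebraMap_comp
  have hEL := lift_dual hE hE'
  -- the values on the lifted frame
  have hval : ∀ j, W j G0 = (Matrix.of fun i j => G0 i (algebraMap K L (y j))).det ^ M * W j E' :=
    fun j => pluri_coord hyL hEL (hW j) G0
  have hd0 : (Matrix.of fun i j => G0 i (algebraMap K L (y j))).det ^ M ≠ 0 := by
    intro h0
    apply hG0
    rw [hval, h0, zero_mul]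
  have hW0 : W 0 E' ≠ 0 := by
    intro h0
    apply hG0
    rw [hval, h0, mul_zero]
  have hind' : AlgebraicIndependent k (fun i : Fin h => W i.succ E' / W 0 E') := by
    have e1 : (fun i : Fin h => W i.succ G0 / W 0 G0) = fun i : Fin h => W i.succ E' / W 0 E' := by
      funext i
      rw [hval i.succ, hval 0, mul_div_mul_left _ _ hd0]
    rwa [e1] at hind
  have hne : ∀ j, W j E' ≠ 0 := by
    intro j
    refine Fin.cases hW0 (fun i => ?_) j
    intro h0
    have := hind'.ne_zero i
    rw [h0, zero_div] at this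
    exact this rfl
  obtain ⟨R, s, hR, hs0, hsi, hs⟩ := desc (K := K) (f := fun j => W j E') hne hind'
  have hEv : (Matrix.of fun i j => E i (y j) : Matrix (Fin n) (Fin n) K).det = 1 := by
    have : (Matrix.of fun i j => E i (y j) : Matrix (Fin n) (Fin n) K) = 1 := by
      ext i j
      rw [Matrix.of_apply, hE, Matrix.one_apply]
    rw [this, Matrix.det_one]
  refine ⟨R, fun j G => (Matrix.of fun i j => G i (y j) : Matrix (Fin n) (Fin n) K).det ^ (M * R) *
    s j, hR, fun j => ?_, fun P hP j G hG => ?_, E, ?_, ?_⟩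
  · intro A D
    have e1 : (Matrix.of fun a b => (∑ j, A a j • D j) (y b)) =
        A * Matrix.of fun a b => D a (y b) := by
      ext a b
      rw [Matrix.of_apply, Matrix.mul_apply, sum_smul_apply]
      rfl
    change (Matrix.of fun a b => (∑ j, A a j • D j) (y b)).det ^ (M * R) * s j = _
    rw [e1, Matrix.det_mul, mul_pow, mul_assoc]
  · -- the estimate
    obtain ⟨yP, EP, i0, hl⟩ := exists_loc hn (hX P hP)
    choose EP' hEP' using fun i => exists_lift (L := L) hn (EP i)
    obtain ⟨z, hz⟩ := hint P hP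
    obtain ⟨B, hB⟩ : ∃ B : Matrix (Fin n) (Fin n) K, B = Matrix.of fun i j => E i (yP j) :=
      ⟨_, rfl⟩
    -- `G = C EP`, `C = (G y) B`
    have hC : (Matrix.of fun i j => G i (yP j) : Matrix (Fin n) (Fin n) K).det =
        (Matrix.of fun i j => G i (y j) : Matrix (Fin n) (Fin n) K).det * B.det := by
      rw [← Matrix.det_mul]
      congr 1
      ext i j
      rw [Matrix.of_apply, Matrix.mul_apply, hB]
      have h1 := Pool.Agent.W73.PG.PULL.expand y hy E hE (G i)
      conv_lhs => rw [← h1]
      rw [sum_smul_apply]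
      rfl
    have hB0 : B.det ≠ 0 := by
      intro h0
      have h1 : (Matrix.of fun i j => EP i (yP j) : Matrix (Fin n) (Fin n) K).det =
          (Matrix.of fun i j => EP i (y j) : Matrix (Fin n) (Fin n) K).det * B.det := by
        rw [← Matrix.det_mul]
        congr 1
        ext i j
        rw [Matrix.of_apply, Matrix.mul_apply, hB]
        have h1 := Pool.Agent.W73.PG.PULL.expand y hy E hE (EP i)
        conv_lhs => rw [← h1]
        rw [sum_smul_apply]
        rfl
      have h2 : (Matrix.of fun i j => EP i (yP j) : Matrix (Fin n) (Fin n) K) = 1 := by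
        ext i j
        rw [Matrix.of_apply, hl.dual, Matrix.one_apply]
      rw [h2, Matrix.det_one, h0, mul_zero] at h1
      exact one_ne_zero h1
    have hWB : ∀ j, W j E' = algebraMap K L B.det ^ M * W j EP' := by
      intro j
      have h1 := pluri_coord (hl.bas.algebraMap_comp (A := L)) (lift_dual hl.dual hEP') (hW j) E'
      rw [h1]
      congr 2
      rw [hB, RingHom.map_det]
      congr 1
      ext i j
      rw [Matrix.of_apply, RingHom.mapMatrix_apply, Matrix.map_apply, Matrix.of_apply]
      exact hE' i (yP j)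
    have hkey : ∀ (Q : Place k L) (e : ℕ), Over Q P e → ∀ l,
        Ge Q (e * (M * P.ord B.det - z)) (W l E') := by
      intro Q e hQ l
      have hQd : Divisorial n Q := divisorial_up hQ (hX P hP)
      have h1 := down_ge hnL hQ hQd hl hEP' (hW l) (hreg P hP Q e hQ l)
      by_cases h0 : W l EP' = 0
      · left
        rw [hWB, h0, mul_zero]
      right
      have h2 := h1.resolve_left h0
      have hBL : algebraMap K L B.det ≠ 0 := by rwa [Ne, map_eq_zero]
      have h3 : -(e * z : ℝ) ≤ (Q.ord (W l EP') : ℝ) := by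
        have h4 : (M : ℝ) * (Δ P : ℝ) = z := by exact_mod_cast hz
        have h5 : (-(M * (1 - e * (1 - (Δ P : ℝ)))) + M - e * M : ℝ) = -(e * (M * Δ P)) := by ring
        rw [h5, h4] at h2
        exact h2
      have h6 : -(e * z : ℤ) ≤ Q.ord (W l EP') := by exact_mod_cast h3
      rw [hWB, Q.ord_mul (pow_ne_zero _ hBL) h0, Q.ord_pow, hQ.2]
      have h7 : (e : ℤ) * (M * P.ord B.det - z) = M * (e * P.ord B.det) + -(e * z) := by ring
      rw [h7]
      omega
    have h8 := hs P _ hkey j
    have h9 : Ge P 0 (Matrix.of fun i j => G i (yP j) : Matrix (Fin n) (Fin n) K).det :=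
      ge_det P _ _ (fun _ _ => 0) (fun a b => hG a _ (hl.reg b)) fun σ => by simp
    by_cases h0 : (Matrix.of fun i j => G i (y j) : Matrix (Fin n) (Fin n) K).det ^ (M * R) *
        s j = 0
    · exact Or.inl h0
    right
    have hG0 : (Matrix.of fun i j => G i (y j) : Matrix (Fin n) (Fin n) K).det ^ (M * R) ≠ 0 :=
      left_ne_zero_of_mul h0
    have h10 := h8.resolve_left (hs0 j)
    rw [P.ord_mul hG0 (hs0 j), P.ord_pow]
    by_cases hMR : M * R = 0
    · have hM0 : M = 0 := by
        rcases Nat.mul_eq_zero.1 hMR with h | h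
        · exact h
        · omega
      have hz0 : z = 0 := by
        rw [hM0] at hz
        have : (z : ℚ) = 0 := by rw [← hz]; simp
        exact_mod_cast this
      rw [hMR]
      rw [hM0, hz0] at h10
      simp only [Nat.cast_zero, zero_mul, sub_zero, mul_zero] at h10
      simp only [Nat.cast_zero, zero_mul, neg_zero, zero_add]
      exact_mod_cast h10
    have hdet0 : (Matrix.of fun i j => G i (y j) : Matrix (Fin n) (Fin n) K).det ≠ 0 :=
      fun h => hG0 (by rw [h, zero_pow hMR])
    have h11 : (Matrix.of fun i j => G i (yP j) : Matrix (Fin n) (Fin n) K).det ≠ 0 := by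
      rw [hC]
      exact mul_ne_zero hdet0 hB0
    have h12 := h9.resolve_left h11
    rw [hC, P.ord_mul hdet0 hB0] at h12
    have h13 : (-((M * R : ℕ) * Δ P) : ℚ) = ((-(R * z) : ℤ) : ℚ) := by
      push_cast
      rw [← hz]
      ring
    rw [h13]
    have h14 : -(R * z) ≤ ((M * R : ℕ) : ℤ) *
        P.ord (Matrix.of fun i j => G i (y j) : Matrix (Fin n) (Fin n) K).det + P.ord (s j) := by
      push_cast
      have h15 : (0 : ℤ) ≤ (M : ℤ) * R := by positivity
      nlinarith
    exact_mod_cast h14
  · change (Matrix.of fun i j => E i (y j) : Matrix (Fin n) (Fin n) K).det ^ (M * R) * s 0 ≠ 0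
    rw [hEv, one_pow, one_mul]
    exact hs0 0
  · simp only [hEv, one_pow, one_mul]
    exact hsi

end

end Pool.Agent.Y172
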