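import Pool.Agent.Y172.UpE

/-!
The upper bound for the number of the sections, for families of functions.
-/

set_option autoImplicit false
set_option linter.unusedSectionVars false

open FF Pool.Agent.W602.GT Pool.Agent.W603.LV Pool.Agent.TH122.AB

namespace Pool.Agent.Y172

section

variable {k K : Type} [Field k] [CharZero k] [Field K] [Algebra k K] {n : ℕ}
variable {M M1 : IntermediateField k K} {l l' ρ : ℕ} {u : Fin l → K}
  {B : MvPolynomial (Fin l) M → Prop} {x : Fin ρ → K} {u' : Fin l' → K}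

/-- **The upper bound for families of functions.** -/
theorem upperF [Algebra.EssFiniteType k K] (hn : Algebra.trdeg k K = n)
    (hu : AlgebraicIndependent M u)
    (htop : IntermediateField.adjoin k ((M : Set K) ∪ Set.range u) = ⊤)
    (fb : Fb M M1 u B x u')
    {D : Fin n → Derivation k K K} (hDM : ∀ i, ∀ x ∈ M, D i x ∈ M)
    (hDu : ∀ i j, ∃ γ ∈ M, D i (u j) = γ * u j) {κ : ℕ} (hκ : n = κ + l')
    (𝓕 : ℕ → Set K) {X : Set (Place k K)} {A : Place k K → ℕ}
    (hA : {Q | Q ∈ X ∧ A Q ≠ 0}.Finite)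
    (hB : ∀ g, Irreducible g → ¬ B g → ∃ Q ∈ X, Adic Q u g ∧ ((∀ i, DerReg Q (D i)) →
      ∀ m, 1 ≤ m → ∀ f ∈ 𝓕 m, Ge Q (-(A Q : ℤ)) f))
    (hlog : ∀ Q, Divisorial n Q → (∀ i, DerLog Q (D i)) → ∃ b : ℕ, ∀ m, 1 ≤ m → ∀ f ∈ 𝓕 m,
      Ge Q (-(b : ℤ)) f)
    (hlin : ∀ P : Place k K, ∃ C : ℕ, ∀ m, 1 ≤ m → ∀ f ∈ 𝓕 m, Ge P (-((C * m : ℕ) : ℤ)) f)
    (S : Finset K)
    (hS : ∀ P : Place k K, (∀ s ∈ S, P.Reg s) → ∀ m, 1 ≤ m → ∀ f ∈ 𝓕 m, P.Reg f) :
    ∃ C : ℕ, ∀ m : ℕ, 1 ≤ m → ∀ (r : ℕ) (f : Fin r → K), LinearIndependent k f →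
      (∀ i, f i ∈ 𝓕 m) → r ≤ C * m ^ κ := by
  classical
  have hG := gens_of_top hu htop
  have hu0 : ∀ j, u j ≠ 0 := fun j => hu.ne_zero j
  have hu'0 : ∀ j, u' j ≠ 0 := fb.u'_ne
  -- the coordinates
  obtain ⟨κ', z, hzM, hz, hMz, hext⟩ := exists_coord hn fb.closed
  have hb := full_coord hMz (hext l' u' fb.ui) fb.top
  have hnκ := card_coord hn hb
  have hκκ : κ' = κ := by omega
  subst hκκ
  let e : Fin n ≃ Fin l' ⊕ Fin κ' :=
    (finCongr (by omega : n = l' + κ')).trans finSumFinEquiv.symm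
  have hZ : IsTranscendenceBasis k (fun i => Sum.elim u' z (e i)) := hb.comp_equiv e
  -- the derivations preserve `M1`
  have hdm : ∀ i (a : Fin l → ℤ), ∃ γ ∈ M, D i (mono u a) = γ * mono u a := by
    intro i a
    choose γ hγM hγ using hDu i
    refine ⟨∑ j, (a j : K) * γ j, sum_mem fun j _ => mul_mem (by
      have := M.algebraMap_mem ((a j : ℤ) : k)
      rwa [map_intCast] at this) (hγM j), ?_⟩
    rw [logd_mono (D i) hu0]
    congr 1
    exact Finset.sum_congr rfl fun j _ => by rw [hγ, mul_div_cancel_right₀ _ (hu0 j)]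
  have htrm : ∀ i (g : MvPolynomial (Fin l) M) (a : Fin l →₀ ℕ), a ∈ g.support →
      ∃ γ ∈ M, D i (trm u g a) = γ * trm u g a := by
    intro i g a ha
    obtain ⟨γ, hγ, h1⟩ := hdm i fun j => (a j : ℤ)
    have hc : ((MvPolynomial.coeff a g : M) : K) ≠ 0 := fun h =>
      MvPolynomial.mem_support_iff.1 ha (Subtype.ext h)
    refine ⟨D i ((MvPolynomial.coeff a g : M) : K) / ((MvPolynomial.coeff a g : M) : K) + γ,
      add_mem (div_mem (hDM i _ (Subtype.coe_prop _)) (Subtype.coe_prop _)) hγ, ?_⟩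
    rw [trm, (D i).leibniz, h1]
    simp only [smul_eq_mul]
    field_simp
    ring
  have hDM1 : ∀ i, ∀ y ∈ M1, D i y ∈ M1 := by
    intro i
    rw [fb.eq]
    refine stab_acl ?_
    rintro w (hw | ⟨g, hg, a, ha, rfl⟩)
    · exact subset_acl _ (Or.inl (hDM i w hw))
    · obtain ⟨γ, hγ, h1⟩ := htrm i g a ha
      have hg0 : g ≠ 0 := by
        rintro rfl
        simp at ha
      have hgu := hG.ne hg0
      choose! γ' hγ' h2 using htrm i g
      have h3 : D i (MvPolynomial.aeval u g) = ∑ b ∈ g.support, γ' b * trm u g b := by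
        rw [aeval_eq, map_sum]
        exact Finset.sum_congr rfl fun b hb => h2 b hb
      have h4 : D i (trm u g a / MvPolynomial.aeval u g) =
          γ * (trm u g a / MvPolynomial.aeval u g) - (trm u g a / MvPolynomial.aeval u g) *
            ∑ b ∈ g.support, γ' b * (trm u g b / MvPolynomial.aeval u g) := by
        rw [Derivation.leibniz_div, h1, h3]
        have h5 : ∑ b ∈ g.support, γ' b * (trm u g b / MvPolynomial.aeval u g) =
            (∑ b ∈ g.support, γ' b * trm u g b) / MvPolynomial.aeval u g := by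
          rw [Finset.sum_div]
          exact Finset.sum_congr rfl fun b _ => by rw [mul_div_assoc]
        rw [h5]
        simp only [smul_eq_mul]
        field_simp
      rw [h4]
      have hT : ∀ b ∈ g.support, trm u g b / MvPolynomial.aeval u g ∈
          acl k ((M : Set K) ∪ TT u B) := fun b hb => subset_acl _ (Or.inr ⟨g, hg, b, hb, rfl⟩)
      have hMm : ∀ w ∈ M, w ∈ acl k ((M : Set K) ∪ TT u B) := fun w hw =>
        subset_acl _ (Or.inl hw)
      exact sub_mem (mul_mem (hMm _ hγ) (hT a ha)) (mul_mem (hT a ha)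
        (sum_mem fun b hb => mul_mem (hMm _ (hγ' b hb)) (hT b hb)))
  have hDu' : ∀ i j, ∃ γ ∈ M1, D i (u' j) = γ * u' j := by
    intro i j
    obtain ⟨b, hb⟩ := fb.ub j
    obtain ⟨γ, hγ, h1⟩ := hdm i b
    exact ⟨γ, fb.le hγ, by rw [hb, h1]⟩
  -- the places at the ends of the fibres
  have hplace := fun (j : Fin l') (ε : ℤ) (hε : ε * ε = 1) =>
    place_eps fb.ui fb.top hzM hext hκ j hε
  have hbd : ∀ (j : Fin l') (ε : ℤ), ε * ε = 1 → ∃ Q : Place k K,
      (∀ m ∈ M1, m ≠ 0 → Q.ord m = 0) ∧ (∀ a : Fin l' → ℤ, Q.ord (mono u' a) = -(ε * a j)) ∧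
      (∀ D : Derivation k K K, (∀ x ∈ M1, D x ∈ M1) → (∀ i, ∃ γ ∈ M1, D (u' i) = γ * u' i) →
        DerLog Q D) ∧ ∃ b : ℕ, ∀ m : ℕ, 1 ≤ m → ∀ f ∈ 𝓕 m, Ge Q (-(b : ℤ)) f := by
    intro j ε hε
    obtain ⟨Q, h1, h2, h3, h4⟩ := hplace j ε hε
    exact ⟨Q, h1, h2, h4, hlog Q h3 fun i => h4 (D i) (hDM1 i) (hDu' i)⟩
  choose Qp hQp1 hQp2 hQp3 bp hbp using fun j => hbd j 1 (by norm_num)
  choose Qm hQm1 hQm2 hQm3 bm hbm using fun j => hbd j (-1) (by norm_num)
  -- the denominator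
  let SA := hA.toFinset
  let gP : Place k K → MvPolynomial (Fin l) M := fun P =>
    if h : ∃ g : MvPolynomial (Fin l) M, Irreducible g ∧ Adic P u g then h.choose else 1
  have hgP0 : ∀ P, gP P ≠ 0 := by
    intro P
    by_cases h : ∃ g : MvPolynomial (Fin l) M, Irreducible g ∧ Adic P u g
    · have h1 : gP P = h.choose := dif_pos h
      rw [h1]
      exact h.choose_spec.1.ne_zero
    · have h1 : gP P = 1 := dif_neg h
      rw [h1]
      exact one_ne_zero
  obtain ⟨p0, hp0⟩ : ∃ p0, p0 = ∏ P ∈ SA, gP P ^ A P := ⟨_, rfl⟩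
  have hp00 : p0 ≠ 0 := by
    rw [hp0]
    exact Finset.prod_ne_zero_iff.2 fun P _ => pow_ne_zero _ (hgP0 P)
  have hp0u := hG.ne hp00
  have hp0A : ∀ P ∈ X, (∃ g : MvPolynomial (Fin l) M, Irreducible g ∧
      Adic P u g) → (A P : ℤ) ≤ P.ord (MvPolynomial.aeval u p0) := by
    intro P hP hg
    obtain ⟨g, hg1, hg2⟩ := hg
    by_cases hAP : A P = 0
    · rw [hAP]
      exact_mod_cast (hg2 p0 hp00).1
    have hPS : P ∈ SA := by
      rw [Set.Finite.mem_toFinset]
      exact ⟨hP, hAP⟩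
    have h1 : gP P ^ A P ∣ p0 := by
      rw [hp0]
      exact Finset.dvd_prod_of_mem _ hPS
    obtain ⟨q, hq⟩ := h1
    have hq0 : q ≠ 0 := by
      rintro rfl
      rw [mul_zero] at hq
      exact hp00 hq
    have hex : ∃ g : MvPolynomial (Fin l) M, Irreducible g ∧ Adic P u g := ⟨g, hg1, hg2⟩
    have h2 : gP P = hex.choose := dif_pos hex
    have h3 := hex.choose_spec
    rw [← h2] at h3
    have h4 : 0 < P.ord (MvPolynomial.aeval u (gP P)) := by
      have h5 := h3.2 (gP P) (hgP0 P)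
      rcases lt_or_eq_of_le h5.1 with h6 | h6
      · exact h6
      · exact absurd dvd_rfl (h5.2.1 h6.symm)
    have h5 := (hg2 q hq0).1
    rw [hq, map_mul, map_pow, P.ord_mul (pow_ne_zero _ (hG.ne (hgP0 P))) (hG.ne hq0),
      P.ord_pow]
    have : (A P : ℤ) * 1 ≤ A P * P.ord (MvPolynomial.aeval u (gP P)) :=
      mul_le_mul_of_nonneg_left (by omega) (Int.natCast_nonneg _)
    omega
  -- the bound for the exponents
  obtain ⟨b, hbdef⟩ : ∃ b : ℕ, b = ∑ j, (bp j + (Qp j |>.ord (MvPolynomial.aeval u p0)).natAbs) +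
      ∑ j, (bm j + (Qm j |>.ord (MvPolynomial.aeval u p0)).natAbs) := ⟨_, rfl⟩
  have hbp' : ∀ j, bp j + (Qp j |>.ord (MvPolynomial.aeval u p0)).natAbs ≤ b := by
    intro j
    have := Finset.single_le_sum (f := fun j => bp j +
      (Qp j |>.ord (MvPolynomial.aeval u p0)).natAbs) (fun _ _ => Nat.zero_le _)
      (Finset.mem_univ j)
    omega
  have hbm' : ∀ j, bm j + (Qm j |>.ord (MvPolynomial.aeval u p0)).natAbs ≤ b := by
    intro j
    have := Finset.single_le_sum (f := fun j => bm j +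
      (Qm j |>.ord (MvPolynomial.aeval u p0)).natAbs) (fun _ _ => Nat.zero_le _)
      (Finset.mem_univ j)
    omega
  have hshift : ∀ (Q : Place k K) (b' : ℕ) (f : K), b' + (Q.ord (MvPolynomial.aeval u p0)).natAbs ≤ b →
      Ge Q (-(b' : ℤ)) f → Ge Q (-(b : ℤ)) (f * MvPolynomial.aeval u p0) := by
    intro Q b' f h1 h2
    have h3 := h2.mul (ge_ord Q (MvPolynomial.aeval u p0))
    exact h3.mono (by omega)
  -- the growth
  exact growth_rel (a := κ') (l := l') hZ (fd_basis hZ) S 𝓕 hlin hS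
    fb.ui (p := MvPolynomial.aeval u p0 * mono u' (fun _ => (b : ℤ)))
    (mul_ne_zero hp0u (mono_ne hu'0 _)) hnκ (2 * b + 1)
    (by
      intro m hm f hf
      by_cases hf0 : f = 0
      · refine ⟨fun _ => 0, ?_⟩
        rw [hf0, zero_mul]
        refine (Finset.sum_eq_zero fun a _ => ?_).symm
        change (0 : K) * _ = 0
        rw [zero_mul]
      have hF0 : f * MvPolynomial.aeval u p0 ≠ 0 := mul_ne_zero hf0 hp0u
      obtain ⟨A', C', hC'0, hC'B, hC'⟩ := denom hG hF0 (B := B) fun g hg hBg => by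
        obtain ⟨P, hP, hPg, hPf⟩ := hB g hg hBg
        refine ⟨P, hPg, ?_⟩
        have h1 := (hPf (fun i => hPg.derReg hG hg (hDM i) (hDu i)) m hm f hf).resolve_left hf0
        have h2 := hp0A P hP ⟨g, hg, hPg⟩
        rw [P.reg_iff hF0, P.ord_mul hf0 hp0u]
        omega
      have hlau := fb.lau_of_denom hu hC'0 hC'B hC'
      obtain ⟨c, hc⟩ := (Finsupp.mem_span_range_iff_exists_finsupp).1 hlau
      have hc' : f * MvPolynomial.aeval u p0 = c.sum fun a m => (m : K) * mono u' a := by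
        rw [← hc]
        rfl
      obtain ⟨b', hb'⟩ := box_sum hu'0 hc' (N := b) fun a ha j => by
        have h1 := lau_terms fb.ui hc' (hQp1 j) (hQp2 j) (hQp3 j) (N := (b : ℤ))
          (hshift _ _ _ (hbp' j) (hbp j m hm f hf)) ha
        have h2 := lau_terms fb.ui hc' (hQm1 j) (hQm2 j) (hQm3 j) (N := (b : ℤ))
          (hshift _ _ _ (hbm' j) (hbm j m hm f hf)) ha
        constructor <;> omega
      exact ⟨b', by rw [← mul_assoc, hb']⟩)

end

end Pool.Agent.Y172
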