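import Pool.Agent.Y172.Cov3
import Pool.Agent.Y172.UpF

/-!
The upper bound for the number of the sections in terms of a finite extension.
-/

set_option autoImplicit false
set_option linter.overlappingInstances false
set_option linter.unusedSectionVars false

open FF Pool.Agent.W602.GT Pool.Agent.W603.LV Pool.Agent.W619.PQ Pool.Agent.TH122.AB

namespace Pool.Agent.Y172

section

variable {k L : Type} (K : Type) [Field k] [CharZero k] [Field K] [Field L] [Algebra k K]
  [Algebra k L] [Algebra K L] [IsScalarTower k K L] [FiniteDimensional K L]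

/-- the place below -/
noncomputable def bel (Q : Place k L) : Place k K := (exists_below (K := K) Q).choose

/-- the ramification index -/
noncomputable def ram (Q : Place k L) : ℕ := (exists_below (K := K) Q).choose_spec.choose

theorem over_bel (Q : Place k L) : Over Q (bel K Q) (ram K Q) :=
  (exists_below (K := K) Q).choose_spec.choose_spec

theorem bel_eq {Q : Place k L} {P : Place k K} {e : ℕ} (h : Over Q P e) :
    bel K Q = P ∧ ram K Q = e := over_unique' (over_bel K Q) h

/-- places over a finite set of places -/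
theorem finite_bel {T : Set (Place k K)} (hT : T.Finite) :
    {Q : Place k L | bel K Q ∈ T}.Finite := by
  have hcK : CharZero K := charZero_of_injective_algebraMap (algebraMap k K).injective
  refine (hT.biUnion fun P _ => finite_over (K' := L) P).subset ?_
  intro Q hQ
  exact Set.mem_biUnion hQ ⟨ram K Q, over_bel K Q⟩

end

section

variable {K L : Type} [Field K] [Field L] [Algebra ℂ K] [Algebra ℂ L]
  [Algebra K L] [IsScalarTower ℂ K L] [FiniteDimensional K L] {N n : ℕ} {y : Fin (N + 1) → K}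
variable {M M1 : IntermediateField ℂ L} {l l' ρ : ℕ} {u : Fin l → L}
  {B : MvPolynomial (Fin l) M → Prop} {x : Fin ρ → L} {u' : Fin l' → L}

theorem ess_up (h : Algebra.EssFiniteType ℂ K) : Algebra.EssFiniteType ℂ L := by
  have h1 : Algebra.EssFiniteType K L := inferInstance
  exact Algebra.EssFiniteType.comp ℂ K L

/-- **The upper bound for the number of the sections.** -/
theorem upper_cov (hy : NormalModel y) (hn : Algebra.trdeg ℂ K = n) {Δ : Place ℂ K → ℚ}
    (hΔ : Effective y Δ) (hLC : LogCanonical y n Δ) (hu : AlgebraicIndependent M u)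
    (htop : IntermediateField.adjoin ℂ ((M : Set L) ∪ Set.range u) = ⊤)
    (fb : Fb M M1 u B x u')
    (hB : ∀ g, Irreducible g → ¬ B g → ∃ (P : Place ℂ K) (Q : Place ℂ L) (e : ℕ),
      IsPrimeDivisor y P ∧ Over Q P e ∧ Adic Q u g ∧ 1 - (e : ℚ) * (1 - Δ P) ≤ 0)
    {D : Fin n → Derivation ℂ L L} (hD : IsFrame D) (hDM : ∀ i, ∀ x ∈ M, D i x ∈ M)
    (hDu : ∀ i j, ∃ γ ∈ M, D i (u j) = γ * u j) {κ : ℕ} (hκ : n = κ + l')
    {yc : Fin n → K} {E : Fin n → Derivation ℂ K K} (hyc : IsTranscendenceBasis ℂ yc)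
    (hE : ∀ i j, E i (yc j) = if i = j then 1 else 0)
    {A : Place ℂ K → ℚ} (hA : Effective y A) :
    ∃ C : ℕ, ∀ m : ℕ, 1 ≤ m → ∀ (r : ℕ) (f : Fin r → K), LinearIndependent ℂ f →
      (∀ i, ∃ ω, IsSection y n m (m • Δ + A) ω ∧ ω E = f i) → r ≤ C * m ^ κ := by
  classical
  have hess := hy.ess
  have hessL : Algebra.EssFiniteType ℂ L := ess_up hess
  have hnL : Algebra.trdeg ℂ L = n := trdeg_up (K := K) hn
  choose E' hE' using fun i => exists_lift (L := L) hn (E i)
  have hycL : IsTranscendenceBasis ℂ (fun j => algebraMap K L (yc j)) := hyc.algebraMap_comp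
  -- the determinant
  obtain ⟨Θ, hΘ⟩ : ∃ Θ : L, Θ = (Matrix.of fun i j => D i (algebraMap K L (yc j))).det :=
    ⟨_, rfl⟩
  have hΘ0 : Θ ≠ 0 := by
    intro h0
    choose a ha using fun i => hD (E' i)
    have h1 : (Matrix.of fun i j => E' i (algebraMap K L (yc j))) =
        (Matrix.of a) * (Matrix.of fun i j => D i (algebraMap K L (yc j))) := by
      ext i j
      rw [Matrix.of_apply, Matrix.mul_apply, ha i, sum_smul_apply]
      rfl
    have h2 : (Matrix.of fun i j => E' i (algebraMap K L (yc j))) =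
        (1 : Matrix (Fin n) (Fin n) L) := by
      ext i j
      rw [Matrix.of_apply, lift_dual hE hE', Matrix.one_apply]
    have h3 := congrArg Matrix.det h1
    rw [h2, Matrix.det_one, Matrix.det_mul, ← hΘ, h0, mul_zero] at h3
    exact one_ne_zero h3
  -- the family
  obtain ⟨𝓕, h𝓕⟩ : ∃ 𝓕 : ℕ → Set L, ∀ m f, f ∈ 𝓕 m ↔ ∃ ω, IsSection y n m (m • Δ + A) ω ∧
      f = Θ ^ m * algebraMap K L (ω E) := ⟨fun m => {f | ∃ ω, IsSection y n m (m • Δ + A) ω ∧
      f = Θ ^ m * algebraMap K L (ω E)}, fun _ _ => Iff.rfl⟩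
  have hchg : ∀ {P : Place ℂ K} {yP : Fin n → K} {EP : Fin n → Derivation ℂ K K} {i0 : Fin n},
      Loc P yP EP i0 → ∀ (m : ℕ) (ω : (Fin n → Derivation ℂ K K) → K), IsPluri m ω →
        Θ ^ m * algebraMap K L (ω E) =
          (Matrix.of fun i j => D i (algebraMap K L (yP j))).det ^ m * algebraMap K L (ω EP) := by
    intro P yP EP i0 hl m ω hω
    rw [hΘ]
    exact Pool.Agent.W73.PG.PULL.form_eq yc yP hyc hl.bas E EP hE hl.dual ω hω D
  obtain ⟨S0, hS0⟩ := sec_fin hy hΔ hA E
  obtain ⟨C, hC⟩ := upperF hnL hu htop fb hDM hDu hκ 𝓕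
    (X := {Q : Place ℂ L | IsPrimeDivisor y (bel K Q)})
    (A := fun Q => ram K Q * ⌈A (bel K Q)⌉₊)
    ((finite_bel K (T := {P | IsPrimeDivisor y P ∧ A P ≠ 0}) hA.2).subset (by
      rintro Q ⟨h1, h2⟩
      refine ⟨h1, fun h3 => h2 ?_⟩
      rw [h3]
      simp))
    (by
      intro g hg hBg
      obtain ⟨P, Q, e, hP, hQ, hQg, hδ⟩ := hB g hg hBg
      obtain ⟨h1, h2⟩ := bel_eq K hQ
      refine ⟨Q, ?_, hQg, fun hDr m hm f hf => ?_⟩
      · change IsPrimeDivisor y (bel K Q)
        rw [h1]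
        exact hP
      · obtain ⟨ω, hω, rfl⟩ := (h𝓕 m f).1 hf
        have hPd := hP.divisorial hy hn
        obtain ⟨yP, EP, i0, hl⟩ := exists_loc hn hPd
        rw [hchg hl m ω hω.1, h1, h2]
        by_cases h0 : ω EP = 0
        · left
          rw [h0, map_zero, mul_zero]
        have h3 := pull_reg hQ hl hDr (m := m) (ω := ω) (ge_ord P (ω EP))
        have h4 := ((hω.2 P hP EP hl.pres).resolve_left h0)
        refine h3.mono ?_
        have e1 : (m • Δ + A) P = m * Δ P + A P := by
          rw [Pi.add_apply, Pi.smul_apply, nsmul_eq_mul]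
        rw [e1] at h4
        have h5 : A P ≤ (⌈A P⌉₊ : ℚ) := Nat.le_ceil _
        have he : (1 : ℚ) ≤ e := by exact_mod_cast hQ.1
        have h6 : (-((e * ⌈A P⌉₊ : ℕ) : ℤ) : ℚ) ≤ ((m * (e - 1) + e * P.ord (ω EP) : ℤ) : ℚ) := by
          push_cast
          have h7 : (e : ℚ) * (-(m * Δ P + ⌈A P⌉₊)) ≤ e * P.ord (ω EP) :=
            mul_le_mul_of_nonneg_left (by linarith) (by linarith)
          have h8 : (m : ℚ) * (1 - (e : ℚ) * (1 - Δ P)) ≤ 0 :=
            mul_nonpos_of_nonneg_of_nonpos (by positivity) hδ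
          nlinarith
        exact_mod_cast h6)
    (by
      intro Q hQ hDl
      have hQo := over_bel K Q
      have hPd := divisorial_down hQo hQ
      obtain ⟨yP, EP, i0, hl⟩ := exists_loc hn hPd
      have hfr : IsFrame fun i => lc yP i0 i • EP i := by
        intro G
        have hc0 : ∀ i, lc yP i0 i ≠ 0 := by
          intro i
          unfold lc
          split_ifs
          · exact hl.ne
          · exact one_ne_zero
        refine ⟨fun j => G (yP j) / lc yP i0 j, ?_⟩
        have h1 := Pool.Agent.W73.PG.PULL.expand yP hl.bas EP hl.dual G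
        conv_lhs => rw [← h1]
        refine Finset.sum_congr rfl fun j _ => ?_
        rw [smul_smul, div_mul_cancel₀ _ (hc0 j)]
      obtain ⟨b, hb⟩ := lc_bound hy hn hLC hA hPd hfr hl.log
      refine ⟨ram K Q * b, fun m hm f hf => ?_⟩
      obtain ⟨ω, hω, rfl⟩ := (h𝓕 m f).1 hf
      rw [hchg hl m ω hω.1]
      have h1 := pull_log hQo hl hDl hω.1 (hb m hm ω hω)
      refine h1.mono (le_of_eq ?_)
      push_cast
      ring)
    (by
      intro Q
      have hQo := over_bel K Q
      obtain ⟨C, hC⟩ := sec_all hy hΔ hA E (bel K Q)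
      refine ⟨(Q.ord Θ).natAbs + ram K Q * C, fun m hm f hf => ?_⟩
      obtain ⟨ω, hω, rfl⟩ := (h𝓕 m f).1 hf
      have h1 := ((ge_ord Q Θ).pow m).mul ((over_ge hQo).2 (hC m hm ω hω))
      refine h1.mono ?_
      push_cast
      have h2 : -(|Q.ord Θ|) ≤ Q.ord Θ := neg_abs_le _
      have h3 : (0 : ℤ) ≤ m := Int.natCast_nonneg _
      nlinarith)
    (insert Θ (S0.image (algebraMap K L)))
    (by
      intro Q hQ m hm f hf
      obtain ⟨ω, hω, rfl⟩ := (h𝓕 m f).1 hf
      have hQo := over_bel K Q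
      have hΘr : Q.Reg (Θ ^ m) := by
        have h1 : Ge Q 0 Θ := hQ _ (Finset.mem_insert_self _ _)
        have h2 := h1.pow m
        rw [mul_zero] at h2
        exact h2
      refine Q.reg_mul hΘr (hQo.reg.2 ?_)
      refine hS0 _ (fun s hs => ?_) m hm ω hω
      exact hQo.reg.1 (hQ _ (Finset.mem_insert_of_mem (Finset.mem_image_of_mem _ hs))))
  refine ⟨C, fun m hm r f hf h => ?_⟩
  have hinj : Function.Injective (algebraMap K L) := (algebraMap K L).injective
  have h1 : LinearIndependent ℂ fun i => Θ ^ m * algebraMap K L (f i) := by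
    have h2 := hf.map' (IsScalarTower.toAlgHom ℂ K L).toLinearMap (by
      rw [LinearMap.ker_eq_bot]
      exact hinj)
    have h3 := h2.map' (LinearMap.mulLeft ℂ (Θ ^ m)) (by
      rw [LinearMap.ker_eq_bot]
      exact fun a b hab => mul_left_cancel₀ (pow_ne_zero _ hΘ0) hab)
    exact h3
  refine hC m hm r _ h1 fun i => ?_
  obtain ⟨ω, hω, hωE⟩ := h i
  rw [h𝓕]
  exact ⟨ω, hω, by rw [hωE]⟩

end

end Pool.Agent.Y172
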