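import Pool.Agent.Y172.Cov4

/-!
Zeros and poles on the prime divisors of a finite cover, and pull-backs of sections.
-/

set_option autoImplicit false
set_option linter.overlappingInstances false
set_option linter.unusedSectionVars false

open FF Pool.Agent.W602.GT Pool.Agent.W603.LV Pool.Agent.W619.PQ Pool.Agent.TH122.AB

namespace Pool.Agent.Y172

section

variable {k K L : Type} [Field k] [CharZero k] [Field K] [Field L] [Algebra k K]
  [Algebra k L] [Algebra K L] [IsScalarTower k K L] [FiniteDimensional K L]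

/-- elements with regular coefficients are regular -/
theorem reg_of_monic {Q : Place k L} {P : Place k K} {e : ℕ} (h : Over Q P e)
    {p : Polynomial K} (hp : p.Monic) {f : L} (hf : Polynomial.aeval f p = 0)
    (hreg : ∀ i, P.Reg (p.coeff i)) : Q.Reg f := by
  classical
  by_cases hf0 : f = 0
  · left
    exact hf0
  rw [Q.reg_iff hf0]
  by_contra hcon
  push Not at hcon
  have hd : 0 < p.natDegree := by
    by_contra hcon'
    have h1 : p = 1 := hp.natDegree_eq_zero.1 (by omega)
    rw [h1, map_one] at hf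
    exact one_ne_zero hf
  have h1 : f ^ p.natDegree = -∑ i ∈ Finset.range p.natDegree,
      algebraMap K L (p.coeff i) * f ^ i := by
    rw [Polynomial.aeval_eq_sum_range, Finset.sum_range_succ, hp.coeff_natDegree, one_smul] at hf
    rw [eq_neg_iff_add_eq_zero, add_comm, ← hf]
    congr 1
    exact Finset.sum_congr rfl fun i _ => by rw [Algebra.smul_def]
  have h2 : Ge Q (((p.natDegree : ℤ) - 1) * Q.ord f) (f ^ p.natDegree) := by
    rw [h1]
    refine Ge.neg (Ge.sum _ _ fun i hi => ?_)
    have h3 : Ge Q 0 (algebraMap K L (p.coeff i)) := h.reg.2 (hreg i)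
    have h4 := h3.mul ((ge_ord Q f).pow i)
    refine h4.mono ?_
    have h5 : (i : ℤ) ≤ (p.natDegree : ℤ) - 1 := by
      have := Finset.mem_range.1 hi
      omega
    nlinarith
  have h3 := h2.resolve_left (pow_ne_zero _ hf0)
  rw [Q.ord_pow] at h3
  nlinarith

end

section

variable {K L : Type} [Field K] [Field L] [Algebra ℂ K] [Algebra ℂ L]
  [Algebra K L] [IsScalarTower ℂ K L] [FiniteDimensional K L] {N n : ℕ} {y : Fin (N + 1) → K}

/-- a function has finitely many zeros and poles -/
theorem finite_ord_up (hy : NormalModel y) {f : L} (hf : f ≠ 0) :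
    {Q : Place ℂ L | IsPrimeDivisor y (bel K Q) ∧ Q.ord f ≠ 0}.Finite := by
  classical
  have hint : ∀ g : L, IsIntegral K g := fun g => Algebra.IsIntegral.isIntegral g
  let T : L → Set (Place ℂ K) := fun g => ⋃ i ∈ (minpoly K g).support,
    {P : Place ℂ K | IsPrimeDivisor y P ∧ P.ord ((minpoly K g).coeff i) ≠ 0}
  have hT : ∀ g, (T g).Finite := by
    intro g
    refine Set.Finite.biUnion (Finset.finite_toSet _) fun i hi => ?_
    exact finite_ord hy (Polynomial.mem_support_iff.1 hi)
  have hreg : ∀ (g : L) (Q : Place ℂ L), IsPrimeDivisor y (bel K Q) → bel K Q ∉ T g →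
      Q.Reg g := by
    intro g Q hQ hQT
    refine reg_of_monic (over_bel K Q) (minpoly.monic (hint g)) (minpoly.aeval K g) fun i => ?_
    by_cases hi : (minpoly K g).coeff i = 0
    · left
      exact hi
    right
    by_contra hcon
    apply hQT
    simp only [T, Set.mem_iUnion]
    exact ⟨i, Polynomial.mem_support_iff.2 hi, hQ, by omega⟩
  refine (finite_bel K ((hT f).union (hT f⁻¹))).subset ?_
  rintro Q ⟨hQ, hQf⟩
  by_contra hcon
  change ¬ (bel K Q ∈ T f ∪ T f⁻¹) at hcon
  rw [Set.mem_union] at hcon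
  push Not at hcon
  have h1 := (Q.reg_iff hf).1 (hreg f Q hQ hcon.1)
  have h2 := (Q.reg_iff (inv_ne_zero hf)).1 (hreg f⁻¹ Q hQ hcon.2)
  rw [Q.ord_inv] at h2
  omega

/-- a common denominator of the coefficients -/
theorem exists_den_mul {Δ : Place ℂ K → ℚ} (hΔ : Effective y Δ) :
    ∃ d0 : ℕ, 1 ≤ d0 ∧ ∀ P, IsPrimeDivisor y P → ∃ z : ℤ, (d0 : ℚ) * Δ P = z := by
  classical
  let S := hΔ.2.toFinset
  refine ⟨∏ P ∈ S, (Δ P).den, Nat.pos_of_ne_zero (Finset.prod_ne_zero_iff.2 fun P _ =>
    (Δ P).den_ne_zero), fun P hP => ?_⟩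
  by_cases h0 : Δ P = 0
  · exact ⟨0, by simp [h0]⟩
  have hPS : P ∈ S := by
    rw [Set.Finite.mem_toFinset]
    exact ⟨hP, h0⟩
  refine ⟨(∏ Q ∈ S.erase P, (Δ Q).den : ℕ) * (Δ P).num, ?_⟩
  rw [← Finset.prod_erase_mul _ _ hPS]
  have h1 : ((Δ P).den : ℚ) * Δ P = (Δ P).num := by
    rw [mul_comm]
    exact Rat.mul_den_eq_num (Δ P)
  push_cast
  rw [← h1]
  ring

end

end Pool.Agent.Y172
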