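import Pool.Agent.W602.GT.Defs

/-!
Normal projective varieties given by the homogeneous coordinates of the generic point, log canonical
pairs, and the Kodaira and the numerical dimension of `K_X + Δ`.
-/

set_option autoImplicit false

open FF Pool.Agent.W602.GT Filter

namespace Pool.Agent.Y172

section

variable {K : Type} [Field K] [Algebra ℂ K] {N : ℕ}

/-- The coordinate ring of the affine chart `y j ≠ 0` of the projective variety with generic point
`y`. -/
def chart (y : Fin (N + 1) → K) (j : Fin (N + 1)) : Subalgebra ℂ K :=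
  Algebra.adjoin ℂ (Set.range fun i => y i / y j)

/-- `y` is the generic point, in homogeneous coordinates, of a normal projective variety `X` in
projective `N`-space with function field `K`. -/
structure NormalModel (y : Fin (N + 1) → K) : Prop where
  ne : ∃ j, y j ≠ 0
  field : ∀ j, y j ≠ 0 → IntermediateField.adjoin ℂ (Set.range fun i => y i / y j) = ⊤
  normal : ∀ j, y j ≠ 0 → IsIntegrallyClosed (chart y j)

/-- The centre of the place `P` on `X` is in the chart `y j ≠ 0`. -/
def Centred (y : Fin (N + 1) → K) (j : Fin (N + 1)) (P : Place ℂ K) : Prop :=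
  y j ≠ 0 ∧ ∀ i, P.Reg (y i / y j)

/-- The local ring of `X` at the centre of the place `P`: the quotients `a / b` of elements of the
coordinate ring of a chart which contains the centre, such that `b` is not zero at the centre. -/
def localRing (y : Fin (N + 1) → K) (P : Place ℂ K) : Set K :=
  {f | ∃ j, Centred y j P ∧ ∃ a ∈ chart y j, ∃ b ∈ chart y j, b ≠ 0 ∧ P.ord b = 0 ∧ f * b = a}

/-- `P` is a prime divisor on `X`: the valuation ring of `P` is the local ring of `X` at the centre
of `P`. -/
def IsPrimeDivisor (y : Fin (N + 1) → K) (P : Place ℂ K) : Prop :=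
  ∀ f, P.Reg f → f ∈ localRing y P

/-- The prime divisor `P` of `X` contains the centre of the place `Q` on `X`. -/
def Through (y : Fin (N + 1) → K) (P Q : Place ℂ K) : Prop :=
  ∀ f ∈ localRing y Q, P.Reg f

/-- The order of the form `ω` along `P` is at least `c`: on vector fields which are regular at `P`
its values have order at least `c`. -/
def OrdGe {n : ℕ} (P : Place ℂ K) (ω : (Fin n → Derivation ℂ K K) → K) (c : ℚ) : Prop :=
  ∀ E : Fin n → Derivation ℂ K K, (∀ i, DerReg P (E i)) → ω E = 0 ∨ c ≤ P.ord (ω E)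

/-- The order of the form `ω` along `P` is `c`. -/
def OrdEq {n : ℕ} (P : Place ℂ K) (ω : (Fin n → Derivation ℂ K K) → K) (c : ℚ) : Prop :=
  OrdGe P ω c ∧ ∃ E : Fin n → Derivation ℂ K K, (∀ i, DerReg P (E i)) ∧ ω E ≠ 0 ∧ P.ord (ω E) = c

/-- `D` is an effective `ℚ`-divisor on `X`; `D P` is the coefficient of the prime divisor `P` (the
values of `D` at the other places are irrelevant). -/
def Effective (y : Fin (N + 1) → K) (D : Place ℂ K → ℚ) : Prop :=
  (∀ P, IsPrimeDivisor y P → 0 ≤ D P) ∧ {P | IsPrimeDivisor y P ∧ D P ≠ 0}.Finite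

/-- The coefficients of the `ℚ`-divisor `D` on `X` are integers. -/
def Integral (y : Fin (N + 1) → K) (D : Place ℂ K → ℚ) : Prop :=
  ∀ P, IsPrimeDivisor y P → ∃ z : ℤ, D P = z

/-- The pair `(X, Δ)` is log canonical, `n` being the dimension of `X`: for every prime divisor `Q`
over `X` there is an `r`-canonical form `η` which generates `r (K_X + Δ)` at the centre of `Q` on
`X` (its order is `- r Δ P` along all prime divisors `P` of `X` through this centre), with order at
least `- r` along `Q`. -/
def LogCanonical (y : Fin (N + 1) → K) (n : ℕ) (Δ : Place ℂ K → ℚ) : Prop :=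
  ∀ Q : Place ℂ K, Divisorial n Q → ∃ r : ℕ, 0 < r ∧ ∃ η : (Fin n → Derivation ℂ K K) → K,
    IsPluri r η ∧ (∀ P, IsPrimeDivisor y P → Through y P Q → OrdEq P η (-(r * Δ P))) ∧
      OrdGe Q η (-r)

/-- `ω` is a section of `m K_X + D`: an `m`-canonical form with order at least `- D P` along all
prime divisors `P` of `X`. -/
def IsSection (y : Fin (N + 1) → K) (n m : ℕ) (D : Place ℂ K → ℚ)
    (ω : (Fin n → Derivation ℂ K K) → K) : Prop :=
  IsPluri m ω ∧ ∀ P, IsPrimeDivisor y P → OrdGe P ω (-(D P))

/-- The dimension of the space of the sections of `m K_X + D`. -/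
noncomputable def h0 (y : Fin (N + 1) → K) (n m : ℕ) (D : Place ℂ K → ℚ) : ℕ :=
  Module.finrank ℂ (Submodule.span ℂ {ω | IsSection y n m D ω})

open scoped Classical in
/-- The Kodaira dimension of `K_X + Δ`: it is `⊥` if `m (K_X + Δ)` has only the section `0` for all
`m ≥ 1` such that `m Δ` is integral, and otherwise the largest `k` such that the upper limit of
`h⁰ (m (K_X + Δ)) / m ^ k` over these `m` is positive. -/
noncomputable def kodairaDim (y : Fin (N + 1) → K) (n : ℕ) (Δ : Place ℂ K → ℚ) : WithBot ℕ :=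
  if ∀ m : ℕ, 1 ≤ m → Integral y (m • Δ) → h0 y n m (m • Δ) = 0 then ⊥ else
    ((sSup {k : ℕ | 0 < limsup (fun m : ℕ => (h0 y n m (m • Δ) : ENNReal) / (m : ENNReal) ^ k)
      (atTop ⊓ 𝓟 {m : ℕ | 1 ≤ m ∧ Integral y (m • Δ)})} : ℕ) : WithBot ℕ)

/-- The numerical dimension of `K_X + Δ` with respect to the divisor `A`: the upper limit of
`log h⁰ (m (K_X + Δ) + A) / log m` over the `m ≥ 1` such that `m Δ + A` is integral. -/
noncomputable def numericalDim (y : Fin (N + 1) → K) (n : ℕ) (Δ A : Place ℂ K → ℚ) : EReal :=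
  limsup (fun m : ℕ => ENNReal.log (h0 y n m (m • Δ + A) : ENNReal) / (Real.log m : EReal))
    (atTop ⊓ 𝓟 {m : ℕ | 1 ≤ m ∧ Integral y (m • Δ + A)})

end

end Pool.Agent.Y172
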