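import Mathlib

/-!
Upper limits of functions with polynomial growth.
-/

set_option autoImplicit false

open Filter Topology

namespace Pool.Agent.Y172

variable {h : ℕ → ℕ} {I : Set ℕ} {k C M : ℕ}

theorem freq (hM : 1 ≤ M) (hI : ∀ t, 1 ≤ t → t * M ∈ I) {p : ℕ → Prop} (t0 : ℕ)
    (hp : ∀ t, t0 ≤ t → 1 ≤ t → p (t * M)) : ∃ᶠ m in atTop ⊓ 𝓟 I, p m := by
  rw [frequently_inf_principal, frequently_atTop]
  intro a
  refine ⟨(max (max a t0) 1) * M, ?_, hI _ (le_max_right _ _), hp _ ?_ (le_max_right _ _)⟩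
  · have h1 : a ≤ max (max a t0) 1 := (le_max_left _ _).trans (le_max_left _ _)
    exact h1.trans (Nat.le_mul_of_pos_right _ hM)
  · exact (le_max_right _ _).trans (le_max_left _ _)

theorem kappa_eq (hM : 1 ≤ M) (hI : ∀ t, 1 ≤ t → t * M ∈ I)
    (hlow : ∀ t, 1 ≤ t → t ^ k ≤ h (t * M)) (hup : ∀ m ∈ I, 1 ≤ m → h m ≤ C * m ^ k) :
    sSup {k' : ℕ | 0 < limsup (fun m : ℕ => (h m : ENNReal) / (m : ENNReal) ^ k')
      (atTop ⊓ 𝓟 I)} = k := by
  have hub : ∀ k' ∈ {k' : ℕ | 0 < limsup (fun m : ℕ => (h m : ENNReal) / (m : ENNReal) ^ k')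
      (atTop ⊓ 𝓟 I)}, k' ≤ k := by
    intro k' hk'
    by_contra hlt
    push Not at hlt
    have h1 : limsup (fun m : ℕ => (h m : ENNReal) / (m : ENNReal) ^ k') (atTop ⊓ 𝓟 I) ≤ 0 := by
      have h2 : Tendsto (fun m : ℕ => (C : ENNReal) / (m : ENNReal)) atTop (𝓝 0) := by
        have := ENNReal.Tendsto.const_mul (a := (C : ENNReal)) ENNReal.tendsto_inv_nat_nhds_zero
          (Or.inr (ENNReal.natCast_ne_top C))
        simpa [div_eq_mul_inv] using this
      have h3 : limsup (fun m : ℕ => (C : ENNReal) / (m : ENNReal)) (atTop ⊓ 𝓟 I) ≤ 0 := by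
        refine (limsup_le_limsup_of_le inf_le_left).trans ?_
        rw [h2.limsup_eq]
      refine le_trans (limsup_le_limsup ?_) h3
      rw [EventuallyLE, eventually_inf_principal]
      filter_upwards [eventually_ge_atTop 1] with m hm hmI
      have h4 := hup m hmI hm
      have hm0 : (m : ENNReal) ≠ 0 := by
        have : m ≠ 0 := by omega
        exact_mod_cast this
      have hmt : (m : ENNReal) ≠ ⊤ := ENNReal.natCast_ne_top m
      rw [ENNReal.div_le_iff (pow_ne_zero _ hm0) (ENNReal.pow_ne_top hmt)]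
      have h5 : (C : ENNReal) / m * (m : ENNReal) ^ k' = C * (m : ENNReal) ^ (k' - 1) := by
        have e : k' = k' - 1 + 1 := by omega
        conv_lhs => rw [e, pow_succ']
        rw [← mul_assoc, ENNReal.div_mul_cancel hm0 hmt]
      rw [h5]
      have h6 : h m ≤ C * m ^ (k' - 1) :=
        h4.trans (Nat.mul_le_mul_left _ (Nat.pow_le_pow_right hm (by omega)))
      exact_mod_cast h6
    exact absurd hk' (not_lt.2 h1)
  have hmem : k ∈ {k' : ℕ | 0 < limsup (fun m : ℕ => (h m : ENNReal) / (m : ENNReal) ^ k')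
      (atTop ⊓ 𝓟 I)} := by
    have hM0 : (M : ENNReal) ≠ 0 := by
      have : M ≠ 0 := by omega
      exact_mod_cast this
    have h1 : (((M : ENNReal) ^ k)⁻¹) ≤ limsup (fun m : ℕ => (h m : ENNReal) / (m : ENNReal) ^ k)
        (atTop ⊓ 𝓟 I) := by
      refine le_limsup_of_frequently_le (freq hM hI 1 fun t _ ht => ?_)
      have hm0 : ((t * M : ℕ) : ENNReal) ≠ 0 := by
        have : t * M ≠ 0 := by positivity
        exact_mod_cast this
      rw [ENNReal.le_div_iff_mul_le (Or.inl (pow_ne_zero _ hm0))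
        (Or.inl (ENNReal.pow_ne_top (ENNReal.natCast_ne_top _)))]
      have h2 : ((M : ENNReal) ^ k)⁻¹ * ((t * M : ℕ) : ENNReal) ^ k = (t : ENNReal) ^ k := by
        rw [Nat.cast_mul, mul_pow, mul_comm ((t : ENNReal) ^ k), ← mul_assoc,
          ENNReal.inv_mul_cancel (pow_ne_zero _ hM0)
            (ENNReal.pow_ne_top (ENNReal.natCast_ne_top _)), one_mul]
      rw [h2]
      exact_mod_cast hlow t ht
    refine lt_of_lt_of_le ?_ h1
    rw [ENNReal.inv_pos]
    exact ENNReal.pow_ne_top (ENNReal.natCast_ne_top _)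
  exact le_antisymm (csSup_le' hub) (le_csSup ⟨k, hub⟩ hmem)

theorem log_natCast {a : ℕ} (ha : 1 ≤ a) : ENNReal.log (a : ENNReal) = ((Real.log a : ℝ) : EReal) := by
  have h1 : (0 : ℝ) < a := by exact_mod_cast ha
  have h2 : (a : ENNReal) = ENNReal.ofReal (a : ℝ) := (ENNReal.ofReal_natCast a).symm
  rw [h2, ENNReal.log_ofReal_of_pos h1]

theorem nu_eq (hM : 1 ≤ M) (hI : ∀ t, 1 ≤ t → t * M ∈ I)
    (hlow : ∀ t, 1 ≤ t → t ^ k ≤ h (t * M)) (hup : ∀ m ∈ I, 1 ≤ m → h m ≤ C * m ^ k) :
    limsup (fun m : ℕ => ENNReal.log (h m : ENNReal) / (Real.log m : EReal)) (atTop ⊓ 𝓟 I) =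
      (k : EReal) := by
  apply le_antisymm
  · -- upper bound
    have h2 : Tendsto (fun m : ℕ => (((k : ℝ) + Real.log (C + 1) / Real.log m : ℝ) : EReal)) atTop
        (𝓝 ((k : ℝ) : EReal)) := by
      refine (continuous_coe_real_ereal.tendsto _).comp ?_
      have h3 : Tendsto (fun m : ℕ => Real.log (C + 1) / Real.log m) atTop (𝓝 0) :=
        Tendsto.const_div_atTop (Real.tendsto_log_atTop.comp tendsto_natCast_atTop_atTop) _
      simpa using h3.const_add (k : ℝ)
    have h3 : limsup (fun m : ℕ => (((k : ℝ) + Real.log (C + 1) / Real.log m : ℝ) : EReal))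
        (atTop ⊓ 𝓟 I) ≤ (k : EReal) := by
      refine (limsup_le_limsup_of_le inf_le_left).trans ?_
      rw [h2.limsup_eq]
      exact le_of_eq rfl
    refine le_trans (limsup_le_limsup ?_) h3
    rw [EventuallyLE, eventually_inf_principal]
    filter_upwards [eventually_ge_atTop 2] with m hm hmI
    have hm1 : (1 : ℝ) < m := by exact_mod_cast hm
    have hlog : 0 < Real.log m := Real.log_pos hm1
    have hlogE : (0 : EReal) < (Real.log m : EReal) := by exact_mod_cast hlog
    have h4 := hup m hmI (by omega)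
    rcases Nat.eq_zero_or_pos (h m) with h0 | h0
    · rw [h0, Nat.cast_zero, ENNReal.log_zero, EReal.bot_div_of_pos_ne_top hlogE
        (EReal.coe_ne_top _)]
      exact bot_le
    · rw [log_natCast h0, ← EReal.coe_div]
      have h5 : Real.log (h m) / Real.log m ≤ (k : ℝ) + Real.log (C + 1) / Real.log m := by
        rw [div_le_iff₀ hlog, add_mul, div_mul_cancel₀ _ hlog.ne', ← Real.log_pow,
          ← Real.log_mul (by positivity) (by positivity)]
        refine Real.log_le_log (by exact_mod_cast h0) ?_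
        have h6 : (h m : ℝ) ≤ C * (m : ℝ) ^ k := by exact_mod_cast h4
        have h7 : (0 : ℝ) ≤ (m : ℝ) ^ k := by positivity
        nlinarith
      exact_mod_cast h5
  · -- lower bound
    have h1 : ∀ ε : ℝ, 0 < ε → (((k : ℝ) - ε : ℝ) : EReal) ≤
        limsup (fun m : ℕ => ENNReal.log (h m : ENNReal) / (Real.log m : EReal))
          (atTop ⊓ 𝓟 I) := by
      intro ε hε
      have h2 : Tendsto (fun t : ℕ => ε * Real.log t) atTop atTop :=
        (Real.tendsto_log_atTop.comp tendsto_natCast_atTop_atTop).const_mul_atTop hε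
      obtain ⟨t0, ht0⟩ := eventually_atTop.1 (h2.eventually_ge_atTop ((k : ℝ) * Real.log M))
      refine le_limsup_of_frequently_le (freq hM hI (max t0 2) fun t ht ht1 => ?_)
      have ht0' := ht0 t ((le_max_left _ _).trans ht)
      have ht2 : 2 ≤ t := (le_max_right _ _).trans ht
      have htr : (1 : ℝ) < t := by exact_mod_cast ht2
      have hMr : (1 : ℝ) ≤ M := by exact_mod_cast hM
      have h3 := hlow t ht1
      have h4 : 1 ≤ h (t * M) := (Nat.one_le_pow _ _ ht1).trans h3
      rw [log_natCast h4, ← EReal.coe_div]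
      have hlt : 0 < Real.log t := Real.log_pos htr
      have hlM : 0 ≤ Real.log M := Real.log_nonneg hMr
      have hltM : Real.log ((t * M : ℕ) : ℝ) = Real.log t + Real.log M := by
        rw [Nat.cast_mul, Real.log_mul (by positivity) (by positivity)]
      have h5 : (k : ℝ) - ε ≤ Real.log (h (t * M)) / Real.log ((t * M : ℕ) : ℝ) := by
        rw [hltM, le_div_iff₀ (by positivity)]
        have h6 : (k : ℝ) * Real.log t ≤ Real.log (h (t * M)) := by
          rw [← Real.log_pow]
          exact Real.log_le_log (by positivity) (by exact_mod_cast h3)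
        nlinarith [mul_nonneg hε.le hlM]
      exact_mod_cast h5
    have h2 : Tendsto (fun ε : ℝ => (((k : ℝ) - ε : ℝ) : EReal)) (𝓝[>] 0) (𝓝 ((k : ℝ) : EReal)) := by
      refine (continuous_coe_real_ereal.tendsto _).comp ?_
      have h3 : Tendsto (fun ε : ℝ => (k : ℝ) - ε) (𝓝 0) (𝓝 ((k : ℝ) - 0)) :=
        tendsto_const_nhds.sub tendsto_id
      rw [sub_zero] at h3
      exact h3.mono_left nhdsWithin_le_nhds
    have h3 : ((k : ℝ) : EReal) ≤ limsup (fun m : ℕ => ENNReal.log (h m : ENNReal) /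
        (Real.log m : EReal)) (atTop ⊓ 𝓟 I) := by
      refine le_of_tendsto h2 ?_
      filter_upwards [self_mem_nhdsWithin] with ε hε
      exact h1 ε hε
    exact h3

end Pool.Agent.Y172
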