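import Pool.Agent.Y172.Grow

/-!
Polynomial growth with an exponent which is the transcendence degree of a subfield.
-/

set_option autoImplicit false
set_option linter.overlappingInstances false
set_option linter.unusedSectionVars false

open FF MvPolynomial IntermediateField Pool.Agent.W603.LV Pool.Agent.W619.PQ
open Pool.Agent.TH122.AB

namespace Pool.Agent.Y172

section

variable {k K : Type} [Field k] [CharZero k] [Field K] [Algebra k K] {a l B : ℕ}

theorem mono_indep {M K : Type} [Field M] [Field K] [Algebra M K] {l : ℕ} {u : Fin l → K}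
    (hu : AlgebraicIndependent M u) : LinearIndependent M fun m : Fin l → ℕ => ∏ i, u i ^ m i := by
  have h1 : LinearIndependent M fun m : Fin l →₀ ℕ => aeval u (monomial m (1 : M)) := by
    have h2 := (basisMonomials (Fin l) M).linearIndependent
    rw [coe_basisMonomials] at h2
    exact h2.map' (aeval u : MvPolynomial (Fin l) M →ₐ[M] K).toLinearMap
      (LinearMap.ker_eq_bot.2 hu)
  have h3 := h1.comp (Finsupp.equivFunOnFinite.symm : (Fin l → ℕ) → (Fin l →₀ ℕ))
    Finsupp.equivFunOnFinite.symm.injective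
  have h4 : (fun m : Fin l → ℕ => ∏ i, u i ^ m i) = (fun m : Fin l →₀ ℕ =>
      aeval u (monomial m (1 : M))) ∘ (Finsupp.equivFunOnFinite.symm : (Fin l → ℕ) → (Fin l →₀ ℕ)) := by
    ext m
    change _ = aeval u (monomial (Finsupp.equivFunOnFinite.symm m) (1 : M))
    rw [aeval_monomial, map_one, one_mul, Finsupp.prod_fintype _ _ fun _ => pow_zero _]
    rfl
  rw [h4]
  exact h3

/-- shifted copies of a space of functions are independent -/
theorem shift_indep {M : IntermediateField k K} {u : Fin l → K} (hu : AlgebraicIndependent M u)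
    {p : K} (hp : p ≠ 0) {N m : ℕ} {f : Fin N → K} (hf : LinearIndependent k f)
    (hbox : ∀ i, ∃ b : (Fin l → Fin B) → M, f i * p = ∑ a, (b a : K) * ∏ j, u j ^ (a j : ℕ)) :
    LinearIndependent k fun x : (Fin l → Fin (m + 1)) × Fin N =>
      (∏ j, u j ^ (B * (x.1 j : ℕ))) * f x.2 := by
  classical
  choose b hb using hbox
  rw [Fintype.linearIndependent_iff]
  intro α hα
  -- the coefficients
  let β : (Fin l → Fin (m + 1)) × (Fin l → Fin B) → M := fun x =>
    ∑ i, algebraMap k M (α (x.1, i)) * b i x.2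
  let e : (Fin l → Fin (m + 1)) × (Fin l → Fin B) → Fin l → ℕ := fun x j =>
    B * (x.1 j : ℕ) + x.2 j
  have he : Function.Injective e := by
    rintro ⟨c, d⟩ ⟨c', d'⟩ h
    have h1 : ∀ j, (c j : ℕ) = c' j ∧ (d j : ℕ) = d' j := by
      intro j
      have h2 : B * (c j : ℕ) + d j = B * (c' j : ℕ) + d' j := congrFun h j
      have h3 := (d j).2
      have h4 := (d' j).2
      have hB : 0 < B := by omega
      have h5 := congrArg (fun z => z % B) h2
      have h6 := congrArg (fun z => z / B) h2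
      simp only [Nat.mul_add_mod, Nat.mod_eq_of_lt h3, Nat.mod_eq_of_lt h4] at h5
      simp only [Nat.mul_add_div hB, Nat.div_eq_of_lt h3, Nat.div_eq_of_lt h4] at h6
      exact ⟨by omega, h5⟩
    refine Prod.ext (funext fun j => Fin.ext (h1 j).1) (funext fun j => Fin.ext (h1 j).2)
  have hlin := (mono_indep hu).comp e he
  have h0 : ∑ x, β x • (∏ j, u j ^ e x j) = 0 := by
    have h1 : (∑ x : (Fin l → Fin (m + 1)) × Fin N,
        α x • ((∏ j, u j ^ (B * (x.1 j : ℕ))) * f x.2)) * p = 0 := by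
      rw [hα, zero_mul]
    rw [← h1, Finset.sum_mul, Fintype.sum_prod_type, Fintype.sum_prod_type]
    refine Finset.sum_congr rfl fun c _ => ?_
    have h2 : ∀ i, α (c, i) • ((∏ j, u j ^ (B * (c j : ℕ))) * f i) * p =
        ∑ d : Fin l → Fin B, ((algebraMap k M (α (c, i)) * b i d : M) : K) *
          ∏ j, u j ^ e (c, d) j := by
      intro i
      rw [Algebra.smul_def, mul_assoc, mul_assoc, hb i, Finset.mul_sum, Finset.mul_sum]
      refine Finset.sum_congr rfl fun d _ => ?_
      have h3 : ∏ j, u j ^ e (c, d) j = (∏ j, u j ^ (B * (c j : ℕ))) * ∏ j, u j ^ (d j : ℕ) := by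
        rw [← Finset.prod_mul_distrib]
        exact Finset.prod_congr rfl fun j _ => pow_add _ _ _
      rw [h3]
      have h4 : ((algebraMap k M (α (c, i)) * b i d : M) : K) =
          algebraMap k K (α (c, i)) * (b i d : K) := rfl
      rw [h4]
      ring
    rw [Finset.sum_congr rfl fun i _ => h2 i, Finset.sum_comm]
    refine Finset.sum_congr rfl fun d _ => ?_
    rw [Algebra.smul_def, ← Finset.sum_mul]
    congr 1
    change ((β (c, d) : M) : K) = _
    change M.val (∑ i, algebraMap k M (α (c, i)) * b i d) = _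
    rw [map_sum]
    rfl
  have hβ : ∀ x, β x = 0 := Fintype.linearIndependent_iff.1 hlin β h0
  -- back to the functions
  have hc : ∀ c, ∑ i, α (c, i) • f i = 0 := by
    intro c
    have h1 : (∑ i, α (c, i) • f i) * p = 0 := by
      rw [Finset.sum_mul]
      have h2 : ∀ i, α (c, i) • f i * p =
          ∑ d : Fin l → Fin B, ((algebraMap k M (α (c, i)) * b i d : M) : K) *
            ∏ j, u j ^ (d j : ℕ) := by
        intro i
        rw [Algebra.smul_def, mul_assoc, hb i, Finset.mul_sum]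
        refine Finset.sum_congr rfl fun d _ => ?_
        have h4 : ((algebraMap k M (α (c, i)) * b i d : M) : K) =
            algebraMap k K (α (c, i)) * (b i d : K) := rfl
        rw [h4]
        ring
      rw [Finset.sum_congr rfl fun i _ => h2 i, Finset.sum_comm]
      refine Finset.sum_eq_zero fun d _ => ?_
      rw [← Finset.sum_mul]
      have h3 : ∑ i, ((algebraMap k M (α (c, i)) * b i d : M) : K) = ((β (c, d) : M) : K) := by
        change _ = M.val (∑ i, algebraMap k M (α (c, i)) * b i d)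
        rw [map_sum]
        rfl
      rw [h3, hβ]
      change (0 : K) * _ = 0
      rw [zero_mul]
    exact (mul_eq_zero.1 h1).resolve_right hp
  rintro ⟨c, i⟩
  exact Fintype.linearIndependent_iff.1 hf (fun i => α (c, i)) (hc c) i

/-- **Growth with respect to a subfield.** -/
theorem growth_rel {n : ℕ} {Z : Fin n → K} (hZ : IsTranscendenceBasis k Z)
    (hfd : FiniteDimensional (IntermediateField.adjoin k (Set.range Z)) K)
    (S : Finset K) (𝓕 : ℕ → Set K)
    (hA : ∀ P : Place k K, ∃ C : ℕ, ∀ m, 1 ≤ m → ∀ f ∈ 𝓕 m, Ge P (-((C * m : ℕ) : ℤ)) f)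
    (hB : ∀ P : Place k K, (∀ s ∈ S, P.Reg s) → ∀ m, 1 ≤ m → ∀ f ∈ 𝓕 m, P.Reg f)
    {M : IntermediateField k K} {u : Fin l → K} (hu : AlgebraicIndependent M u) {p : K}
    (hp : p ≠ 0) (hn : n = a + l) (B : ℕ)
    (hbox : ∀ m, 1 ≤ m → ∀ f ∈ 𝓕 m, ∃ b : (Fin l → Fin B) → M,
      f * p = ∑ a, (b a : K) * ∏ j, u j ^ (a j : ℕ)) :
    ∃ C : ℕ, ∀ m, 1 ≤ m → ∀ (N : ℕ) (f : Fin N → K), LinearIndependent k f →
      (∀ i, f i ∈ 𝓕 m) → N ≤ C * m ^ a := by
  classical
  have hu0 : ∀ j, u j ≠ 0 := fun j => hu.ne_zero j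
  let 𝓖 : ℕ → Set K := fun m => {g | ∃ c : Fin l → Fin (m + 1), ∃ f ∈ 𝓕 m,
    g = (∏ j, u j ^ (B * (c j : ℕ))) * f}
  obtain ⟨C, hC⟩ := growth hZ hfd (S ∪ Finset.univ.image u) 𝓖 (by
    intro P
    obtain ⟨C, hC⟩ := hA P
    refine ⟨C + B * ∑ j, (P.ord (u j)).natAbs, ?_⟩
    rintro m hm _ ⟨c, f, hf, rfl⟩
    have h1 := hC m hm f hf
    have h2 : Ge P (-((B * (∑ j, (P.ord (u j)).natAbs) * m : ℕ) : ℤ))
        (∏ j, u j ^ (B * (c j : ℕ))) := by
      right
      rw [ord_prod _ P _ fun j _ => pow_ne_zero _ (hu0 j)]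
      have h3 : ∀ j, -((B * m * (P.ord (u j)).natAbs : ℕ) : ℤ) ≤ P.ord (u j ^ (B * (c j : ℕ))) := by
        intro j
        rw [P.ord_pow]
        have h4 : (c j : ℕ) ≤ m := Nat.lt_succ_iff.1 (c j).2
        have h5 : ((B * (c j : ℕ) : ℕ) : ℤ) ≤ ((B * m : ℕ) : ℤ) := by
          exact_mod_cast Nat.mul_le_mul_left _ h4
        have h6 : -((P.ord (u j)).natAbs : ℤ) ≤ P.ord (u j) := by omega
        have h7 : (0 : ℤ) ≤ ((B * (c j : ℕ) : ℕ) : ℤ) := Int.natCast_nonneg _
        have h8 : (0 : ℤ) ≤ ((P.ord (u j)).natAbs : ℤ) := Int.natCast_nonneg _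
        have h9 := mul_le_mul_of_nonneg_left h6 h7
        have h10 := mul_le_mul_of_nonneg_right h5 h8
        have h11 : ((B * m * (P.ord (u j)).natAbs : ℕ) : ℤ) = ((B * m : ℕ) : ℤ) *
            ((P.ord (u j)).natAbs : ℤ) := by push_cast; ring
        rw [h11]
        linarith
      refine le_trans (le_of_eq ?_) (Finset.sum_le_sum fun j _ => h3 j)
      rw [Finset.sum_neg_distrib]
      congr 1
      rw [← Nat.cast_sum]
      congr 1
      rw [← Finset.mul_sum]
      ring
    have h3 := h2.mul h1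
    refine h3.mono (le_of_eq ?_)
    push_cast
    ring) (by
    rintro P hP m hm _ ⟨c, f, hf, rfl⟩
    refine P.reg_mul ?_ (hB P (fun s hs => hP s (Finset.mem_union_left _ hs)) m hm f hf)
    right
    rw [ord_prod _ P _ fun j _ => pow_ne_zero _ (hu0 j)]
    refine Finset.sum_nonneg fun j _ => ?_
    have h1 := (P.reg_iff (hu0 j)).1 (hP _ (Finset.mem_union_right _
      (Finset.mem_image_of_mem _ (Finset.mem_univ j))))
    rw [P.ord_pow]
    positivity)
  refine ⟨C, fun m hm N f hf hmem => ?_⟩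
  have h1 := shift_indep (m := m) hu hp hf fun i => hbox m hm _ (hmem i)
  let e := (Fintype.equivFin ((Fin l → Fin (m + 1)) × Fin N))
  have h2 := h1.comp e.symm e.symm.injective
  have h3 := hC m hm _ _ h2 fun i => ⟨(e.symm i).1, f (e.symm i).2, hmem _, rfl⟩
  rw [Fintype.card_prod, Fintype.card_fun, Fintype.card_fin, Fintype.card_fin, Fintype.card_fin,
    hn, pow_add, ← mul_assoc] at h3
  have h4 : m ^ l ≤ (m + 1) ^ l := Nat.pow_le_pow_left (Nat.le_succ m) l
  have h5 : m ^ l * N ≤ C * m ^ a * m ^ l := (Nat.mul_le_mul_right N h4).trans h3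
  rw [mul_comm] at h5
  exact Nat.le_of_mul_le_mul_right h5 (pow_pos hm l)

end

end Pool.Agent.Y172
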