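import Pool.Agent.Y172.Sec
import Pool.Agent.Y172.Rel
import Pool.Agent.Y172.Lim

/-!
The Kodaira dimension and the numerical dimension from sections and bounds.
-/

set_option autoImplicit false

open FF Pool.Agent.W602.GT Pool.Agent.W603.LV

namespace Pool.Agent.Y172

section

variable {K : Type} [Field K] [Algebra ℂ K] {N : ℕ} {y : Fin (N + 1) → K} {n : ℕ}

theorem OrdGe.mono {P : Place ℂ K} {ω : (Fin n → Derivation ℂ K K) → K} {c c' : ℚ}
    (h : OrdGe P ω c) (hc : c' ≤ c) : OrdGe P ω c' := by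
  intro E hE
  rcases h E hE with h | h
  · exact Or.inl h
  · exact Or.inr (hc.trans h)

theorem OrdGe.add {P : Place ℂ K} {ω ω' : (Fin n → Derivation ℂ K K) → K} {c : ℚ}
    (h : OrdGe P ω c) (h' : OrdGe P ω' c) : OrdGe P (ω + ω') c := by
  intro E hE
  change ω E + ω' E = 0 ∨ c ≤ P.ord (ω E + ω' E)
  rcases h E hE with h1 | h1
  · rw [h1, zero_add]
    exact h' E hE
  rcases h' E hE with h2 | h2
  · rw [h2, add_zero]
    exact Or.inr h1
  by_cases h3 : ω E = 0
  · rw [h3, zero_add]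
    exact Or.inr h2
  by_cases h4 : ω' E = 0
  · rw [h4, add_zero]
    exact Or.inr h1
  by_cases h5 : ω E + ω' E = 0
  · exact Or.inl h5
  right
  have h6 := P.ord_add h3 h4 h5
  have h7 : c ≤ ((min (P.ord (ω E)) (P.ord (ω' E)) : ℤ) : ℚ) := by
    rw [Int.cast_min]
    exact le_min h1 h2
  exact h7.trans (by exact_mod_cast h6)

theorem OrdGe.mul {P : Place ℂ K} {ω ω' : (Fin n → Derivation ℂ K K) → K} {c c' : ℚ}
    (h : OrdGe P ω c) (h' : OrdGe P ω' c') : OrdGe P (fun E => ω E * ω' E) (c + c') := by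
  intro E hE
  change ω E * ω' E = 0 ∨ c + c' ≤ P.ord (ω E * ω' E)
  rcases h E hE with h1 | h1
  · exact Or.inl (by rw [h1, zero_mul])
  rcases h' E hE with h2 | h2
  · exact Or.inl (by rw [h2, mul_zero])
  by_cases h3 : ω E = 0
  · exact Or.inl (by rw [h3, zero_mul])
  by_cases h4 : ω' E = 0
  · exact Or.inl (by rw [h4, mul_zero])
  right
  rw [P.ord_mul h3 h4]
  push_cast
  exact add_le_add h1 h2

theorem isPluri_mul {m m' : ℕ} {ω ω' : (Fin n → Derivation ℂ K K) → K} (h : IsPluri m ω)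
    (h' : IsPluri m' ω') : IsPluri (m + m') (fun E => ω E * ω' E) := by
  intro A D
  have h1 := h A D
  have h2 := h' A D
  change ω _ * ω' _ = _
  rw [h1, h2, pow_add]
  ring

theorem IsSection.mul {m m' : ℕ} {D D' : Place ℂ K → ℚ} {ω ω' : (Fin n → Derivation ℂ K K) → K}
    (h : IsSection y n m D ω) (h' : IsSection y n m' D' ω') :
    IsSection y n (m + m') (D + D') (fun E => ω E * ω' E) := by
  refine ⟨isPluri_mul h.1 h'.1, fun P hP => ?_⟩
  have h1 := (h.2 P hP).mul (h'.2 P hP)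
  refine h1.mono (le_of_eq ?_)
  simp only [Pi.add_apply]
  ring

theorem isSection_one : IsSection y n 0 0 (fun _ : Fin n → Derivation ℂ K K => (1 : K)) := by
  refine ⟨fun A D => by simp, fun P _ E _ => Or.inr ?_⟩
  rw [P.ord_one]
  simp

theorem IsSection.pow {m : ℕ} {D : Place ℂ K → ℚ} {ω : (Fin n → Derivation ℂ K K) → K}
    (h : IsSection y n m D ω) (t : ℕ) : IsSection y n (t * m) (t • D) (fun E => ω E ^ t) := by
  induction t with
  | zero =>
    simp only [zero_mul, zero_smul, pow_zero]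
    exact isSection_one
  | succ t ih =>
    have h1 := ih.mul h
    have e1 : t * m + m = (t + 1) * m := by ring
    have e2 : t • D + D = (t + 1) • D := by rw [add_smul, one_smul]
    rw [e1, e2] at h1
    simp only [pow_succ]
    exact h1

theorem isSection_prod {m : ℕ} {D : Place ℂ K → ℚ} {r : ℕ}
    {ω : Fin r → (Fin n → Derivation ℂ K K) → K} (h : ∀ i, IsSection y n m D (ω i))
    (a : Fin r → ℕ) : IsSection y n ((∑ i, a i) * m) ((∑ i, a i) • D) (fun E => ∏ i, ω i E ^ a i) := by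
  induction r with
  | zero =>
    simp only [Finset.univ_eq_empty, Finset.sum_empty, zero_mul, zero_smul, Finset.prod_empty]
    exact isSection_one
  | succ r ih =>
    have h1 := ((h 0).pow (a 0)).mul (ih (fun i => h i.succ) fun i => a i.succ)
    simp only [Fin.sum_univ_succ, Fin.prod_univ_succ, add_mul, add_smul]
    exact h1

/-- the space of the sections -/
def secSub (y : Fin (N + 1) → K) (n m : ℕ) (D : Place ℂ K → ℚ) :
    Submodule ℂ ((Fin n → Derivation ℂ K K) → K) where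
  carrier := {ω | IsSection y n m D ω}
  add_mem' := by
    rintro ω ω' ⟨h1, h2⟩ ⟨h1', h2'⟩
    refine ⟨fun A E => ?_, fun P hP => (h2 P hP).add (h2' P hP)⟩
    change ω _ + ω' _ = _ * (ω E + ω' E)
    rw [h1 A E, h1' A E, mul_add]
  zero_mem' := ⟨fun A E => by simp, fun P _ E _ => Or.inl rfl⟩
  smul_mem' := by
    rintro c ω ⟨h1, h2⟩
    refine ⟨fun A E => ?_, fun P hP E hE => ?_⟩
    · change c • ω _ = _ * (c • ω E)
      rw [h1 A E, mul_smul_comm]
    · change c • ω E = 0 ∨ _ ≤ ((P.ord (c • ω E) : ℤ) : ℚ)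
      by_cases hc : c = 0
      · exact Or.inl (by rw [hc, zero_smul])
      rcases h2 P hP E hE with h3 | h3
      · exact Or.inl (by rw [h3, smul_zero])
      by_cases h4 : ω E = 0
      · exact Or.inl (by rw [h4, smul_zero])
      right
      rw [Algebra.smul_def, P.ord_mul (by simpa using hc) h4, P.ord_const hc, zero_add]
      exact h3

theorem mem_secSub {m : ℕ} {D : Place ℂ K → ℚ} {ω : (Fin n → Derivation ℂ K K) → K} :
    ω ∈ secSub y n m D ↔ IsSection y n m D ω := Iff.rfl

theorem h0_eq (m : ℕ) (D : Place ℂ K → ℚ) : h0 y n m D = Module.finrank ℂ (secSub y n m D) := by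
  unfold h0
  have : Submodule.span ℂ {ω | IsSection y n m D ω} = secSub y n m D :=
    Submodule.span_eq (secSub y n m D)
  rw [this]

/-- every vector field is a combination of the fields of the frame -/
def IsFrame (D : Fin n → Derivation ℂ K K) : Prop :=
  ∀ E : Derivation ℂ K K, ∃ a : Fin n → K, E = ∑ j, a j • D j

theorem pluri_zero {D : Fin n → Derivation ℂ K K} (hD : IsFrame D) {m : ℕ}
    {ω : (Fin n → Derivation ℂ K K) → K} (hω : IsPluri m ω) (h0 : ω D = 0) : ω = 0 := by
  funext E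
  choose a ha using fun i => hD (E i)
  have h1 := hω (Matrix.of a) D
  have h2 : (fun i => ∑ j, Matrix.of a i j • D j) = E := by
    funext i
    exact (ha i).symm
  rw [h2, h0, mul_zero] at h1
  exact h1

theorem finite_h0 {D : Fin n → Derivation ℂ K K} (hD : IsFrame D) {m : ℕ} {A : Place ℂ K → ℚ}
    {B : ℕ} (hB : ∀ (r : ℕ) (f : Fin r → K), LinearIndependent ℂ f →
      (∀ i, ∃ ω, IsSection y n m A ω ∧ ω D = f i) → r ≤ B) :
    Module.Finite ℂ (secSub y n m A) ∧ h0 y n m A ≤ B := by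
  have h1 : Module.rank ℂ (secSub y n m A) ≤ B := by
    refine rank_le fun s hs => ?_
    let ev : secSub y n m A →ₗ[ℂ] K :=
      { toFun := fun ω => (ω : (Fin n → Derivation ℂ K K) → K) D
        map_add' := fun _ _ => rfl
        map_smul' := fun _ _ => rfl }
    have hev : LinearMap.ker ev = ⊥ := by
      rw [LinearMap.ker_eq_bot']
      intro ω hω
      exact Subtype.ext (pluri_zero hD ω.2.1 hω)
    have h2 := hs.map' ev hev
    have h3 := h2.comp s.equivFin.symm s.equivFin.symm.injective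
    exact hB _ _ h3 fun i => ⟨_, (s.equivFin.symm i).1.2, rfl⟩
  refine ⟨?_, ?_⟩
  · exact Module.rank_lt_aleph0_iff.1 (lt_of_le_of_lt h1 Cardinal.natCast_lt_aleph0)
  · rw [h0_eq]
    exact Module.finrank_le_of_rank_le h1

theorem le_h0 {m : ℕ} {A : Place ℂ K → ℚ} (hfin : Module.Finite ℂ (secSub y n m A)) {ι : Type}
    [Fintype ι] {v : ι → (Fin n → Derivation ℂ K K) → K} (hv : LinearIndependent ℂ v)
    (h : ∀ i, IsSection y n m A (v i)) : Fintype.card ι ≤ h0 y n m A := by
  rw [h0_eq]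
  have h1 : LinearIndependent ℂ (fun i => (⟨v i, h i⟩ : secSub y n m A)) :=
    LinearIndependent.of_comp (secSub y n m A).subtype hv
  exact h1.fintype_card_le_finrank

/-- **The Kodaira dimension and the numerical dimension.** -/
theorem dims {k : ℕ} {Δ : Place ℂ K → ℚ} (hΔ : Effective y Δ)
    {D : Fin n → Derivation ℂ K K} (hD : IsFrame D)
    (hup : ∀ A, Effective y A → ∃ C : ℕ, ∀ m : ℕ, 1 ≤ m → ∀ (r : ℕ) (f : Fin r → K),
      LinearIndependent ℂ f → (∀ i, ∃ ω, IsSection y n m (m • Δ + A) ω ∧ ω D = f i) →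
      r ≤ C * m ^ k)
    {m0 : ℕ} (hm0 : 1 ≤ m0) {ω : Fin (k + 1) → (Fin n → Derivation ℂ K K) → K}
    (hω : ∀ j, IsSection y n m0 (m0 • Δ) (ω j)) {E : Fin n → Derivation ℂ K K}
    (hE : ω 0 E ≠ 0) (hind : AlgebraicIndependent ℂ (fun i : Fin k => ω i.succ E / ω 0 E)) :
    kodairaDim y n Δ = (k : WithBot ℕ) ∧
      ∀ A, Effective y A → Integral y A → numericalDim y n Δ A = (k : EReal) := by
  classical
  -- a common denominator
  obtain ⟨d0, hd0, hint⟩ : ∃ d0 : ℕ, 1 ≤ d0 ∧ ∀ t : ℕ, Integral y ((t * d0) • Δ) := by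
    let S := hΔ.2.toFinset
    refine ⟨∏ P ∈ S, (Δ P).den, Nat.pos_of_ne_zero (Finset.prod_ne_zero_iff.2 fun P _ =>
      (Δ P).den_ne_zero), fun t P hP => ?_⟩
    by_cases h0 : Δ P = 0
    · exact ⟨0, by simp [h0]⟩
    have hPS : P ∈ S := by
      rw [Set.Finite.mem_toFinset]
      exact ⟨hP, h0⟩
    refine ⟨t * (∏ Q ∈ S.erase P, (Δ Q).den : ℕ) * (Δ P).num, ?_⟩
    rw [← Finset.prod_erase_mul _ _ hPS]
    have h1 : ((Δ P).den : ℚ) * Δ P = (Δ P).num := by
      rw [mul_comm]
      exact Rat.mul_den_eq_num (Δ P)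
    simp only [Pi.smul_apply, nsmul_eq_mul]
    push_cast
    rw [← h1]
    ring
  have hzero : Effective y (0 : Place ℂ K → ℚ) :=
    ⟨fun _ _ => le_rfl, Set.finite_empty.subset (by rintro P ⟨-, h⟩; exact h rfl)⟩
  -- the lower bound
  obtain ⟨M, hM⟩ : ∃ M : ℕ, M = (k + 1) * d0 * m0 := ⟨_, rfl⟩
  have hM1 : 1 ≤ M := by
    rw [hM]
    exact Nat.mul_pos (Nat.mul_pos (Nat.succ_pos k) hd0) hm0
  have hlow : ∀ A, Effective y A → ∀ t : ℕ, 1 ≤ t →
      t ^ k ≤ h0 y n (t * M) ((t * M) • Δ + A) := by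
    intro A hA t ht
    obtain ⟨C, hC⟩ := hup A hA
    have htM : 1 ≤ t * M := Nat.mul_pos ht hM1
    obtain ⟨hfin, -⟩ := finite_h0 hD (hC (t * M) htM)
    let T := (k + 1) * d0 * t
    let b : (Fin k → Fin (t + 1)) → Fin (k + 1) → ℕ := fun a =>
      Fin.cons (T - ∑ i, (a i : ℕ)) fun i => (a i : ℕ)
    have hle : ∀ a : Fin k → Fin (t + 1), ∑ i, (a i : ℕ) ≤ T := by
      intro a
      have h1 : ∑ i, (a i : ℕ) ≤ ∑ _i : Fin k, t :=
        Finset.sum_le_sum fun i _ => Nat.lt_succ_iff.1 (a i).2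
      rw [Finset.sum_const, Finset.card_univ, Fintype.card_fin, smul_eq_mul] at h1
      refine h1.trans ?_
      have h2 : k * t ≤ (k + 1) * d0 * t :=
        Nat.mul_le_mul_right _ ((Nat.le_succ k).trans (Nat.le_mul_of_pos_right _ hd0))
      exact h2
    have hsum : ∀ a, ∑ i, b a i = T := by
      intro a
      rw [Fin.sum_univ_succ]
      simp only [b, Fin.cons_zero, Fin.cons_succ]
      exact Nat.sub_add_cancel (hle a)
    let v : (Fin k → Fin (t + 1)) → (Fin n → Derivation ℂ K K) → K := fun a E =>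
      ∏ i, ω i E ^ b a i
    have hv : ∀ a, IsSection y n (t * M) ((t * M) • Δ + A) (v a) := by
      intro a
      have h1 := isSection_prod hω (b a)
      rw [hsum] at h1
      have e1 : T * m0 = t * M := by
        rw [hM]
        ring
      rw [e1, smul_smul, e1] at h1
      refine ⟨h1.1, fun P hP => (h1.2 P hP).mono ?_⟩
      have := hA.1 P hP
      simp only [Pi.add_apply]
      linarith
    have hvE : ∀ a, v a E = ω 0 E ^ T * ∏ i : Fin k, (ω i.succ E / ω 0 E) ^ (a i : ℕ) := by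
      intro a
      change ∏ i, ω i E ^ b a i = _
      rw [Fin.prod_univ_succ]
      simp only [b, Fin.cons_zero, Fin.cons_succ, div_pow, Finset.prod_div_distrib]
      have h1 : ω 0 E ^ T = ω 0 E ^ (T - ∑ i, (a i : ℕ)) * ∏ i, ω 0 E ^ (a i : ℕ) := by
        rw [Finset.prod_pow_eq_pow_sum, ← pow_add, Nat.sub_add_cancel (hle a)]
      rw [h1]
      have h2 : ∏ i, ω 0 E ^ (a i : ℕ) ≠ 0 := Finset.prod_ne_zero_iff.2 fun i _ => pow_ne_zero _ hE
      field_simp
    have hvind : LinearIndependent ℂ v := by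
      have h1 : LinearIndependent ℂ fun a : Fin k → Fin (t + 1) =>
          ∏ i : Fin k, (ω i.succ E / ω 0 E) ^ (a i : ℕ) :=
        (mono_indep hind).comp (fun (a : Fin k → Fin (t + 1)) i => (a i : ℕ)) (by
          intro a a' h
          funext i
          exact Fin.ext (congrFun h i))
      have h2 : LinearIndependent ℂ fun a => v a E := by
        have h3 := h1.map' (LinearMap.mulLeft ℂ (ω 0 E ^ T)) (by
          rw [LinearMap.ker_eq_bot]
          exact fun a b hab => mul_left_cancel₀ (pow_ne_zero _ hE) hab)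
        have h4 : (fun a => v a E) = (LinearMap.mulLeft ℂ (ω 0 E ^ T)) ∘
            fun a : Fin k → Fin (t + 1) => ∏ i : Fin k, (ω i.succ E / ω 0 E) ^ (a i : ℕ) := by
          funext a
          exact hvE a
        rw [h4]
        exact h3
      exact LinearIndependent.of_comp (LinearMap.proj E) h2
    have h1 := le_h0 hfin hvind hv
    rw [Fintype.card_fun, Fintype.card_fin, Fintype.card_fin] at h1
    exact (Nat.pow_le_pow_left (Nat.le_succ t) k).trans h1
  have hint' : ∀ A, Integral y A → ∀ t : ℕ, Integral y ((t * M) • Δ + A) := by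
    intro A hA t P hP
    obtain ⟨z, hz⟩ := hint (t * (k + 1) * m0) P hP
    obtain ⟨z', hz'⟩ := hA P hP
    refine ⟨z + z', ?_⟩
    have e1 : t * M = t * (k + 1) * m0 * d0 := by
      rw [hM]
      ring
    rw [Pi.add_apply, hz', e1, hz]
    push_cast
    ring
  have hzint : Integral y (0 : Place ℂ K → ℚ) := fun P _ => ⟨0, by simp⟩
  constructor
  · obtain ⟨C, hC⟩ := hup 0 hzero
    have hlow0 := hlow 0 hzero
    have hint0 := hint' 0 hzint
    simp only [add_zero] at hlow0 hint0 hC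
    unfold kodairaDim
    rw [if_neg]
    · congr 1
      exact kappa_eq (I := {m : ℕ | 1 ≤ m ∧ Integral y (m • Δ)})
        (h := fun m => h0 y n m (m • Δ)) (C := C) hM1
        (fun t ht => ⟨Nat.mul_pos ht hM1, hint0 t⟩) hlow0
        fun m _ hm => (finite_h0 hD (hC m hm)).2
    · intro hcon
      have h1 := hcon (1 * M) (by omega) (hint0 1)
      have h2 := hlow0 1 le_rfl
      rw [h1, one_pow] at h2
      omega
  · intro A hA hAint
    obtain ⟨C, hC⟩ := hup A hA
    exact nu_eq (I := {m : ℕ | 1 ≤ m ∧ Integral y (m • Δ + A)})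
      (h := fun m => h0 y n m (m • Δ + A)) (C := C) hM1
      (fun t ht => ⟨Nat.mul_pos ht hM1, hint' A hAint t⟩) (hlow A hA)
      fun m _ hm => (finite_h0 hD (hC m hm)).2

end

end Pool.Agent.Y172
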