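import Pool.Agent.Y172.R2

/-!
Prime divisors in the diminished base locus of `K_X + Δ`.
-/

set_option autoImplicit false
set_option linter.overlappingInstances false
set_option linter.unusedSectionVars false

open FF Pool.Agent.W602.GT Pool.Agent.W603.LV Pool.Agent.W619.PQ Pool.Agent.TH122.AB Filter

namespace Pool.Agent.Y172

section

variable {K : Type} [Field K] [Algebra ℂ K] {N n : ℕ} {y : Fin (N + 1) → K}

/-- The prime divisor `P` is in the base locus of `m (K_X + Δ + η A)` for all `m ≥ 1` and all small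
`η ≥ 0`. -/
def Diminished (y : Fin (N + 1) → K) (n : ℕ) (Δ A : Place ℂ K → ℚ) (P : Place ℂ K) : Prop :=
  ∃ η₀ : ℚ, 0 < η₀ ∧ ∀ (m : ℕ) (η : ℚ), 1 ≤ m → 0 ≤ η → η ≤ η₀ →
    ∀ ω, IsSection y n m (m • (Δ + η • A)) ω → ω ≠ 0 → ¬ OrdEq P ω (-(m * (Δ P + η * A P)))

variable {P : Place ℂ K} {yP : Fin n → K} {EP : Fin n → Derivation ℂ K K} {i0 : Fin n}

theorem loc_ge (hl : Loc P yP EP i0) {m : ℕ} {ω : (Fin n → Derivation ℂ K K) → K}
    (hω : IsPluri m ω) {G : Fin n → Derivation ℂ K K} (hG : ∀ i, DerReg P (G i)) :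
    Ge P (P.ord (ω EP)) (ω G) := by
  classical
  rw [pluri_coord hl.bas hl.dual hω G]
  have h1 : Ge P 0 (Matrix.of fun i j => G i (yP j) : Matrix (Fin n) (Fin n) K).det :=
    ge_det P _ _ (fun _ _ => 0) (fun a b => hG a _ (hl.reg b)) fun σ => by simp
  have h2 := (h1.pow m).mul (ge_ord P (ω EP))
  rw [mul_zero, zero_add] at h2
  exact h2

theorem ordGe_iff (hl : Loc P yP EP i0) {m : ℕ} {ω : (Fin n → Derivation ℂ K K) → K}
    (hω : IsPluri m ω) {c : ℚ} : OrdGe P ω c ↔ (ω EP = 0 ∨ c ≤ P.ord (ω EP)) := by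
  constructor
  · exact fun h => h EP hl.pres
  · intro h G hG
    by_cases h0 : ω G = 0
    · exact Or.inl h0
    right
    have h1 : ω EP ≠ 0 := by
      intro h1
      apply h0
      rw [pluri_coord hl.bas hl.dual hω G, h1, mul_zero]
    have h2 := (loc_ge hl hω hG).resolve_left h0
    have h3 := h.resolve_left h1
    exact h3.trans (by exact_mod_cast h2)

theorem ordEq_iff (hl : Loc P yP EP i0) {m : ℕ} {ω : (Fin n → Derivation ℂ K K) → K}
    (hω : IsPluri m ω) (h0 : ω EP ≠ 0) {c : ℚ} : OrdEq P ω c ↔ (P.ord (ω EP) : ℚ) = c := by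
  constructor
  · rintro ⟨h1, G, hG, hG0, hGc⟩
    have h2 := (h1 EP hl.pres).resolve_left h0
    have h3 := (loc_ge hl hω hG).resolve_left hG0
    have h4 : (P.ord (ω EP) : ℚ) ≤ P.ord (ω G) := by exact_mod_cast h3
    linarith
  · intro h
    exact ⟨(ordGe_iff hl hω).2 (Or.inr h.ge), EP, hl.pres, h0, h⟩

theorem loc_ne (hl : Loc P yP EP i0) {m : ℕ} {ω : (Fin n → Derivation ℂ K K) → K}
    (hω : IsPluri m ω) (h0 : ω ≠ 0) : ω EP ≠ 0 := by
  intro h
  apply h0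
  funext G
  rw [pluri_coord hl.bas hl.dual hω G, h, mul_zero]
  rfl

/-- a form has finitely many poles -/
theorem finite_poles (hy : NormalModel y) (hn : Algebra.trdeg ℂ K = n) {Δ : Place ℂ K → ℚ}
    (hΔ : Effective y Δ) {m : ℕ} {ω : (Fin n → Derivation ℂ K K) → K}
    (hω : IsPluri m ω) : {P | IsPrimeDivisor y P ∧ ¬ OrdGe P ω (-(m * Δ P))}.Finite := by
  classical
  obtain ⟨yc, E, hyc, hE⟩ := exists_crd hn
  by_cases h0 : ω E = 0
  · refine Set.finite_empty.subset ?_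
    rintro P ⟨-, hP⟩
    apply hP
    intro G _
    left
    rw [pluri_coord hyc hE hω G, h0, mul_zero]
  have hy0 : ∀ j, yc j ≠ 0 := fun j => hyc.1.ne_zero j
  have h1 : (⋃ j, {P : Place ℂ K | IsPrimeDivisor y P ∧ P.ord (yc j) ≠ 0}).Finite :=
    Set.finite_iUnion fun j => finite_ord hy (hy0 j)
  refine (h1.union (finite_ord hy h0)).subset ?_
  rintro P ⟨hP, hPω⟩
  by_contra hcon
  rw [Set.mem_union, Set.mem_iUnion] at hcon
  push Not at hcon
  obtain ⟨hcon1, hcon2⟩ := hcon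
  apply hPω
  intro G hG
  have h2 : ∀ j, P.ord (yc j) = 0 := by
    intro j
    by_contra h3
    exact hcon1 j ⟨hP, h3⟩
  have h3 : P.ord (ω E) = 0 := by
    by_contra h3
    exact hcon2 ⟨hP, h3⟩
  have h4 : Ge P 0 (Matrix.of fun i j => G i (yc j) : Matrix (Fin n) (Fin n) K).det :=
    ge_det P _ _ (fun _ _ => 0) (fun a b => hG a _ (Or.inr (h2 b).ge)) fun σ => by simp
  have h5 := (h4.pow m).mul (ge_ord P (ω E))
  rw [← pluri_coord hyc hE hω G, h3] at h5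
  rcases h5 with h5 | h5
  · exact Or.inl h5
  right
  have h6 : (0 : ℚ) ≤ (P.ord (ω G) : ℚ) := by
    have : (0 : ℤ) ≤ P.ord (ω G) := by simpa using h5
    exact_mod_cast this
  have h7 : (0 : ℚ) ≤ m * Δ P := mul_nonneg (Nat.cast_nonneg _) (hΔ.1 P hP)
  linarith

/-- **Poles along the diminished base locus are impossible.** -/
theorem no_poles (hy : NormalModel y) (hn : Algebra.trdeg ℂ K = n) {Δ A : Place ℂ K → ℚ}
    (hΔ : Effective y Δ)
    (hps : ∀ m1 : ℕ, ∃ m' : ℕ, m1 ≤ m' ∧ ∃ s', IsSection y n m' (m' • Δ + A) s' ∧ s' ≠ 0)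
    {m : ℕ} {s : (Fin n → Derivation ℂ K K) → K} (hs : IsPluri m s) (hs0 : s ≠ 0)
    (h : ∀ P, IsPrimeDivisor y P → OrdGe P s (-(m * Δ P)) ∨ Diminished y n Δ A P) :
    IsSection y n m (m • Δ) s := by
  classical
  have hess := hy.ess
  have e0 : ∀ P, (m • Δ) P = m * Δ P := fun P => by rw [Pi.smul_apply, nsmul_eq_mul]
  obtain ⟨T, hT⟩ : ∃ T : Finset (Place ℂ K), ∀ P, P ∈ T ↔
      (IsPrimeDivisor y P ∧ ¬ OrdGe P s (-(m * Δ P))) :=
    ⟨(finite_poles hy hn hΔ hs).toFinset, fun P => by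
      rw [Set.Finite.mem_toFinset]
      rfl⟩
  rcases T.eq_empty_or_nonempty with hTe | hTn
  · refine ⟨hs, fun P hP => ?_⟩
    rw [e0]
    by_contra hcon
    have := (hT P).2 ⟨hP, hcon⟩
    rw [hTe] at this
    simp at this
  exfalso
  -- the frames
  have hloc : ∀ P, IsPrimeDivisor y P → ∃ (yP : Fin n → K) (EP : Fin n → Derivation ℂ K K)
      (i0 : Fin n), Loc P yP EP i0 := fun P hP => exists_loc hn (hP.divisorial hy hn)
  have hdim : ∀ P ∈ T, Diminished y n Δ A P := fun P hP =>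
    (h P ((hT P).1 hP).1).resolve_left ((hT P).1 hP).2
  obtain ⟨η, hη⟩ : ∃ η : Place ℂ K → ℚ, ∀ P ∈ T, 0 < η P ∧ ∀ (m : ℕ) (η' : ℚ), 1 ≤ m →
      0 ≤ η' → η' ≤ η P → ∀ ω, IsSection y n m (m • (Δ + η' • A)) ω → ω ≠ 0 →
        ¬ OrdEq P ω (-(m * (Δ P + η' * A P))) := by
    refine ⟨fun P => if hP : P ∈ T then (hdim P hP).choose else 0, fun P hP => ?_⟩
    simp only [dif_pos hP]
    exact (hdim P hP).choose_spec
  obtain ⟨m1, hm1⟩ : ∃ m1 : ℕ, 1 ≤ m1 ∧ ∀ P ∈ T, 1 / η P ≤ m1 := by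
    refine ⟨1 + ∑ P ∈ T, ⌈1 / η P⌉₊, by omega, fun P hP => ?_⟩
    have h1 : ⌈1 / η P⌉₊ ≤ ∑ P ∈ T, ⌈1 / η P⌉₊ :=
      Finset.single_le_sum (f := fun P => ⌈1 / η P⌉₊) (fun _ _ => Nat.zero_le _) hP
    have h2 : 1 / η P ≤ (⌈1 / η P⌉₊ : ℚ) := Nat.le_ceil _
    refine h2.trans ?_
    exact_mod_cast h1.trans (by omega)
  obtain ⟨m', hm', s', hs', hs'0⟩ := hps m1
  -- the orders
  choose! yP EP iP hl using hloc
  let v : Place ℂ K → ℚ := fun P => -(m * Δ P) - P.ord (s (EP P))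
  let w : Place ℂ K → ℚ := fun P => P.ord (s' (EP P)) + m' * Δ P + A P
  have hsE : ∀ P, IsPrimeDivisor y P → s (EP P) ≠ 0 := fun P hP => loc_ne (hl P hP) hs hs0
  have hsE' : ∀ P, IsPrimeDivisor y P → s' (EP P) ≠ 0 := fun P hP => loc_ne (hl P hP) hs'.1 hs'0
  have hv : ∀ P ∈ T, 0 < v P := by
    intro P hP
    obtain ⟨h1, h2⟩ := (hT P).1 hP
    rw [ordGe_iff (hl P h1) hs] at h2
    push Not at h2
    have := h2.2
    change 0 < -(m * Δ P) - P.ord (s (EP P))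
    linarith
  have hv' : ∀ P, IsPrimeDivisor y P → P ∉ T → v P ≤ 0 := by
    intro P h1 hP
    have h2 : OrdGe P s (-(m * Δ P)) := by
      by_contra hcon
      exact hP ((hT P).2 ⟨h1, hcon⟩)
    have h3 := ((ordGe_iff (hl P h1) hs).1 h2).resolve_left (hsE P h1)
    change -(m * Δ P) - P.ord (s (EP P)) ≤ 0
    linarith
  have hw : ∀ P, IsPrimeDivisor y P → 0 ≤ w P := by
    intro P h1
    have h2 := (hs'.2 P h1 _ (hl P h1).pres).resolve_left (hsE' P h1)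
    rw [Pi.add_apply, Pi.smul_apply, nsmul_eq_mul] at h2
    change 0 ≤ (P.ord (s' (EP P)) : ℚ) + m' * Δ P + A P
    linarith
  obtain ⟨P0, hP0, hmin⟩ := T.exists_min_image (fun P => w P / v P) hTn
  have hP0' := ((hT P0).1 hP0).1
  -- the exponents
  obtain ⟨D0, hD0⟩ : ∃ D0 : ℕ, D0 = (v P0).den * (w P0).den := ⟨_, rfl⟩
  have hD0p : 0 < D0 := by
    rw [hD0]
    exact Nat.mul_pos (v P0).den_pos (w P0).den_pos
  obtain ⟨p, hp⟩ : ∃ p : ℕ, (p : ℚ) = D0 * w P0 := by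
    refine ⟨((v P0).den * (w P0).num).toNat, ?_⟩
    have h1 : 0 ≤ (w P0).num := Rat.num_nonneg.2 (hw P0 hP0')
    have h2 : ((((v P0).den * (w P0).num).toNat : ℕ) : ℤ) = (v P0).den * (w P0).num :=
      Int.toNat_of_nonneg (by positivity)
    have h3 : ((((v P0).den * (w P0).num).toNat : ℕ) : ℚ) = (v P0).den * (w P0).num := by
      exact_mod_cast h2
    rw [h3, hD0]
    push_cast
    rw [← Rat.mul_den_eq_num (w P0)]
    ring
  obtain ⟨q, hq⟩ : ∃ q : ℕ, (q : ℚ) = D0 * v P0 := by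
    refine ⟨((w P0).den * (v P0).num).toNat, ?_⟩
    have h1 : 0 ≤ (v P0).num := Rat.num_nonneg.2 (hv P0 hP0).le
    have h2 : ((((w P0).den * (v P0).num).toNat : ℕ) : ℤ) = (w P0).den * (v P0).num :=
      Int.toNat_of_nonneg (by positivity)
    have h3 : ((((w P0).den * (v P0).num).toNat : ℕ) : ℚ) = (w P0).den * (v P0).num := by
      exact_mod_cast h2
    rw [h3, hD0]
    push_cast
    rw [← Rat.mul_den_eq_num (v P0)]
    ring
  have hq0 : (0 : ℚ) < q := by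
    rw [hq]
    exact mul_pos (by exact_mod_cast hD0p) (hv P0 hP0)
  have hq1 : 1 ≤ q := by
    have : (0 : ℕ) < q := by exact_mod_cast hq0
    omega
  have hm'1 : 1 ≤ m' := hm1.1.trans hm'
  have hm'q : (1 : ℚ) ≤ m' := by exact_mod_cast hm'1
  -- the product
  let ω : (Fin n → Derivation ℂ K K) → K := fun D => s D ^ p * s' D ^ q
  have hωp : IsPluri (m * p + m' * q) ω := pluri_mul (pluri_pow hs p) (pluri_pow hs'.1 q)
  obtain ⟨M, hM⟩ : ∃ M : ℕ, M = m * p + m' * q := ⟨_, rfl⟩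
  rw [← hM] at hωp
  have hM1 : 1 ≤ M := by
    rw [hM]
    have : 1 ≤ m' * q := Nat.mul_pos hm'1 hq1
    omega
  have hMq : (0 : ℚ) < M := by exact_mod_cast hM1
  obtain ⟨η', hη'⟩ : ∃ η' : ℚ, η' = q / M := ⟨_, rfl⟩
  have hMη : (M : ℚ) * η' = q := by
    rw [hη']
    field_simp
  have hη'0 : 0 ≤ η' := by
    rw [hη']
    positivity
  have hη'1 : η' ≤ η P0 := by
    have h1 := (hη P0 hP0).1
    have h2 : 1 / η P0 ≤ m' := (hm1.2 P0 hP0).trans (by exact_mod_cast hm')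
    have h3 : 1 ≤ m' * η P0 := by
      rw [div_le_iff₀ h1] at h2
      linarith
    have h4 : (q : ℚ) * m' ≤ M := by
      rw [hM]
      push_cast
      have : (0 : ℚ) ≤ m * p := by positivity
      linarith
    rw [hη', div_le_iff₀ hMq]
    have h5 : (q : ℚ) * 1 ≤ q * (m' * η P0) := mul_le_mul_of_nonneg_left h3 hq0.le
    have h6 : (q * m' : ℚ) * η P0 ≤ M * η P0 := mul_le_mul_of_nonneg_right h4 h1.le
    linarith
  have hωE : ∀ P, IsPrimeDivisor y P → ω (EP P) ≠ 0 := fun P hP =>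
    mul_ne_zero (pow_ne_zero _ (hsE P hP)) (pow_ne_zero _ (hsE' P hP))
  have hωo : ∀ P, IsPrimeDivisor y P → (P.ord (ω (EP P)) : ℚ) =
      -(M * (Δ P + η' * A P)) + (q * w P - p * v P) := by
    intro P hP
    change (P.ord (s (EP P) ^ p * s' (EP P) ^ q) : ℚ) = _
    rw [P.ord_mul (pow_ne_zero _ (hsE P hP)) (pow_ne_zero _ (hsE' P hP)), P.ord_pow, P.ord_pow]
    have h1 : (M : ℚ) * (Δ P + η' * A P) = M * Δ P + q * A P := by
      rw [← hMη]
      ring
    rw [h1, hM]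
    push_cast
    simp only [v, w]
    ring
  have hge : ∀ P, IsPrimeDivisor y P → 0 ≤ q * w P - p * v P := by
    intro P hP
    by_cases hPT : P ∈ T
    · have h1 := hmin P hPT
      rw [div_le_div_iff₀ (hv P0 hP0) (hv P hPT)] at h1
      rw [hp, hq]
      have h2 : (0 : ℚ) ≤ D0 := Nat.cast_nonneg _
      have h3 := mul_le_mul_of_nonneg_left h1 h2
      nlinarith
    · have h1 := hv' P hP hPT
      have h2 := hw P hP
      have h3 : (p : ℚ) * v P ≤ 0 := mul_nonpos_of_nonneg_of_nonpos (Nat.cast_nonneg _) h1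
      have h4 : 0 ≤ (q : ℚ) * w P := mul_nonneg (Nat.cast_nonneg _) h2
      linarith
  have hωs : IsSection y n M (M • (Δ + η' • A)) ω := by
    refine ⟨hωp, fun P hP => ?_⟩
    rw [ordGe_iff (hl P hP) hωp]
    right
    rw [hωo P hP, Pi.smul_apply, Pi.add_apply, Pi.smul_apply, nsmul_eq_mul, smul_eq_mul]
    have := hge P hP
    linarith
  have hω0 : ω ≠ 0 := fun h => hωE P0 hP0' (congrFun h _)
  refine (hη P0 hP0).2 M η' hM1 hη'0 hη'1 ω hωs hω0 ?_
  rw [ordEq_iff (hl P0 hP0') hωp (hωE P0 hP0'), hωo P0 hP0', hp, hq]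
  ring

end

end Pool.Agent.Y172
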