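import Pool.Agent.Y172.Dim2

/-!
The dimensions if `K_X + Δ` is not pseudo-effective.
-/

set_option autoImplicit false
set_option linter.overlappingInstances false
set_option linter.unusedSectionVars false

open FF Pool.Agent.W602.GT Pool.Agent.W603.LV Pool.Agent.W619.PQ Pool.Agent.TH122.AB Filter

namespace Pool.Agent.Y172

section

variable {K : Type} [Field K] [Algebra ℂ K] {N n : ℕ} {y : Fin (N + 1) → K}

theorem h0_zero {m : ℕ} {D : Place ℂ K → ℚ} (h : ∀ ω, IsSection y n m D ω → ω = 0) :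
    h0 y n m D = 0 := by
  unfold h0
  have h1 : Submodule.span ℂ {ω | IsSection y n m D ω} = ⊥ := by
    rw [Submodule.span_eq_bot]
    exact h
  rw [h1]
  exact finrank_bot ℂ _

theorem section_pow {m : ℕ} {Δ : Place ℂ K → ℚ} {ω : (Fin n → Derivation ℂ K K) → K}
    (hω : IsSection y n m (m • Δ) ω) (r : ℕ) :
    IsSection y n (m * r) ((m * r) • Δ) (fun D => ω D ^ r) := by
  refine ⟨pluri_pow hω.1 r, fun P hP E hE => ?_⟩
  have e0 : ∀ m : ℕ, (m • Δ) P = m * Δ P := fun m => by rw [Pi.smul_apply, nsmul_eq_mul]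
  have h1 := hω.2 P hP E hE
  rw [e0] at h1 ⊢
  rcases Nat.eq_zero_or_pos r with hr | hr
  · right
    rw [hr]
    simp [P.ord_one]
  by_cases h0 : ω E = 0
  · left
    change ω E ^ r = 0
    rw [h0, zero_pow hr.ne']
  right
  change _ ≤ (P.ord (ω E ^ r) : ℚ)
  rw [P.ord_pow]
  have h2 := h1.resolve_left h0
  have h3 : (0 : ℚ) ≤ r := Nat.cast_nonneg _
  push_cast
  nlinarith

/-- **Divisors which are not pseudo-effective.** -/
theorem not_psef {Δ A : Place ℂ K → ℚ} (hA : Effective y A)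
    (h : ¬ ∀ m1 : ℕ, ∃ m' : ℕ, m1 ≤ m' ∧ ∃ s', IsSection y n m' (m' • Δ + A) s' ∧ s' ≠ 0) :
    kodairaDim y n Δ = ⊥ ∧ numericalDim y n Δ A = ⊥ := by
  classical
  push Not at h
  obtain ⟨m1, hm1⟩ := h
  constructor
  · unfold kodairaDim
    rw [if_pos]
    intro m hm _
    refine h0_zero fun ω hω => ?_
    by_contra hω0
    have h1 := section_pow hω (m1 + 1)
    have h2 : IsSection y n (m * (m1 + 1)) ((m * (m1 + 1)) • Δ + A) (fun D => ω D ^ (m1 + 1)) := by
      refine ⟨h1.1, fun P hP => ordGe_mono (h1.2 P hP) ?_⟩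
      have := hA.1 P hP
      rw [Pi.add_apply]
      linarith
    have h3 := hm1 (m * (m1 + 1)) (by nlinarith) _ h2
    apply hω0
    funext D
    have h4 := congrFun h3 D
    exact pow_eq_zero_iff (by omega) |>.1 h4
  · unfold numericalDim
    rw [← le_bot_iff]
    refine limsup_le_of_le (by isBoundedDefault) ?_
    rw [eventually_inf_principal]
    filter_upwards [eventually_ge_atTop (m1 + 2)] with m hm _
    rw [h0_zero (fun ω hω => hm1 m (by omega) ω hω), Nat.cast_zero, ENNReal.log_zero]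
    have h1 : (0 : ℝ) < Real.log m := Real.log_pos (by exact_mod_cast (by omega : 1 < m))
    rw [EReal.bot_div_of_pos_ne_top (by exact_mod_cast h1) (EReal.coe_ne_top _)]

end

end Pool.Agent.Y172
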