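import Pool.Agent.Y172.Lim

/-!
Upper limits of functions with polynomial growth, with different lower and upper exponents.
-/

set_option autoImplicit false

open Filter Topology

namespace Pool.Agent.Y172

variable {h : ℕ → ℕ} {I : Set ℕ} {k C M : ℕ}

theorem kappa_le (hup : ∀ m ∈ I, 1 ≤ m → h m ≤ C * m ^ k) :
    ∀ k' ∈ {k' : ℕ | 0 < limsup (fun m : ℕ => (h m : ENNReal) / (m : ENNReal) ^ k')
      (atTop ⊓ 𝓟 I)}, k' ≤ k := by
  intro k' hk'
  by_contra hlt
  push Not at hlt
  have h1 : limsup (fun m : ℕ => (h m : ENNReal) / (m : ENNReal) ^ k') (atTop ⊓ 𝓟 I) ≤ 0 := by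
    have h2 : Tendsto (fun m : ℕ => (C : ENNReal) / (m : ENNReal)) atTop (𝓝 0) := by
      have := ENNReal.Tendsto.const_mul (a := (C : ENNReal)) ENNReal.tendsto_inv_nat_nhds_zero
        (Or.inr (ENNReal.natCast_ne_top C))
      simpa [div_eq_mul_inv] using this
    have h3 : limsup (fun m : ℕ => (C : ENNReal) / (m : ENNReal)) (atTop ⊓ 𝓟 I) ≤ 0 := by
      refine (limsup_le_limsup_of_le inf_le_left).trans ?_
      rw [h2.limsup_eq]
    refine le_trans (limsup_le_limsup ?_) h3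
    rw [EventuallyLE, eventually_inf_principal]
    filter_upwards [eventually_ge_atTop 1] with m hm hmI
    have h4 := hup m hmI hm
    have hm0 : (m : ENNReal) ≠ 0 := by
      have : m ≠ 0 := by omega
      exact_mod_cast this
    have hmt : (m : ENNReal) ≠ ⊤ := ENNReal.natCast_ne_top m
    rw [ENNReal.div_le_iff (pow_ne_zero _ hm0) (ENNReal.pow_ne_top hmt)]
    have h5 : (C : ENNReal) / m * (m : ENNReal) ^ k' = C * (m : ENNReal) ^ (k' - 1) := by
      have e : k' = k' - 1 + 1 := by omega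
      conv_lhs => rw [e, pow_succ']
      rw [← mul_assoc, ENNReal.div_mul_cancel hm0 hmt]
    rw [h5]
    have h6 : h m ≤ C * m ^ (k' - 1) :=
      h4.trans (Nat.mul_le_mul_left _ (Nat.pow_le_pow_right hm (by omega)))
    exact_mod_cast h6
  exact absurd hk' (not_lt.2 h1)

theorem kappa_mem (hM : 1 ≤ M) (hI : ∀ t, 1 ≤ t → t * M ∈ I)
    (hlow : ∀ t, 1 ≤ t → t ^ k ≤ h (t * M)) :
    k ∈ {k' : ℕ | 0 < limsup (fun m : ℕ => (h m : ENNReal) / (m : ENNReal) ^ k')
      (atTop ⊓ 𝓟 I)} := by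
  have hM0 : (M : ENNReal) ≠ 0 := by
    have : M ≠ 0 := by omega
    exact_mod_cast this
  have h1 : (((M : ENNReal) ^ k)⁻¹) ≤ limsup (fun m : ℕ => (h m : ENNReal) / (m : ENNReal) ^ k)
      (atTop ⊓ 𝓟 I) := by
    refine le_limsup_of_frequently_le (freq hM hI 1 fun t _ ht => ?_)
    have hm0 : ((t * M : ℕ) : ENNReal) ≠ 0 := by
      have : t * M ≠ 0 := by positivity
      exact_mod_cast this
    rw [ENNReal.le_div_iff_mul_le (Or.inl (pow_ne_zero _ hm0))
      (Or.inl (ENNReal.pow_ne_top (ENNReal.natCast_ne_top _)))]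
    have h2 : ((M : ENNReal) ^ k)⁻¹ * ((t * M : ℕ) : ENNReal) ^ k = (t : ENNReal) ^ k := by
      rw [Nat.cast_mul, mul_pow, mul_comm ((t : ENNReal) ^ k), ← mul_assoc,
        ENNReal.inv_mul_cancel (pow_ne_zero _ hM0)
          (ENNReal.pow_ne_top (ENNReal.natCast_ne_top _)), one_mul]
    rw [h2]
    exact_mod_cast hlow t ht
  refine lt_of_lt_of_le ?_ h1
  rw [ENNReal.inv_pos]
  exact ENNReal.pow_ne_top (ENNReal.natCast_ne_top _)

theorem nu_le (hup : ∀ m ∈ I, 1 ≤ m → h m ≤ C * m ^ k) :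
    limsup (fun m : ℕ => ENNReal.log (h m : ENNReal) / (Real.log m : EReal)) (atTop ⊓ 𝓟 I) ≤
      (k : EReal) := by
  have h2 : Tendsto (fun m : ℕ => (((k : ℝ) + Real.log (C + 1) / Real.log m : ℝ) : EReal)) atTop
      (𝓝 ((k : ℝ) : EReal)) := by
    refine (continuous_coe_real_ereal.tendsto _).comp ?_
    have h3 : Tendsto (fun m : ℕ => Real.log (C + 1) / Real.log m) atTop (𝓝 0) :=
      Tendsto.const_div_atTop (Real.tendsto_log_atTop.comp tendsto_natCast_atTop_atTop) _
    simpa using h3.const_add (k : ℝ)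
  have h3 : limsup (fun m : ℕ => (((k : ℝ) + Real.log (C + 1) / Real.log m : ℝ) : EReal))
      (atTop ⊓ 𝓟 I) ≤ (k : EReal) := by
    refine (limsup_le_limsup_of_le inf_le_left).trans ?_
    rw [h2.limsup_eq]
    exact le_of_eq rfl
  refine le_trans (limsup_le_limsup ?_) h3
  rw [EventuallyLE, eventually_inf_principal]
  filter_upwards [eventually_ge_atTop 2] with m hm hmI
  have hm1 : (1 : ℝ) < m := by exact_mod_cast hm
  have hlog : 0 < Real.log m := Real.log_pos hm1
  have hlogE : (0 : EReal) < (Real.log m : EReal) := by exact_mod_cast hlog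
  have h4 := hup m hmI (by omega)
  rcases Nat.eq_zero_or_pos (h m) with h0 | h0
  · rw [h0, Nat.cast_zero, ENNReal.log_zero, EReal.bot_div_of_pos_ne_top hlogE
      (EReal.coe_ne_top _)]
    exact bot_le
  · rw [log_natCast h0, ← EReal.coe_div]
    have h5 : Real.log (h m) / Real.log m ≤ (k : ℝ) + Real.log (C + 1) / Real.log m := by
      rw [div_le_iff₀ hlog, add_mul, div_mul_cancel₀ _ hlog.ne', ← Real.log_pow,
        ← Real.log_mul (by positivity) (by positivity)]
      refine Real.log_le_log (by exact_mod_cast h0) ?_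
      have h6 : (h m : ℝ) ≤ C * (m : ℝ) ^ k := by exact_mod_cast h4
      have h7 : (0 : ℝ) ≤ (m : ℝ) ^ k := by positivity
      nlinarith
    exact_mod_cast h5

/-- the Kodaira dimension is at most the numerical dimension -/
theorem nu_ge {h' : ℕ → ℕ} {I' : Set ℕ} (hII : I ⊆ I') (hhh : ∀ m ∈ I, h m ≤ h' m)
    (hpos : 0 < limsup (fun m : ℕ => (h m : ENNReal) / (m : ENNReal) ^ k) (atTop ⊓ 𝓟 I)) :
    (k : EReal) ≤
      limsup (fun m : ℕ => ENNReal.log (h' m : ENNReal) / (Real.log m : EReal))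
        (atTop ⊓ 𝓟 I') := by
  by_contra hcon
  push Not at hcon
  obtain ⟨s, hs1, hs2⟩ := EReal.lt_iff_exists_real_btwn.1 hcon
  have hs3 : s < k := by exact_mod_cast hs2
  have h1 := eventually_lt_of_limsup_lt hs1
  rw [eventually_inf_principal] at h1
  have h2 : Tendsto (fun m : ℕ => ENNReal.ofReal ((m : ℝ) ^ (-((k : ℝ) - s)))) atTop (𝓝 0) := by
    have h3 := (tendsto_rpow_neg_atTop (sub_pos.2 hs3)).comp (tendsto_natCast_atTop_atTop (R := ℝ))
    have h4 := (ENNReal.continuous_ofReal.tendsto 0).comp h3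
    rw [ENNReal.ofReal_zero] at h4
    exact h4
  have h3 : limsup (fun m : ℕ => ENNReal.ofReal ((m : ℝ) ^ (-((k : ℝ) - s)))) (atTop ⊓ 𝓟 I) ≤ 0 := by
    refine (limsup_le_limsup_of_le inf_le_left).trans ?_
    rw [h2.limsup_eq]
  refine absurd hpos (not_lt.2 (le_trans (limsup_le_limsup ?_) h3))
  rw [EventuallyLE, eventually_inf_principal]
  filter_upwards [eventually_ge_atTop 2, h1] with m hm h1 hmI
  have h4 := h1 (hII hmI)
  have hm1 : (1 : ℝ) < m := by exact_mod_cast hm
  have hm0 : (0 : ℝ) < m := by linarith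
  have hlog : 0 < Real.log m := Real.log_pos hm1
  have hmE : (m : ENNReal) ≠ 0 := by
    have : m ≠ 0 := by omega
    exact_mod_cast this
  rw [ENNReal.div_le_iff (pow_ne_zero _ hmE) (ENNReal.pow_ne_top (ENNReal.natCast_ne_top m))]
  have h5 : (h m : ℝ) ≤ (m : ℝ) ^ (-((k : ℝ) - s)) * (m : ℝ) ^ k := by
    rw [← Real.rpow_natCast, ← Real.rpow_add hm0]
    have e1 : -((k : ℝ) - s) + (k : ℝ) = s := by ring
    rw [e1]
    have h6 : (h m : ℝ) ≤ h' m := by exact_mod_cast hhh m hmI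
    refine h6.trans ?_
    rcases Nat.eq_zero_or_pos (h' m) with h0 | h0
    · rw [h0, Nat.cast_zero]
      positivity
    · rw [log_natCast h0, ← EReal.coe_div] at h4
      have h7 : Real.log (h' m) / Real.log m < s := by exact_mod_cast h4
      rw [div_lt_iff₀ hlog] at h7
      have h8 : (0 : ℝ) < h' m := by exact_mod_cast h0
      rw [← Real.log_rpow hm0] at h7
      exact (Real.log_lt_log_iff h8 (by positivity)).1 h7 |>.le
  have h6 : (h m : ENNReal) = ENNReal.ofReal (h m : ℝ) := (ENNReal.ofReal_natCast _).symm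
  have h7 : (m : ENNReal) = ENNReal.ofReal (m : ℝ) := (ENNReal.ofReal_natCast _).symm
  rw [h6, h7, ← ENNReal.ofReal_pow hm0.le, ← ENNReal.ofReal_mul (by positivity)]
  exact ENNReal.ofReal_le_ofReal h5

end Pool.Agent.Y172
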