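import Pool.Agent.Y172.Dim
import Pool.Agent.Y172.Lim2

/-!
The Kodaira dimension and the numerical dimension from sections and bounds with different exponents.
-/

set_option autoImplicit false

open FF Pool.Agent.W602.GT Pool.Agent.W603.LV

namespace Pool.Agent.Y172

section

variable {K : Type} [Field K] [Algebra ℂ K] {N : ℕ} {y : Fin (N + 1) → K} {n : ℕ}

/-- **The Kodaira dimension and the numerical dimension.** -/
theorem dims2 {k g : ℕ} {Δ : Place ℂ K → ℚ} (hΔ : Effective y Δ)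
    {D : Fin n → Derivation ℂ K K} (hD : IsFrame D)
    (hup : ∀ A, Effective y A → ∃ C : ℕ, ∀ m : ℕ, 1 ≤ m → ∀ (r : ℕ) (f : Fin r → K),
      LinearIndependent ℂ f → (∀ i, ∃ ω, IsSection y n m (m • Δ + A) ω ∧ ω D = f i) →
      r ≤ C * m ^ k)
    {m0 : ℕ} (hm0 : 1 ≤ m0) {ω : Fin (g + 1) → (Fin n → Derivation ℂ K K) → K}
    (hω : ∀ j, IsSection y n m0 (m0 • Δ) (ω j)) {E : Fin n → Derivation ℂ K K}
    (hE : ω 0 E ≠ 0) (hind : AlgebraicIndependent ℂ (fun i : Fin g => ω i.succ E / ω 0 E)) :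
    ∃ κ : ℕ, g ≤ κ ∧ kodairaDim y n Δ = (κ : WithBot ℕ) ∧
      ∀ A, Effective y A → Integral y A → (κ : EReal) ≤ numericalDim y n Δ A ∧
        numericalDim y n Δ A ≤ (k : EReal) := by
  classical
  -- a common denominator
  obtain ⟨d0, hd0, hint⟩ : ∃ d0 : ℕ, 1 ≤ d0 ∧ ∀ t : ℕ, Integral y ((t * d0) • Δ) := by
    let S := hΔ.2.toFinset
    refine ⟨∏ P ∈ S, (Δ P).den, Nat.pos_of_ne_zero (Finset.prod_ne_zero_iff.2 fun P _ =>
      (Δ P).den_ne_zero), fun t P hP => ?_⟩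
    by_cases h0 : Δ P = 0
    · exact ⟨0, by simp [h0]⟩
    have hPS : P ∈ S := by
      rw [Set.Finite.mem_toFinset]
      exact ⟨hP, h0⟩
    refine ⟨t * (∏ Q ∈ S.erase P, (Δ Q).den : ℕ) * (Δ P).num, ?_⟩
    rw [← Finset.prod_erase_mul _ _ hPS]
    have h1 : ((Δ P).den : ℚ) * Δ P = (Δ P).num := by
      rw [mul_comm]
      exact Rat.mul_den_eq_num (Δ P)
    simp only [Pi.smul_apply, nsmul_eq_mul]
    push_cast
    rw [← h1]
    ring
  have hzero : Effective y (0 : Place ℂ K → ℚ) :=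
    ⟨fun _ _ => le_rfl, Set.finite_empty.subset (by rintro P ⟨-, h⟩; exact h rfl)⟩
  -- the lower bound
  obtain ⟨M, hM⟩ : ∃ M : ℕ, M = (g + 1) * d0 * m0 := ⟨_, rfl⟩
  have hM1 : 1 ≤ M := by
    rw [hM]
    exact Nat.mul_pos (Nat.mul_pos (Nat.succ_pos g) hd0) hm0
  have hlow : ∀ A, Effective y A → ∀ t : ℕ, 1 ≤ t →
      t ^ g ≤ h0 y n (t * M) ((t * M) • Δ + A) := by
    intro A hA t ht
    obtain ⟨C, hC⟩ := hup A hA
    have htM : 1 ≤ t * M := Nat.mul_pos ht hM1
    obtain ⟨hfin, -⟩ := finite_h0 hD (hC (t * M) htM)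
    let T := (g + 1) * d0 * t
    let b : (Fin g → Fin (t + 1)) → Fin (g + 1) → ℕ := fun a =>
      Fin.cons (T - ∑ i, (a i : ℕ)) fun i => (a i : ℕ)
    have hle : ∀ a : Fin g → Fin (t + 1), ∑ i, (a i : ℕ) ≤ T := by
      intro a
      have h1 : ∑ i, (a i : ℕ) ≤ ∑ _i : Fin g, t :=
        Finset.sum_le_sum fun i _ => Nat.lt_succ_iff.1 (a i).2
      rw [Finset.sum_const, Finset.card_univ, Fintype.card_fin, smul_eq_mul] at h1
      refine h1.trans ?_
      have h2 : g * t ≤ (g + 1) * d0 * t :=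
        Nat.mul_le_mul_right _ ((Nat.le_succ g).trans (Nat.le_mul_of_pos_right _ hd0))
      exact h2
    have hsum : ∀ a, ∑ i, b a i = T := by
      intro a
      rw [Fin.sum_univ_succ]
      simp only [b, Fin.cons_zero, Fin.cons_succ]
      exact Nat.sub_add_cancel (hle a)
    let v : (Fin g → Fin (t + 1)) → (Fin n → Derivation ℂ K K) → K := fun a E =>
      ∏ i, ω i E ^ b a i
    have hv : ∀ a, IsSection y n (t * M) ((t * M) • Δ + A) (v a) := by
      intro a
      have h1 := isSection_prod hω (b a)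
      rw [hsum] at h1
      have e1 : T * m0 = t * M := by
        rw [hM]
        ring
      rw [e1, smul_smul, e1] at h1
      refine ⟨h1.1, fun P hP => (h1.2 P hP).mono ?_⟩
      have := hA.1 P hP
      simp only [Pi.add_apply]
      linarith
    have hvE : ∀ a, v a E = ω 0 E ^ T * ∏ i : Fin g, (ω i.succ E / ω 0 E) ^ (a i : ℕ) := by
      intro a
      change ∏ i, ω i E ^ b a i = _
      rw [Fin.prod_univ_succ]
      simp only [b, Fin.cons_zero, Fin.cons_succ, div_pow, Finset.prod_div_distrib]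
      have h1 : ω 0 E ^ T = ω 0 E ^ (T - ∑ i, (a i : ℕ)) * ∏ i, ω 0 E ^ (a i : ℕ) := by
        rw [Finset.prod_pow_eq_pow_sum, ← pow_add, Nat.sub_add_cancel (hle a)]
      rw [h1]
      have h2 : ∏ i, ω 0 E ^ (a i : ℕ) ≠ 0 := Finset.prod_ne_zero_iff.2 fun i _ => pow_ne_zero _ hE
      field_simp
    have hvind : LinearIndependent ℂ v := by
      have h1 : LinearIndependent ℂ fun a : Fin g → Fin (t + 1) =>
          ∏ i : Fin g, (ω i.succ E / ω 0 E) ^ (a i : ℕ) :=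
        (mono_indep hind).comp (fun (a : Fin g → Fin (t + 1)) i => (a i : ℕ)) (by
          intro a a' h
          funext i
          exact Fin.ext (congrFun h i))
      have h2 : LinearIndependent ℂ fun a => v a E := by
        have h3 := h1.map' (LinearMap.mulLeft ℂ (ω 0 E ^ T)) (by
          rw [LinearMap.ker_eq_bot]
          exact fun a b hab => mul_left_cancel₀ (pow_ne_zero _ hE) hab)
        have h4 : (fun a => v a E) = (LinearMap.mulLeft ℂ (ω 0 E ^ T)) ∘
            fun a : Fin g → Fin (t + 1) => ∏ i : Fin g, (ω i.succ E / ω 0 E) ^ (a i : ℕ) := by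
          funext a
          exact hvE a
        rw [h4]
        exact h3
      exact LinearIndependent.of_comp (LinearMap.proj E) h2
    have h1 := le_h0 hfin hvind hv
    rw [Fintype.card_fun, Fintype.card_fin, Fintype.card_fin] at h1
    exact (Nat.pow_le_pow_left (Nat.le_succ t) g).trans h1
  have hint' : ∀ A, Integral y A → ∀ t : ℕ, Integral y ((t * M) • Δ + A) := by
    intro A hA t P hP
    obtain ⟨z, hz⟩ := hint (t * (g + 1) * m0) P hP
    obtain ⟨z', hz'⟩ := hA P hP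
    refine ⟨z + z', ?_⟩
    have e1 : t * M = t * (g + 1) * m0 * d0 := by
      rw [hM]
      ring
    rw [Pi.add_apply, hz', e1, hz]
    push_cast
    ring
  have hzint : Integral y (0 : Place ℂ K → ℚ) := fun P _ => ⟨0, by simp⟩
  obtain ⟨C, hC⟩ := hup 0 hzero
  have hlow0 := hlow 0 hzero
  have hint0 := hint' 0 hzint
  simp only [add_zero] at hlow0 hint0 hC
  obtain ⟨S, hS⟩ : ∃ S : Set ℕ, S = {k' : ℕ | 0 < Filter.limsup (fun m : ℕ =>
      (h0 y n m (m • Δ) : ENNReal) / (m : ENNReal) ^ k')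
      (Filter.atTop ⊓ Filter.principal {m : ℕ | 1 ≤ m ∧ Integral y (m • Δ)})} := ⟨_, rfl⟩
  have hSle : ∀ k' ∈ S, k' ≤ k := by
    rw [hS]
    exact kappa_le (I := {m : ℕ | 1 ≤ m ∧ Integral y (m • Δ)})
      (h := fun m => h0 y n m (m • Δ)) (C := C) fun m _ hm => (finite_h0 hD (hC m hm)).2
  have hSg : g ∈ S := by
    rw [hS]
    exact kappa_mem (I := {m : ℕ | 1 ≤ m ∧ Integral y (m • Δ)})
      (h := fun m => h0 y n m (m • Δ)) hM1 (fun t ht => ⟨Nat.mul_pos ht hM1, hint0 t⟩) hlow0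
  have hSs : sSup S ∈ S := Nat.sSup_mem ⟨g, hSg⟩ ⟨k, hSle⟩
  refine ⟨sSup S, le_csSup ⟨k, hSle⟩ hSg, ?_, fun A hA hAint => ⟨?_, ?_⟩⟩
  · unfold kodairaDim
    rw [if_neg, hS]
    intro hcon
    have h1 := hcon (1 * M) (by omega) (hint0 1)
    have h2 := hlow0 1 le_rfl
    rw [h1, one_pow] at h2
    omega
  · obtain ⟨C', hC'⟩ := hup A hA
    rw [hS] at hSs ⊢
    refine nu_ge (I := {m : ℕ | 1 ≤ m ∧ Integral y (m • Δ)})
      (I' := {m : ℕ | 1 ≤ m ∧ Integral y (m • Δ + A)})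
      (h := fun m => h0 y n m (m • Δ)) (h' := fun m => h0 y n m (m • Δ + A)) ?_ ?_ hSs
    · rintro m ⟨hm, hmΔ⟩
      refine ⟨hm, fun P hP => ?_⟩
      obtain ⟨z, hz⟩ := hmΔ P hP
      obtain ⟨z', hz'⟩ := hAint P hP
      exact ⟨z + z', by rw [Pi.add_apply, hz, hz']; push_cast; ring⟩
    · rintro m ⟨hm, -⟩
      obtain ⟨hfin, -⟩ := finite_h0 hD (hC' m hm)
      rw [h0_eq, h0_eq]
      refine Submodule.finrank_mono fun ω hω => ?_
      refine ⟨hω.1, fun P hP => (hω.2 P hP).mono ?_⟩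
      have := hA.1 P hP
      rw [Pi.add_apply]
      linarith
  · obtain ⟨C', hC'⟩ := hup A hA
    exact nu_le (I := {m : ℕ | 1 ≤ m ∧ Integral y (m • Δ + A)})
      (h := fun m => h0 y n m (m • Δ + A)) (C := C') fun m _ hm => (finite_h0 hD (hC' m hm)).2

end

end Pool.Agent.Y172
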