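import Pool.Agent.Y172.R7

/-!
Poles along prime divisors of the diminished base locus: the sections of `m (K_X + Δ - Γ) + A` vanish
there to an order which grows linearly.
-/

set_option autoImplicit false
set_option linter.overlappingInstances false
set_option linter.unusedSectionVars false

open FF Pool.Agent.W602.GT Pool.Agent.W603.LV Pool.Agent.W619.PQ

namespace Pool.Agent.Y172

section

variable {K : Type} [Field K] [Algebra ℂ K] {N n : ℕ} {y : Fin (N + 1) → K}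
variable {Δ Γ A : Place ℂ K → ℚ}

/-- **The sections vanish along the poles.** -/
theorem dim_enlarge {k m0 : ℕ} (hy : NormalModel y) (hn : Algebra.trdeg ℂ K = n)
    (hΔ : Effective y Δ) (hΓ : Effective y Γ)
    (hps : ∀ m1 : ℕ, ∃ m : ℕ, m1 ≤ m ∧ ∃ s, IsSection y n m (m • (Δ - Γ) + A) s ∧ s ≠ 0)
    {Ω : Fin (k + 1) → (Fin n → Derivation ℂ K K) → K}
    (hΩp : ∀ j, IsPluri m0 (Ω j)) (hΩ0 : ∀ j, Ω j ≠ 0)
    (hΩ : ∀ j P, IsPrimeDivisor y P → Γ P = 0 → ¬ Diminished y n Δ A P →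
      OrdGe P (Ω j) (-(m0 * Δ P))) :
    ∃ Γ' : Place ℂ K → ℚ, Effective y Γ' ∧ (∀ P, IsPrimeDivisor y P → Γ P ≠ 0 → Γ' P = Γ P) ∧
      (∀ m1 : ℕ, ∃ m : ℕ, m1 ≤ m ∧ ∃ s, IsSection y n m (m • (Δ - Γ') + A) s ∧ s ≠ 0) ∧
      ∀ j P, IsPrimeDivisor y P → Γ' P = 0 → OrdGe P (Ω j) (-(m0 * Δ P)) := by
  classical
  have hess := hy.ess
  -- the frames
  have hloc : ∀ P, IsPrimeDivisor y P → ∃ (yP : Fin n → K) (EP : Fin n → Derivation ℂ K K)
      (i0 : Fin n), Loc P yP EP i0 := fun P hP => exists_loc hn (hP.divisorial hy hn)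
  choose! yP EP iP hl using hloc
  obtain ⟨v, hv⟩ : ∃ v : Fin (k + 1) → Place ℂ K → ℚ, ∀ j P,
      v j P = -(m0 * Δ P) - P.ord (Ω j (EP P)) := ⟨_, fun _ _ => rfl⟩
  have hΩE : ∀ j P, IsPrimeDivisor y P → Ω j (EP P) ≠ 0 := fun j P hP =>
    loc_ne (hl P hP) (hΩp j) (hΩ0 j)
  have hge : ∀ j P, IsPrimeDivisor y P → (OrdGe P (Ω j) (-(m0 * Δ P)) ↔ v j P ≤ 0) := by
    intro j P hP
    rw [ordGe_iff (hl P hP) (hΩp j), hv]
    constructor
    · rintro (h | h)
      · exact absurd h (hΩE j P hP)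
      · linarith
    · intro h
      right
      linarith
  obtain ⟨U, hU⟩ : ∃ U : Finset (Place ℂ K), ∀ P, P ∈ U ↔
      (IsPrimeDivisor y P ∧ Γ P = 0 ∧ ∃ j, 0 < v j P) := by
    have hfin : (⋃ j, {P | IsPrimeDivisor y P ∧ ¬ OrdGe P (Ω j) (-(m0 * Δ P))}).Finite :=
      Set.finite_iUnion fun j => finite_poles hy hn hΔ (hΩp j)
    have hfin2 : {P | IsPrimeDivisor y P ∧ Γ P = 0 ∧ ∃ j, 0 < v j P}.Finite := by
      refine hfin.subset ?_
      rintro P ⟨h1, -, j, h2⟩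
      refine Set.mem_iUnion.2 ⟨j, h1, fun h3 => ?_⟩
      have := (hge j P h1).1 h3
      linarith
    exact ⟨hfin2.toFinset, fun P => by
      rw [Set.Finite.mem_toFinset]
      rfl⟩
  have hdim : ∀ P ∈ U, Diminished y n Δ A P := by
    intro P hP
    obtain ⟨h1, h2, j, h3⟩ := (hU P).1 hP
    by_contra hcon
    have := (hge j P h1).1 (hΩ j P h1 h2 hcon)
    linarith
  obtain ⟨η, hη⟩ : ∃ η : Place ℂ K → ℚ, ∀ P ∈ U, 0 < η P ∧ ∀ (m : ℕ) (η' : ℚ), 1 ≤ m →
      0 ≤ η' → η' ≤ η P → ∀ ω, IsSection y n m (m • (Δ + η' • A)) ω → ω ≠ 0 →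
        ¬ OrdEq P ω (-(m * (Δ P + η' * A P))) := by
    refine ⟨fun P => if hP : P ∈ U then (hdim P hP).choose else 0, fun P hP => ?_⟩
    simp only [dif_pos hP]
    exact (hdim P hP).choose_spec
  obtain ⟨m1, hm1⟩ : ∃ m1 : ℕ, 1 ≤ m1 ∧ ∀ P ∈ U, 1 / η P ≤ m1 := by
    refine ⟨1 + ∑ P ∈ U, ⌈1 / η P⌉₊, by omega, fun P hP => ?_⟩
    have h1 : ⌈1 / η P⌉₊ ≤ ∑ P ∈ U, ⌈1 / η P⌉₊ :=
      Finset.single_le_sum (f := fun P => ⌈1 / η P⌉₊) (fun _ _ => Nat.zero_le _) hP
    have h2 : 1 / η P ≤ (⌈1 / η P⌉₊ : ℚ) := Nat.le_ceil _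
    refine h2.trans ?_
    exact_mod_cast h1.trans (by omega)
  have hU1 : ∀ P ∈ U, ∃ j, 0 < v j P := fun P hP => ((hU P).1 hP).2.2
  choose! jP hjP using hU1
  -- the poles along `Γ`
  obtain ⟨Γ2, hΓ2⟩ : ∃ Γ2 : Place ℂ K → ℚ, ∀ P, Γ2 P = if P ∈ U then 1 else Γ P :=
    ⟨_, fun _ => rfl⟩
  have hΓ2e : Effective y Γ2 := by
    refine ⟨fun P hP => ?_, (U.finite_toSet.union hΓ.2).subset ?_⟩
    · rw [hΓ2]
      split_ifs
      · norm_num
      · exact hΓ.1 P hP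
    · rintro P ⟨h1, h2⟩
      rw [hΓ2] at h2
      by_cases h3 : P ∈ U
      · exact Or.inl h3
      · rw [if_neg h3] at h2
        exact Or.inr ⟨h1, h2⟩
  obtain ⟨c, hc, hΩs⟩ := exists_mult (Δ := Δ) (Γ := Γ2) hy hn hΓ2e hΩp (fun j P hP h => by
    rw [hΓ2] at h
    by_cases h3 : P ∈ U
    · rw [if_pos h3] at h
      norm_num at h
    · rw [if_neg h3] at h
      rw [hge j P hP]
      by_contra hcon
      push Not at hcon
      exact h3 ((hU P).2 ⟨hP, h, j, hcon⟩))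
  have hc0 : (0 : ℚ) < c := by exact_mod_cast hc
  have hUΓ : ∀ P, Γ P ≠ 0 → P ∉ U := fun P h1 h2 => h1 ((hU P).1 h2).2.1
  obtain ⟨Γ', hΓ'⟩ : ∃ Γ' : Place ℂ K → ℚ, ∀ P, Γ' P = if P ∈ U then v (jP P) P / c else Γ P :=
    ⟨_, fun _ => rfl⟩
  refine ⟨Γ', ⟨fun P hP => ?_, (U.finite_toSet.union hΓ.2).subset ?_⟩, fun P hP h => ?_,
    fun m2 => ?_, fun j P hP h => ?_⟩
  · rw [hΓ']
    split_ifs with h3
    · exact (div_pos (hjP P h3) hc0).le
    · exact hΓ.1 P hP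
  · rintro P ⟨h1, h2⟩
    rw [hΓ'] at h2
    by_cases h3 : P ∈ U
    · exact Or.inl h3
    · rw [if_neg h3] at h2
      exact Or.inr ⟨h1, h2⟩
  · rw [hΓ', if_neg (hUΓ P h)]
  swap
  · rw [hΓ'] at h
    by_cases h3 : P ∈ U
    · rw [if_pos h3] at h
      have := div_pos (hjP P h3) hc0
      linarith
    · rw [if_neg h3] at h
      rw [hge j P hP]
      by_contra hcon
      push Not at hcon
      exact h3 ((hU P).2 ⟨hP, h, j, hcon⟩)
  obtain ⟨m, hm, s, hs, hs0⟩ := hps (m1 + m2)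
  refine ⟨m, by omega, s, ⟨hs.1, fun P hP => ?_⟩, hs0⟩
  have hsE : ∀ P, IsPrimeDivisor y P → s (EP P) ≠ 0 := fun P hP => loc_ne (hl P hP) hs.1 hs0
  by_cases hPU : P ∈ U
  swap
  · have h1 := hs.2 P hP
    have e1 : ((m • (Δ - Γ') + A) P : ℚ) = (m • (Δ - Γ) + A) P := by
      simp only [Pi.add_apply, Pi.smul_apply, Pi.sub_apply]
      rw [hΓ', if_neg hPU]
    rw [e1]
    exact h1
  -- the orders
  obtain ⟨w, hw⟩ : ∃ w : Place ℂ K → ℚ, ∀ P, w P = P.ord (s (EP P)) + m * Δ P + A P :=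
    ⟨_, fun _ => rfl⟩
  have hw0 : ∀ P, IsPrimeDivisor y P → Γ P = 0 → 0 ≤ w P := by
    intro P h1 h3
    have h2 := (hs.2 P h1 _ (hl P h1).pres).resolve_left (hsE P h1)
    simp only [Pi.add_apply, Pi.smul_apply, Pi.sub_apply] at h2
    simp only [nsmul_eq_mul] at h2
    rw [h3] at h2
    rw [hw]
    linarith
  obtain ⟨j, hj⟩ : ∃ j, j = jP P := ⟨_, rfl⟩
  have hvP : 0 < v j P := by
    rw [hj]
    exact hjP P hPU
  obtain ⟨P0, hP0, hmin⟩ := (U.filter fun P => 0 < v j P).exists_min_image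
    (fun P => w P / v j P) ⟨P, Finset.mem_filter.2 ⟨hPU, hvP⟩⟩
  rw [Finset.mem_filter] at hP0
  obtain ⟨hP0U, hv0⟩ := hP0
  have hP0' := ((hU P0).1 hP0U).1
  have hP0Γ := ((hU P0).1 hP0U).2.1
  have key : (m : ℚ) / c ≤ w P0 / v j P0 := by
    by_contra hcon
    push Not at hcon
    rw [div_lt_div_iff₀ hv0 hc0] at hcon
    -- the exponents
    obtain ⟨D0, hD0⟩ : ∃ D0 : ℕ, D0 = (v j P0).den * (w P0).den := ⟨_, rfl⟩
    have hD0p : 0 < D0 := by
      rw [hD0]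
      exact Nat.mul_pos (v j P0).den_pos (w P0).den_pos
    obtain ⟨p, hp⟩ : ∃ p : ℕ, (p : ℚ) = D0 * w P0 := by
      refine ⟨((v j P0).den * (w P0).num).toNat, ?_⟩
      have h1 : 0 ≤ (w P0).num := Rat.num_nonneg.2 (hw0 P0 hP0' hP0Γ)
      have h2 : ((((v j P0).den * (w P0).num).toNat : ℕ) : ℤ) = (v j P0).den * (w P0).num :=
        Int.toNat_of_nonneg (by positivity)
      have h3 : ((((v j P0).den * (w P0).num).toNat : ℕ) : ℚ) = (v j P0).den * (w P0).num := by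
        exact_mod_cast h2
      rw [h3, hD0]
      push_cast
      rw [← Rat.mul_den_eq_num (w P0)]
      ring
    obtain ⟨q, hq⟩ : ∃ q : ℕ, (q : ℚ) = D0 * v j P0 := by
      refine ⟨((w P0).den * (v j P0).num).toNat, ?_⟩
      have h1 : 0 ≤ (v j P0).num := Rat.num_nonneg.2 hv0.le
      have h2 : ((((w P0).den * (v j P0).num).toNat : ℕ) : ℤ) = (w P0).den * (v j P0).num :=
        Int.toNat_of_nonneg (by positivity)
      have h3 : ((((w P0).den * (v j P0).num).toNat : ℕ) : ℚ) = (w P0).den * (v j P0).num := by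
        exact_mod_cast h2
      rw [h3, hD0]
      push_cast
      rw [← Rat.mul_den_eq_num (v j P0)]
      ring
    have hq0 : (0 : ℚ) < q := by
      rw [hq]
      exact mul_pos (by exact_mod_cast hD0p) hv0
    have hq1 : 1 ≤ q := by
      have : (0 : ℕ) < q := by exact_mod_cast hq0
      omega
    have hm'1 : 1 ≤ m := by omega
    -- the product
    let ω : (Fin n → Derivation ℂ K K) → K := fun D => Ω j D ^ p * s D ^ q
    have hωp : IsPluri (m0 * p + m * q) ω := pluri_mul (pluri_pow (hΩp j) p) (pluri_pow hs.1 q)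
    obtain ⟨M, hM⟩ : ∃ M : ℕ, M = m0 * p + m * q := ⟨_, rfl⟩
    rw [← hM] at hωp
    have hM1 : 1 ≤ M := by
      rw [hM]
      have : 1 ≤ m * q := Nat.mul_pos hm'1 hq1
      omega
    have hMq : (0 : ℚ) < M := by exact_mod_cast hM1
    obtain ⟨η', hη'⟩ : ∃ η' : ℚ, η' = q / M := ⟨_, rfl⟩
    have hMη : (M : ℚ) * η' = q := by
      rw [hη']
      field_simp
    have hη'0 : 0 ≤ η' := by
      rw [hη']
      positivity
    have hη'1 : η' ≤ η P0 := by
      have h1 := (hη P0 hP0U).1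
      have h2 : 1 / η P0 ≤ m := (hm1.2 P0 hP0U).trans (by exact_mod_cast (by omega : m1 ≤ m))
      have h3 : 1 ≤ m * η P0 := by
        rw [div_le_iff₀ h1] at h2
        linarith
      have h4 : (q : ℚ) * m ≤ M := by
        rw [hM]
        push_cast
        have : (0 : ℚ) ≤ m0 * p := by positivity
        linarith
      rw [hη', div_le_iff₀ hMq]
      have h5 : (q : ℚ) * 1 ≤ q * (m * η P0) := mul_le_mul_of_nonneg_left h3 hq0.le
      have h6 : (q * m : ℚ) * η P0 ≤ M * η P0 := mul_le_mul_of_nonneg_right h4 h1.le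
      linarith
    have hωE : ∀ P, IsPrimeDivisor y P → ω (EP P) ≠ 0 := fun P hP =>
      mul_ne_zero (pow_ne_zero _ (hΩE j P hP)) (pow_ne_zero _ (hsE P hP))
    have hωo : ∀ P, IsPrimeDivisor y P → (P.ord (ω (EP P)) : ℚ) =
        -(M * (Δ P + η' * A P)) + (q * w P - p * v j P) := by
      intro P hP
      change (P.ord (Ω j (EP P) ^ p * s (EP P) ^ q) : ℚ) = _
      rw [P.ord_mul (pow_ne_zero _ (hΩE j P hP)) (pow_ne_zero _ (hsE P hP)), P.ord_pow, P.ord_pow]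
      have h1 : (M : ℚ) * (Δ P + η' * A P) = M * Δ P + q * A P := by
        rw [← hMη]
        ring
      rw [h1, hM, hw, hv]
      push_cast
      ring
    have hωs : IsSection y n M (M • (Δ + η' • A)) ω := by
      refine ⟨hωp, fun P hP => ?_⟩
      by_cases hΓP : Γ P = 0
      · rw [ordGe_iff (hl P hP) hωp]
        right
        rw [hωo P hP, Pi.smul_apply, Pi.add_apply, Pi.smul_apply, nsmul_eq_mul, smul_eq_mul]
        have hge0 : 0 ≤ q * w P - p * v j P := by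
          by_cases hvj : 0 < v j P
          · have hPU' : P ∈ U := (hU P).2 ⟨hP, hΓP, j, hvj⟩
            have h1 := hmin P (Finset.mem_filter.2 ⟨hPU', hvj⟩)
            rw [div_le_div_iff₀ hv0 hvj] at h1
            rw [hp, hq]
            have h2 : (0 : ℚ) ≤ D0 := Nat.cast_nonneg _
            have h3 := mul_le_mul_of_nonneg_left h1 h2
            nlinarith
          · push Not at hvj
            have h2 := hw0 P hP hΓP
            have h3 : (p : ℚ) * v j P ≤ 0 :=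
              mul_nonpos_of_nonneg_of_nonpos (Nat.cast_nonneg _) hvj
            have h4 : 0 ≤ (q : ℚ) * w P := mul_nonneg (Nat.cast_nonneg _) h2
            linarith
        linarith
      · have h1 := (((hΩs j).2 P hP).pow' p).mul ((hs.2 P hP).pow' q)
        refine OrdGe.mono (ω := ω) h1 ?_
        have hΓ0 := hΓ.1 P hP
        simp only [Pi.add_apply, Pi.smul_apply, Pi.sub_apply]
        simp only [nsmul_eq_mul, smul_eq_mul]
        rw [hΓ2, if_neg (hUΓ P hΓP)]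
        have h2 : (M : ℚ) * (Δ P + η' * A P) = M * Δ P + q * A P := by
          rw [← hMη]
          ring
        rw [h2, hM]
        push_cast
        have h3 : (p : ℚ) * c ≤ q * m := by
          rw [hp, hq]
          have h4 : (0 : ℚ) ≤ D0 := Nat.cast_nonneg _
          have h5 := mul_le_mul_of_nonneg_left hcon.le h4
          nlinarith
        have h6 := mul_le_mul_of_nonneg_right h3 hΓ0
        nlinarith
    have hω0 : ω ≠ 0 := fun h => hωE P0 hP0' (congrFun h _)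
    refine (hη P0 hP0U).2 M η' hM1 hη'0 hη'1 ω hωs hω0 ?_
    rw [ordEq_iff (hl P0 hP0') hωp (hωE P0 hP0'), hωo P0 hP0', hp, hq]
    ring
  have h1 := key.trans (hmin P (Finset.mem_filter.2 ⟨hPU, hvP⟩))
  rw [div_le_div_iff₀ hc0 hvP] at h1
  rw [ordGe_iff (hl P hP) hs.1]
  right
  simp only [Pi.add_apply, Pi.smul_apply, Pi.sub_apply]
  simp only [nsmul_eq_mul]
  rw [hΓ', if_pos hPU, ← hj]
  have h2 : (m : ℚ) * (v j P / c) ≤ w P := by
    rw [mul_div_assoc', div_le_iff₀ hc0]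
    exact h1
  rw [hw] at h2
  linarith

end

end Pool.Agent.Y172
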