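import Pool.Agent.Y172.Wro

/-!
The sections of `m (K_X + Δ - Γ) + A` span a finite-dimensional space over the field of the ratios of
the sections of `m0 (K_X + Δ) + c Γ`.
-/

set_option autoImplicit false
set_option linter.overlappingInstances false
set_option linter.unusedSectionVars false

open FF Pool.Agent.W602.GT Pool.Agent.W603.LV

namespace Pool.Agent.Y172

section

variable {K : Type} [Field K] [Algebra ℂ K] {N n : ℕ} {y : Fin (N + 1) → K}

theorem IsSection.of_le {m m' : ℕ} {D D' : Place ℂ K → ℚ} {ω : (Fin n → Derivation ℂ K K) → K}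
    (h : IsSection y n m D ω) (hm : m = m') (hD : ∀ P, IsPrimeDivisor y P → D P ≤ D' P) :
    IsSection y n m' D' ω := by
  subst hm
  exact ⟨h.1, fun P hP => (h.2 P hP).mono (neg_le_neg (hD P hP))⟩

/-- the functions given by the sections -/
def SecSet (y : Fin (N + 1) → K) (n m0 : ℕ) (Δ Γ A : Place ℂ K → ℚ)
    (Ec : Fin n → Derivation ℂ K K) (ω0 : (Fin n → Derivation ℂ K K) → K) : Set K :=
  {x | ∃ l : ℕ, 1 ≤ l ∧ ∃ s, IsSection y n (l * m0) ((l * m0) • (Δ - Γ) + A) s ∧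
    x = s Ec / ω0 Ec ^ l}

variable {Δ Γ A : Place ℂ K → ℚ} {Ec : Fin n → Derivation ℂ K K}

/-- **The bound for the dimension.** -/
theorem indep_le {k m0 c : ℕ} (hΓ : Effective y Γ) (hA : Effective y A)
    (hps : ∀ m1 : ℕ, ∃ m : ℕ, m1 ≤ m ∧
      ∃ s, IsSection y n (m * m0) ((m * m0) • (Δ - Γ) + A) s ∧ s Ec ≠ 0)
    (hup : ∀ A, Effective y A → ∃ C : ℕ, ∀ m : ℕ, 1 ≤ m → ∀ (r : ℕ) (f : Fin r → K),
      LinearIndependent ℂ f → (∀ i, ∃ ω, IsSection y n m (m • Δ + A) ω ∧ ω Ec = f i) →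
      r ≤ C * m ^ k)
    (hm0 : 1 ≤ m0) (hc : 1 ≤ c) {Ω : Fin (k + 1) → (Fin n → Derivation ℂ K K) → K}
    (hΩ : ∀ j, IsSection y n m0 (m0 • Δ + c • Γ) (Ω j)) (h0 : Ω 0 Ec ≠ 0)
    (hind : AlgebraicIndependent ℂ (fun i : Fin k => Ω i.succ Ec / Ω 0 Ec))
    {M : IntermediateField ℂ K} (hM : ∀ i : Fin k, Ω i.succ Ec / Ω 0 Ec ∈ M) :
    ∃ R : ℕ, ∀ (r : ℕ) (g : Fin r → K), (∀ i, g i ∈ SecSet y n m0 Δ Γ A Ec (Ω 0)) →
      LinearIndependent M g → r ≤ R := by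
  classical
  have hA2 : Effective y (A + A) := by
    refine ⟨fun P hP => add_nonneg (hA.1 P hP) (hA.1 P hP), hA.2.subset ?_⟩
    rintro P ⟨h1, h2⟩
    refine ⟨h1, fun h3 => h2 ?_⟩
    rw [Pi.add_apply, h3, add_zero]
  obtain ⟨C, hC⟩ := hup (A + A) hA2
  refine ⟨C * ((1 + 2 * c) * (k + 1) * m0) ^ k, fun r g hg hgi => ?_⟩
  choose l hl1 s hs hgs using hg
  obtain ⟨L₀, hL₀⟩ : ∃ L₀ : ℕ, L₀ = 1 + ∑ i, l i := ⟨_, rfl⟩
  obtain ⟨T', hT', s', hs', hs'0⟩ := hps (c * (k + 1) * L₀)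
  obtain ⟨L, hL⟩ : ∃ L : ℕ, L = T' / (c * (k + 1)) := ⟨_, rfl⟩
  have hck : 0 < c * (k + 1) := Nat.mul_pos hc (Nat.succ_pos k)
  have hLL : L₀ ≤ L := by
    rw [hL, Nat.le_div_iff_mul_le hck, mul_comm]
    exact hT'
  have hL1 : 1 ≤ L := by omega
  have hLT' : c * (k + 1) * L ≤ T' := by
    rw [hL]
    exact Nat.mul_div_le _ _
  have hT'L : T' ≤ 2 * (c * (k + 1)) * L := by
    have h1 : T' < c * (k + 1) * (L + 1) := by
      rw [hL]
      exact Nat.lt_mul_div_succ T' hck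
    have h2 : c * (k + 1) * 1 ≤ c * (k + 1) * L := Nat.mul_le_mul_left _ hL1
    nlinarith
  have hlL : ∀ i, l i ≤ L := fun i => by
    have : l i ≤ ∑ i, l i :=
      Finset.single_le_sum (f := l) (fun _ _ => Nat.zero_le _) (Finset.mem_univ i)
    omega
  obtain ⟨T, hT⟩ : ∃ T : ℕ, T = k * L + L := ⟨_, rfl⟩
  have hT1 : 1 ≤ T := by rw [hT]; omega
  have hcT : c * T ≤ T' := by
    rw [hT]
    refine le_trans (le_of_eq ?_) hLT'
    ring
  let b : (Fin k → Fin (L + 1)) × Fin r → Fin (k + 1) → ℕ := fun p =>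
    Fin.cons (T - l p.2 - ∑ i, (p.1 i : ℕ)) fun i => (p.1 i : ℕ)
  have hle : ∀ p : (Fin k → Fin (L + 1)) × Fin r, ∑ i, (p.1 i : ℕ) ≤ T - l p.2 := by
    intro p
    have h1 : ∑ i, (p.1 i : ℕ) ≤ ∑ _i : Fin k, L :=
      Finset.sum_le_sum fun i _ => Nat.lt_succ_iff.1 (p.1 i).2
    rw [Finset.sum_const, Finset.card_univ, Fintype.card_fin, smul_eq_mul] at h1
    have h2 := hlL p.2
    omega
  have hlT : ∀ i, l i ≤ T := fun i => by
    have := hlL i
    rw [hT]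
    omega
  have hsum : ∀ p, ∑ i, b p i = T - l p.2 := by
    intro p
    rw [Fin.sum_univ_succ]
    simp only [b, Fin.cons_zero, Fin.cons_succ]
    exact Nat.sub_add_cancel (hle p)
  let V : (Fin k → Fin (L + 1)) × Fin r → (Fin n → Derivation ℂ K K) → K := fun p E =>
    (∏ i, Ω i E ^ b p i) * s p.2 E * s' E
  have hV : ∀ p, IsSection y n ((T + T') * m0) (((T + T') * m0) • Δ + (A + A)) (V p) := by
    intro p
    have h1 := ((isSection_prod hΩ (b p)).mul (hs p.2)).mul hs'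
    rw [hsum] at h1
    refine h1.of_le ?_ fun P hP => ?_
    · have h2 : (T - l p.2) * m0 + l p.2 * m0 = T * m0 := by
        rw [← add_mul, Nat.sub_add_cancel (hlT _)]
      rw [h2]
      ring
    · simp only [Pi.add_apply, Pi.smul_apply, Pi.sub_apply]
      simp only [nsmul_eq_mul]
      rw [Nat.cast_sub (hlT _)]
      push_cast
      have hΓ0 := hΓ.1 P hP
      have h2 : (1 : ℚ) ≤ m0 := by exact_mod_cast hm0
      have h3 : (0 : ℚ) ≤ l p.2 := Nat.cast_nonneg _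
      have h4 : (0 : ℚ) ≤ c := Nat.cast_nonneg _
      have h5 : (0 : ℚ) ≤ T := Nat.cast_nonneg _
      have h6 : (0 : ℚ) ≤ l p.2 * m0 * Γ P := by positivity
      have h7 : (0 : ℚ) ≤ l p.2 * c * Γ P := by positivity
      have h9 : (c : ℚ) * T ≤ T' := by exact_mod_cast hcT
      have h8 : (T' * 1 : ℚ) * Γ P ≤ (T' * m0) * Γ P :=
        mul_le_mul_of_nonneg_right (mul_le_mul_of_nonneg_left h2 (Nat.cast_nonneg _)) hΓ0
      have h10 : (c * T : ℚ) * Γ P ≤ T' * Γ P := mul_le_mul_of_nonneg_right h9 hΓ0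
      nlinarith
  have hVE : ∀ p, V p Ec = (Ω 0 Ec ^ T * s' Ec) *
      ((∏ i : Fin k, (Ω i.succ Ec / Ω 0 Ec) ^ (p.1 i : ℕ)) * g p.2) := by
    intro p
    change (∏ i, Ω i Ec ^ b p i) * s p.2 Ec * s' Ec = _
    rw [Fin.prod_univ_succ, hgs]
    simp only [b, Fin.cons_zero, Fin.cons_succ, div_pow, Finset.prod_div_distrib]
    have h1 : Ω 0 Ec ^ T = Ω 0 Ec ^ (T - l p.2 - ∑ i, (p.1 i : ℕ)) *
        (∏ i, Ω 0 Ec ^ (p.1 i : ℕ)) * Ω 0 Ec ^ l p.2 := by
      rw [Finset.prod_pow_eq_pow_sum, ← pow_add, Nat.sub_add_cancel (hle p), ← pow_add,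
        Nat.sub_add_cancel (hlT _)]
    rw [h1]
    have h2 : ∏ i, Ω 0 Ec ^ (p.1 i : ℕ) ≠ 0 := Finset.prod_ne_zero_iff.2 fun i _ => pow_ne_zero _ h0
    have h3 : Ω 0 Ec ^ l p.2 ≠ 0 := pow_ne_zero _ h0
    field_simp
  have hVind : LinearIndependent ℂ fun p => V p Ec := by
    obtain ⟨w, hw⟩ : ∃ w : Fin k → M, ∀ i, (w i : K) = Ω i.succ Ec / Ω 0 Ec :=
      ⟨fun i => ⟨_, hM i⟩, fun _ => rfl⟩
    have h1 : AlgebraicIndependent ℂ w := by
      refine AlgebraicIndependent.of_comp M.val ?_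
      have : (M.val ∘ w) = fun i : Fin k => Ω i.succ Ec / Ω 0 Ec := funext hw
      rw [this]
      exact hind
    have h2 : LinearIndependent ℂ fun a : Fin k → Fin (L + 1) =>
        ∏ i : Fin k, w i ^ (a i : ℕ) :=
      (mono_indep h1).comp (fun (a : Fin k → Fin (L + 1)) i => (a i : ℕ)) (by
        intro a a' h
        funext i
        exact Fin.ext (congrFun h i))
    have h3 := linearIndependent_smul h2 hgi
    have h4 := h3.map' (LinearMap.mulLeft ℂ (Ω 0 Ec ^ T * s' Ec)) (by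
      rw [LinearMap.ker_eq_bot]
      exact fun a b hab => mul_left_cancel₀ (mul_ne_zero (pow_ne_zero _ h0) hs'0) hab)
    have h5 : (fun p => V p Ec) = (LinearMap.mulLeft ℂ (Ω 0 Ec ^ T * s' Ec)) ∘
        fun p : (Fin k → Fin (L + 1)) × Fin r => (∏ i : Fin k, w i ^ (p.1 i : ℕ)) • g p.2 := by
      funext p
      rw [hVE, Function.comp_apply, LinearMap.mulLeft_apply]
      congr 1
      change _ = ((∏ i : Fin k, w i ^ (p.1 i : ℕ) : M) : K) * g p.2
      congr 1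
      push_cast
      exact Finset.prod_congr rfl fun i _ => by rw [hw]
    rw [h5]
    exact h4
  have h1 := hC ((T + T') * m0) (Nat.mul_pos (by omega) hm0) _ _
    (hVind.comp _ (Fintype.equivFin ((Fin k → Fin (L + 1)) × Fin r)).symm.injective)
    fun i => ⟨_, hV _, rfl⟩
  rw [Fintype.card_prod, Fintype.card_fun, Fintype.card_fin, Fintype.card_fin, Fintype.card_fin]
    at h1
  have h2 : (T + T') * m0 ≤ ((1 + 2 * c) * (k + 1) * m0) * L := by
    have h3 : T + T' ≤ (1 + 2 * c) * (k + 1) * L := by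
      rw [hT]
      nlinarith
    calc (T + T') * m0 ≤ (1 + 2 * c) * (k + 1) * L * m0 := Nat.mul_le_mul_right _ h3
      _ = _ := by ring
  replace h1 := h1.trans (Nat.mul_le_mul_left C (Nat.pow_le_pow_left h2 k))
  rw [mul_pow] at h1
  have h3 : L ^ k * r ≤ (L + 1) ^ k * r :=
    Nat.mul_le_mul_right _ (Nat.pow_le_pow_left (Nat.le_succ L) k)
  have h4 : L ^ k * r ≤ L ^ k * (C * ((1 + 2 * c) * (k + 1) * m0) ^ k) := by
    refine (h3.trans h1).trans (le_of_eq ?_)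
    ring
  exact Nat.le_of_mul_le_mul_left h4 (Nat.pow_pos hL1)

/-- a basis of the span -/
theorem exists_basis_of_bound {F : Type} [Field F] [Algebra F K] {S : Set K} {R : ℕ}
    (hR : ∀ (r : ℕ) (g : Fin r → K), (∀ i, g i ∈ S) → LinearIndependent F g → r ≤ R) :
    ∃ (r : ℕ) (g : Fin r → K), (∀ i, g i ∈ S) ∧ LinearIndependent F g ∧
      ∀ x ∈ S, ∃ h : Fin r → F, x = ∑ j, h j • g j := by
  classical
  obtain ⟨X, hX⟩ : ∃ X : Set ℕ, X = {r | ∃ g : Fin r → K, (∀ i, g i ∈ S) ∧ LinearIndependent F g} :=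
    ⟨_, rfl⟩
  have hX0 : X.Nonempty := by
    rw [hX]
    exact ⟨0, Fin.elim0, fun i => i.elim0, linearIndependent_empty_type⟩
  have hXb : BddAbove X := by
    refine ⟨R, ?_⟩
    rw [hX]
    rintro r ⟨g, h1, h2⟩
    exact hR r g h1 h2
  have h1 := Nat.sSup_mem hX0 hXb
  rw [hX] at h1
  obtain ⟨g, hg, hgi⟩ := h1
  refine ⟨_, g, hg, hgi, fun x hx => ?_⟩
  by_contra hcon
  have h2 : LinearIndependent F (Fin.cons x g : Fin (sSup {r | ∃ g : Fin r → K,
      (∀ i, g i ∈ S) ∧ LinearIndependent F g} + 1) → K) := by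
    rw [linearIndependent_finCons]
    refine ⟨hgi, fun h3 => hcon ?_⟩
    rw [Submodule.mem_span_range_iff_exists_fun] at h3
    obtain ⟨h, hh⟩ := h3
    exact ⟨h, hh.symm⟩
  have h3 : sSup {r | ∃ g : Fin r → K, (∀ i, g i ∈ S) ∧ LinearIndependent F g} + 1 ∈ X := by
    rw [hX]
    refine ⟨_, fun i => ?_, h2⟩
    refine Fin.cases hx (fun i => hg i) i
  have h4 := le_csSup hXb h3
  rw [hX] at h4
  omega

end

end Pool.Agent.Y172
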