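import Pool.Agent.Y172.Low

/-!
The field of the Iitaka fibration.
-/

set_option autoImplicit false

open FF Pool.Agent.W602.GT Pool.Agent.W603.LV Pool.Agent.TH122.AB

namespace Pool.Agent.Y172

section

variable {k K : Type} [Field k] [CharZero k] [Field K] [Algebra k K]
variable {F M : IntermediateField k K} {r e l : ℕ} {t : Fin r → K} {J : Fin e → Fin r}
  {D : Fin e → Derivation k K K} {u : Fin l → K} {H : Fin l → Derivation k K K}

/-- the terms of the polynomials with the property `B` -/
def TT (u : Fin l → K) (B : MvPolynomial (Fin l) M → Prop) : Set K :=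
  {y | ∃ g, B g ∧ ∃ a ∈ g.support, y = trm u g a / MvPolynomial.aeval u g}

/-- the fibration given by a set of terms -/
structure Fb (M M1 : IntermediateField k K) {l l' ρ : ℕ} (u : Fin l → K)
    (B : MvPolynomial (Fin l) M → Prop) (x : Fin ρ → K) (u' : Fin l' → K) : Prop where
  eq : M1 = acl k ((M : Set K) ∪ TT u B)
  xT : ∀ i, x i ∈ TT u B
  xi : AlgebraicIndependent M x
  xk : ∀ D : Derivation k K K, Kills D M → (∀ i, D (x i) = 0) → Kills D M1
  ub : ∀ j, ∃ b, u' j = mono u b
  uc : ∀ i, ∃ m ∈ M1, ∃ c : Fin l' → ℤ, u i = m * mono u' c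
  ui : AlgebraicIndependent M1 u'
  top : IntermediateField.adjoin k ((M1 : Set K) ∪ Set.range u') = ⊤

theorem exists_fb {n : ℕ} (hn : Algebra.trdeg k K = n) (gs : Gs F M t J D u H)
    (B : MvPolynomial (Fin l) M → Prop) :
    ∃ (M1 : IntermediateField k K) (l' ρ : ℕ) (x : Fin ρ → K) (u' : Fin l' → K),
      Fb M M1 u B x u' := by
  classical
  obtain ⟨M1, hM1⟩ : ∃ M1 : IntermediateField k K, M1 = acl k ((M : Set K) ∪ TT u B) := ⟨_, rfl⟩
  have hclosed : Closed M1 := by
    rw [hM1]
    exact acl_closed _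
  have hMM1 : ∀ y ∈ M, y ∈ M1 := by
    rw [hM1]
    exact fun y hy => subset_acl _ (Or.inl hy)
  have hTM1 : ∀ y ∈ TT u B, y ∈ M1 := by
    rw [hM1]
    exact fun y hy => subset_acl _ (Or.inr hy)
  obtain ⟨ρ, x, hxT, hxi, hxk⟩ := pick hn M (TT u B)
  obtain ⟨l', u', hu'0, hub, huc, hum⟩ := lattice' hclosed gs.u_ne
  choose b hb using hub
  choose m hm c hc using huc
  have hm0 : ∀ i, m i ≠ 0 := by
    intro i h
    have := hc i
    rw [h, zero_mul] at this
    exact gs.u_ne i this
  -- monomials in the new coordinates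
  have hmono : ∀ a : Fin l → ℤ, mono u a = mono m a * mono u' (∑ i, a i • c i) := by
    intro a
    rw [mono_sum hu'0, mono, mono, ← Finset.prod_mul_distrib]
    refine Finset.prod_congr rfl fun i _ => ?_
    rw [mono_smul, hc i, mul_zpow]
  have hmem : ∀ a : Fin l → ℤ, mono u a ∈ M1 → ∑ i, a i • c i = 0 := by
    intro a ha
    apply hum
    have h1 : mono u' (∑ i, a i • c i) = mono u a * (mono m a)⁻¹ := by
      rw [hmono, mul_comm (mono m a), mul_assoc, mul_inv_cancel₀ (mono_ne hm0 a), mul_one]
    rw [h1]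
    exact mul_mem ha (inv_mem (mono_mem hm a))
  have hbc : ∀ j, ∑ i, b j i • c i = Pi.single j 1 := by
    intro j
    have h1 : (Pi.single j 1 : Fin l' → ℤ) - ∑ i, b j i • c i = 0 := by
      apply hum
      rw [mono_sub hu'0, mono_single]
      have h2 := hmono (b j)
      rw [← hb j] at h2
      have h3 : u' j / mono u' (∑ i, b j i • c i) = mono m (b j) := by
        rw [div_eq_iff (mono_ne hu'0 _)]
        exact h2
      rw [h3]
      exact mono_mem hm _
    exact (sub_eq_zero.1 h1).symm
  -- the derivations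
  obtain ⟨H', hH'⟩ : ∃ H' : Fin l' → Derivation k K K, ∀ i, H' i = ∑ j, (c j i : K) • H j :=
    ⟨_, fun _ => rfl⟩
  have hH'u : ∀ i j, H' i (u j) = (c j i : K) * u j := by
    intro i j
    rw [hH', sum_smul_apply, Finset.sum_eq_single j]
    · rw [gs.hu, if_pos rfl]
    · intro j' _ hj
      rw [gs.hu, if_neg hj, mul_zero]
    · intro h
      exact absurd (Finset.mem_univ j) h
  have hH'm : ∀ i (a : Fin l → ℤ), H' i (mono u a) = ((∑ j, a j • c j) i : K) * mono u a := by
    intro i a
    rw [logd_mono (H' i) gs.u_ne]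
    congr 1
    rw [Finset.sum_apply]
    push_cast
    refine Finset.sum_congr rfl fun j _ => ?_
    rw [hH'u, mul_div_cancel_right₀ _ (gs.u_ne j), Pi.smul_apply, smul_eq_mul]
    push_cast
    rfl
  have hH'M : ∀ i, Kills (H' i) M := by
    intro i y hy
    rw [hH', sum_smul_apply]
    exact Finset.sum_eq_zero fun j _ => by rw [gs.hk j y hy, mul_zero]
  have hH'M1 : ∀ i, Kills (H' i) M1 := by
    intro i
    rw [hM1]
    refine kills_acl ?_
    rintro y (hy | ⟨g, hg, a, ha, rfl⟩)
    · exact hH'M i y hy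
    have hg0 : g ≠ 0 := by
      rintro rfl
      simp at ha
    have hgu : MvPolynomial.aeval u g ≠ 0 := fun h =>
      hg0 ((injective_iff_map_eq_zero _).1 gs.ind g h)
    -- the eigenvalues agree
    have h1 : ∀ a' ∈ g.support, ∑ j, (a' j : ℤ) • c j = ∑ j, (a j : ℤ) • c j := by
      intro a' ha'
      have h2 : mono u (fun j => (a' j : ℤ) - a j) ∈ M1 := by
        have h3 : trm u g a' / MvPolynomial.aeval u g ∈ M1 := hTM1 _ ⟨g, hg, a', ha', rfl⟩
        have h4 : trm u g a / MvPolynomial.aeval u g ∈ M1 := hTM1 _ ⟨g, hg, a, ha, rfl⟩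
        have h5 := div_mem h3 h4
        rw [div_div_div_cancel_right₀ hgu] at h5
        have h6 : mono u (fun j => (a' j : ℤ) - a j) = (trm u g a' / trm u g a) *
            (((MvPolynomial.coeff a g : M) : K) / ((MvPolynomial.coeff a' g : M) : K)) := by
          have h7 := mono_sub gs.u_ne (fun j => (a' j : ℤ)) fun j => (a j : ℤ)
          have h8 : (fun j => (a' j : ℤ) - a j) =
              (fun j => (a' j : ℤ)) - fun j => (a j : ℤ) := rfl
          rw [h8, h7]
          simp only [trm]
          have h9 : ((MvPolynomial.coeff a g : M) : K) ≠ 0 := fun h =>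
            MvPolynomial.mem_support_iff.1 ha (Subtype.ext h)
          have h10 : ((MvPolynomial.coeff a' g : M) : K) ≠ 0 := fun h =>
            MvPolynomial.mem_support_iff.1 ha' (Subtype.ext h)
          have h11 := mono_ne gs.u_ne (fun j => (a j : ℤ))
          field_simp
        rw [h6]
        exact mul_mem h5 (div_mem (hMM1 _ (Subtype.coe_prop _)) (hMM1 _ (Subtype.coe_prop _)))
      have h3 := hmem _ h2
      simp only [sub_smul, Finset.sum_sub_distrib] at h3
      exact sub_eq_zero.1 h3
    have h2 : ∀ a' ∈ g.support, H' i (trm u g a') =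
        ((∑ j, (a j : ℤ) • c j) i : K) * trm u g a' := by
      intro a' ha'
      rw [trm, (H' i).leibniz, hH'M i _ (Subtype.coe_prop _), smul_zero, add_zero, hH'm,
        h1 a' ha', smul_eq_mul]
      ring
    have h3 : H' i (MvPolynomial.aeval u g) =
        ((∑ j, (a j : ℤ) • c j) i : K) * MvPolynomial.aeval u g := by
      rw [aeval_eq, map_sum, Finset.mul_sum]
      exact Finset.sum_congr rfl h2
    rw [Derivation.leibniz_div, h2 a ha, h3]
    simp only [smul_eq_mul]
    ring
  have hH'u' : ∀ i j, H' i (u' j) = if i = j then u' j else 0 := by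
    intro i j
    rw [hb j, hH'm, ← hb j, hbc]
    by_cases hij : i = j
    · rw [if_pos hij, hij, Pi.single_eq_same]
      simp
    · rw [if_neg hij, Pi.single_eq_of_ne hij]
      simp
  have hui : AlgebraicIndependent M1 u' := by
    refine mult_indep hu'0 fun a ha => ?_
    obtain ⟨i, hi⟩ : ∃ i, a i ≠ 0 := by
      by_contra hcon
      push Not at hcon
      exact ha (funext hcon)
    refine ⟨H' i, hH'M1 i, fun j => ?_, ?_⟩
    · by_cases hij : i = j
      · exact ⟨1, one_mem _, by rw [hH'u', if_pos hij, one_mul]⟩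
      · exact ⟨0, zero_mem _, by rw [hH'u', if_neg hij, zero_mul]⟩
    · rw [logd_mono (H' i) hu'0, Finset.sum_eq_single i]
      · rw [hH'u', if_pos rfl, div_self (hu'0 i), mul_one]
        refine mul_ne_zero ?_ (mono_ne hu'0 a)
        have hk : CharZero K := charZero_of_injective_algebraMap (algebraMap k K).injective
        exact_mod_cast hi
      · intro j _ hj
        rw [hH'u', if_neg (Ne.symm hj), zero_div, mul_zero]
      · intro h
        exact absurd (Finset.mem_univ i) h
  refine ⟨M1, l', ρ, x, u', hM1, hxT, hxi, fun D' hD' hD'x => ?_, fun j => ⟨_, hb j⟩,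
    fun i => ⟨_, hm i, _, hc i⟩, hui, ?_⟩
  · rw [hM1]
    refine kills_acl ?_
    rintro y (hy | hy)
    · exact hD' y hy
    · exact hxk D' hD' hD'x y hy
  · rw [← top_le_iff, ← gs.top, IntermediateField.adjoin_le_iff]
    rintro y (hy | ⟨j, rfl⟩)
    · exact IntermediateField.subset_adjoin _ _ (Or.inl (hMM1 y hy))
    · rw [hc j]
      exact mul_mem (IntermediateField.subset_adjoin _ _ (Or.inl (hm j)))
        (mono_mem (M := IntermediateField.adjoin k ((M1 : Set K) ∪ Set.range u'))
          (fun i => IntermediateField.subset_adjoin _ _ (Or.inr ⟨i, rfl⟩)) (c j))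

end

end Pool.Agent.Y172
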