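import Pool.Agent.TH122.AB.Plc

/-!
Fields generated by independent elements, Galois groups over subfields (following
`Pool.Agent.TH122.AB.Gal`).
-/

set_option autoImplicit false
set_option linter.overlappingInstances false
set_option linter.unusedSectionVars false

open IntermediateField Pool.Agent.TH122.AB

namespace Pool.Agent.Y172

section

variable {k K : Type} [Field k] [CharZero k] [Field K] [Algebra k K]

/-- the Galois group over a subfield -/
theorem fixing_props (E : IntermediateField k K) [FiniteDimensional E K] [IsGalois E K] :
    Finite E.fixingSubgroup ∧ fixedField E.fixingSubgroup = E := by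
  refine ⟨?_, ?_⟩
  · exact (IntermediateField.fixingSubgroupEquiv E).toEquiv.finite_iff.2 inferInstance
  · apply le_antisymm
    · intro z hz
      have h1 : z ∈ (⊥ : IntermediateField E K) := by
        rw [IsGalois.mem_bot_iff_fixed]
        intro f
        have h2 := hz ⟨f.restrictScalars k, f.commutes⟩
        exact h2
      rw [IntermediateField.mem_bot] at h1
      obtain ⟨a, rfl⟩ := h1
      exact a.2
    · intro z hz g
      exact g.2 ⟨z, hz⟩

/-- the coordinates generate the fixed field -/
theorem gens_of {d : ℕ} {Z : Fin d → K} (hZ : AlgebraicIndependent k Z)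
    {E : IntermediateField k K} (hE : E = IntermediateField.adjoin k (Set.range Z))
    {X : Fin d → E} (hX : ∀ j, (X j : K) = Z j) : Gens (k := k) X := by
  have hcoe : ∀ P : MvPolynomial (Fin d) k,
      ((MvPolynomial.aeval X P : E) : K) = MvPolynomial.aeval Z P := by
    intro P
    have h1 := (MvPolynomial.aeval_algebraMap_apply K X P).symm
    have h2 : (fun j => algebraMap E K (X j)) = Z := funext hX
    change (algebraMap E K) (MvPolynomial.aeval X P) = _
    rw [h1]
    congr 1
    exact congrArg _ h2
  have hind : AlgebraicIndependent k X := by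
    refine (injective_iff_map_eq_zero _).2 fun P hP => ?_
    apply (injective_iff_map_eq_zero _).1 hZ
    change MvPolynomial.aeval Z P = 0
    rw [← hcoe]
    have : (MvPolynomial.aeval X P : E) = 0 := hP
    rw [this]
    rfl
  refine ⟨hind, fun z => ?_⟩
  have hz : (z : K) ∈ IntermediateField.adjoin k (Set.range Z) := by
    rw [← hE]
    exact z.2
  rw [IntermediateField.mem_adjoin_range_iff] at hz
  obtain ⟨P, Q, hPQ⟩ := hz
  by_cases hQ : Q = 0
  · refine ⟨0, 1, one_ne_zero, Subtype.ext ?_⟩
    rw [hPQ, hQ, map_zero, div_zero, map_zero, zero_div]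
    rfl
  · refine ⟨P, Q, hQ, Subtype.ext ?_⟩
    rw [hPQ, ← hcoe, ← hcoe]
    rfl

end

end Pool.Agent.Y172
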