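import Pool.Agent.Y172.Mono

/-!
The Gauss map of a very affine variety: the field of the logarithmic derivatives, and the monomials
which are independent over it.
-/

set_option autoImplicit false

open FF Pool.Agent.W602.GT

namespace Pool.Agent.Y172

section

variable {k K : Type} [Field k] [CharZero k] [Field K] [Algebra k K]

omit [CharZero k] in
theorem sum_smul_apply {ι : Type} (s : Finset ι) (c : ι → K) (D : ι → Derivation k K K) (f : K) :
    (∑ i ∈ s, c i • D i) f = ∑ i ∈ s, c i * D i f := by
  classical
  induction s using Finset.induction_on with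
  | empty => simp
  | insert i s hi ih =>
    rw [Finset.sum_insert hi, Finset.sum_insert hi, Derivation.add_apply, ih,
      Derivation.smul_apply, smul_eq_mul]

omit [CharZero k] in
/-- algebraic independence in towers -/
theorem tower {F M : IntermediateField k K} (h : F ≤ M) {ι ι' : Type} {x : ι → K}
    (hx : AlgebraicIndependent F x) (hxM : ∀ i, x i ∈ M) {y : ι' → K}
    (hy : AlgebraicIndependent M y) : AlgebraicIndependent F (Sum.elim y x) := by
  let _ : Algebra F M := (IntermediateField.inclusion h).toRingHom.toAlgebra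
  have : IsScalarTower F M K := IsScalarTower.of_algebraMap_eq fun _ => rfl
  refine hx.sumElim_of_tower (S := M) ?_ hy
  rintro _ ⟨i, rfl⟩
  exact ⟨⟨x i, hxM i⟩, rfl⟩

/-- **Choice of an independent family.** -/
theorem pick {n : ℕ} (hn : Algebra.trdeg k K = n) (M : IntermediateField k K) (S : Set K) :
    ∃ (b : ℕ) (x : Fin b → K), (∀ i, x i ∈ S) ∧ AlgebraicIndependent M x ∧
      ∀ D : Derivation k K K, Kills D M → (∀ i, D (x i) = 0) → ∀ s ∈ S, D s = 0 := by
  classical
  obtain ⟨B, -, hB⟩ := exists_maximal_algebraicIndependent (R := M) (A := K) ∅ S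
    (Set.empty_subset S) ((algebraicIndependent_empty_iff ..).mpr (algebraMap M K).injective)
  have hind : AlgebraicIndependent M (Subtype.val : B → K) := hB.prop.1
  have hfin : B.Finite := by
    have h1 : AlgebraicIndependent k (Subtype.val : B → K) :=
      hind.restrictScalars (R := k) (algebraMap k M).injective
    have h2 := h1.cardinalMk_le_trdeg
    rw [hn] at h2
    exact Cardinal.lt_aleph0_iff_set_finite.1 (lt_of_le_of_lt h2 Cardinal.natCast_lt_aleph0)
  have := hfin.fintype
  refine ⟨Fintype.card B, fun i => ((Fintype.equivFin B).symm i : K), fun i =>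
    hB.prop.2 (Subtype.coe_prop _), hind.comp _ (Fintype.equivFin B).symm.injective,
    fun D hD hDx s hs => ?_⟩
  by_contra hDs
  have hDB : ∀ b ∈ B, D b = 0 := by
    intro b hb
    have := hDx (Fintype.equivFin B ⟨b, hb⟩)
    simpa using this
  have hsB : s ∉ B := fun h => hDs (hDB s h)
  -- the field generated by `M` and `B`
  have hMB : Kills D (acl k ((M : Set K) ∪ B)) := kills_acl (by
    rintro x (hx | hx)
    · exact hD x hx
    · exact hDB x hx)
  have h1 : AlgebraicIndependent (acl k ((M : Set K) ∪ B)) (fun _ : Unit => s) := by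
    rw [algebraicIndependent_unique_type_iff]
    exact fun h => hDs (hMB s (acl_closed _ s h))
  have h2 := tower (F := M) (M := acl k ((M : Set K) ∪ B))
    (fun x hx => subset_acl _ (Or.inl hx)) hind (fun b => subset_acl _ (Or.inr b.2)) h1
  have h3 := h2.coe_range
  have h4 : insert s B ⊆ B := hB.2 (y := insert s B) ⟨by
    have h5 : Set.range (Sum.elim (fun _ : Unit => s) (Subtype.val : B → K)) = insert s B := by
      rw [Set.Sum.elim_range, Set.range_const, Subtype.range_coe_subtype]
      rfl
    rw [h5] at h3
    exact h3, Set.insert_subset hs hB.prop.2⟩ (Set.subset_insert s B)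
  exact hsB (h4 (Set.mem_insert s B))

omit [CharZero k] in
/-- **Multiplicative independence implies algebraic independence** if there are enough derivations
for which the elements are eigenvectors. -/
theorem mult_indep {M : IntermediateField k K} {l : ℕ} {u : Fin l → K} (hu : ∀ j, u j ≠ 0)
    (h : ∀ a : Fin l → ℤ, a ≠ 0 → ∃ D : Derivation k K K, Kills D M ∧
      (∀ j, ∃ γ ∈ M, D (u j) = γ * u j) ∧ D (mono u a) ≠ 0) : AlgebraicIndependent M u := by
  classical
  rw [algebraicIndependent_iff]
  by_contra hcon
  push Not at hcon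
  -- a relation with the smallest number of monomials
  have hex : ∃ c : ℕ, ∃ P : MvPolynomial (Fin l) M, MvPolynomial.aeval u P = 0 ∧ P ≠ 0 ∧
      P.support.card = c := by
    obtain ⟨P, h1, h2⟩ := hcon
    exact ⟨_, P, h1, h2, rfl⟩
  obtain ⟨P, hP1, hP2, hP3⟩ := Nat.find_spec hex
  have hmin : ∀ Q : MvPolynomial (Fin l) M, MvPolynomial.aeval u Q = 0 →
      Q.support.card < P.support.card → Q = 0 := by
    intro Q hQ hc
    by_contra hQ0
    exact Nat.find_min hex (hP3 ▸ hc) ⟨Q, hQ, hQ0, rfl⟩
  have hsum : ∀ Q : MvPolynomial (Fin l) M, MvPolynomial.aeval u Q =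
      ∑ a ∈ Q.support, ((MvPolynomial.coeff a Q : M) : K) * mono u (fun i => (a i : ℤ)) := by
    intro Q
    rw [MvPolynomial.aeval_def, MvPolynomial.eval₂_eq']
    refine Finset.sum_congr rfl fun a _ => ?_
    simp only [mono, zpow_natCast]
    rfl
  obtain ⟨a0, ha0⟩ := MvPolynomial.support_nonempty.2 hP2
  -- the exponents are equal
  have hkey : ∀ a ∈ P.support, a = a0 := by
    intro a ha
    by_contra hne
    obtain ⟨D, hDM, hDu, hD⟩ := h (fun i => (a i : ℤ) - a0 i) (by
      intro h0
      apply hne
      ext i
      have := congrFun h0 i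
      simp only [Pi.zero_apply] at this
      omega)
    choose γ hγM hγ using hDu
    have hγ' : ∀ j, D (u j) / u j = γ j := fun j => by rw [hγ, mul_div_cancel_right₀ _ (hu j)]
    have hlog : ∀ b : Fin l → ℤ, D (mono u b) = (∑ j, (b j : K) * γ j) * mono u b := by
      intro b
      rw [logd_mono D hu]
      simp only [hγ']
    -- the derivative of the relation
    let χ : (Fin l →₀ ℕ) → M := fun b => ∑ j, (b j : M) * ⟨γ j, hγM j⟩
    have hχ : ∀ b : Fin l →₀ ℕ, ((χ b : M) : K) = ∑ j, (b j : K) * γ j := by
      intro b
      simp [χ]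
    let Q : MvPolynomial (Fin l) M :=
      ∑ b ∈ P.support, MvPolynomial.monomial b ((χ b - χ a0) * MvPolynomial.coeff b P)
    have hcoeff : ∀ b, MvPolynomial.coeff b Q = (χ b - χ a0) * MvPolynomial.coeff b P := by
      intro b
      rw [MvPolynomial.coeff_sum]
      by_cases hb : b ∈ P.support
      · rw [Finset.sum_eq_single b]
        · rw [MvPolynomial.coeff_monomial, if_pos rfl]
        · intro b' _ hne
          rw [MvPolynomial.coeff_monomial, if_neg hne]
        · intro h
          exact absurd hb h
      · rw [Finset.sum_eq_zero]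
        · rw [MvPolynomial.notMem_support_iff.1 hb, mul_zero]
        · intro b' hb'
          rw [MvPolynomial.coeff_monomial, if_neg]
          rintro rfl
          exact hb hb'
    have hQ : MvPolynomial.aeval u Q = 0 := by
      have h1 : D (MvPolynomial.aeval u P) = ∑ b ∈ P.support, ((χ b : M) : K) *
          (((MvPolynomial.coeff b P : M) : K) * mono u (fun i => (b i : ℤ))) := by
        rw [hsum, map_sum]
        refine Finset.sum_congr rfl fun b _ => ?_
        rw [D.leibniz, hDM _ (Subtype.coe_prop _), hlog, hχ]
        simp only [smul_eq_mul, Int.cast_natCast]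
        ring
      rw [hP1, map_zero] at h1
      have h2 : MvPolynomial.aeval u Q = ∑ b ∈ P.support, (((χ b - χ a0 : M) : K) *
          (((MvPolynomial.coeff b P : M) : K) * mono u (fun i => (b i : ℤ)))) := by
        change MvPolynomial.aeval u (∑ b ∈ P.support, _) = _
        rw [map_sum]
        refine Finset.sum_congr rfl fun b _ => ?_
        rw [MvPolynomial.aeval_monomial, Finsupp.prod_fintype _ _ fun _ => pow_zero _]
        simp only [mono, zpow_natCast]
        change (((χ b - χ a0) * MvPolynomial.coeff b P : M) : K) * _ = _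
        push_cast
        ring
      rw [h2]
      have h3 : ∀ b, (((χ b - χ a0 : M) : K) *
          (((MvPolynomial.coeff b P : M) : K) * mono u (fun i => (b i : ℤ)))) =
          ((χ b : M) : K) * (((MvPolynomial.coeff b P : M) : K) * mono u (fun i => (b i : ℤ))) -
          (χ a0 : K) * (((MvPolynomial.coeff b P : M) : K) * mono u (fun i => (b i : ℤ))) := by
        intro b
        push_cast
        ring
      simp only [h3]
      rw [Finset.sum_sub_distrib, ← h1, ← Finset.mul_sum, ← hsum, hP1, mul_zero, sub_zero]
    have hQ0 : Q = 0 := by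
      refine hmin Q hQ (Finset.card_lt_card (Finset.ssubset_iff_subset_ne.2 ⟨?_, ?_⟩))
      · intro b hb
        rw [MvPolynomial.mem_support_iff, hcoeff] at hb
        rw [MvPolynomial.mem_support_iff]
        exact right_ne_zero_of_mul hb
      · intro heq
        have h1 : a0 ∈ Q.support := heq ▸ ha0
        rw [MvPolynomial.mem_support_iff, hcoeff, sub_self, zero_mul] at h1
        exact h1 rfl
    have h1 := hcoeff a
    rw [hQ0, MvPolynomial.coeff_zero] at h1
    have h2 : χ a - χ a0 = 0 :=
      (mul_eq_zero.1 h1.symm).resolve_right (MvPolynomial.mem_support_iff.1 ha)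
    apply hD
    rw [hlog]
    have h3 : ∑ j, (((a j : ℤ) - a0 j : ℤ) : K) * γ j = ((χ a - χ a0 : M) : K) := by
      push_cast
      rw [hχ, hχ, ← Finset.sum_sub_distrib]
      exact Finset.sum_congr rfl fun j _ => by ring
    rw [h3, h2]
    simp
  have h1 : P.support = {a0} := by
    ext a
    rw [Finset.mem_singleton]
    exact ⟨hkey a, fun h => h ▸ ha0⟩
  rw [hsum, h1, Finset.sum_singleton] at hP1
  have h2 := (mul_eq_zero.1 hP1).resolve_right (mono_ne hu _)
  exact MvPolynomial.mem_support_iff.1 ha0 (Subtype.ext h2)

end

end Pool.Agent.Y172
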