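import Pool.Agent.Y172.Gauss

/-!
The structure theorem for the Gauss map of a very affine variety over a subfield.
-/

set_option autoImplicit false

open FF Pool.Agent.W602.GT

namespace Pool.Agent.Y172

section

variable {k K : Type} [Field k] [CharZero k] [Field K] [Algebra k K]

/-- the field of the Gauss map, and the independent monomials -/
structure Gs (F M : IntermediateField k K) {r e l : ℕ} (t : Fin r → K) (J : Fin e → Fin r)
    (D : Fin e → Derivation k K K) (u : Fin l → K) (H : Fin l → Derivation k K K) : Prop where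
  ht : ∀ j, t j ≠ 0
  closed : Closed M
  le : F ≤ M
  bas : IsTranscendenceBasis F fun i => t (J i)
  dk : ∀ i, Kills (D i) F
  dual : ∀ i j, D i (t (J j)) = if i = j then t (J j) else 0
  gen : M = acl k ((F : Set K) ∪ Set.range fun p : Fin e × Fin r => D p.1 (t p.2) / t p.2)
  ub : ∀ j, ∃ b, u j = mono t b
  tc : ∀ i, ∃ m ∈ M, ∃ c : Fin l → ℤ, t i = m * mono u c
  hk : ∀ j, Kills (H j) M
  hu : ∀ i j, H i (u j) = if i = j then u j else 0
  ind : AlgebraicIndependent M u
  top : IntermediateField.adjoin k ((M : Set K) ∪ Set.range u) = ⊤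

/-- the expansion of a derivation in the frame -/
theorem frame_expand {F : IntermediateField k K} {e : ℕ} {x : Fin e → K}
    (hx : IsTranscendenceBasis F x) {D : Fin e → Derivation k K K} (hD : ∀ i, Kills (D i) F)
    (hdual : ∀ i j, D i (x j) = if i = j then x j else 0) {E : Derivation k K K}
    (hE : Kills E F) : E = ∑ i, (E (x i) / x i) • D i := by
  have hx0 : ∀ i, x i ≠ 0 := fun i => hx.1.ne_zero i
  refine ext_over hx hE (fun y hy => ?_) fun j => ?_
  · rw [sum_smul_apply]
    exact Finset.sum_eq_zero fun i _ => by rw [hD i y hy, mul_zero]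
  · rw [sum_smul_apply, Finset.sum_eq_single j]
    · rw [hdual, if_pos rfl, div_mul_cancel₀ _ (hx0 j)]
    · intro i _ hij
      rw [hdual, if_neg hij, mul_zero]
    · intro h
      exact absurd (Finset.mem_univ j) h

/-- **The Gauss map.** -/
theorem exists_gs {F : IntermediateField k K} {n : ℕ} (hn : Algebra.trdeg k K = n) {r : ℕ}
    {t : Fin r → K} (ht : ∀ j, t j ≠ 0)
    (hgen : IntermediateField.adjoin k ((acl k (F : Set K) : Set K) ∪ Set.range t) = ⊤) :
    ∃ (e l : ℕ) (M : IntermediateField k K) (J : Fin e → Fin r) (D : Fin e → Derivation k K K)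
      (u : Fin l → K) (H : Fin l → Derivation k K K), Gs F M t J D u H := by
  classical
  -- the basis
  obtain ⟨e, x, hxt, hxi, hxk⟩ := pick hn F (Set.range t)
  choose J hJ using hxt
  obtain rfl : x = fun i => t (J i) := by
    funext i
    exact (hJ i).symm
  have htop : ∀ D : Derivation k K K, Kills D F → (∀ j, D (t j) = 0) → D = 0 := by
    intro D hD hDt
    have h1 : IntermediateField.adjoin k ((acl k (F : Set K) : Set K) ∪ Set.range t) ≤ consts D := by
      rw [IntermediateField.adjoin_le_iff]
      rintro y (hy | ⟨j, rfl⟩)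
      · exact kills_acl (D := D) hD y hy
      · exact hDt j
    rw [hgen] at h1
    ext y
    exact h1 (x := y) trivial
  have hbas : IsTranscendenceBasis F fun i => t (J i) :=
    basis_of_kill hxi fun D hD hDx => htop D hD fun j => hxk D hD hDx _ ⟨j, rfl⟩
  -- the frame
  choose D hDF hdual using fun i : Fin e => exists_der_over hbas fun j =>
    if i = j then t (J j) else 0
  have hcomm : ∀ i j y, D i (D j y) = D j (D i y) := by
    intro i j y
    have h1 : ⁅D i, D j⁆ = 0 := by
      refine ext_over hbas (fun y hy => ?_) (fun y _ => rfl) fun a => ?_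
      · rw [Derivation.commutator_apply, hDF j y hy, hDF i y hy, map_zero, map_zero, sub_zero]
      · rw [Derivation.commutator_apply, hdual, hdual]
        split_ifs with h1 h2 h2
        · rw [hdual, hdual, if_pos h1, if_pos h2, sub_self]
          rfl
        · rw [hdual, if_neg h2, map_zero, sub_self]
          rfl
        · rw [hdual, if_neg h1, map_zero, sub_self]
          rfl
        · rw [map_zero, map_zero, sub_self]
          rfl
    have h2 := congrArg (fun E : Derivation k K K => E y) h1
    rw [Derivation.commutator_apply] at h2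
    exact sub_eq_zero.1 h2
  have hexp : ∀ E : Derivation k K K, Kills E F →
      E = ∑ i, (E (t (J i)) / t (J i)) • D i := fun E hE => frame_expand hbas hDF hdual hE
  -- the logarithmic derivatives
  obtain ⟨lam, hlam⟩ : ∃ lam : Fin e → Fin r → K, ∀ i j, lam i j = D i (t j) / t j :=
    ⟨_, fun _ _ => rfl⟩
  have hlam' : ∀ i j, D i (t j) = lam i j * t j := fun i j => by
    rw [hlam, div_mul_cancel₀ _ (ht j)]
  have hsymm : ∀ i a j, D a (lam i j) = D i (lam a j) := by
    intro i a j
    have h1 : ∀ i a, D a (D i (t j)) = (D a (lam i j) + lam i j * lam a j) * t j := by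
      intro i a
      rw [hlam', (D a).leibniz, hlam']
      simp only [smul_eq_mul]
      ring
    have h2 := hcomm a i (t j)
    rw [h1, h1] at h2
    have h3 := mul_right_cancel₀ (ht j) h2
    linear_combination h3
  -- the field `M`
  obtain ⟨Λ, hΛ⟩ : ∃ Λ : Set K, Λ = Set.range fun p : Fin e × Fin r => lam p.1 p.2 := ⟨_, rfl⟩
  obtain ⟨M, hM⟩ : ∃ M : IntermediateField k K, M = acl k ((F : Set K) ∪ Λ) := ⟨_, rfl⟩
  have hclosed : Closed M := by
    rw [hM]
    exact acl_closed _
  have hFM : F ≤ M := by
    rw [hM]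
    exact fun y hy => subset_acl _ (Or.inl hy)
  have hlamM : ∀ i j, lam i j ∈ M := by
    intro i j
    rw [hM]
    exact subset_acl _ (Or.inr (by rw [hΛ]; exact ⟨(i, j), rfl⟩))
  have hkillM : ∀ E : Derivation k K K, Kills E F → (∀ i j, E (lam i j) = 0) → Kills E M := by
    intro E hE hEl
    rw [hM]
    refine kills_acl ?_
    rintro y (hy | hy)
    · exact hE y hy
    · rw [hΛ] at hy
      obtain ⟨p, rfl⟩ := hy
      exact hEl _ _
  -- the transcendence basis of `M`
  obtain ⟨μ, c, hcΛ, hci, hck⟩ := pick hn F Λ
  have hcM : ∀ b, c b ∈ M := by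
    intro b
    rw [hM]
    exact subset_acl _ (Or.inr (hcΛ b))
  have hMc : M = acl k ((F : Set K) ∪ Set.range c) := by
    apply le_antisymm
    · rw [hM]
      refine acl_le (acl_closed _) ?_
      rintro y (hy | hy)
      · exact subset_acl _ (Or.inl hy)
      · by_contra hcon
        obtain ⟨E, hE1, hE2⟩ := exists_der_ne (acl_closed ((F : Set K) ∪ Set.range c)) hcon
        have h1 := hck E (fun z hz => hE1 z (subset_acl _ (Or.inl hz)))
          (fun b => hE1 _ (subset_acl _ (Or.inr ⟨b, rfl⟩))) y hy
        rw [hE2] at h1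
        exact one_ne_zero h1
    · refine acl_le hclosed ?_
      rintro y (hy | ⟨b, rfl⟩)
      · exact hFM hy
      · exact hcM b
  obtain ⟨κ, s, hcs⟩ := exists_basis_ext hci
  choose E hEF hE using fun b : Fin μ => exists_der_over hcs
    (Sum.elim (fun b' => if b = b' then 1 else 0) fun _ => 0)
  have hEc : ∀ b b', E b (c b') = if b = b' then 1 else 0 := fun b b' => hE b (Sum.inl b')
  have hEM : ∀ b, ∀ y ∈ M, E b y ∈ M := by
    intro b
    rw [hMc]
    refine stab_acl ?_
    rintro y (hy | ⟨b', rfl⟩)
    · rw [hEF b y hy]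
      exact zero_mem _
    · rw [hEc]
      split_ifs
      · exact one_mem _
      · exact zero_mem _
  have hDE : ∀ i, ∀ y ∈ M, D i y = ∑ b, D i (c b) * E b y := by
    intro i y hy
    have h1 : Kills (D i - ∑ b, D i (c b) • E b) M := by
      rw [hMc]
      refine kills_acl ?_
      rintro z (hz | ⟨b', rfl⟩)
      · rw [Derivation.sub_apply, sum_smul_apply, hDF i z hz, zero_sub, neg_eq_zero]
        exact Finset.sum_eq_zero fun b _ => by rw [hEF b z hz, mul_zero]
      · rw [Derivation.sub_apply, sum_smul_apply, Finset.sum_eq_single b']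
        · rw [hEc, if_pos rfl, mul_one, sub_self]
        · intro b _ hb
          rw [hEc, if_neg hb, mul_zero]
        · intro h
          exact absurd (Finset.mem_univ b') h
    have h2 := h1 y hy
    rw [Derivation.sub_apply, sum_smul_apply] at h2
    exact sub_eq_zero.1 h2
  -- the derivations for which the monomials are eigenvectors
  have hspread : ∀ y, y ∉ M → ∃ D' : Derivation k K K, Kills D' M ∧
      (∀ j, ∃ γ ∈ M, D' (t j) = γ * t j) ∧ D' y ≠ 0 := by
    intro y hy
    obtain ⟨D0, hD0, hD0y⟩ := exists_der_ne hclosed hy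
    have hD0F : Kills D0 F := fun z hz => hD0 z (hFM hz)
    obtain ⟨κ', hκ'⟩ : ∃ κ' : Fin e → K, ∀ a, κ' a = D0 (t (J a)) / t (J a) := ⟨_, fun _ => rfl⟩
    have hD0e : ∀ z, D0 z = ∑ a, κ' a * D a z := by
      intro z
      have h1 := congrArg (fun E : Derivation k K K => E z) (hexp D0 hD0F)
      simp only [sum_smul_apply] at h1
      rw [h1]
      exact Finset.sum_congr rfl fun a _ => by rw [hκ']
    have h1 : ∀ i j, ∑ a, κ' a * D i (lam a j) = 0 := by
      intro i j
      have h2 := hD0 _ (hlamM i j)
      rw [hD0e] at h2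
      rw [← h2]
      exact Finset.sum_congr rfl fun a _ => by rw [hsymm i a j]
    have h2 : ∀ b j, ∑ a, κ' a * E b (lam a j) = 0 := by
      intro b j
      have h3 : ∀ z, E b z = ∑ i, (E b (t (J i)) / t (J i)) * D i z := by
        intro z
        have h1 := congrArg (fun E : Derivation k K K => E z) (hexp (E b) (hEF b))
        simp only [sum_smul_apply] at h1
        exact h1
      have h5 : ∀ a, κ' a * E b (lam a j) =
          ∑ i, κ' a * ((E b (t (J i)) / t (J i)) * D i (lam a j)) := fun a => by
        rw [← Finset.mul_sum, ← h3]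
      rw [Finset.sum_congr rfl fun a _ => h5 a, Finset.sum_comm]
      refine Finset.sum_eq_zero fun i _ => ?_
      have h4 : ∀ a, κ' a * (E b (t (J i)) / t (J i) * D i (lam a j)) =
          (E b (t (J i)) / t (J i)) * (κ' a * D i (lam a j)) := fun a => by ring
      simp only [h4]
      rw [← Finset.mul_sum, h1, mul_zero]
    -- a linear function
    obtain ⟨φ, hφ⟩ : ∃ φ : K →ₗ[M] M, ∑ a, (φ (κ' a) : K) * D a y ≠ 0 := by
      by_contra hcon
      push Not at hcon
      let B := Module.Basis.ofVectorSpace M K
      have h3 : D0 y = ∑ a, κ' a * D a y := hD0e y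
      let T : Finset (Module.Basis.ofVectorSpaceIndex M K) :=
        Finset.univ.biUnion fun a => (B.repr (κ' a)).support
      have h4 : ∀ a, κ' a = ∑ i ∈ T, ((B.repr (κ' a) i : M) : K) * B i := by
        intro a
        conv_lhs => rw [← B.linearCombination_repr (κ' a)]
        rw [Finsupp.linearCombination_apply, Finsupp.sum]
        refine Finset.sum_subset ?_ ?_
        · intro i hi
          exact Finset.mem_biUnion.2 ⟨a, Finset.mem_univ a, hi⟩
        · intro i _ hi
          rw [Finsupp.notMem_support_iff.1 hi, zero_smul]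
      have h5 : D0 y = ∑ i ∈ T, B i * ∑ a, ((B.repr (κ' a) i : M) : K) * D a y := by
        rw [h3]
        have h6 : ∀ a, κ' a * D a y =
            ∑ i ∈ T, B i * (((B.repr (κ' a) i : M) : K) * D a y) := by
          intro a
          conv_lhs => rw [h4 a]
          rw [Finset.sum_mul]
          exact Finset.sum_congr rfl fun i _ => by ring
        simp only [h6, Finset.mul_sum]
        rw [Finset.sum_comm]
      have h6 : D0 y = 0 := by
        rw [h5]
        refine Finset.sum_eq_zero fun i _ => ?_
        have h7 := hcon (B.coord i)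
        simp only [Module.Basis.coord_apply] at h7
        rw [h7, mul_zero]
      rw [h6] at hD0y
      exact zero_ne_one hD0y
    have h3 : ∀ b j, ∑ a, (φ (κ' a) : K) * E b (lam a j) = 0 := by
      intro b j
      have h4 : φ (∑ a, κ' a * E b (lam a j)) =
          ∑ a, φ (κ' a) * ⟨E b (lam a j), hEM b _ (hlamM a j)⟩ := by
        rw [map_sum]
        refine Finset.sum_congr rfl fun a _ => ?_
        have h5 : κ' a * E b (lam a j) =
            (⟨E b (lam a j), hEM b _ (hlamM a j)⟩ : M) • κ' a := by
          rw [Algebra.smul_def, mul_comm]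
          rfl
        rw [h5, map_smul, smul_eq_mul, mul_comm]
      rw [h2, map_zero] at h4
      have h5 := congrArg (algebraMap M K) h4
      rw [map_zero, map_sum] at h5
      exact h5.symm
    refine ⟨∑ a, (φ (κ' a) : K) • D a, hkillM _ (fun z hz => ?_) (fun i j => ?_),
      fun j => ⟨∑ a, (φ (κ' a) : K) * lam a j, ?_, ?_⟩, ?_⟩
    · rw [sum_smul_apply]
      exact Finset.sum_eq_zero fun a _ => by rw [hDF a z hz, mul_zero]
    · rw [sum_smul_apply]
      have h4 : ∀ a, (φ (κ' a) : K) * D a (lam i j) =
          ∑ b, D i (c b) * ((φ (κ' a) : K) * E b (lam a j)) := by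
        intro a
        rw [hsymm i a j, hDE i _ (hlamM a j), Finset.mul_sum]
        exact Finset.sum_congr rfl fun b _ => by ring
      simp only [h4]
      rw [Finset.sum_comm]
      refine Finset.sum_eq_zero fun b _ => ?_
      rw [← Finset.mul_sum, h3, mul_zero]
    · exact sum_mem fun a _ => mul_mem (Subtype.coe_prop _) (hlamM a j)
    · rw [sum_smul_apply, Finset.sum_mul]
      exact Finset.sum_congr rfl fun a _ => by rw [hlam', mul_assoc]
    · rw [sum_smul_apply]
      exact hφ
  -- the lattice
  obtain ⟨l, u, hu0, hub, htc, hum⟩ := lattice' hclosed ht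
  have hind : AlgebraicIndependent M u := by
    refine mult_indep hu0 fun a ha => ?_
    obtain ⟨D', h1, h2, h3⟩ := hspread (mono u a) fun h => ha (hum a h)
    refine ⟨D', h1, fun j => ?_, h3⟩
    choose γ hγM hγ using h2
    obtain ⟨b, hb⟩ := hub j
    refine ⟨∑ i, (b i : K) * γ i, sum_mem fun i _ => mul_mem (by
      have := M.algebraMap_mem (b i : k)
      rwa [map_intCast] at this) (hγM i), ?_⟩
    rw [hb, logd_mono D' ht]
    congr 1
    exact Finset.sum_congr rfl fun i _ => by rw [hγ, mul_div_cancel_right₀ _ (ht i)]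
  choose H hHM hHu using fun i : Fin l => exists_der_ind hind fun j => if i = j then u j else 0
  refine ⟨e, l, M, J, D, u, H, ht, hclosed, hFM, hbas, hDF, hdual, ?_, hub, htc, hHM, hHu, hind, ?_⟩
  · rw [hM, hΛ]
    simp only [hlam]
  · rw [← top_le_iff, ← hgen, IntermediateField.adjoin_le_iff]
    rintro y (hy | ⟨j, rfl⟩)
    · exact IntermediateField.subset_adjoin _ _ (Or.inl (acl_le hclosed (fun z hz => hFM hz) hy))
    · obtain ⟨m, hm, c', h1⟩ := htc j
      rw [h1]
      exact mul_mem (IntermediateField.subset_adjoin _ _ (Or.inl hm))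
        (mono_mem (M := IntermediateField.adjoin k ((M : Set K) ∪ Set.range u))
          (fun i => IntermediateField.subset_adjoin _ _ (Or.inr ⟨i, rfl⟩)) c')

end

end Pool.Agent.Y172
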