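import Pool.Agent.Helper386.D5V.Helper386_FF_Fund
import Pool.Agent.W602.GT.Defs

/-!
Places from prime ideals whose local ring is a discrete valuation ring.
-/

set_option autoImplicit false

open FF IsDedekindDomain IsLocalRing

namespace Pool.Agent.Y172

section loc

variable {K : Type} [Field K] [Algebra ℂ K]

/-- the place of a local ring whose maximal ideal is principal -/
theorem exists_place_local (R : Subalgebra ℂ K) [IsNoetherianRing R] [IsFractionRing R K]
    (p : Ideal R) [p.IsPrime] {t : R} (ht : t ∈ p) (ht0 : t ≠ 0)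
    (hp : ∀ r ∈ p, ∃ a b : R, b ∉ p ∧ r * b = t * a) :
    ∃ P : Place ℂ K, (∀ f : K, P.Reg f ↔ ∃ a b : R, b ∉ p ∧ f * b = a) ∧
      ∀ r : R, r ∈ p ↔ (r = 0 ∨ 0 < P.ord (r : K)) := by
  have hS : p.primeCompl ≤ nonZeroDivisors R := Ideal.primeCompl_le_nonZeroDivisors p
  let B := Localization.subalgebra.ofField K p.primeCompl hS
  have hloc : IsLocalization.AtPrime B p := Localization.subalgebra.isLocalization_ofField K _ hS
  have hlr : IsLocalRing B := IsLocalization.AtPrime.isLocalRing B p
  have hnoe : IsNoetherianRing B := IsLocalization.isNoetherianRing p.primeCompl B inferInstance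
  have hmB : ∀ f : K, f ∈ B ↔ ∃ a b : R, b ∉ p ∧ f * b = a := by
    intro f
    constructor
    · rintro ⟨a, s, hs, rfl⟩
      refine ⟨a, s, hs, ?_⟩
      have hs0 : (s : K) ≠ 0 := by
        intro h0
        apply hs
        have : s = 0 := Subtype.ext h0
        rw [this]
        exact p.zero_mem
      change (a : K) * (s : K)⁻¹ * (s : K) = a
      rw [mul_assoc, inv_mul_cancel₀ hs0, mul_one]
    · rintro ⟨a, b, hb, h⟩
      refine ⟨a, b, hb, ?_⟩
      have hs0 : (b : K) ≠ 0 := by
        intro h0
        apply hb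
        have : b = 0 := Subtype.ext h0
        rw [this]
        exact p.zero_mem
      change f = (a : K) * (b : K)⁻¹
      rw [← h, mul_assoc, mul_inv_cancel₀ hs0, mul_one]
  have hmax : ∀ r : R, algebraMap R B r ∈ maximalIdeal B ↔ r ∈ p := by
    intro r
    exact IsLocalization.AtPrime.to_map_mem_maximal_iff B p r
  have hprin : (maximalIdeal B).IsPrincipal := by
    refine ⟨algebraMap R B t, ?_⟩
    apply le_antisymm
    · intro x hx
      obtain ⟨a, b, hb, hab⟩ := (hmB (x : K)).1 x.2
      have hax : algebraMap R B a = x * algebraMap R B b := Subtype.ext hab.symm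
      have ha : a ∈ p := by
        rw [← hmax, hax]
        exact Ideal.mul_mem_right _ _ hx
      obtain ⟨a', b', hb', h'⟩ := hp a ha
      have hu : IsUnit (algebraMap R B (b * b')) := by
        refine IsLocalization.map_units B (⟨b * b', ?_⟩ : p.primeCompl)
        exact p.primeCompl.mul_mem hb hb'
      have h2 : x * algebraMap R B (b * b') = algebraMap R B t * algebraMap R B a' := by
        rw [map_mul, ← mul_assoc, ← hax, ← map_mul, h', map_mul]
      obtain ⟨v, hv⟩ := hu.exists_right_inv
      have h3 : x = algebraMap R B t * (algebraMap R B a' * v) := by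
        rw [← mul_assoc, ← h2, mul_assoc, hv, mul_one]
      rw [h3]
      exact Ideal.mul_mem_right _ _ (Submodule.mem_span_singleton_self _)
    · rw [Submodule.span_singleton_le_iff_mem]
      exact (hmax t).2 ht
  have hded : IsDedekindDomain B :=
    ((tfae_of_isNoetherianRing_of_isLocalRing_of_isDomain B).out 4 2).1 hprin
  have hinj : Function.Injective (algebraMap R B) := by
    intro a b h
    exact Subtype.ext (congrArg (fun z : B => (z : K)) h)
  have hne : maximalIdeal B ≠ ⊥ := by
    intro h0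
    have h1 := (hmax t).2 ht
    rw [h0, Ideal.mem_bot] at h1
    exact ht0 (hinj (by rw [h1, map_zero]))
  let v : HeightOneSpectrum B := ⟨maximalIdeal B, inferInstance, hne⟩
  have hunit : ∀ a : B, a ∉ v.asIdeal → (placeOf (k := ℂ) (L := K) v).ord (a : K) = 0 := by
    intro a ha
    have ha0 : (a : K) ≠ 0 := by
      intro h0
      apply ha
      have : a = 0 := Subtype.ext h0
      rw [this]
      exact v.asIdeal.zero_mem
    have h1 := (placeOf_nonneg (k := ℂ) v ha0).2 (v.valuation_le_one a)
    have h2 : ¬ 0 < (placeOf (k := ℂ) (L := K) v).ord (a : K) := by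
      rw [placeOf_pos v ha0]
      intro h
      exact ha ((v.valuation_lt_one_iff_mem a).1 h)
    omega
  refine ⟨placeOf (k := ℂ) (L := K) v, fun f => ?_, fun r => ?_⟩
  · rw [← hmB]
    constructor
    · intro hf
      by_cases hf0 : f = 0
      · rw [hf0]; exact B.zero_mem
      obtain ⟨a, d, h⟩ := v.exists_primeCompl_mul_eq_of_integer f
        ((placeOf_nonneg (k := ℂ) v hf0).1 ((Place.reg_iff _ hf0).1 hf))
      have hd : IsUnit (d : B) := by
        by_contra hcon
        exact d.2 ((mem_maximalIdeal _).2 hcon)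
      obtain ⟨w, hw⟩ := hd.exists_right_inv
      have h3 : f = ((a * w : B) : K) := by
        have h4 : ((d : B) : K) * (w : K) = 1 := congrArg (fun z : B => (z : K)) hw
        have h5 : f * ((d : B) : K) = (a : K) := h
        calc f = f * (((d : B) : K) * (w : K)) := by rw [h4, mul_one]
          _ = (a : K) * w := by rw [← mul_assoc, h5]
          _ = ((a * w : B) : K) := rfl
      rw [h3]
      exact (a * w).2
    · intro hf
      exact placeOf_reg v (⟨f, hf⟩ : B)
  · rw [← hmax]
    by_cases hr : r = 0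
    · subst hr
      simp
    have hrK : (r : K) ≠ 0 := fun h => hr (Subtype.ext h)
    constructor
    · intro h
      right
      have h1 : (placeOf (k := ℂ) (L := K) v).ord ((algebraMap R B r : B) : K) = _ := rfl
      have h2 : ((algebraMap R B r : B) : K) = r := rfl
      rw [← h2]
      exact (placeOf_pos (k := ℂ) v (by rw [h2]; exact hrK)).2
        ((v.valuation_lt_one_iff_mem (algebraMap R B r)).2 h)
    · intro h
      have h := h.resolve_left hr
      by_contra hcon
      have := hunit (algebraMap R B r) hcon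
      change (placeOf (k := ℂ) (L := K) v).ord (r : K) = 0 at this
      omega

end loc

/-- **Hartogs.** -/
theorem exists_assoc {A K : Type} [CommRing A] [IsDomain A] [IsNoetherianRing A]
    [IsIntegrallyClosed A] [Field K] [Algebra A K] [IsFractionRing A K] (q : Ideal A) [q.IsPrime]
    {x : K} (hx : ¬ ∃ a b : A, b ∉ q ∧ x * algebraMap A K b = algebraMap A K a) :
    ∃ p : Ideal A, p.IsPrime ∧ p ≤ q ∧ (∃ t ∈ p, t ≠ 0 ∧ ∀ r ∈ p, ∃ a b : A, b ∉ p ∧ r * b = t * a) ∧
      ¬ ∃ a b : A, b ∉ p ∧ x * algebraMap A K b = algebraMap A K a := by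
  have hinj : Function.Injective (algebraMap A K) := IsFractionRing.injective A K
  -- the ideal of the denominators
  let I : Ideal A :=
    { carrier := {r | ∃ a, x * algebraMap A K r = algebraMap A K a}
      add_mem' := by
        rintro a b ⟨a', ha⟩ ⟨b', hb⟩
        exact ⟨a' + b', by rw [map_add, map_add, mul_add, ha, hb]⟩
      zero_mem' := ⟨0, by simp⟩
      smul_mem' := by
        rintro c a ⟨a', ha⟩
        refine ⟨c * a', ?_⟩
        rw [smul_eq_mul, map_mul, map_mul, ← ha]
        ring }
  have hI : ∀ r : A, r ∈ I ↔ ∃ a, x * algebraMap A K r = algebraMap A K a := fun r => Iff.rfl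
  have hIq : I ≤ q := by
    rintro r ⟨a, hr⟩
    by_contra hrq
    exact hx ⟨a, r, hrq, hr⟩
  have hI0 : I ≠ ⊥ := by
    obtain ⟨a, b, hb, hab⟩ := IsFractionRing.div_surjective A x
    have hb0 : algebraMap A K b ≠ 0 := by
      intro h0
      exact nonZeroDivisors.ne_zero hb (hinj (by rw [h0, map_zero]))
    have hbI : b ∈ I := ⟨a, by rw [← hab, div_mul_cancel₀ _ hb0]⟩
    intro h0
    rw [h0, Ideal.mem_bot] at hbI
    exact nonZeroDivisors.ne_zero hb hbI
  obtain ⟨p, hpI, hpq⟩ := Ideal.exists_minimalPrimes_le hIq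
  have hpp : p.IsPrime := hpI.1.1
  have hIp : I ≤ p := hpI.1.2
  have hass : p ∈ associatedPrimes A (A ⧸ I) := by
    apply Module.associatedPrimes.minimalPrimes_annihilator_subset_associatedPrimes A (A ⧸ I)
    rw [Ideal.annihilator_quotient]
    exact hpI
  obtain ⟨-, c, hc⟩ := isAssociatedPrime_iff.1 hass
  obtain ⟨c, rfl⟩ := Ideal.Quotient.mk_surjective c
  have hc' : ∀ r, r ∈ p ↔ r * c ∈ I := by
    intro r
    rw [hc, Submodule.mem_colon_singleton, Submodule.mem_bot, ← Ideal.Quotient.eq_zero_iff_mem,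
      map_mul, Algebra.smul_def]
    rfl
  obtain ⟨y, hy⟩ : ∃ y : K, y = x * algebraMap A K c := ⟨_, rfl⟩
  have hpy : ∀ r, r ∈ p ↔ ∃ a, y * algebraMap A K r = algebraMap A K a := by
    intro r
    rw [hc', hI, hy]
    constructor
    · rintro ⟨a, h⟩
      exact ⟨a, by rw [← h, map_mul]; ring⟩
    · rintro ⟨a, h⟩
      exact ⟨a, by rw [← h, map_mul]; ring⟩
  have hp0 : p ≠ ⊥ := fun h => hI0 (le_bot_iff.1 (h ▸ hIp))
  refine ⟨p, hpp, hpq, ?_, ?_⟩
  · by_contra hcon
    -- then `y p ⊆ p`, and `y` is integral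
    have h1 : ∀ r ∈ p, ∃ a ∈ p, y * algebraMap A K r = algebraMap A K a := by
      intro r hr
      obtain ⟨a, ha⟩ := (hpy r).1 hr
      refine ⟨a, ?_, ha⟩
      by_contra hap
      have hr0 : r ≠ 0 := by
        rintro rfl
        apply hap
        rw [map_zero, mul_zero] at ha
        have : a = 0 := hinj (by rw [← ha, map_zero])
        rw [this]
        exact p.zero_mem
      refine hcon ⟨r, hr, hr0, fun s hs => ?_⟩
      obtain ⟨a', ha'⟩ := (hpy s).1 hs
      refine ⟨a', a, hap, hinj ?_⟩
      rw [map_mul, map_mul, ← ha, ← ha']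
      ring
    let N : Submodule A K := Submodule.map (Algebra.linearMap A K) p
    have hN : N.FG := Submodule.FG.map (Algebra.linearMap A K) (isNoetherian_def.mp inferInstance p)
    have hNne : N ≠ ⊥ := by
      obtain ⟨r, hr, hr0⟩ := Submodule.ne_bot_iff p |>.1 hp0
      refine (Submodule.ne_bot_iff N).2 ⟨algebraMap A K r, ⟨r, hr, rfl⟩,
        fun h => hr0 (hinj (by rw [h, map_zero]))⟩
    have hint : IsIntegral A y := by
      refine isIntegral_of_smul_mem_submodule N hNne hN y ?_
      rintro _ ⟨r, hr, rfl⟩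
      obtain ⟨a, ha, h⟩ := h1 r hr
      exact ⟨a, ha, h.symm⟩
    obtain ⟨z, hz⟩ := IsIntegrallyClosed.isIntegral_iff.1 hint
    have h2 : (1 : A) ∈ p := (hpy 1).2 ⟨z, by rw [map_one, mul_one, hz]⟩
    exact hpp.ne_top ((Ideal.eq_top_iff_one p).2 h2)
  · rintro ⟨a, b, hb, hab⟩
    exact hb (hIp ⟨a, hab⟩)

end Pool.Agent.Y172
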