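import Pool.Agent.Y172.Loc1
import Pool.Agent.Y172.Fld
import Pool.Agent.TH122.AB.Inf

/-!
The places of the local rings of normal varieties of codimension one are divisorial.
-/

set_option autoImplicit false

open FF IsLocalRing Pool.Agent.W602.GT Pool.Agent.TH122.AB MvPolynomial

namespace Pool.Agent.Y172

section div

variable {K : Type} [Field K] [Algebra ℂ K]

/-- the centre of a place on an affine model -/
noncomputable def centre (R : Subalgebra ℂ K) (P : Place ℂ K) (hR : ∀ r ∈ R, P.Reg r) : Ideal R :=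
  Ideal.comap ((algebraMap R K).codRestrict P.O fun r => hR r r.2) (maximalIdeal P.O)

instance (R : Subalgebra ℂ K) (P : Place ℂ K) (hR : ∀ r ∈ R, P.Reg r) :
    (centre R P hR).IsPrime := by
  unfold centre
  infer_instance

theorem mem_centre {R : Subalgebra ℂ K} {P : Place ℂ K} {hR : ∀ r ∈ R, P.Reg r} {r : R} :
    r ∈ centre R P hR ↔ (r = 0 ∨ 0 < P.ord (r : K)) := by
  change ((algebraMap R K).codRestrict P.O fun r => hR r r.2) r ∈ maximalIdeal P.O ↔ _
  rw [mem_maximalIdeal, mem_nonunits_iff]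
  have h1 := P.isUnit_O_iff (f := (r : K)) (hR r r.2)
  have h2 : (((algebraMap R K).codRestrict P.O fun r => hR r r.2) r : P.O) =
      ⟨(r : K), hR r r.2⟩ := rfl
  rw [h2, h1]
  by_cases hr : r = 0
  · subst hr
    simp
  · have hr' : (r : K) ≠ 0 := fun h => hr (Subtype.ext h)
    have h3 := (P.reg_iff hr').1 (hR r r.2)
    simp only [hr, false_or, not_and]
    constructor
    · intro h
      have := h hr'
      omega
    · intro h _
      omega

theorem notMem_centre {R : Subalgebra ℂ K} {P : Place ℂ K} {hR : ∀ r ∈ R, P.Reg r} {r : R} :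
    r ∉ centre R P hR ↔ (r ≠ 0 ∧ P.ord (r : K) = 0) := by
  rw [mem_centre]
  by_cases hr : r = 0
  · subst hr
    simp
  · have hr' : (r : K) ≠ 0 := fun h => hr (Subtype.ext h)
    have h3 := (P.reg_iff hr').1 (hR r r.2)
    simp only [hr, false_or, not_lt, ne_eq, not_false_eq_true, true_and]
    omega

/-- a nonzero prime ideal in the centre of a place which is a local ring is the centre -/
theorem height_one {R : Subalgebra ℂ K} {P : Place ℂ K} (hR : ∀ r ∈ R, P.Reg r)
    (hloc : ∀ f, P.Reg f → ∃ a ∈ R, ∃ b ∈ R, b ≠ 0 ∧ P.ord b = 0 ∧ f * b = a) {p : Ideal R}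
    (hp : p.IsPrime) (hp0 : p ≠ ⊥) (hle : p ≤ centre R P hR) : p = centre R P hR := by
  refine le_antisymm hle fun s hs => ?_
  obtain ⟨r, hr, hr0⟩ := (Submodule.ne_bot_iff p).1 hp0
  by_cases hs0 : s = 0
  · rw [hs0]
    exact p.zero_mem
  have hsK : (s : K) ≠ 0 := fun h => hs0 (Subtype.ext h)
  have hrK : (r : K) ≠ 0 := fun h => hr0 (Subtype.ext h)
  have h1 := (mem_centre.1 hs).resolve_left hs0
  obtain ⟨M, hM⟩ : ∃ M : ℕ, P.ord (r : K) ≤ M := ⟨(P.ord (r : K)).toNat, Int.self_le_toNat _⟩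
  have h2 : P.Reg ((s : K) ^ M / r) := by
    right
    rw [P.ord_div (pow_ne_zero _ hsK) hrK, P.ord_pow]
    nlinarith
  obtain ⟨a, ha, b, hb, hb0, hbo, hab⟩ := hloc _ h2
  have hbp : (⟨b, hb⟩ : R) ∉ centre R P hR := notMem_centre.2
    ⟨fun h => hb0 (congrArg Subtype.val h), hbo⟩
  have h3 : s ^ M * ⟨b, hb⟩ = r * ⟨a, ha⟩ := by
    apply Subtype.ext
    change (s : K) ^ M * b = r * a
    rw [← hab]
    field_simp
  have h4 : s ^ M * ⟨b, hb⟩ ∈ p := by
    rw [h3]
    exact Ideal.mul_mem_right _ _ hr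
  rcases hp.mem_or_mem h4 with h5 | h5
  · exact hp.mem_of_pow_mem _ h5
  · exact absurd (hle h5) hbp

/-- places whose valuation ring is a local ring of an affine normal model are divisorial -/
theorem divisorial_of_local (R : Subalgebra ℂ K) [Algebra.FiniteType ℂ R] [IsFractionRing R K]
    [IsIntegrallyClosed R] {n : ℕ} (hn : Algebra.trdeg ℂ K = n) {P : Place ℂ K}
    (hR : ∀ r ∈ R, P.Reg r)
    (hloc : ∀ f, P.Reg f → ∃ a ∈ R, ∃ b ∈ R, b ≠ 0 ∧ P.ord b = 0 ∧ f * b = a) :
    Divisorial n P := by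
  obtain ⟨s, g, hg, hgint⟩ := exists_integral_inj_algHom_of_fg ℂ R
  let _ : Algebra (MvPolynomial (Fin s) ℂ) R := g.toRingHom.toAlgebra
  have : IsScalarTower ℂ (MvPolynomial (Fin s) ℂ) R := IsScalarTower.of_algebraMap_eq fun c =>
    (g.commutes c).symm
  have hint : Algebra.IsIntegral (MvPolynomial (Fin s) ℂ) R := ⟨hgint⟩
  have : FaithfulSMul (MvPolynomial (Fin s) ℂ) R :=
    (faithfulSMul_iff_algebraMap_injective _ R).2 hg
  let _ : Algebra (MvPolynomial (Fin s) ℂ) K := ((algebraMap R K).comp g.toRingHom).toAlgebra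
  have : IsScalarTower (MvPolynomial (Fin s) ℂ) R K := IsScalarTower.of_algebraMap_eq fun _ => rfl
  have : IsScalarTower ℂ (MvPolynomial (Fin s) ℂ) K := IsScalarTower.of_algebraMap_eq fun c => by
    change algebraMap ℂ K c = ((g (C c) : R) : K)
    have : g (C c) = algebraMap ℂ R c := g.commutes c
    rw [this]
    rfl
  obtain ⟨Z, hZ⟩ : ∃ Z : Fin s → K, ∀ i, Z i = ((g (X i) : R) : K) := ⟨_, fun _ => rfl⟩
  have haev : ∀ F : MvPolynomial (Fin s) ℂ, aeval Z F = ((g F : R) : K) := by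
    intro F
    have h1 : (aeval Z : MvPolynomial (Fin s) ℂ →ₐ[ℂ] K) = R.val.comp g := by
      apply MvPolynomial.algHom_ext
      intro i
      rw [aeval_X, hZ]
      rfl
    rw [h1]
    rfl
  have hind : AlgebraicIndependent ℂ Z := by
    intro F G h
    change aeval Z F = aeval Z G at h
    rw [haev, haev] at h
    exact hg (Subtype.ext h)
  -- the centre on the affine space
  obtain ⟨q, hq⟩ : ∃ q : Ideal (MvPolynomial (Fin s) ℂ),
      q = (centre R P hR).under (MvPolynomial (Fin s) ℂ) := ⟨_, rfl⟩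
  have hqp : q.IsPrime := by
    rw [hq]
    infer_instance
  obtain ⟨t, ht0, ht⟩ := P.surj
  obtain ⟨a, ha, b, hb, hb0, hbo, hab⟩ := hloc t (Or.inr (by omega))
  have ha0 : (⟨a, ha⟩ : R) ≠ 0 := by
    intro h1
    have h2 : a = 0 := congrArg Subtype.val h1
    rw [h2] at hab
    exact mul_ne_zero ht0 hb0 hab
  have hac : (⟨a, ha⟩ : R) ∈ centre R P hR := by
    rw [mem_centre]
    right
    change 0 < P.ord a
    rw [← hab, P.ord_mul ht0 hb0]
    omega
  have hq0 : q ≠ ⊥ := by
    rw [hq]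
    exact Ideal.comap_ne_bot_of_integral_mem ha0 hac (Algebra.IsIntegral.isIntegral _)
  obtain ⟨p, hpq, hpp⟩ := Ideal.IsPrime.exists_mem_prime_of_ne_bot hqp hq0
  have hspan : (Ideal.span {p}).IsPrime := (Ideal.span_singleton_prime hpp.ne_zero).2 hpp
  have : (centre R P hR).LiesOver q := ⟨hq⟩
  obtain ⟨P', hP', hP'p, hlies⟩ := Ideal.exists_ideal_le_liesOver_of_le (p := Ideal.span {p})
    (q := q) (centre R P hR) ((Ideal.span_singleton_le_iff_mem q).2 hpq)
  have hP'0 : P' ≠ ⊥ := by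
    rintro rfl
    have h1 : p ∈ (⊥ : Ideal R).under (MvPolynomial (Fin s) ℂ) := by
      rw [← hlies.over]
      exact Ideal.mem_span_singleton_self p
    have h2 : g p = 0 := h1
    exact hpp.ne_zero (hg (by rw [h2, map_zero]))
  have hP'c := height_one hR hloc hP'p hP'0 hP'
  have hqs : q = Ideal.span {p} := by
    rw [hq, ← hP'c]
    exact hlies.over.symm
  have hZP : ∀ F : MvPolynomial (Fin s) ℂ, F ≠ 0 →
      0 ≤ P.ord (aeval Z F) ∧ (P.ord (aeval Z F) = 0 ↔ ¬ p ∣ F) := by
    intro F hF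
    have hF0 : aeval Z F ≠ 0 := fun h0 => hF ((injective_iff_map_eq_zero _).1 hind F h0)
    have h1 : P.Reg (aeval Z F) := by
      rw [haev]
      exact hR _ (g F).2
    have h2 := (P.reg_iff hF0).1 h1
    refine ⟨h2, ?_⟩
    have h3 : p ∣ F ↔ (g F) ∈ centre R P hR := by
      rw [← Ideal.mem_span_singleton, ← hqs, hq]
      rfl
    have hgF : g F ≠ 0 := by
      intro h0
      apply hF0
      rw [haev, h0]
      rfl
    rw [h3, notMem_centre, haev]
    exact ⟨fun h => ⟨hgF, h⟩, fun h => h.2⟩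
  -- transcendence basis
  have hbas : IsTranscendenceBasis ℂ Z := by
    rw [isTranscendenceBasis_iff_algebraicIndependent_isAlgebraic]
    refine ⟨hind, ⟨fun z => ?_⟩⟩
    have hZA : ∀ F : MvPolynomial (Fin s) ℂ, aeval Z F ∈ Algebra.adjoin ℂ (Set.range Z) := by
      intro F
      rw [Algebra.adjoin_range_eq_range_aeval]
      exact ⟨F, rfl⟩
    let f' : MvPolynomial (Fin s) ℂ →+* Algebra.adjoin ℂ (Set.range Z) :=
      ((aeval Z : MvPolynomial (Fin s) ℂ →ₐ[ℂ] K).codRestrict _ hZA).toRingHom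
    have hRint : ∀ r : R, IsIntegral (Algebra.adjoin ℂ (Set.range Z)) (r : K) := by
      intro r
      obtain ⟨Q, hQ, hQr⟩ := hint.isIntegral r
      refine ⟨Q.map f', hQ.map f', ?_⟩
      rw [Polynomial.eval₂_map]
      have h1 : (algebraMap (Algebra.adjoin ℂ (Set.range Z)) K).comp f' =
          (algebraMap R K).comp (algebraMap (MvPolynomial (Fin s) ℂ) R) :=
        RingHom.ext fun F => haev F
      rw [h1]
      have h2 := Polynomial.hom_eval₂ Q (algebraMap (MvPolynomial (Fin s) ℂ) R) (algebraMap R K) r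
      change _ = Polynomial.eval₂ _ (algebraMap R K r) Q at h2
      change Polynomial.eval₂ _ (algebraMap R K r) Q = 0
      rw [← h2, hQr, map_zero]
    obtain ⟨c, d, hd, rfl⟩ := IsFractionRing.div_surjective R z
    rw [div_eq_mul_inv]
    exact (hRint c).isAlgebraic.mul (hRint d).isAlgebraic.inv
  have hsn : s = n := by
    have h1 := hbas.cardinalMk_eq_trdeg
    rw [hn, Cardinal.mk_fin] at h1
    exact_mod_cast h1
  subst hsn
  let K0 := IntermediateField.adjoin ℂ (Set.range Z)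
  let Z0 : Fin s → K0 := fun i => ⟨Z i, IntermediateField.subset_adjoin ℂ _ ⟨i, rfl⟩⟩
  have hgens : Gens (k := ℂ) Z0 := gens_of hind rfl fun _ => rfl
  have hZ0 : ∀ F : MvPolynomial (Fin s) ℂ, ((aeval Z0 F : K0) : K) = aeval Z F := by
    intro F
    exact (MvPolynomial.aeval_algebraMap_apply K Z0 F).symm
  obtain ⟨e, v, hv⟩ := exists_over (K := K0) P ⟨aeval Z0 p, by
    change P.ord ((aeval Z0 p : K0) : K) ≠ 0
    rw [hZ0]
    intro h0
    exact ((hZP p hpp.ne_zero).2.1 h0) dvd_rfl⟩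
  have hvP : ∀ F : MvPolynomial (Fin s) ℂ, P.ord (aeval Z F) = e * v.ord (aeval Z0 F) := by
    intro F
    rw [← hZ0]
    exact hv.2 _
  have he : (0 : ℤ) < e := by exact_mod_cast hv.1
  refine div_adic hgens hpp.irreducible (v := v) (fun F hF => ?_) hv
  obtain ⟨h1, h2⟩ := hZP F hF
  rw [hvP] at h1 h2
  refine ⟨nonneg_of_mul_nonneg_right h1 he, ?_⟩
  rw [← h2]
  constructor
  · intro h
    rw [h, mul_zero]
  · intro h
    exact (mul_eq_zero.1 h).resolve_left he.ne'

end div

end Pool.Agent.Y172
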