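import Pool.Agent.Y172.Loc2
import Pool.Agent.Y172.Defs

/-!
Normal projective varieties: local rings, prime divisors, Hartogs.
-/

set_option autoImplicit false

open FF IsLocalRing Pool.Agent.W602.GT Pool.Agent.TH122.AB

namespace Pool.Agent.Y172

section

variable {K : Type} [Field K] [Algebra ℂ K] {N : ℕ} {y : Fin (N + 1) → K}

theorem gen_mem (y : Fin (N + 1) → K) (j i : Fin (N + 1)) : y i / y j ∈ chart y j :=
  Algebra.subset_adjoin ⟨i, rfl⟩

instance (y : Fin (N + 1) → K) (j : Fin (N + 1)) : Algebra.FiniteType ℂ (chart y j) := by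
  rw [← Subalgebra.fg_iff_finiteType]
  exact ⟨(Set.finite_range fun i => y i / y j).toFinset, by
    rw [Set.Finite.coe_toFinset]
    rfl⟩

instance (y : Fin (N + 1) → K) (j : Fin (N + 1)) : IsNoetherianRing (chart y j) :=
  Algebra.FiniteType.isNoetherianRing ℂ _

theorem NormalModel.frac (h : NormalModel y) {j : Fin (N + 1)} (hj : y j ≠ 0) :
    IsFractionRing (chart y j) K := by
  refine IsFractionRing.of_field _ K fun z => ?_
  have hz : z ∈ IntermediateField.adjoin ℂ (Set.range fun i => y i / y j) := by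
    rw [h.field j hj]
    trivial
  rw [IntermediateField.mem_adjoin_iff_div] at hz
  obtain ⟨a, ha, b, hb, rfl⟩ := hz
  exact ⟨⟨a, ha⟩, ⟨b, hb⟩, rfl⟩

theorem Centred.reg {j : Fin (N + 1)} {P : Place ℂ K} (h : Centred y j P) :
    ∀ r ∈ chart y j, P.Reg r := by
  intro r hr
  have h1 : chart y j ≤ ({ P.O.toSubring with
      algebraMap_mem' := fun c => P.reg_const c } : Subalgebra ℂ K) := by
    apply Algebra.adjoin_le
    rintro _ ⟨i, rfl⟩
    exact h.2 i
  exact h1 hr

/-- every place has a centre -/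
theorem exists_centred (h : NormalModel y) (P : Place ℂ K) : ∃ j, Centred y j P := by
  classical
  obtain ⟨j0, hj0⟩ := h.ne
  obtain ⟨j, hj, hmin⟩ := Finset.exists_min_image (Finset.univ.filter fun i => y i ≠ 0)
    (fun i => P.ord (y i)) ⟨j0, by simpa using hj0⟩
  have hj' : y j ≠ 0 := by simpa using hj
  refine ⟨j, hj', fun i => ?_⟩
  by_cases hi : y i = 0
  · rw [hi, zero_div]
    exact P.reg_zero
  · right
    rw [P.ord_div hi hj']
    have := hmin i (by simpa using hi)
    linarith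

/-- change of the chart -/
theorem chart_change {j j' : Fin (N + 1)} (hj : y j ≠ 0) (hj' : y j' ≠ 0) {a : K}
    (ha : a ∈ chart y j') : ∃ k : ℕ, a * (y j' / y j) ^ k ∈ chart y j := by
  induction ha using Algebra.adjoin_induction with
  | mem x hx =>
    obtain ⟨i, rfl⟩ := hx
    refine ⟨1, ?_⟩
    have : y i / y j' * (y j' / y j) ^ 1 = y i / y j := by
      field_simp
    rw [this]
    exact gen_mem y j i
  | algebraMap r => exact ⟨0, by rw [pow_zero, mul_one]; exact (chart y j).algebraMap_mem r⟩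
  | add x z _ _ hx hz =>
    obtain ⟨k, hk⟩ := hx
    obtain ⟨l, hl⟩ := hz
    refine ⟨k + l, ?_⟩
    have : (x + z) * (y j' / y j) ^ (k + l) = x * (y j' / y j) ^ k * (y j' / y j) ^ l +
        z * (y j' / y j) ^ l * (y j' / y j) ^ k := by ring
    rw [this]
    exact (chart y j).add_mem ((chart y j).mul_mem hk ((chart y j).pow_mem (gen_mem y j j') _))
      ((chart y j).mul_mem hl ((chart y j).pow_mem (gen_mem y j j') _))
  | mul x z _ _ hx hz =>
    obtain ⟨k, hk⟩ := hx
    obtain ⟨l, hl⟩ := hz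
    refine ⟨k + l, ?_⟩
    have : (x * z) * (y j' / y j) ^ (k + l) = (x * (y j' / y j) ^ k) *
        (z * (y j' / y j) ^ l) := by ring
    rw [this]
    exact (chart y j).mul_mem hk hl

theorem Centred.unit {j j' : Fin (N + 1)} {P : Place ℂ K} (h : Centred y j P)
    (h' : Centred y j' P) : P.ord (y j' / y j) = 0 := by
  have h1 := (P.reg_iff (div_ne_zero h'.1 h.1)).1 (h.2 j')
  have h2 := (P.reg_iff (div_ne_zero h.1 h'.1)).1 (h'.2 j)
  rw [P.ord_div h'.1 h.1] at h1 ⊢
  rw [P.ord_div h.1 h'.1] at h2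
  omega

/-- the local ring can be computed in any chart -/
theorem mem_localRing {j : Fin (N + 1)} {P : Place ℂ K} (h : Centred y j P) {f : K} :
    f ∈ localRing y P ↔
      ∃ a ∈ chart y j, ∃ b ∈ chart y j, b ≠ 0 ∧ P.ord b = 0 ∧ f * b = a := by
  constructor
  · rintro ⟨j', h', a, ha, b, hb, hb0, hbo, hab⟩
    obtain ⟨k, hk⟩ := chart_change h.1 h'.1 ha
    obtain ⟨l, hl⟩ := chart_change h.1 h'.1 hb
    have hu : y j' / y j ≠ 0 := div_ne_zero h'.1 h.1
    refine ⟨a * (y j' / y j) ^ k * (y j' / y j) ^ l,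
      (chart y j).mul_mem hk ((chart y j).pow_mem (gen_mem y j j') _),
      b * (y j' / y j) ^ l * (y j' / y j) ^ k,
      (chart y j).mul_mem hl ((chart y j).pow_mem (gen_mem y j j') _),
      mul_ne_zero (mul_ne_zero hb0 (pow_ne_zero _ hu)) (pow_ne_zero _ hu), ?_, ?_⟩
    · rw [P.ord_mul (mul_ne_zero hb0 (pow_ne_zero _ hu)) (pow_ne_zero _ hu),
        P.ord_mul hb0 (pow_ne_zero _ hu), P.ord_pow, P.ord_pow, h.unit h', hbo]
      ring
    · rw [← hab]
      ring
  · rintro ⟨a, ha, b, hb, hb0, hbo, hab⟩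
    exact ⟨j, h, a, ha, b, hb, hb0, hbo, hab⟩

theorem chart_localRing {j : Fin (N + 1)} {P : Place ℂ K} (h : Centred y j P) {f : K}
    (hf : f ∈ chart y j) : f ∈ localRing y P :=
  ⟨j, h, f, hf, 1, (chart y j).one_mem, one_ne_zero, P.ord_one, mul_one f⟩

theorem localRing_reg {P : Place ℂ K} {f : K} (hf : f ∈ localRing y P) : P.Reg f := by
  obtain ⟨j, h, a, ha, b, hb, hb0, hbo, hab⟩ := hf
  by_cases hf0 : f = 0
  · exact Or.inl hf0
  right
  have h1 := (P.reg_iff (by rw [← hab]; exact mul_ne_zero hf0 hb0)).1 (h.reg a ha)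
  rw [← hab, P.ord_mul hf0 hb0, hbo, add_zero] at h1
  exact h1

theorem Through.centred {P Q : Place ℂ K} (h : Through y P Q) {j : Fin (N + 1)}
    (hQ : Centred y j Q) : Centred y j P :=
  ⟨hQ.1, fun i => h _ (chart_localRing hQ (gen_mem y j i))⟩

/-- prime divisors are divisorial -/
theorem IsPrimeDivisor.divisorial (hy : NormalModel y) {n : ℕ} (hn : Algebra.trdeg ℂ K = n)
    {P : Place ℂ K} (hP : IsPrimeDivisor y P) : Divisorial n P := by
  obtain ⟨j, hj⟩ := exists_centred hy P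
  have := hy.frac hj.1
  have := hy.normal j hj.1
  exact divisorial_of_local (chart y j) hn hj.reg fun f hf => (mem_localRing hj).1 (hP f hf)

/-- **Hartogs.** A function which is regular at all prime divisors through a centre is in the local
ring. -/
theorem mem_localRing_of_reg (hy : NormalModel y) {Q : Place ℂ K} {f : K}
    (hf : ∀ P, IsPrimeDivisor y P → Through y P Q → P.Reg f) : f ∈ localRing y Q := by
  obtain ⟨j, hj⟩ := exists_centred hy Q
  have := hy.frac hj.1
  have := hy.normal j hj.1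
  by_contra hcon
  rw [mem_localRing hj] at hcon
  have h1 : ¬ ∃ a b : chart y j, b ∉ centre (chart y j) Q hj.reg ∧
      f * algebraMap (chart y j) K b = algebraMap (chart y j) K a := by
    rintro ⟨a, b, hb, hab⟩
    rw [notMem_centre] at hb
    exact hcon ⟨a, a.2, b, b.2, fun h => hb.1 (Subtype.ext h), hb.2, hab⟩
  obtain ⟨p, hp, hpq, ⟨t, ht, ht0, htp⟩, hfp⟩ := exists_assoc (centre (chart y j) Q hj.reg) h1
  obtain ⟨P, hPr, hPp⟩ := exists_place_local (chart y j) p ht ht0 htp
  have hPreg : ∀ r ∈ chart y j, P.Reg r := fun r hr => (hPr r).2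
    ⟨⟨r, hr⟩, 1, fun h => hp.ne_top ((Ideal.eq_top_iff_one p).2 h), by
      change r * (1 : K) = r
      rw [mul_one]⟩
  have hPc : Centred y j P := ⟨hj.1, fun i => hPreg _ (gen_mem y j i)⟩
  have hun : ∀ b : chart y j, b ∉ p → (b : K) ≠ 0 ∧ P.ord (b : K) = 0 := by
    intro b hb
    rw [hPp] at hb
    push Not at hb
    have h2 : (b : K) ≠ 0 := fun h => hb.1 (Subtype.ext h)
    have h3 := (P.reg_iff h2).1 (hPreg b b.2)
    exact ⟨h2, by have := hb.2; omega⟩
  have hPd : IsPrimeDivisor y P := by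
    intro g hg
    obtain ⟨a, b, hb, hab⟩ := (hPr g).1 hg
    exact ⟨j, hPc, a, a.2, b, b.2, (hun b hb).1, (hun b hb).2, hab⟩
  have hPt : Through y P Q := by
    intro g hg
    obtain ⟨a, ha, b, hb, hb0, hbo, hab⟩ := (mem_localRing hj).1 hg
    refine (hPr g).2 ⟨⟨a, ha⟩, ⟨b, hb⟩, fun h => ?_, hab⟩
    have h2 := mem_centre.1 (hpq h)
    rcases h2 with h2 | h2
    · exact hb0 (congrArg Subtype.val h2)
    · change 0 < Q.ord b at h2
      omega
  exact hfp ((hPr f).1 (hf P hPd hPt))

/-- prime divisors are determined by their centres -/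
theorem IsPrimeDivisor.eq_of_centre {P P' : Place ℂ K} (hP : IsPrimeDivisor y P)
    {j : Fin (N + 1)} (hj : Centred y j P) (hj' : Centred y j P')
    (h : centre (chart y j) P hj.reg = centre (chart y j) P' hj'.reg) : P = P' := by
  apply Place.eq_of_le
  intro f hf h0
  obtain ⟨a, ha, b, hb, hb0, hbo, hab⟩ := (mem_localRing hj).1 (hP f (Or.inr h0))
  have h1 : (⟨b, hb⟩ : chart y j) ∉ centre (chart y j) P hj.reg :=
    notMem_centre.2 ⟨fun h => hb0 (congrArg Subtype.val h), hbo⟩
  rw [h, notMem_centre] at h1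
  have h2 : P'.ord b = 0 := h1.2
  have h3 := (P'.reg_iff (by rw [← hab]; exact mul_ne_zero hf hb0)).1 (hj'.reg a ha)
  rw [← hab, P'.ord_mul hf hb0, h2, add_zero] at h3
  exact h3

theorem finite_pos {j : Fin (N + 1)} {a : K}
    (ha : a ∈ chart y j) (ha0 : a ≠ 0) :
    {P : Place ℂ K | IsPrimeDivisor y P ∧ Centred y j P ∧ 0 < P.ord a}.Finite := by
  classical
  let F : Place ℂ K → Ideal (chart y j) := fun P =>
    if h : Centred y j P then centre (chart y j) P h.reg else ⊤
  have hF : ∀ P (h : Centred y j P), F P = centre (chart y j) P h.reg := fun P h => dif_pos h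
  refine Set.Finite.of_finite_image (f := F) ?_ ?_
  · refine (Ideal.finite_minimalPrimes_of_isNoetherianRing (chart y j)
      (Ideal.span {(⟨a, ha⟩ : chart y j)})).subset ?_
    rintro _ ⟨P, ⟨hP, hc, hpos⟩, rfl⟩
    rw [hF P hc]
    have h1 : Ideal.span {(⟨a, ha⟩ : chart y j)} ≤ centre (chart y j) P hc.reg := by
      rw [Ideal.span_singleton_le_iff_mem, mem_centre]
      exact Or.inr hpos
    obtain ⟨p, hp, hpc⟩ := Ideal.exists_minimalPrimes_le h1
    have hp0 : p ≠ ⊥ := by
      rintro rfl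
      have h2 := hp.1.2 (Ideal.mem_span_singleton_self _)
      rw [Ideal.mem_bot] at h2
      exact ha0 (congrArg Subtype.val h2)
    have h3 := height_one hc.reg (fun f hf => (mem_localRing hc).1 (hP f hf)) hp.1.1 hp0 hpc
    rw [← h3]
    exact hp
  · rintro P ⟨hP, hc, -⟩ P' ⟨-, hc', -⟩ h
    rw [hF P hc, hF P' hc'] at h
    exact hP.eq_of_centre hc hc' h

/-- a nonzero function has finitely many zeros and poles -/
theorem finite_ord (hy : NormalModel y) {f : K} (hf : f ≠ 0) :
    {P : Place ℂ K | IsPrimeDivisor y P ∧ P.ord f ≠ 0}.Finite := by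
  have h1 : ∀ j, {P : Place ℂ K | IsPrimeDivisor y P ∧ Centred y j P ∧ P.ord f ≠ 0}.Finite := by
    intro j
    by_cases hj : y j = 0
    · refine Set.finite_empty.subset ?_
      rintro P ⟨-, hc, -⟩
      exact absurd hj hc.1
    have := hy.frac hj
    obtain ⟨a, b, hb, hab⟩ := IsFractionRing.div_surjective (chart y j) f
    have hb0 : (b : K) ≠ 0 := fun h => nonZeroDivisors.ne_zero hb (Subtype.ext h)
    have hab' : f = (a : K) / b := hab.symm
    have ha0 : (a : K) ≠ 0 := by
      intro h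
      rw [h, zero_div] at hab'
      exact hf hab'
    refine ((finite_pos a.2 ha0).union (finite_pos b.2 hb0)).subset ?_
    rintro P ⟨hP, hc, ho⟩
    have h2 := (P.reg_iff ha0).1 (hc.reg a a.2)
    have h3 := (P.reg_iff hb0).1 (hc.reg b b.2)
    rw [hab', P.ord_div ha0 hb0] at ho
    by_cases h4 : 0 < P.ord (a : K)
    · exact Or.inl ⟨hP, hc, h4⟩
    · exact Or.inr ⟨hP, hc, by omega⟩
  refine (Set.finite_iUnion h1).subset ?_
  rintro P ⟨hP, ho⟩
  obtain ⟨j, hj⟩ := exists_centred hy P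
  exact Set.mem_iUnion.2 ⟨j, hP, hj, ho⟩

/-- a function with high orders at finitely many places, in a chart -/
theorem exists_high {j : Fin (N + 1)} {S : Set (Place ℂ K)} (hS : S.Finite) (hSc : ∀ P ∈ S, Centred y j P)
    (hSd : ∀ P ∈ S, IsPrimeDivisor y P) (c : Place ℂ K → ℕ) :
    ∃ s ∈ chart y j, s ≠ 0 ∧ ∀ P ∈ S, (c P : ℤ) ≤ P.ord s := by
  induction S, hS using Set.Finite.induction_on with
  | empty => exact ⟨1, (chart y j).one_mem, one_ne_zero, fun P hP => absurd hP (Set.notMem_empty P)⟩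
  | insert _ _ ih =>
    rename_i P S _ _
    obtain ⟨s, hs, hs0, h⟩ := ih (fun Q hQ => hSc Q (Set.mem_insert_of_mem _ hQ))
      fun Q hQ => hSd Q (Set.mem_insert_of_mem _ hQ)
    have hPc := hSc P (Set.mem_insert _ _)
    obtain ⟨t, ht0, ht⟩ := P.surj
    obtain ⟨a, ha, b, hb, hb0, hbo, hab⟩ :=
      (mem_localRing hPc).1 (hSd P (Set.mem_insert _ _) t (Or.inr (by omega)))
    have ha0 : a ≠ 0 := by
      rw [← hab]
      exact mul_ne_zero ht0 hb0
    have hao : P.ord a = 1 := by
      rw [← hab, P.ord_mul ht0 hb0, ht, hbo, add_zero]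
    refine ⟨a ^ c P * s, (chart y j).mul_mem ((chart y j).pow_mem ha _) hs,
      mul_ne_zero (pow_ne_zero _ ha0) hs0, ?_⟩
    intro Q hQ
    rw [Q.ord_mul (pow_ne_zero _ ha0) hs0, Q.ord_pow]
    rcases Set.mem_insert_iff.1 hQ with rfl | hQ'
    · have h1 := (Q.reg_iff hs0).1 (hPc.reg s hs)
      rw [hao]
      linarith
    · have h1 := (Q.reg_iff ha0).1 ((hSc Q hQ).reg a ha)
      have h2 := h Q hQ'
      nlinarith [Int.natCast_nonneg (c P)]

end

end Pool.Agent.Y172
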