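import Pool.Agent.Y172.Gs
import Pool.Agent.Y172.Adic

/-!
The forms along the fibres.
-/

set_option autoImplicit false

open FF Pool.Agent.W602.GT Pool.Agent.W603.LV Pool.Agent.TH122.AB

namespace Pool.Agent.Y172

section

variable {k K : Type} [Field k] [CharZero k] [Field K] [Algebra k K]
variable {F M : IntermediateField k K} {r e l : ℕ} {t : Fin r → K} {J : Fin e → Fin r}
  {D : Fin e → Derivation k K K} {u : Fin l → K} {H : Fin l → Derivation k K K}

omit [CharZero k] in
theorem Gs.u_ne (gs : Gs F M t J D u H) (j : Fin l) : u j ≠ 0 := gs.ind.ne_zero j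

omit [CharZero k] in
/-- the units are eigenvectors of the derivations of the torus -/
theorem Gs.ht_eq (gs : Gs F M t J D u H) : ∃ c : Fin r → Fin l → ℤ, ∀ i j,
    H j (t i) = (c i j : K) * t i := by
  choose m hm c hc using gs.tc
  refine ⟨c, fun i j => ?_⟩
  rw [hc i, (H j).leibniz, gs.hk j _ (hm i), smul_zero, add_zero, logd_mono (H j) gs.u_ne,
    Finset.sum_eq_single j]
  · rw [gs.hu, if_pos rfl, div_self (gs.u_ne j), smul_eq_mul]
    ring
  · intro i' _ hi
    rw [gs.hu, if_neg (Ne.symm hi), zero_div, mul_zero]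
  · intro h
    exact absurd (Finset.mem_univ j) h

/-- a derivation over `F` vanishes if it vanishes on enough units -/
theorem Gs.der_zero (gs : Gs F M t J D u H) {T : Fin e → Fin r} {G : Fin e → Derivation k K K}
    (hG : ∀ i, Kills (G i) F) (hdet : (lmat (fun a => t (T a)) G).det ≠ 0)
    {E : Derivation k K K} (hE : Kills E F) (hET : ∀ a, E (t (T a)) = 0) : E = 0 := by
  have hexp : ∀ E' : Derivation k K K, Kills E' F →
      E' = ∑ i, (E' (t (J i)) / t (J i)) • D i := fun E' hE' =>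
    frame_expand gs.bas gs.dk gs.dual hE'
  have h1 : lmat (fun a => t (T a)) G =
      (Matrix.of fun a s => G a (t (J s)) / t (J s)) * lmat (fun a => t (T a)) D := by
    ext a b
    rw [Matrix.mul_apply]
    simp only [lmat, Matrix.of_apply]
    conv_lhs => rw [hexp (G a) (hG a)]
    rw [sum_smul_apply, Finset.sum_div]
    exact Finset.sum_congr rfl fun s _ => by rw [mul_div_assoc]
  rw [h1, Matrix.det_mul] at hdet
  have h2 := right_ne_zero_of_mul hdet
  have h3 : Matrix.vecMul (fun s => E (t (J s)) / t (J s)) (lmat (fun a => t (T a)) D) = 0 := by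
    funext a
    rw [Matrix.vecMul, dotProduct, Pi.zero_apply]
    have h4 := hET a
    rw [hexp E hE, sum_smul_apply] at h4
    simp only [lmat, Matrix.of_apply]
    have h5 : ∀ s, E (t (J s)) / t (J s) * (D s (t (T a)) / t (T a)) =
        (E (t (J s)) / t (J s) * D s (t (T a))) / t (T a) := fun s => by rw [mul_div_assoc]
    rw [Finset.sum_congr rfl fun s _ => h5 s, ← Finset.sum_div, h4, zero_div]
  have h4 := Matrix.eq_zero_of_vecMul_eq_zero h2 h3
  rw [hexp E hE]
  exact Finset.sum_eq_zero fun s _ => by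
    have h5 := congrFun h4 s
    simp only [Pi.zero_apply] at h5
    rw [h5, zero_smul]

/-- the derivations of the torus are contractions -/
theorem Gs.con_eq (gs : Gs F M t J D u H) {T : Fin e → Fin r} {G : Fin e → Derivation k K K}
    (hG : ∀ i, Kills (G i) F) (hdet : (lmat (fun a => t (T a)) G).det ≠ 0)
    {c : Fin r → Fin l → ℤ} (hc : ∀ i j, H j (t i) = (c i j : K) * t i) (j : Fin l) (f : K) :
    H j f = (lmat (fun a => t (T a)) G).det⁻¹ *
      con (fun a => t (T a)) (fun a => (c (T a) j : k)) G f := by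
  have h1 : (lmat (fun a => t (T a)) G).det • H j -
      con (fun a => t (T a)) (fun a => (c (T a) j : k)) G = 0 := by
    refine gs.der_zero hG hdet (fun x hx => ?_) fun a => ?_
    · rw [Derivation.sub_apply, Derivation.smul_apply, gs.hk j x (gs.le hx), smul_zero, zero_sub,
        neg_eq_zero, con, sum_smul_apply]
      exact Finset.sum_eq_zero fun i _ => by rw [hG i x hx, mul_zero]
    · rw [Derivation.sub_apply, Derivation.smul_apply, hc,
        con_t (fun a => t (T a)) (fun a => (c (T a) j : k)) G (fun a => gs.ht _) a, smul_eq_mul,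
        map_intCast]
      ring
  have h2 := congrArg (fun E : Derivation k K K => E f) h1
  simp only [Derivation.sub_apply, Derivation.smul_apply, smul_eq_mul, Derivation.zero_apply] at h2
  rw [← sub_eq_zero.1 h2, ← mul_assoc, inv_mul_cancel₀ hdet, one_mul]

/-- the places over the generic point of the base without centre on the torus -/
def Bd (F : IntermediateField k K) (t : Fin r → K) (P : Place k K) : Prop :=
  (∀ f ∈ F, f ≠ 0 → P.ord f = 0) ∧ ∃ i, P.ord (t i) ≠ 0

theorem derLog_of_nontrivial {P : Place k K} {G : Derivation k K K} (hG : Kills G F)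
    (hGr : DerReg P G) (h : ¬ ∀ f ∈ F, f ≠ 0 → P.ord f = 0) : DerLog P G := by
  push Not at h
  obtain ⟨f, hf, hf0, hfo⟩ := h
  exact log_of_kill hGr hf0 (hG f hf) hfo

/-- the forms are regular outside of the boundary -/
theorem beta_ge (ht : ∀ j, t j ≠ 0) {P : Place k K} (hP : ¬ Bd F t P)
    {G : Fin e → Derivation k K K} (hG : ∀ i, Kills (G i) F) (hGr : ∀ i, DerReg P (G i))
    (T : Fin e → Fin r) : Ge P 0 (lmat (fun a => t (T a)) G).det := by
  refine ge_det P _ 0 (fun _ _ => 0) (fun i j => ?_) fun σ => by simp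
  change Ge P 0 (G i (t (T j)) / t (T j))
  by_cases h : ∀ f ∈ F, f ≠ 0 → P.ord f = 0
  · have h1 : ∀ i, P.ord (t i) = 0 := by
      intro i
      by_contra hcon
      exact hP ⟨h, i, hcon⟩
    exact ge_logder_reg (hGr i) (ht _) (h1 _)
  · exact derLog_of_nontrivial (hG i) (hGr i) h _

theorem beta_ge' (ht : ∀ j, t j ≠ 0) {P : Place k K} {G : Fin e → Derivation k K K}
    (hGr : ∀ i, DerReg P (G i)) (T : Fin e → Fin r) :
    Ge P (-1) (lmat (fun a => t (T a)) G).det :=
  det_log G hGr _ fun _ => ht _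

/-- terms at the places where the derivations of the torus are logarithmic -/
theorem Gs.rat_log (gs : Gs F M t J D u H) {P : Place k K} (hlog : ∀ j, DerLog P (H j))
    {g : MvPolynomial (Fin l) M} {a : Fin l →₀ ℕ} (ha : a ∈ g.support) :
    Ge P 0 (trm u g a / MvPolynomial.aeval u g) := by
  have hg0 : g ≠ 0 := by
    rintro rfl
    simp at ha
  have h0 : MvPolynomial.aeval u g ≠ 0 := fun h => hg0 ((injective_iff_map_eq_zero _).1 gs.ind g h)
  have h1 := ge_trm gs.u_ne gs.hk gs.hu hlog g ha (ge_ord P (MvPolynomial.aeval u g))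
  have h2 := ge_div h0 h1
  rwa [sub_self] at h2

/-- terms on the boundary -/
theorem Gs.rat_bd (gs : Gs F M t J D u H) {P : Place k K} {G : Fin e → Derivation k K K}
    (hG : ∀ i, Kills (G i) F) (hGr : ∀ i, DerReg P (G i))
    {g : MvPolynomial (Fin l) M} {a : Fin l →₀ ℕ} (ha : a ∈ g.support) :
    Ge P 0 (trm u g a / MvPolynomial.aeval u g) ∨
      ∀ T : Fin e → Fin r, Ge P 0 (lmat (fun a => t (T a)) G).det := by
  by_cases hall : ∀ T : Fin e → Fin r, Ge P 0 (lmat (fun a => t (T a)) G).det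
  · exact Or.inr hall
  left
  push Not at hall
  obtain ⟨T, hT⟩ := hall
  have hT0 : (lmat (fun a => t (T a)) G).det ≠ 0 := fun h => hT (Or.inl h)
  have hT1 : P.ord (lmat (fun a => t (T a)) G).det = -1 := by
    have h1 := (beta_ge' gs.ht hGr T).resolve_left hT0
    have h2 : ¬ 0 ≤ P.ord (lmat (fun a => t (T a)) G).det := fun h => hT (Or.inr h)
    omega
  obtain ⟨c, hc⟩ := gs.ht_eq
  refine gs.rat_log (fun j f => ?_) ha
  by_cases hf : f = 0
  · rw [hf, map_zero, zero_div]
    exact P.reg_zero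
  have h1 := con_pole (t := fun a => t (T a)) (lam := fun a => (c (T a) j : k)) (D := G) (P := P)
    hGr (fun _ => gs.ht _) hf
  rw [gs.con_eq hG hT0 hc, mul_div_assoc]
  have h2 : Ge P 1 ((lmat (fun a => t (T a)) G).det⁻¹) := Or.inr (by rw [P.ord_inv, hT1]; simp)
  have h3 := h2.mul h1
  rw [add_neg_cancel] at h3
  exact h3

/-- terms outside of the boundary -/
theorem Gs.rat_int (gs : Gs F M t J D u H) {P : Place k K} (hP : ¬ Bd F t P)
    {G : Fin e → Derivation k K K} (hG : ∀ i, Kills (G i) F) (hGr : ∀ i, DerReg P (G i))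
    {g : MvPolynomial (Fin l) M} (hg : Irreducible g) {a : Fin l →₀ ℕ} (ha : a ∈ g.support) :
    Ge P 0 (trm u g a / MvPolynomial.aeval u g) ∨
      (∀ T : Fin e → Fin r, Ge P 1 (lmat (fun a => t (T a)) G).det) ∨ Adic P u g := by
  by_cases hall : ∀ T : Fin e → Fin r, Ge P 1 (lmat (fun a => t (T a)) G).det
  · exact Or.inr (Or.inl hall)
  push Not at hall
  obtain ⟨T, hT⟩ := hall
  have hT0 : (lmat (fun a => t (T a)) G).det ≠ 0 := fun h => hT (Or.inl h)
  have hT1 : P.ord (lmat (fun a => t (T a)) G).det = 0 := by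
    have h1 := (beta_ge gs.ht hP hG hGr T).resolve_left hT0
    have h2 : ¬ 1 ≤ P.ord (lmat (fun a => t (T a)) G).det := fun h => hT (Or.inr h)
    omega
  have hT2 : Ge P 0 ((lmat (fun a => t (T a)) G).det⁻¹) := Or.inr (by rw [P.ord_inv, hT1]; simp)
  obtain ⟨c, hc⟩ := gs.ht_eq
  by_cases hF : ∀ f ∈ F, f ≠ 0 → P.ord f = 0
  swap
  · left
    refine gs.rat_log (fun j f => ?_) ha
    have h1 := con_log (t := fun a => t (T a)) (lam := fun a => (c (T a) j : k)) (D := G) (P := P)
      (fun i => derLog_of_nontrivial (hG i) (hGr i) hF) f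
    rw [gs.con_eq hG hT0 hc, mul_div_assoc]
    have h3 := hT2.mul h1
    rw [add_zero] at h3
    exact h3
  have ht0 : ∀ i, P.ord (t i) = 0 := by
    intro i
    by_contra hcon
    exact hP ⟨hF, i, hcon⟩
  have hu0 : ∀ j, P.ord (u j) = 0 := by
    intro j
    obtain ⟨b, hb⟩ := gs.ub j
    rw [hb, mono, Pool.Agent.W619.PQ.ord_prod _ P _ fun i _ => zpow_ne_zero _ (gs.ht i)]
    exact Finset.sum_eq_zero fun i _ => by rw [P.ord_zpow, ht0, mul_zero]
  have hreg : ∀ j, DerReg P (H j) := by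
    intro j f hf
    have h1 := con_reg (t := fun a => t (T a)) (lam := fun a => (c (T a) j : k)) (D := G) (P := P)
      hGr (fun _ => gs.ht _) (fun _ => ht0 _) f hf
    rw [gs.con_eq hG hT0 hc]
    exact P.reg_mul hT2 h1
  by_cases hM : ∀ m ∈ M, P.ord m = 0
  swap
  · left
    push Not at hM
    obtain ⟨m, hm, hmo⟩ := hM
    have hm0 : m ≠ 0 := by
      rintro rfl
      exact hmo P.ord_zero
    exact gs.rat_log (fun j => log_of_kill (hreg j) hm0 (gs.hk j m hm) hmo) ha
  have hg0 : MvPolynomial.aeval u g ≠ 0 := fun h =>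
    hg.ne_zero ((injective_iff_map_eq_zero _).1 gs.ind g h)
  have htrm : ∀ a ∈ g.support, P.ord (trm u g a) = 0 := by
    intro a ha
    have h1 : ((MvPolynomial.coeff a g : M) : K) ≠ 0 := fun h =>
      MvPolynomial.mem_support_iff.1 ha (Subtype.ext h)
    rw [trm, P.ord_mul h1 (mono_ne gs.u_ne _), hM _ (Subtype.coe_prop _), zero_add, mono,
      Pool.Agent.W619.PQ.ord_prod _ P _ fun i _ => zpow_ne_zero _ (gs.u_ne i)]
    exact Finset.sum_eq_zero fun i _ => by rw [P.ord_zpow, hu0, mul_zero]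
  by_cases hgo : 0 < P.ord (MvPolynomial.aeval u g)
  · exact Or.inr (Or.inr (adic_of hM gs.u_ne hu0 gs.ind gs.hk gs.hu hreg hg hgo))
  · left
    have h1 : Ge P 0 (MvPolynomial.aeval u g) := by
      rw [aeval_eq]
      exact Ge.sum _ _ fun a ha => Or.inr (htrm a ha).ge
    right
    rw [P.ord_div (trm_ne gs.u_ne ha) hg0, htrm a ha]
    omega

/-- **The products of the forms with the terms.** -/
theorem Gs.low (gs : Gs F M t J D u H) {X : Set (Place k K)} {δ : Place k K → ℝ}
    (hδ0 : ∀ P ∈ X, 0 ≤ δ P) (hBd : ∀ P ∈ X, Bd F t P → 1 ≤ δ P)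
    {g : MvPolynomial (Fin l) M} (hg : Irreducible g) (hgX : ∀ P ∈ X, Adic P u g → 0 < δ P)
    {a : Fin l →₀ ℕ} (ha : a ∈ g.support)
    (hfin : {P | P ∈ X ∧ P.ord (trm u g a / MvPolynomial.aeval u g) ≠ 0}.Finite) :
    ∃ m0 : ℕ, ∀ m, m0 ≤ m → ∀ P ∈ X, ∀ G : Fin e → Derivation k K K, (∀ i, Kills (G i) F) →
      (∀ i, DerReg P (G i)) → ∀ T : Fin e → Fin r,
      (lmat (fun a => t (T a)) G).det ^ m * (trm u g a / MvPolynomial.aeval u g) = 0 ∨
        -(m * δ P) ≤ (P.ord ((lmat (fun a => t (T a)) G).det ^ m *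
          (trm u g a / MvPolynomial.aeval u g)) : ℝ) := by
  classical
  obtain ⟨x, hx⟩ : ∃ x, x = trm u g a / MvPolynomial.aeval u g := ⟨_, rfl⟩
  rw [← hx] at hfin ⊢
  -- the bound for the poles
  obtain ⟨m0, hm0⟩ : ∃ m0 : ℕ, ∀ P ∈ X, Ge P (-(m0 : ℤ)) x ∧
      (0 < δ P → ∀ m : ℕ, m0 ≤ m → -(m * δ P) ≤ (P.ord x : ℝ)) := by
    have h1 : ∀ P : Place k K, ∃ mP : ℕ, Ge P (-(mP : ℤ)) x ∧
        (0 < δ P → ∀ m : ℕ, mP ≤ m → -(m * δ P) ≤ (P.ord x : ℝ)) := by
      intro P
      by_cases hδ : 0 < δ P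
      · obtain ⟨mP, hmP⟩ := exists_nat_ge (|(P.ord x : ℝ)| / δ P)
        have h2 : ∀ m : ℕ, mP ≤ m → -(m * δ P) ≤ (P.ord x : ℝ) := by
          intro m hm
          have h3 : |(P.ord x : ℝ)| ≤ m * δ P := by
            rw [← div_le_iff₀ hδ]
            exact hmP.trans (by exact_mod_cast hm)
          have h4 := neg_abs_le (P.ord x : ℝ)
          linarith
        refine ⟨max mP (P.ord x).natAbs, Or.inr ?_, fun _ m hm => h2 m ((le_max_left _ _).trans hm)⟩
        have h3 := le_max_right mP (P.ord x).natAbs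
        omega
      · exact ⟨(P.ord x).natAbs, Or.inr (by omega), fun h => absurd h hδ⟩
    choose mP h2 h3 using h1
    refine ⟨∑ P ∈ hfin.toFinset, mP P, fun P hP => ?_⟩
    by_cases hPx : P.ord x = 0
    · refine ⟨Or.inr (by rw [hPx]; omega), fun hδ m _ => ?_⟩
      rw [hPx]
      have : (0 : ℝ) ≤ m * δ P := by positivity
      simpa using this
    · have h4 : P ∈ hfin.toFinset := by
        rw [Set.Finite.mem_toFinset]
        exact ⟨hP, hPx⟩
      have h5 : mP P ≤ ∑ P ∈ hfin.toFinset, mP P :=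
        Finset.single_le_sum (fun _ _ => Nat.zero_le _) h4
      exact ⟨(h2 P).mono (by omega), fun hδ m hm => h3 P hδ m (h5.trans hm)⟩
  refine ⟨m0, fun m hm P hP G hG hGr T => ?_⟩
  obtain ⟨b, hb⟩ : ∃ b, b = (lmat (fun a => t (T a)) G).det := ⟨_, rfl⟩
  rw [← hb]
  obtain ⟨hm1, hm2⟩ := hm0 P hP
  have hδP := hδ0 P hP
  have hmδ : 0 ≤ m * δ P := by positivity
  have key : ∀ N : ℤ, Ge P N (b ^ m * x) → -(m * δ P) ≤ (N : ℝ) →
      b ^ m * x = 0 ∨ -(m * δ P) ≤ (P.ord (b ^ m * x) : ℝ) := by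
    intro N hN hN'
    rcases hN with h | h
    · exact Or.inl h
    · exact Or.inr (hN'.trans (by exact_mod_cast h))
  by_cases hPB : Bd F t P
  · have hδ1 := hBd P hP hPB
    have hmδ1 : -(m * δ P) ≤ ((-(m : ℤ) : ℤ) : ℝ) := by
      push_cast
      nlinarith
    rcases gs.rat_bd hG hGr ha with h | h
    · rw [← hx] at h
      have h1 := ((beta_ge' gs.ht hGr T).pow m).mul h
      rw [← hb] at h1
      exact key _ h1 (by push_cast at hmδ1 ⊢; linarith)
    · have h1 := ((h T).pow m).mul hm1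
      rw [← hb] at h1
      refine key _ h1 ?_
      refine hmδ1.trans ?_
      have : -(m : ℤ) ≤ m * 0 + -(m0 : ℤ) := by omega
      exact_mod_cast this
  · have h0 := beta_ge gs.ht hPB hG hGr T
    rw [← hb] at h0
    rcases gs.rat_int hPB hG hGr hg ha with h | h | h
    · rw [← hx] at h
      have h1 := (h0.pow m).mul h
      refine key _ h1 ?_
      push_cast
      linarith
    · have h1 := h T
      rw [← hb] at h1
      have h2 := (h1.pow m).mul hm1
      refine key _ h2 ?_
      have : (0 : ℤ) ≤ m * 1 + -(m0 : ℤ) := by omega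
      have h3 : (0 : ℝ) ≤ ((m * 1 + -(m0 : ℤ) : ℤ) : ℝ) := by exact_mod_cast this
      linarith
    · have hδ := hgX P hP h
      have h1 := hm2 hδ m hm
      by_cases hx0 : x = 0
      · left
        rw [hx0, mul_zero]
      by_cases hb0 : b ^ m = 0
      · left
        rw [hb0, zero_mul]
      right
      rw [P.ord_mul hb0 hx0]
      have h2 := (h0.pow m).resolve_left hb0
      rw [mul_zero] at h2
      push_cast
      have h3 : (0 : ℝ) ≤ (P.ord (b ^ m) : ℝ) := by exact_mod_cast h2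
      linarith

end

end Pool.Agent.Y172
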