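import Pool.Agent.Y172.Alg
import Pool.Agent.W602.GT.Loc

/-!
Monomials, logarithmic derivatives and lattices.
-/

set_option autoImplicit false

open FF Pool.Agent.W602.GT

namespace Pool.Agent.Y172

section

variable {k K : Type} [Field k] [CharZero k] [Field K] [Algebra k K]

/-- the monomial with exponents `a` -/
def mono {l : ℕ} (u : Fin l → K) (a : Fin l → ℤ) : K := ∏ i, u i ^ a i

omit [CharZero k] [Algebra k K] in
theorem mono_ne {l : ℕ} {u : Fin l → K} (hu : ∀ i, u i ≠ 0) (a : Fin l → ℤ) : mono u a ≠ 0 :=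
  Finset.prod_ne_zero_iff.2 fun i _ => zpow_ne_zero _ (hu i)

theorem mono_zero {l : ℕ} (u : Fin l → K) : mono u 0 = 1 := by
  simp [mono]

theorem mono_add {l : ℕ} {u : Fin l → K} (hu : ∀ i, u i ≠ 0) (a b : Fin l → ℤ) :
    mono u (a + b) = mono u a * mono u b := by
  rw [mono, mono, mono, ← Finset.prod_mul_distrib]
  exact Finset.prod_congr rfl fun i _ => zpow_add₀ (hu i) _ _

theorem mono_sub {l : ℕ} {u : Fin l → K} (hu : ∀ i, u i ≠ 0) (a b : Fin l → ℤ) :
    mono u (a - b) = mono u a / mono u b := by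
  rw [eq_div_iff (mono_ne hu b), ← mono_add hu, sub_add_cancel]

theorem mono_neg {l : ℕ} {u : Fin l → K} (hu : ∀ i, u i ≠ 0) (a : Fin l → ℤ) :
    mono u (-a) = (mono u a)⁻¹ := by
  refine eq_inv_of_mul_eq_one_left ?_
  rw [← mono_add hu, neg_add_cancel, mono_zero]

theorem mono_smul {l : ℕ} (u : Fin l → K) (n : ℤ) (a : Fin l → ℤ) :
    mono u (n • a) = mono u a ^ n := by
  rw [mono, mono, ← Finset.prod_zpow]
  exact Finset.prod_congr rfl fun i _ => by
    rw [Pi.smul_apply, smul_eq_mul, mul_comm, zpow_mul]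

theorem mono_sum {l : ℕ} {u : Fin l → K} (hu : ∀ i, u i ≠ 0) {ι : Type} (s : Finset ι)
    (a : ι → Fin l → ℤ) : mono u (∑ i ∈ s, a i) = ∏ i ∈ s, mono u (a i) := by
  classical
  induction s using Finset.induction_on with
  | empty => simp [mono_zero]
  | insert i s hi ih => rw [Finset.sum_insert hi, Finset.prod_insert hi, mono_add hu, ih]

theorem mono_single {l : ℕ} (u : Fin l → K) (i : Fin l) : mono u (Pi.single i 1) = u i := by
  classical
  rw [mono, Finset.prod_eq_single i]
  · rw [Pi.single_eq_same, zpow_one]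
  · intro j _ hj
    rw [Pi.single_eq_of_ne hj, zpow_zero]
  · intro h
    exact absurd (Finset.mem_univ i) h

/-- the composition of monomials -/
theorem mono_mono {l r : ℕ} {u : Fin l → K} {t : Fin r → K} (ht : ∀ i, t i ≠ 0)
    {b : Fin l → Fin r → ℤ} (h : ∀ i, u i = mono t (b i)) (a : Fin l → ℤ) :
    mono u a = mono t (∑ i, a i • b i) := by
  rw [mono_sum ht, mono]
  exact Finset.prod_congr rfl fun i _ => by rw [mono_smul, h]

omit [CharZero k] in
theorem mono_mem {M : IntermediateField k K} {l : ℕ} {u : Fin l → K} (h : ∀ i, u i ∈ M)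
    (a : Fin l → ℤ) : mono u a ∈ M := prod_mem fun i _ => zpow_mem (h i) _

omit [CharZero k] in
/-- the logarithmic derivative of a monomial -/
theorem logd_mono (D : Derivation k K K) {l : ℕ} {u : Fin l → K} (hu : ∀ i, u i ≠ 0)
    (a : Fin l → ℤ) : D (mono u a) = (∑ i, (a i : K) * (D (u i) / u i)) * mono u a := by
  classical
  have h : ∀ s : Finset (Fin l), D (∏ i ∈ s, u i ^ a i) =
      (∑ i ∈ s, (a i : K) * (D (u i) / u i)) * ∏ i ∈ s, u i ^ a i := by
    intro s
    induction s using Finset.induction_on with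
    | empty => simp
    | insert i s hi ih =>
      rw [Finset.prod_insert hi, Finset.sum_insert hi, D.leibniz, ih, der_zpow D (hu i)]
      simp only [smul_eq_mul]
      ring
  exact h _

omit [CharZero k] in
theorem logd_mul (D : Derivation k K K) {x y : K} (hx : x ≠ 0) (hy : y ≠ 0) :
    D (x * y) / (x * y) = D x / x + D y / y := by
  rw [D.leibniz]
  simp only [smul_eq_mul]
  field_simp
  ring

omit [CharZero k] in
/-- **The lattice of the monomials modulo a closed subfield.** -/
theorem lattice {M : IntermediateField k K} (hM : Closed M) {r : ℕ} {t : Fin r → K}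
    (ht : ∀ i, t i ≠ 0) : ∃ (l : ℕ) (b : Fin l → Fin r → ℤ) (c : Fin r → Fin l → ℤ),
      (∀ i, mono t (Pi.single i 1 - ∑ j, c i j • b j) ∈ M) ∧
      (∀ a : Fin l → ℤ, mono t (∑ j, a j • b j) ∈ M → a = 0) := by
  classical
  let Λ : Submodule ℤ (Fin r → ℤ) :=
    { carrier := {a | mono t a ∈ M}
      add_mem' := by
        intro a b ha hb
        change mono t (a + b) ∈ M
        rw [mono_add ht]
        exact mul_mem ha hb
      zero_mem' := by
        change mono t 0 ∈ M
        rw [mono_zero]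
        exact one_mem _
      smul_mem' := by
        intro n a ha
        change mono t (n • a) ∈ M
        rw [mono_smul]
        exact zpow_mem ha n }
  have hmem : ∀ a, a ∈ Λ ↔ mono t a ∈ M := fun _ => Iff.rfl
  have htf : Module.IsTorsionFree ℤ ((Fin r → ℤ) ⧸ Λ) := by
    refine ⟨fun n hn => ?_⟩
    have hn0 : n ≠ 0 := hn.ne_zero
    intro x y hxy
    obtain ⟨a, rfl⟩ := Submodule.mkQ_surjective Λ x
    obtain ⟨b, rfl⟩ := Submodule.mkQ_surjective Λ y
    simp only [Submodule.mkQ_apply] at hxy ⊢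
    rw [← Submodule.Quotient.mk_smul, ← Submodule.Quotient.mk_smul, Submodule.Quotient.eq,
      ← smul_sub, hmem, mono_smul] at hxy
    rw [Submodule.Quotient.eq, hmem]
    apply hM
    rcases Int.natAbs_eq n with h | h
    · refine IsAlgebraic.of_pow (n := n.natAbs) (by omega) ?_
      rw [h, zpow_natCast] at hxy
      exact isAlgebraic_algebraMap (⟨_, hxy⟩ : M)
    · refine IsAlgebraic.of_pow (n := n.natAbs) (by omega) ?_
      rw [h, zpow_neg, zpow_natCast] at hxy
      have h2 := inv_mem hxy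
      rw [inv_inv] at h2
      exact isAlgebraic_algebraMap (⟨_, h2⟩ : M)
  have hfree : Module.Free ℤ ((Fin r → ℤ) ⧸ Λ) := Module.free_of_finite_type_torsion_free'
  let B := Module.finBasis ℤ ((Fin r → ℤ) ⧸ Λ)
  choose b hb using fun j => Submodule.mkQ_surjective Λ (B j)
  have hker : ∀ a, a ∈ Λ ↔ Λ.mkQ a = 0 := fun a => by
    rw [Submodule.mkQ_apply, Submodule.Quotient.mk_eq_zero]
  refine ⟨_, b, fun i j => B.repr (Λ.mkQ (Pi.single i 1)) j, fun i => ?_, fun a ha => ?_⟩
  · rw [← hmem, hker, map_sub, map_sum]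
    simp only [map_smul, hb]
    rw [B.sum_repr, sub_self]
  · rw [← hmem, hker, map_sum] at ha
    simp only [map_smul, hb] at ha
    funext j
    exact Fintype.linearIndependent_iff.1 B.linearIndependent a ha j

omit [CharZero k] in
/-- the coordinates of the lattice -/
theorem lattice' {M : IntermediateField k K} (hM : Closed M) {r : ℕ} {t : Fin r → K}
    (ht : ∀ i, t i ≠ 0) : ∃ (l : ℕ) (u : Fin l → K), (∀ j, u j ≠ 0) ∧
      (∀ j, ∃ b, u j = mono t b) ∧
      (∀ i, ∃ m ∈ M, ∃ c : Fin l → ℤ, t i = m * mono u c) ∧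
      (∀ a : Fin l → ℤ, mono u a ∈ M → a = 0) := by
  obtain ⟨l, b, c, h1, h2⟩ := lattice hM ht
  refine ⟨l, fun j => mono t (b j), fun j => mono_ne ht _, fun j => ⟨_, rfl⟩, fun i => ?_, ?_⟩
  · refine ⟨_, h1 i, c i, ?_⟩
    rw [mono_mono ht (fun j => rfl), ← mono_add ht, sub_add_cancel, mono_single]
  · intro a ha
    rw [mono_mono ht (fun j => rfl)] at ha
    exact h2 a ha

end

end Pool.Agent.Y172
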