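import Pool.Agent.Y172.Fdm

/-!
Sections of `a (K_X + Δ)` which vanish along `Γ`.
-/

set_option autoImplicit false
set_option linter.overlappingInstances false
set_option linter.unusedSectionVars false

open FF Pool.Agent.W602.GT Pool.Agent.W603.LV

namespace Pool.Agent.Y172

section

variable {K : Type} [Field K] [Algebra ℂ K] {N n : ℕ} {y : Fin (N + 1) → K}

/-- the frame is regular at almost all prime divisors -/
theorem frame_reg (hy : NormalModel y) (Ec : Fin n → Derivation ℂ K K) :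
    ∃ T : Set (Place ℂ K), T.Finite ∧ ∀ P, IsPrimeDivisor y P → P ∉ T → ∀ i, DerReg P (Ec i) := by
  classical
  obtain ⟨j0, hj0⟩ := hy.ne
  obtain ⟨s, hs, hs0, hsD⟩ := exists_den_frame hy hj0 Ec
  refine ⟨(⋃ i, {P : Place ℂ K | IsPrimeDivisor y P ∧ y i / y j0 ≠ 0 ∧ P.ord (y i / y j0) ≠ 0}) ∪
    {P : Place ℂ K | IsPrimeDivisor y P ∧ P.ord s ≠ 0},
    (Set.finite_iUnion fun i => ?_).union (finite_ord hy hs0), fun P hP hPT i => ?_⟩
  · by_cases hf : y i / y j0 = 0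
    · refine Set.finite_empty.subset ?_
      rintro P ⟨-, h, -⟩
      exact h hf
    · refine (finite_ord hy hf).subset ?_
      rintro P ⟨h1, -, h2⟩
      exact ⟨h1, h2⟩
  simp only [Set.mem_union, Set.mem_iUnion, not_or, not_exists, Set.mem_ofPred_eq, not_and,
    not_not] at hPT
  obtain ⟨h1, h2⟩ := hPT
  have hc : Centred y j0 P := ⟨hj0, fun i => by
    by_cases hf : y i / y j0 = 0
    · exact Or.inl hf
    · exact Or.inr (h1 i hP hf).ge⟩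
  have h3 : DerReg P (s • Ec i) := derReg_of_chart hP hc fun f hf => hsD i f hf
  intro f hf
  have h5 : Ge P 0 (s * Ec i f) := h3 f hf
  have h6 := Ge.of_mul hs0 h5
  rwa [h2 hP, sub_zero] at h6

/-- a form has order zero along almost all prime divisors -/
theorem finite_ordEq (hy : NormalModel y) (hn : Algebra.trdeg ℂ K = n)
    {Ec : Fin n → Derivation ℂ K K} {m : ℕ} {ω : (Fin n → Derivation ℂ K K) → K} (hω : IsPluri m ω) (h0 : ω Ec ≠ 0) :
    {P | IsPrimeDivisor y P ∧ ¬ OrdEq P ω 0}.Finite := by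
  obtain ⟨T, hT, hTP⟩ := frame_reg hy Ec
  have hzero : Effective y (0 : Place ℂ K → ℚ) :=
    ⟨fun _ _ => le_rfl, Set.finite_empty.subset (by rintro P ⟨-, h⟩; exact h rfl)⟩
  refine ((hT.union (finite_poles hy hn hzero hω)).union (finite_ord hy h0)).subset ?_
  rintro P ⟨hP, hPω⟩
  by_contra hcon
  simp only [Set.mem_union, not_or, Set.mem_ofPred_eq, not_and, not_not] at hcon
  obtain ⟨⟨h1, h2⟩, h3⟩ := hcon
  apply hPω
  have h4 := h2 hP
  rw [Pi.zero_apply, mul_zero, neg_zero] at h4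
  exact ⟨h4, Ec, hTP P hP h1, h0, by rw [h3 hP]; norm_num⟩

variable {Δ Γ A : Place ℂ K → ℚ} {yc : Fin n → K} {Ec : Fin n → Derivation ℂ K K}

/-- **Sections in the field of the ratios.** -/
theorem exists_in {k m0 c : ℕ} (hy : NormalModel y) (hn : Algebra.trdeg ℂ K = n)
    (hyc : IsTranscendenceBasis ℂ yc) (hEc : ∀ i j, Ec i (yc j) = if i = j then 1 else 0)
    (hΔ : {P | IsPrimeDivisor y P ∧ Δ P ≠ 0}.Finite) (hΓ : Effective y Γ) (hA : Effective y A)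
    (hps : ∀ m1 : ℕ, ∃ m : ℕ, m1 ≤ m ∧
      ∃ s, IsSection y n (m * m0) ((m * m0) • (Δ - Γ) + A) s ∧ s Ec ≠ 0)
    (hup : ∀ A, Effective y A → ∃ C : ℕ, ∀ m : ℕ, 1 ≤ m → ∀ (r : ℕ) (f : Fin r → K),
      LinearIndependent ℂ f → (∀ i, ∃ ω, IsSection y n m (m • Δ + A) ω ∧ ω Ec = f i) →
      r ≤ C * m ^ k)
    (hm0 : 1 ≤ m0) (hc : 1 ≤ c) {Ω : Fin (k + 1) → (Fin n → Derivation ℂ K K) → K}
    (hΩ : ∀ j, IsSection y n m0 (m0 • Δ + c • Γ) (Ω j)) (h0 : Ω 0 Ec ≠ 0)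
    (hind : AlgebraicIndependent ℂ (fun i : Fin k => Ω i.succ Ec / Ω 0 Ec))
    {M : IntermediateField ℂ K} (hMc : Closed M) (hM : ∀ i : Fin k, Ω i.succ Ec / Ω 0 Ec ∈ M) :
    ∃ A2 : Place ℂ K → ℚ, Effective y A2 ∧ ∀ l1 : ℕ, ∃ l : ℕ, l1 ≤ l ∧ ∃ h ∈ M, h ≠ 0 ∧
      IsSection y n (l * m0) ((l * m0) • (Δ - Γ) + A2) (fun E => h * Ω 0 E ^ l) := by
  classical
  have hess := hy.ess
  obtain ⟨R, hR⟩ := indep_le (Δ := Δ) (Γ := Γ) (A := A) hΓ hA hps hup hm0 hc hΩ h0 hind hM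
  obtain ⟨r, g, -, hgi, hspan⟩ := exists_basis_of_bound hR
  obtain ⟨D, hD⟩ := exists_der_consts hn hMc
  have hW : wr D g ≠ 0 := wr_ne (fun h hh => ⟨⟨h, hD h hh⟩, rfl⟩) g hgi
  obtain ⟨D', hD'⟩ : ∃ D' : Derivation ℂ K K, ∀ x, D' x = D x := ⟨D.restrictScalars ℂ, fun _ => rfl⟩
  have hD'f : (⇑D' : K → K) = ⇑D := funext hD'
  have hW' : wr D' g ≠ 0 := by
    have e : wr D' g = wr D g := by
      unfold wr wm
      rw [hD'f]
    rwa [e]
  have hDM : ∀ x : M, D' (x : K) = 0 := fun x => by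
    rw [hD']
    exact D.map_algebraMap x
  obtain ⟨T, hT, hTP⟩ := coef_reg hy D' hW'
  have hloss : ∀ P, IsPrimeDivisor y P → ∃ C : ℕ, ∀ (N : ℤ) (h : Fin r → K),
      (∀ j, D' (h j) = 0) → Ge P N (∑ j, h j * g j) → ∀ j, Ge P (N - C) (h j) :=
    fun P hP => coef_loss hy hP D' hW'
  choose! C hC using hloss
  have hΩ0p : IsPluri m0 (Ω 0) := (hΩ 0).1
  obtain ⟨T2, hT2⟩ : ∃ T2 : Set (Place ℂ K), T2 = {P | IsPrimeDivisor y P ∧
      (P ∈ T ∨ Δ P ≠ 0 ∨ Γ P ≠ 0 ∨ A P ≠ 0 ∨ ¬ OrdEq P (Ω 0) 0)} := ⟨_, rfl⟩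
  have hT2f : T2.Finite := by
    rw [hT2]
    refine ((hT.union (hΔ.union (hΓ.2.union (hA.2.union
      (finite_ordEq hy hn hΩ0p h0)))))).subset ?_
    rintro P ⟨h1, h2 | h2 | h2 | h2 | h2⟩
    · exact Or.inl h2
    · exact Or.inr (Or.inl ⟨h1, h2⟩)
    · exact Or.inr (Or.inr (Or.inl ⟨h1, h2⟩))
    · exact Or.inr (Or.inr (Or.inr (Or.inl ⟨h1, h2⟩)))
    · exact Or.inr (Or.inr (Or.inr (Or.inr ⟨h1, h2⟩)))
  refine ⟨fun P => if P ∈ T2 then A P + C P else 0, ⟨fun P hP => ?_, ?_⟩, fun l1 => ?_⟩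
  · change (0 : ℚ) ≤ if P ∈ T2 then A P + C P else 0
    split_ifs
    · exact add_nonneg (hA.1 P hP) (Nat.cast_nonneg _)
    · exact le_rfl
  · refine hT2f.subset ?_
    rintro P ⟨-, h2⟩
    by_contra h3
    exact h2 (if_neg h3)
  obtain ⟨l, hl1, s, hs, hs0⟩ := hps (l1 + 1)
  have hl : 1 ≤ l := by omega
  obtain ⟨h', hh'⟩ := hspan (s Ec / Ω 0 Ec ^ l) ⟨l, hl, s, hs, rfl⟩
  have hne : s Ec / Ω 0 Ec ^ l ≠ 0 := div_ne_zero hs0 (pow_ne_zero _ h0)
  obtain ⟨j, hj⟩ : ∃ j, h' j ≠ 0 := by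
    by_contra hcon
    push Not at hcon
    apply hne
    rw [hh']
    exact Finset.sum_eq_zero fun j _ => by rw [hcon j, zero_smul]
  have hh'' : s Ec / Ω 0 Ec ^ l = ∑ j, (h' j : K) * g j := hh'
  have hj0 : (h' j : K) ≠ 0 := fun h => hj (Subtype.ext h)
  have hSp : IsPluri (l * m0) (fun E => (h' j : K) * Ω 0 E ^ l) := by
    intro X E
    have h1 := pluri_pow hΩ0p l X E
    change (h' j : K) * Ω 0 _ ^ l = _
    change Ω 0 _ ^ l = _ * Ω 0 E ^ l at h1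
    rw [h1, mul_comm m0 l]
    ring
  refine ⟨l, by omega, h' j, (h' j).2, hj0, hSp, fun P hP => ?_⟩
  obtain ⟨yP, EP, iP, hlP⟩ := exists_loc hn (hP.divisorial hy hn)
  have hΩP : Ω 0 EP ≠ 0 := loc_ne hlP hΩ0p fun h => h0 (by rw [h]; rfl)
  have hsP : s EP ≠ 0 := loc_ne hlP hs.1 fun h => hs0 (by rw [h]; rfl)
  have hratio : s Ec / Ω 0 Ec ^ l = s EP / Ω 0 EP ^ l := by
    have e1 := pluri_coord hyc hEc hs.1 EP
    have e2 := pluri_coord hyc hEc hΩ0p EP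
    have hdet : (Matrix.of fun i j => EP i (yc j) : Matrix (Fin n) (Fin n) K).det ^ (l * m0) ≠ 0 := by
      intro h
      rw [h, zero_mul] at e1
      exact hsP e1
    rw [e1, e2, mul_pow, ← pow_mul, mul_comm m0 l, mul_div_mul_left _ _ hdet]
  rw [hratio] at hh''
  have hsord := (hs.2 P hP EP hlP.pres).resolve_left hsP
  rw [ordGe_iff hlP hSp]
  right
  rw [P.ord_mul hj0 (pow_ne_zero _ hΩP), P.ord_pow]
  have hdiv : P.ord (s EP / Ω 0 EP ^ l) = P.ord (s EP) - l * P.ord (Ω 0 EP) := by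
    rw [P.ord_div hsP (pow_ne_zero _ hΩP), P.ord_pow]
  simp only [Pi.add_apply, Pi.smul_apply, Pi.sub_apply] at hsord ⊢
  by_cases hPT : P ∈ T2
  · rw [if_pos hPT]
    have h1 := hC P hP (P.ord (s EP / Ω 0 EP ^ l)) (fun j => (h' j : K)) (fun j => hDM _)
      (by rw [← hh'']; exact ge_ord P _) j
    have h2 := h1.resolve_left hj0
    rw [hdiv] at h2
    have h3 : (P.ord (s EP) : ℚ) - l * P.ord (Ω 0 EP) - C P ≤ P.ord (h' j : K) := by
      exact_mod_cast h2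
    push_cast
    linarith
  · rw [if_neg hPT]
    rw [hT2] at hPT
    simp only [Set.mem_ofPred_eq, not_and, not_or, not_not] at hPT
    obtain ⟨h1, h2, h3, h4, h5⟩ := hPT hP
    rw [ordEq_iff hlP hΩ0p hΩP] at h5
    have h6 : P.ord (Ω 0 EP) = 0 := by exact_mod_cast h5
    rw [h2, h3, h4] at hsord
    rw [h2, h3]
    simp only [sub_zero, smul_zero, add_zero, neg_zero] at hsord ⊢
    have h7 : Ge P 0 (∑ j, (h' j : K) * g j) := by
      rw [← hh'']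
      right
      rw [hdiv, h6, mul_zero, sub_zero]
      exact_mod_cast hsord
    have h8 := (hTP P hP h1 (fun j => (h' j : K)) (fun j => hDM _) h7 j).resolve_left hj0
    rw [h6, mul_zero, add_zero]
    exact_mod_cast h8

end

end Pool.Agent.Y172
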