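import Pool.Agent.Y172.Nil

/-!
Sections of `a (K_X + Δ)` which vanish along `Γ`.
-/

set_option autoImplicit false
set_option linter.overlappingInstances false
set_option linter.unusedSectionVars false

open FF Pool.Agent.W602.GT Pool.Agent.W603.LV

namespace Pool.Agent.Y172

section

variable {K : Type} [Field K] [Algebra ℂ K] {N n : ℕ} {y : Fin (N + 1) → K}
variable {B : Place ℂ K → ℚ} {yc : Fin n → K} {Ec : Fin n → Derivation ℂ K K}

theorem isSection_const (c : ℂ) :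
    IsSection y n 0 0 (fun _ : Fin n → Derivation ℂ K K => algebraMap ℂ K c) := by
  refine ⟨fun A D => by simp, fun P _ E _ => ?_⟩
  rcases P.reg_const c with h | h
  · exact Or.inl h
  · right
    change -(0 : ℚ) ≤ _
    rw [neg_zero]
    exact_mod_cast h

/-- the polynomials in the ratios are sections -/
theorem poly_section {k m0 : ℕ} (hyc : IsTranscendenceBasis ℂ yc)
    (hEc : ∀ i j, Ec i (yc j) = if i = j then 1 else 0)
    {Ω : Fin (k + 1) → (Fin n → Derivation ℂ K K) → K}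
    (hΩ : ∀ j, IsSection y n m0 B (Ω j)) {j0 : Fin (k + 1)} (h0 : Ω j0 Ec ≠ 0) {x : K}
    (hx : x ∈ Algebra.adjoin ℂ (Set.range fun j => Ω j Ec / Ω j0 Ec)) :
    ∃ b : ℕ, IsSection y n (b * m0) (b • B) (fun E => x * Ω j0 E ^ b) := by
  induction hx using Algebra.adjoin_induction with
  | mem x hx =>
    obtain ⟨j, rfl⟩ := hx
    refine ⟨1, ?_⟩
    have h1 : (fun E => Ω j Ec / Ω j0 Ec * Ω j0 E ^ 1) = Ω j := by
      funext E
      rw [pow_one, pluri_coord hyc hEc (hΩ j).1 E, pluri_coord hyc hEc (hΩ j0).1 E]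
      field_simp
    change IsSection y n (1 * m0) (1 • B) (fun E => Ω j Ec / Ω j0 Ec * Ω j0 E ^ 1)
    rw [h1, one_mul, one_smul]
    exact hΩ j
  | algebraMap c =>
    refine ⟨0, ?_⟩
    simp only [zero_mul, zero_smul, pow_zero, mul_one]
    exact isSection_const c
  | add x x' _ _ hx hx' =>
    obtain ⟨b, hb⟩ := hx
    obtain ⟨b', hb'⟩ := hx'
    refine ⟨b + b', ?_⟩
    have h1 := hb.mul ((hΩ j0).pow b')
    have h2 := hb'.mul ((hΩ j0).pow b)
    rw [← add_mul, ← add_smul] at h1 h2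
    rw [add_comm b' b] at h2
    have h3 := (secSub y n ((b + b') * m0) ((b + b') • B)).add_mem h1 h2
    rw [mem_secSub] at h3
    have e : (fun E => (x + x') * Ω j0 E ^ (b + b')) =
        (fun E => x * Ω j0 E ^ b * Ω j0 E ^ b') + fun E => x' * Ω j0 E ^ b' * Ω j0 E ^ b := by
      funext E
      change _ = x * Ω j0 E ^ b * Ω j0 E ^ b' + x' * Ω j0 E ^ b' * Ω j0 E ^ b
      ring
    rw [e]
    exact h3
  | mul x x' _ _ hx hx' =>
    obtain ⟨b, hb⟩ := hx
    obtain ⟨b', hb'⟩ := hx'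
    refine ⟨b + b', ?_⟩
    have h1 := hb.mul hb'
    rw [← add_mul, ← add_smul] at h1
    have e : (fun E => x * x' * Ω j0 E ^ (b + b')) =
        fun E => x * Ω j0 E ^ b * (x' * Ω j0 E ^ b') := by
      funext E
      ring
    rw [e]
    exact h1

/-- **Extra zeros along a vertical divisor.** -/
theorem exists_zero {k m0 : ℕ} (hy : NormalModel y) (hn : Algebra.trdeg ℂ K = n)
    (hyc : IsTranscendenceBasis ℂ yc) (hEc : ∀ i j, Ec i (yc j) = if i = j then 1 else 0)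
    {Ω : Fin (k + 1) → (Fin n → Derivation ℂ K K) → K}
    (hΩ : ∀ j, IsSection y n m0 B (Ω j)) (hne : ∀ j, Ω j Ec ≠ 0)
    {P : Place ℂ K} (hP : IsPrimeDivisor y P)
    (hv : ¬ ∀ f ∈ acl ℂ (Set.range fun i : Fin k => Ω i.succ Ec / Ω 0 Ec), f ≠ 0 → P.ord f = 0) :
    ∃ b : ℕ, ∃ G, IsSection y n (b * m0) (b • B) G ∧ G Ec ≠ 0 ∧ OrdGe P G (-((b • B) P) + 1) := by
  classical
  have hess := hy.ess
  obtain ⟨j0, -, hj0⟩ := Finset.exists_min_image Finset.univ (fun j => P.ord (Ω j Ec))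
    Finset.univ_nonempty
  obtain ⟨yP, EP, iP, hlP⟩ := exists_loc hn (hP.divisorial hy hn)
  have hΩP : Ω j0 EP ≠ 0 := loc_ne hlP (hΩ j0).1 fun h => hne j0 (by rw [h]; rfl)
  by_contra hcon
  push Not at hcon
  have hreg : ∀ x ∈ Algebra.adjoin ℂ (Set.range fun j => Ω j Ec / Ω j0 Ec), P.Reg x := by
    intro x hx
    induction hx using Algebra.adjoin_induction with
    | mem x hx =>
      obtain ⟨j, rfl⟩ := hx
      right
      rw [P.ord_div (hne j) (hne j0)]
      have := hj0 j (Finset.mem_univ _)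
      linarith
    | algebraMap c => exact P.reg_const c
    | add x x' _ _ hx hx' => exact P.reg_add hx hx'
    | mul x x' _ _ hx hx' => exact P.reg_mul hx hx'
  have hzero : ∀ x ∈ Algebra.adjoin ℂ (Set.range fun j => Ω j Ec / Ω j0 Ec), x ≠ 0 →
      P.ord x = 0 := by
    intro x hx hx0
    have h1 := (P.reg_iff hx0).1 (hreg x hx)
    by_contra h2
    obtain ⟨b, hb⟩ := poly_section hyc hEc hΩ (hne j0) hx
    refine hcon b _ hb (mul_ne_zero hx0 (pow_ne_zero _ (hne j0))) ?_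
    rw [ordGe_iff hlP hb.1]
    right
    have h3 := (((hΩ j0).2 P hP EP hlP.pres).resolve_left hΩP)
    rw [P.ord_mul hx0 (pow_ne_zero _ hΩP), P.ord_pow]
    have h4 : (1 : ℚ) ≤ P.ord x := by
      have : (1 : ℤ) ≤ P.ord x := by omega
      exact_mod_cast this
    have h5 : (0 : ℚ) ≤ b := Nat.cast_nonneg _
    have h6 := mul_le_mul_of_nonneg_left h3 h5
    rw [Pi.smul_apply, nsmul_eq_mul]
    push_cast
    linarith
  apply hv
  have hfield : ∀ f ∈ IntermediateField.adjoin ℂ (Set.range fun j => Ω j Ec / Ω j0 Ec), f ≠ 0 →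
      P.ord f = 0 := by
    intro f hf hf0
    rw [IntermediateField.mem_adjoin_iff_div] at hf
    obtain ⟨a, ha, b, hb, hab⟩ := hf
    have hb0 : b ≠ 0 := by
      rintro rfl
      rw [div_zero] at hab
      exact hf0 hab
    have ha0 : a ≠ 0 := by
      rintro rfl
      rw [zero_div] at hab
      exact hf0 hab
    rw [hab, P.ord_div ha0 hb0, hzero a ha ha0, hzero b hb hb0, sub_zero]
  intro f hf hf0
  rw [mem_acl] at hf
  have hle : IntermediateField.adjoin ℂ (Set.range fun i : Fin k => Ω i.succ Ec / Ω 0 Ec) ≤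
      IntermediateField.adjoin ℂ (Set.range fun j => Ω j Ec / Ω j0 Ec) := by
    rw [IntermediateField.adjoin_le_iff]
    rintro _ ⟨i, rfl⟩
    have h1 : Ω i.succ Ec / Ω j0 Ec ∈
        IntermediateField.adjoin ℂ (Set.range fun j => Ω j Ec / Ω j0 Ec) :=
      IntermediateField.subset_adjoin _ _ ⟨i.succ, rfl⟩
    have h2 : Ω 0 Ec / Ω j0 Ec ∈
        IntermediateField.adjoin ℂ (Set.range fun j => Ω j Ec / Ω j0 Ec) :=
      IntermediateField.subset_adjoin _ _ ⟨0, rfl⟩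
    have h3 := div_mem h1 h2
    have h4 := hne 0
    have h5 := hne j0
    have e : Ω i.succ Ec / Ω j0 Ec / (Ω 0 Ec / Ω j0 Ec) = Ω i.succ Ec / Ω 0 Ec := by
      field_simp
    rw [e] at h3
    exact h3
  exact ord_alg (fun g hg hg0 => hfield g (hle hg) hg0) hf hf0

/-- extra zeros along finitely many vertical divisors -/
theorem exists_zeros {k m0 : ℕ} (hy : NormalModel y) (hn : Algebra.trdeg ℂ K = n)
    (hyc : IsTranscendenceBasis ℂ yc) (hEc : ∀ i j, Ec i (yc j) = if i = j then 1 else 0)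
    {Ω : Fin (k + 1) → (Fin n → Derivation ℂ K K) → K}
    (hΩ : ∀ j, IsSection y n m0 B (Ω j)) (hne : ∀ j, Ω j Ec ≠ 0) (T : Finset (Place ℂ K))
    (hT : ∀ P ∈ T, IsPrimeDivisor y P ∧
      ¬ ∀ f ∈ acl ℂ (Set.range fun i : Fin k => Ω i.succ Ec / Ω 0 Ec), f ≠ 0 → P.ord f = 0) :
    ∃ b : ℕ, ∃ G, IsSection y n (b * m0) (b • B) G ∧ G Ec ≠ 0 ∧
      ∀ P ∈ T, OrdGe P G (-((b • B) P) + 1) := by
  classical
  induction T using Finset.induction_on with
  | empty =>
    refine ⟨0, fun _ => 1, ?_, one_ne_zero, by simp⟩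
    rw [zero_mul, zero_smul]
    exact isSection_one
  | insert P T hPT ih =>
    obtain ⟨b, G, h1, h2, h3⟩ := ih fun Q hQ => hT Q (Finset.mem_insert_of_mem hQ)
    obtain ⟨hP, hv⟩ := hT P (Finset.mem_insert_self _ _)
    obtain ⟨b', G', h1', h2', h3'⟩ := exists_zero hy hn hyc hEc hΩ hne hP hv
    have h4 := h1.mul h1'
    rw [← add_mul, ← add_smul] at h4
    refine ⟨b + b', _, h4, mul_ne_zero h2 h2', fun Q hQ => ?_⟩
    have e : ∀ Q, (((b + b') • B) Q : ℚ) = (b • B) Q + (b' • B) Q := fun Q => by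
      rw [add_smul, Pi.add_apply]
    rcases Finset.mem_insert.1 hQ with rfl | hQ'
    · refine ((h1.2 Q hP).mul h3').mono (le_of_eq ?_)
      rw [e]
      ring
    · refine ((h3 Q hQ').mul (h1'.2 Q (hT Q hQ).1)).mono (le_of_eq ?_)
      rw [e]
      ring

theorem OrdGe.pow' {P : Place ℂ K} {ω : (Fin n → Derivation ℂ K K) → K} {c : ℚ}
    (h : OrdGe P ω c) (q : ℕ) : OrdGe P (fun E => ω E ^ q) (q * c) := by
  induction q with
  | zero =>
    intro E _
    right
    change _ ≤ (P.ord (ω E ^ 0) : ℚ)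
    rw [pow_zero, P.ord_one]
    simp
  | succ q ih =>
    have h1 := ih.mul h
    simp only [pow_succ]
    refine h1.mono (le_of_eq ?_)
    push_cast
    ring

variable {Δ Γ A : Place ℂ K → ℚ}

/-- **Sections which vanish along `Γ`.** -/
theorem exists_vanish {k m0 c : ℕ} (hy : NormalModel y) (hn : Algebra.trdeg ℂ K = n)
    (hyc : IsTranscendenceBasis ℂ yc) (hEc : ∀ i j, Ec i (yc j) = if i = j then 1 else 0)
    (hΔ : {P | IsPrimeDivisor y P ∧ Δ P ≠ 0}.Finite) (hΓ : Effective y Γ) (hA : Effective y A)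
    (hps : ∀ m1 : ℕ, ∃ m : ℕ, m1 ≤ m ∧
      ∃ s, IsSection y n (m * m0) ((m * m0) • (Δ - Γ) + A) s ∧ s Ec ≠ 0)
    (hup : ∀ A, Effective y A → ∃ C : ℕ, ∀ m : ℕ, 1 ≤ m → ∀ (r : ℕ) (f : Fin r → K),
      LinearIndependent ℂ f → (∀ i, ∃ ω, IsSection y n m (m • Δ + A) ω ∧ ω Ec = f i) →
      r ≤ C * m ^ k)
    (hm0 : 1 ≤ m0) (hc : 1 ≤ c) {Ω : Fin (k + 1) → (Fin n → Derivation ℂ K K) → K}
    (hΩ : ∀ j, IsSection y n m0 (m0 • Δ + c • Γ) (Ω j)) (h0 : Ω 0 Ec ≠ 0)
    (hind : AlgebraicIndependent ℂ (fun i : Fin k => Ω i.succ Ec / Ω 0 Ec)) {t : ℚ} (ht : t < 1) :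
    ∃ a : ℕ, 1 ≤ a ∧ ∃ σ, IsSection y n a (a • (Δ - t • Γ)) σ ∧ σ Ec ≠ 0 := by
  classical
  have hess := hy.ess
  have hne : ∀ j, Ω j Ec ≠ 0 := by
    intro j
    refine Fin.cases h0 (fun i => ?_) j
    intro h1
    have := hind.ne_zero i
    rw [h1, zero_div] at this
    exact this rfl
  obtain ⟨M, hMdef⟩ : ∃ M, M = acl ℂ (Set.range fun i : Fin k => Ω i.succ Ec / Ω 0 Ec) := ⟨_, rfl⟩
  have hMc : Closed M := by
    rw [hMdef]
    exact acl_closed _
  obtain ⟨A2, hA2, hS⟩ := exists_in hy hn hyc hEc hΔ hΓ hA hps hup hm0 hc hΩ h0 hind hMc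
    (fun i => by
      rw [hMdef]
      exact subset_acl _ ⟨i, rfl⟩)
  obtain ⟨T, hT⟩ : ∃ T : Finset (Place ℂ K), ∀ P, P ∈ T ↔ (IsPrimeDivisor y P ∧ A2 P ≠ 0) :=
    ⟨hA2.2.toFinset, fun P => by
      rw [Set.Finite.mem_toFinset]
      rfl⟩
  obtain ⟨b, G, hG, hG0, hGT⟩ := exists_zeros hy hn hyc hEc hΩ hne
    (T.filter fun P => ¬ ∀ f ∈ M, f ≠ 0 → P.ord f = 0) (fun P hP => by
      rw [Finset.mem_filter, hT] at hP
      rw [← hMdef]
      exact ⟨hP.1.1, hP.2⟩)
  obtain ⟨q, hq⟩ : ∃ q : ℕ, ∀ P ∈ T, A2 P ≤ q := by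
    refine ⟨∑ P ∈ T, ⌈A2 P⌉₊, fun P hP => ?_⟩
    have h1 : ⌈A2 P⌉₊ ≤ ∑ P ∈ T, ⌈A2 P⌉₊ :=
      Finset.single_le_sum (f := fun P => ⌈A2 P⌉₊) (fun _ _ => Nat.zero_le _) hP
    exact (Nat.le_ceil _).trans (by exact_mod_cast h1)
  obtain ⟨l1, hl1⟩ := exists_nat_gt (((q : ℚ) * b * c + q * b * m0 * |t|) / ((1 - t) * m0))
  obtain ⟨l, hll1, h, hhM, hh0, hs⟩ := hS (l1 + 1)
  have hGq := hG.pow q
  have hsec := hs.mul hGq
  have hm0' : (1 : ℚ) ≤ m0 := by exact_mod_cast hm0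
  have h1t : 0 < (1 - t) * m0 := mul_pos (by linarith) (by linarith)
  have hlbig : (q : ℚ) * b * c + q * b * m0 * t ≤ l * ((1 - t) * m0) := by
    have h2 : (l1 : ℚ) ≤ l := by exact_mod_cast (by omega : l1 ≤ l)
    rw [div_lt_iff₀ h1t] at hl1
    have h3 : (l1 : ℚ) * ((1 - t) * m0) ≤ l * ((1 - t) * m0) :=
      mul_le_mul_of_nonneg_right h2 h1t.le
    have h4 : (q : ℚ) * b * m0 * t ≤ q * b * m0 * |t| :=
      mul_le_mul_of_nonneg_left (le_abs_self t) (by positivity)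
    linarith
  have hkey : ∀ P, IsPrimeDivisor y P → OrdGe P (fun E => h * Ω 0 E ^ l * G E ^ q)
      (-((l * m0 + q * (b * m0) : ℕ) * (Δ P - t * Γ P))) := by
    intro P hP
    have hΓ0 := hΓ.1 P hP
    have e1 : ((q • b • (m0 • Δ + c • Γ)) P : ℚ) = q * (b * (m0 * Δ P + c * Γ P)) := by
      simp only [Pi.add_apply, Pi.smul_apply]
      simp only [nsmul_eq_mul]
    have e2 : (((l * m0) • (Δ - Γ) + A2) P : ℚ) = l * m0 * (Δ P - Γ P) + A2 P := by
      simp only [Pi.add_apply, Pi.smul_apply, Pi.sub_apply]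
      simp only [nsmul_eq_mul]
      push_cast
      ring
    have e3 : ((b • (m0 • Δ + c • Γ)) P : ℚ) = b * (m0 * Δ P + c * Γ P) := by
      simp only [Pi.add_apply, Pi.smul_apply]
      simp only [nsmul_eq_mul]
    have h6 : ((q : ℚ) * b * c + q * b * m0 * t) * Γ P ≤ l * ((1 - t) * m0) * Γ P :=
      mul_le_mul_of_nonneg_right hlbig hΓ0
    by_cases hPT : P ∈ T
    · by_cases hv : ∀ f ∈ M, f ≠ 0 → P.ord f = 0
      · -- horizontal
        obtain ⟨yP, EP, iP, hlP⟩ := exists_loc hn (hP.divisorial hy hn)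
        have hΩP : Ω 0 EP ≠ 0 := loc_ne hlP (hΩ 0).1 fun h => h0 (by rw [h]; rfl)
        have h1 : -(m0 * (Δ P - Γ P)) ≤ (P.ord (Ω 0 EP) : ℚ) := by
          by_contra hcon
          push Not at hcon
          obtain ⟨u, hu⟩ : ∃ u : ℚ, u = -(m0 * (Δ P - Γ P)) - P.ord (Ω 0 EP) := ⟨_, rfl⟩
          have hu0 : 0 < u := by rw [hu]; linarith
          obtain ⟨l2, hl2⟩ := exists_nat_gt (A2 P / u)
          obtain ⟨l', hl', h', hh'M, hh'0, hs'⟩ := hS (l2 + 1)
          have h2 := (hs'.2 P hP EP hlP.pres).resolve_left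
            (mul_ne_zero hh'0 (pow_ne_zero _ hΩP))
          rw [P.ord_mul hh'0 (pow_ne_zero _ hΩP), hv h' hh'M hh'0, P.ord_pow, zero_add] at h2
          have e4 : (((l' * m0) • (Δ - Γ) + A2) P : ℚ) = l' * m0 * (Δ P - Γ P) + A2 P := by
            simp only [Pi.add_apply, Pi.smul_apply, Pi.sub_apply]
            simp only [nsmul_eq_mul]
            push_cast
            ring
          rw [e4] at h2
          push_cast at h2
          rw [div_lt_iff₀ hu0] at hl2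
          have h3 : (l' : ℚ) * u ≤ A2 P := by
            rw [hu]
            nlinarith
          have h4 : (l2 : ℚ) ≤ l' := by exact_mod_cast (by omega : l2 ≤ l')
          nlinarith
        refine ((?_ : OrdGe P (fun E => h * Ω 0 E ^ l) (-(l * m0 * (Δ P - Γ P)))).mul
          (hGq.2 P hP)).mono ?_
        · rw [ordGe_iff hlP hs.1]
          right
          rw [P.ord_mul hh0 (pow_ne_zero _ hΩP), hv h hhM hh0, P.ord_pow, zero_add]
          push_cast
          have h2 : (0 : ℚ) ≤ l := Nat.cast_nonneg _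
          have h3 := mul_le_mul_of_nonneg_left h1 h2
          linarith
        · rw [e1]
          push_cast
          nlinarith
      · -- vertical
        have h1 := (hs.2 P hP).mul ((hGT P (by
          rw [Finset.mem_filter]
          exact ⟨hPT, hv⟩)).pow' q)
        refine h1.mono ?_
        rw [e2, e3]
        have h2 := hq P hPT
        push_cast
        nlinarith
    · have hA0 : A2 P = 0 := by
        by_contra hcon
        exact hPT ((hT P).2 ⟨hP, hcon⟩)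
      refine ((hs.2 P hP).mul (hGq.2 P hP)).mono ?_
      rw [e1, e2, hA0]
      push_cast
      nlinarith
  refine ⟨l * m0 + q * (b * m0), ?_, fun E => h * Ω 0 E ^ l * G E ^ q, ⟨hsec.1, fun P hP => ?_⟩,
    mul_ne_zero (mul_ne_zero hh0 (pow_ne_zero _ h0)) (pow_ne_zero _ hG0)⟩
  · have := Nat.mul_pos (by omega : 0 < l) hm0
    omega
  · refine (hkey P hP).mono (le_of_eq ?_)
    simp only [Pi.smul_apply, Pi.sub_apply]
    simp only [nsmul_eq_mul, smul_eq_mul]

end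

end Pool.Agent.Y172
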