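import Pool.Agent.Y172.R6
import Pool.Agent.Y172.Enl

/-!
Abundance for pairs with a finite cover whose fibres over a base are very affine, outside of `Γ`, if
`K_X + Δ - Γ` is pseudo-effective.
-/

set_option autoImplicit false
set_option linter.overlappingInstances false
set_option linter.unusedSectionVars false

open FF Pool.Agent.W602.GT Pool.Agent.W603.LV Pool.Agent.W619.PQ Pool.Agent.TH122.AB
  Pool.Agent.TH585.SV

namespace Pool.Agent.Y172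

section

variable {K L : Type} [Field K] [Field L] [Algebra ℂ K] [Algebra ℂ L]
  [Algebra K L] [IsScalarTower ℂ K L] [FiniteDimensional K L] {N n : ℕ} {y : Fin (N + 1) → K}

/-- **Abundance** relative to `Γ`. -/
theorem main5 {Δ Γ A : Place ℂ K → ℚ} {d M r : ℕ}
    (hy : NormalModel y) (hn : Algebra.trdeg ℂ K = n) (hΔ : Effective y Δ)
    (hLC : LogCanonical y n Δ) (hΓ : Effective y Γ) (hA : Effective y A)
    (hps : ∀ m1 : ℕ, ∃ m : ℕ, m1 ≤ m ∧ ∃ s, IsSection y n m (m • (Δ - Γ) + A) s ∧ s ≠ 0)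
    {F : IntermediateField ℂ L} (hd : Algebra.trdeg ℂ F = d) {x : Fin d → L}
    (hxF : ∀ j, x j ∈ F) (hx : AlgebraicIndependent ℂ x) (hM : 0 < M) {φ : Fin (d + 1) → L}
    (hφF : ∀ i, φ i ∈ F) (hφ0 : φ 0 ≠ 0)
    (hφ : AlgebraicIndependent ℂ (fun i : Fin d => φ i.succ / φ 0))
    (hbase : ∀ P, IsPrimeDivisor y P → Γ P = 0 → ¬ Diminished y n Δ A P →
      ∀ (Q : Place ℂ L) (e : ℕ), Over Q P e → (¬ ∀ f ∈ F, f ≠ 0 → Q.ord f = 0) →
      ∀ i, ∀ G : Fin d → Derivation ℂ L L, (∀ j, DerReg Q (G j)) →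
        φ i * (Matrix.of fun j l => G j (x l)).det ^ M = 0 ∨
          -(M * (1 - (e : ℚ) * (1 - Δ P))) ≤
            Q.ord (φ i * (Matrix.of fun j l => G j (x l)).det ^ M))
    {t : Fin r → L} (ht : ∀ j, t j ≠ 0)
    (hgen : IntermediateField.adjoin ℂ ({z : L | IsAlgebraic F z} ∪ Set.range t) = ⊤)
    (hb : ∀ P, IsPrimeDivisor y P → Γ P = 0 → ¬ Diminished y n Δ A P →
      ∀ (Q : Place ℂ L) (e : ℕ), Over Q P e → (∀ f ∈ F, f ≠ 0 → Q.ord f = 0) →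
        (∃ j, Q.ord (t j) ≠ 0) → 1 ≤ Δ P)
    (hram : ∀ P, IsPrimeDivisor y P → Γ P = 0 → ¬ Diminished y n Δ A P →
      ∀ (Q : Place ℂ L) (e : ℕ), Over Q P e → (e : ℚ) * (1 - Δ P) ≤ 1) :
    ∃ κ : ℕ, d ≤ κ ∧
      (∀ Δ' : Place ℂ K → ℚ, (∀ P, IsPrimeDivisor y P → Γ P = 0 → Δ' P = Δ P) →
        (∀ P, IsPrimeDivisor y P → Γ P ≠ 0 → Δ P - Γ P < Δ' P) →
        kodairaDim y n Δ' = (κ : WithBot ℕ) ∧
          ∀ A, Effective y A → Integral y A → numericalDim y n Δ' A = (κ : EReal)) ∧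
      ∀ G : Place ℂ K → ℚ, (∀ P, IsPrimeDivisor y P → Γ P = 0 → G P ≤ 0) →
        iitakaDim y n G ≤ (κ : WithBot ℕ) := by
  classical
  have hess := hy.ess
  have hessL : Algebra.EssFiniteType ℂ L := ess_up hess
  obtain ⟨yc, Ec, hyc, hEc⟩ := exists_crd hn
  obtain ⟨g, hup, m0, hm0, Ω, hΩp, hΩ, E, h0E, hindE⟩ := forms (K := K) (L := L)
    (fun P => Γ P = 0 ∧ ¬ Diminished y n Δ A P) hy hn hΔ hLC hd hxF hx hM hφF hφ0 hφ
    (fun P hP h => hbase P hP h.1 h.2) ht hgen (fun P hP h => hb P hP h.1 h.2)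
    (fun P hP h => hram P hP h.1 h.2) hyc hEc
  have hΩ0 : ∀ j, Ω j ≠ 0 := by
    intro j h0
    have h1 : Ω j E = 0 := congrFun h0 E
    revert h1
    refine Fin.cases ?_ (fun i => ?_) j
    · exact h0E
    · intro h1
      have := hindE.ne_zero i
      rw [h1, zero_div] at this
      exact this rfl
  obtain ⟨Γ', hΓ', h1, h2, h3⟩ := dim_enlarge hy hn hΔ hΓ hps hΩp hΩ0
    (fun j P hP h4 h5 => hΩ j P hP ⟨h4, h5⟩)
  have hz : ∀ P, IsPrimeDivisor y P → Γ' P = 0 → Γ P = 0 := by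
    intro P hP h
    by_contra hcon
    rw [h1 P hP hcon] at h
    exact hcon h
  refine ⟨d + g, Nat.le_add_right _ _, fun Δ' h4 h5 => ?_, fun G hG => ?_⟩
  · refine (transfer hy hn hyc hEc hΔ.2 hΓ' hA h2 hup hm0 hΩp h3 h0E hindE (Δ' := Δ')
      (fun P hP h => h4 P hP (hz P hP h)) fun P hP h => ?_).2
    by_cases hΓP : Γ P = 0
    · rw [h4 P hP hΓP]
      have := lt_of_le_of_ne (hΓ'.1 P hP) (Ne.symm h)
      linarith
    · rw [h1 P hP hΓP]
      exact h5 P hP hΓP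
  · exact transferG hy hn hyc hEc hΔ.2 hΓ' hA h2 hup hm0 hΩp h3 h0E hindE
      fun P hP h => hG P hP (hz P hP h)

end

end Pool.Agent.Y172
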