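import Pool.Agent.Y172.Cov5

/-!
Descent of forms on a finite cover to sections of `m (K_X + Δ)`, with the help of a section `σ` of
`a (K_X + Δ)` which vanishes along the bad prime divisors.
-/

set_option autoImplicit false
set_option linter.overlappingInstances false
set_option linter.unusedSectionVars false

open FF Pool.Agent.W602.GT Pool.Agent.W603.LV Pool.Agent.W619.PQ Pool.Agent.TH122.AB

namespace Pool.Agent.Y172

section

variable {K L : Type} [Field K] [Field L] [Algebra ℂ K] [Algebra ℂ L]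
  [Algebra K L] [IsScalarTower ℂ K L] [FiniteDimensional K L] {N n : ℕ} {y : Fin (N + 1) → K}

theorem ordGe_mono {m : ℕ} {P : Place ℂ K} {ω : (Fin m → Derivation ℂ K K) → K} {c c' : ℚ}
    (h : OrdGe P ω c) (hc : c' ≤ c) : OrdGe P ω c' := fun E hE =>
  (h E hE).imp id fun h' => hc.trans h'

/-- the order of the pull-back of a section -/
theorem sigma_up (hy : NormalModel y) (hn : Algebra.trdeg ℂ K = n) {Δ : Place ℂ K → ℚ} {a : ℕ}
    {σ : (Fin n → Derivation ℂ K K) → K} (hσ : IsSection y n a (a • Δ) σ) (hσ0 : σ ≠ 0)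
    {q : ℕ} (hq : 1 ≤ q) (hqΔ : ∀ P, IsPrimeDivisor y P → ∃ z : ℤ, (q : ℚ) * Δ P = z)
    {yc : Fin n → K} {E : Fin n → Derivation ℂ K K} (hyc : IsTranscendenceBasis ℂ yc)
    (hE : ∀ i j, E i (yc j) = if i = j then 1 else 0) {Q : Place ℂ L} {P : Place ℂ K} {e : ℕ}
    (hQ : Over Q P e) (hP : IsPrimeDivisor y P) {D : Fin n → Derivation ℂ L L}
    (hD : ∀ i, DerReg Q (D i)) :
    ∃ c : ℤ, Ge Q c ((Matrix.of fun i j => D i (algebraMap K L (yc j))).det ^ a *
      algebraMap K L (σ E)) ∧ -(a * (1 - e * (1 - (Δ P : ℝ)))) ≤ (c : ℝ) ∧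
      (¬ OrdEq P σ (-(a * Δ P)) → -(a * (1 - e * (1 - (Δ P : ℝ)))) + e / q ≤ (c : ℝ)) := by
  classical
  have hess := hy.ess
  have hPd := hP.divisorial hy hn
  obtain ⟨yP, EP, i0, hl⟩ := exists_loc hn hPd
  have hEP0 : σ EP ≠ 0 := by
    intro h0
    apply hσ0
    funext G
    rw [pluri_coord hl.bas hl.dual hσ.1 G, h0, mul_zero]
    rfl
  have e1 : (a • Δ) P = a * Δ P := by rw [Pi.smul_apply, nsmul_eq_mul]
  have h1 : -(a * Δ P) ≤ (P.ord (σ EP) : ℚ) := by
    have := (hσ.2 P hP EP hl.pres).resolve_left hEP0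
    rwa [e1] at this
  have he : (1 : ℝ) ≤ e := by exact_mod_cast hQ.1
  refine ⟨a * (e - 1) + e * P.ord (σ EP), ?_, ?_, fun hnf => ?_⟩
  · rw [Pool.Agent.W73.PG.PULL.form_eq yc yP hyc hl.bas E EP hE hl.dual σ hσ.1 D]
    exact pull_reg hQ hl hD (ge_ord P _)
  · have h2 : -(a * (Δ P : ℝ)) ≤ (P.ord (σ EP) : ℝ) := by exact_mod_cast h1
    push_cast
    have h3 := mul_le_mul_of_nonneg_left h2 (by linarith : (0 : ℝ) ≤ e)
    nlinarith
  · obtain ⟨z, hz⟩ := hqΔ P hP
    have h2 : (P.ord (σ EP) : ℚ) ≠ -(a * Δ P) := by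
      intro h2
      apply hnf
      refine ⟨?_, EP, hl.pres, hEP0, h2⟩
      rw [← e1]
      exact hσ.2 P hP
    have h3 : -(a * Δ P) < (P.ord (σ EP) : ℚ) := lt_of_le_of_ne h1 (Ne.symm h2)
    have hq0 : (0 : ℚ) < q := by exact_mod_cast hq
    have h4 : ((-(a * z) : ℤ) : ℚ) < ((q * P.ord (σ EP) : ℤ) : ℚ) := by
      push_cast
      rw [← hz]
      have := mul_lt_mul_of_pos_left h3 hq0
      linarith
    have h5 : -(a * z) + 1 ≤ q * P.ord (σ EP) := by
      have : -(a * z) < q * P.ord (σ EP) := by exact_mod_cast h4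
      omega
    have h6 : (-(a * (q * Δ P)) + 1 : ℝ) ≤ q * P.ord (σ EP) := by
      have h7 : ((q : ℝ) * (Δ P : ℝ)) = z := by exact_mod_cast hz
      rw [h7]
      exact_mod_cast h5
    have hq1 : (0 : ℝ) < q := by exact_mod_cast hq
    have h7 : -(a * (Δ P : ℝ)) + 1 / q ≤ (P.ord (σ EP) : ℝ) := by
      have h8 : (q : ℝ) * (-(a * (Δ P : ℝ)) + 1 / q) ≤ q * P.ord (σ EP) := by
        have : (q : ℝ) * (-(a * (Δ P : ℝ)) + 1 / q) = -(a * (q * Δ P)) + 1 := by
          field_simp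
        rw [this]
        exact h6
      exact le_of_mul_le_mul_left h8 hq1
    push_cast
    have h9 := mul_le_mul_of_nonneg_left h7 (by linarith : (0 : ℝ) ≤ e)
    have h10 : (e : ℝ) * (-(a * (Δ P : ℝ)) + 1 / q) = -(e * (a * (Δ P : ℝ))) + e / q := by ring
    rw [h10] at h9
    nlinarith

open scoped Classical in
/-- the coefficient of the prime divisors of the cover which is needed for the construction -/
noncomputable def dl (K : Type) {L : Type} [Field K] [Field L] [Algebra ℂ K] [Algebra ℂ L]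
    [Algebra K L] [IsScalarTower ℂ K L] [FiniteDimensional K L] {n : ℕ} (Δ : Place ℂ K → ℚ)
    (a : ℕ) (σ : (Fin n → Derivation ℂ K K) → K) (c0 : ℕ) (Q : Place ℂ L) : ℝ :=
  if OrdEq (bel K Q) σ (-(a * Δ (bel K Q))) then 1 - ram K Q * (1 - (Δ (bel K Q) : ℝ)) else c0

/-- **Descent to sections.** -/
theorem descend_sec (hy : NormalModel y) (hn : Algebra.trdeg ℂ K = n) {Δ : Place ℂ K → ℚ}
    (hΔ : Effective y Δ) {a : ℕ}
    {σ : (Fin n → Derivation ℂ K K) → K} (hσ : IsSection y n a (a • Δ) σ) (hσ0 : σ ≠ 0) {c0 : ℕ}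
    {m1 h : ℕ} (hm1 : 1 ≤ m1) {ω : Fin (h + 1) → (Fin n → Derivation ℂ L L) → L}
    (hω : ∀ j, IsPluri m1 (ω j))
    (hreg : ∀ Q : Place ℂ L, IsPrimeDivisor y (bel K Q) → ∀ j,
      ∀ G : Fin n → Derivation ℂ L L, (∀ i, DerReg Q (G i)) →
        ω j G = 0 ∨ -(m1 * dl K Δ a σ c0 Q) ≤ (Q.ord (ω j G) : ℝ))
    {G0 : Fin n → Derivation ℂ L L} (hG0 : ω 0 G0 ≠ 0)
    (hind : AlgebraicIndependent ℂ (fun i : Fin h => ω i.succ G0 / ω 0 G0)) :
    ∃ m0 : ℕ, 1 ≤ m0 ∧ ∃ Ω : Fin (h + 1) → (Fin n → Derivation ℂ K K) → K,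
      (∀ j, IsSection y n m0 (m0 • Δ) (Ω j)) ∧
      ∃ E, Ω 0 E ≠ 0 ∧ AlgebraicIndependent ℂ (fun i : Fin h => Ω i.succ E / Ω 0 E) := by
  classical
  have hess := hy.ess
  have hessL : Algebra.EssFiniteType ℂ L := ess_up hess
  have hnL : Algebra.trdeg ℂ L = n := trdeg_up (K := K) hn
  obtain ⟨q, hq, hqΔ⟩ := exists_den_mul hΔ
  obtain ⟨yc, E, hyc, hE⟩ := exists_crd hn
  have hycL : IsTranscendenceBasis ℂ (fun j => algebraMap K L (yc j)) := hyc.algebraMap_comp
  choose E' hE' using fun i => exists_lift (L := L) hn (E i)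
  have hσE : σ E ≠ 0 := by
    intro h0
    apply hσ0
    funext G
    rw [pluri_coord hyc hE hσ.1 G, h0, mul_zero]
    rfl
  -- the pull-back of `σ`
  obtain ⟨τ, hτ⟩ : ∃ τ : (Fin n → Derivation ℂ L L) → L, ∀ D, τ D =
      (Matrix.of fun i j => D i (algebraMap K L (yc j))).det ^ a * algebraMap K L (σ E) :=
    ⟨_, fun _ => rfl⟩
  have hτp : IsPluri a τ := by
    intro A D
    have e1 : (Matrix.of fun a b => (∑ j, A a j • D j) (algebraMap K L (yc b))) =
        A * Matrix.of fun a b => D a (algebraMap K L (yc b)) := by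
      ext a b
      rw [Matrix.of_apply, Matrix.mul_apply, sum_smul_apply]
      rfl
    rw [hτ, hτ, e1, Matrix.det_mul, mul_pow, mul_assoc]
  have hG0d : (Matrix.of fun i j => G0 i (algebraMap K L (yc j))).det ≠ 0 := by
    intro h0
    apply hG0
    rw [pluri_coord hycL (lift_dual hE hE') (hω 0) G0, h0, zero_pow (by omega), zero_mul]
  have hτ0 : τ G0 ≠ 0 := by
    rw [hτ]
    refine mul_ne_zero (pow_ne_zero _ hG0d) ?_
    rwa [Ne, map_eq_zero]
  obtain ⟨lam, hlam⟩ : ∃ lam : ℕ, lam = q * (m1 * (c0 + 1)) := ⟨_, rfl⟩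
  -- the forms
  obtain ⟨W, hW⟩ : ∃ W : Fin (h + 1) → (Fin n → Derivation ℂ L L) → L, ∀ j D, W j D =
      (ω j D * τ D ^ lam) * (ω 0 D * τ D ^ lam) ^ (q - 1) := ⟨_, fun _ _ => rfl⟩
  have hbase : ∀ j, IsPluri (m1 + a * lam) (fun D => ω j D * τ D ^ lam) := fun j =>
    pluri_mul (hω j) (pluri_pow hτp lam)
  have hWp : ∀ j, IsPluri ((m1 + a * lam) * q) (W j) := by
    intro j
    have h1 := pluri_mul (hbase j) (pluri_pow (hbase 0) (q - 1))
    have e1 : (m1 + a * lam) + (m1 + a * lam) * (q - 1) = (m1 + a * lam) * q := by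
      obtain ⟨q', rfl⟩ := Nat.exists_eq_succ_of_ne_zero (by omega : q ≠ 0)
      rw [Nat.succ_eq_add_one, Nat.add_sub_cancel]
      ring
    rw [e1] at h1
    have e2 : W j = fun D => (ω j D * τ D ^ lam) * (ω 0 D * τ D ^ lam) ^ (q - 1) :=
      funext fun D => hW j D
    rw [e2]
    exact h1
  have hord : ∀ P ∈ {P : Place ℂ K | IsPrimeDivisor y P}, ∀ (Q : Place ℂ L) (e : ℕ),
      Over Q P e → ∀ j, ∀ G : Fin n → Derivation ℂ L L, (∀ i, DerReg Q (G i)) →
        ω j G * τ G ^ lam = 0 ∨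
          -((m1 + a * lam : ℕ) * (1 - e * (1 - (Δ P : ℝ)))) ≤
            (Q.ord (ω j G * τ G ^ lam) : ℝ) := by
    intro P hP Q e hQ j G hG
    obtain ⟨h1, h2⟩ := bel_eq K hQ
    have hP' : IsPrimeDivisor y (bel K Q) := by
      rw [h1]
      exact hP
    by_cases h0 : ω j G * τ G ^ lam = 0
    · exact Or.inl h0
    right
    have h3 := (hreg Q hP' j G hG).resolve_left (left_ne_zero_of_mul h0)
    obtain ⟨c, h4, h5, h6⟩ := sigma_up hy hn hσ hσ0 hq hqΔ hyc hE hQ hP hG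
    rw [← hτ] at h4
    have h7 : (lam : ℝ) * c ≤ (Q.ord (τ G ^ lam) : ℝ) := by
      have h8 := (h4.pow lam).resolve_left (right_ne_zero_of_mul h0)
      exact_mod_cast h8
    rw [Q.ord_mul (left_ne_zero_of_mul h0) (right_ne_zero_of_mul h0)]
    push_cast
    have hl0 : (0 : ℝ) ≤ lam := Nat.cast_nonneg _
    unfold dl at h3
    rw [h1, h2] at h3
    by_cases hfree : OrdEq P σ (-(a * Δ P))
    · rw [if_pos hfree] at h3
      have h8 := mul_le_mul_of_nonneg_left h5 hl0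
      nlinarith
    · rw [if_neg hfree] at h3
      have h8 := mul_le_mul_of_nonneg_left (h6 hfree) hl0
      have he : (1 : ℝ) ≤ e := by exact_mod_cast hQ.1
      have hΔ0 : (0 : ℝ) ≤ Δ P := by exact_mod_cast hΔ.1 P hP
      have hq1 : (0 : ℝ) < q := by exact_mod_cast hq
      have hm : (0 : ℝ) ≤ m1 := Nat.cast_nonneg _
      have hc : (0 : ℝ) ≤ c0 := Nat.cast_nonneg _
      have h9 : (lam : ℝ) * (e / q) = m1 * (c0 + 1) * e := by
        rw [hlam]
        push_cast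
        field_simp
      have h10 : (m1 : ℝ) * (c0 + 1) * e ≥ m1 * (c0 - (1 - e * (1 - (Δ P : ℝ)))) := by
        have h11 : (c0 - (1 - e * (1 - (Δ P : ℝ))) : ℝ) ≤ (c0 + 1) * e := by
          have h12 : (0 : ℝ) ≤ e * Δ P := mul_nonneg (by linarith) hΔ0
          have h13 : (c0 : ℝ) ≤ c0 * e := le_mul_of_one_le_right hc he
          nlinarith
        have := mul_le_mul_of_nonneg_left h11 hm
        linarith
      have h14 : (lam : ℝ) * (-(a * (1 - e * (1 - (Δ P : ℝ)))) + e / q) =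
          -(a * lam * (1 - e * (1 - (Δ P : ℝ)))) + m1 * (c0 + 1) * e := by
        rw [mul_add, h9]
        ring
      rw [h14] at h8
      nlinarith
  have hWreg : ∀ P ∈ {P : Place ℂ K | IsPrimeDivisor y P}, ∀ (Q : Place ℂ L) (e : ℕ),
      Over Q P e → ∀ j, ∀ G : Fin n → Derivation ℂ L L, (∀ i, DerReg Q (G i)) →
        W j G = 0 ∨ -(((m1 + a * lam) * q : ℕ) * (1 - e * (1 - (Δ P : ℝ)))) ≤
          (Q.ord (W j G) : ℝ) := by
    intro P hP Q e hQ j G hG
    by_cases h0 : W j G = 0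
    · exact Or.inl h0
    right
    rw [hW] at h0 ⊢
    have h1 := left_ne_zero_of_mul h0
    have h2 := right_ne_zero_of_mul h0
    have h3 := (hord P hP Q e hQ j G hG).resolve_left h1
    rw [Q.ord_mul h1 h2, Q.ord_pow]
    push_cast
    rcases Nat.eq_zero_or_pos (q - 1) with hq0 | hq0
    · have hq1 : q = 1 := by omega
      rw [hq1]
      simp only [Nat.sub_self, Nat.cast_zero, zero_mul, add_zero, Nat.cast_one, mul_one]
      push_cast at h3
      exact h3
    · have h4 : ω 0 G * τ G ^ lam ≠ 0 := fun h => h2 (by rw [h, zero_pow (by omega)])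
      have h5 := (hord P hP Q e hQ 0 G hG).resolve_left h4
      have h6 : ((q - 1 : ℕ) : ℝ) = q - 1 := by
        rw [Nat.cast_sub hq]
        simp
      have h7 : (0 : ℝ) ≤ q - 1 := by
        rw [← h6]
        exact Nat.cast_nonneg _
      rw [h6]
      have h8 := mul_le_mul_of_nonneg_left h5 h7
      push_cast at h3 h8
      nlinarith
  have hWG0 : W 0 G0 ≠ 0 := by
    rw [hW]
    exact mul_ne_zero (mul_ne_zero hG0 (pow_ne_zero _ hτ0))
      (pow_ne_zero _ (mul_ne_zero hG0 (pow_ne_zero _ hτ0)))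
  have hWind : AlgebraicIndependent ℂ (fun i : Fin h => W i.succ G0 / W 0 G0) := by
    have e1 : (fun i : Fin h => W i.succ G0 / W 0 G0) =
        fun i : Fin h => ω i.succ G0 / ω 0 G0 := by
      funext i
      rw [hW, hW]
      have h1 := pow_ne_zero lam hτ0
      have h2 := pow_ne_zero (q - 1) (mul_ne_zero hG0 h1)
      rw [mul_div_mul_right _ _ h2, mul_div_mul_right _ _ h1]
    rw [e1]
    exact hind
  obtain ⟨R, Ω, hR, h1, h2, E1, h3, h4⟩ := descend1 (K := K) (L := L) hn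
    (X := {P : Place ℂ K | IsPrimeDivisor y P}) (fun P hP => (show IsPrimeDivisor y P from hP).divisorial hy hn)
    (Δ := Δ) (M := (m1 + a * lam) * q) (fun P hP => by
      obtain ⟨z, hz⟩ := hqΔ P hP
      refine ⟨(m1 + a * lam : ℕ) * z, ?_⟩
      push_cast
      rw [← hz]
      ring) hWp hWreg hWG0 hWind
  refine ⟨(m1 + a * lam) * q * R, Nat.mul_pos (Nat.mul_pos (by omega) (by omega)) (by omega), Ω,
    fun j => ⟨h1 j, fun P hP G hG => ?_⟩, E1, h3, h4⟩
  have h5 := h2 P hP j G hG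
  rw [Pi.smul_apply, nsmul_eq_mul]
  exact h5

end

end Pool.Agent.Y172
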