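import Pool.Agent.Y172.Dim3

/-!
Weak abundance for pairs with a finite cover whose fibres over a base of general type are very
affine, outside of the diminished base locus and of the zeros of a section.
-/

set_option autoImplicit false
set_option linter.overlappingInstances false
set_option linter.unusedSectionVars false

open FF Pool.Agent.W602.GT Pool.Agent.W603.LV Pool.Agent.W619.PQ Pool.Agent.TH122.AB
  Pool.Agent.TH585.SV

namespace Pool.Agent.Y172

section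

variable {K L : Type} [Field K] [Field L] [Algebra ℂ K] [Algebra ℂ L]
  [Algebra K L] [IsScalarTower ℂ K L] [FiniteDimensional K L] {N n : ℕ} {y : Fin (N + 1) → K}

open scoped Classical in
/-- the coefficient of the prime divisors of the cover which is needed for the construction -/
noncomputable def dlG (K : Type) {L : Type} [Field K] [Field L] [Algebra ℂ K] [Algebra ℂ L]
    [Algebra K L] [IsScalarTower ℂ K L] [FiniteDimensional K L] (Δ : Place ℂ K → ℚ)
    (Good : Place ℂ K → Prop) (c0 : ℕ) (Q : Place ℂ L) : ℝ :=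
  if Good (bel K Q) then 1 - ram K Q * (1 - (Δ (bel K Q) : ℝ)) else c0

/-- **Descent to sections.** -/
theorem descendG (hy : NormalModel y) (hn : Algebra.trdeg ℂ K = n) {Δ : Place ℂ K → ℚ}
    (hΔ : Effective y Δ) {a : ℕ}
    {σ : (Fin n → Derivation ℂ K K) → K} (hσ : IsSection y n a (a • Δ) σ) (hσ0 : σ ≠ 0) {c0 : ℕ}
    {Good : Place ℂ K → Prop} (hGo : ∀ P, Good P → OrdEq P σ (-(a * Δ P)))
    {m1 h : ℕ} (hm1 : 1 ≤ m1) {ω : Fin (h + 1) → (Fin n → Derivation ℂ L L) → L}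
    (hω : ∀ j, IsPluri m1 (ω j))
    (hreg : ∀ Q : Place ℂ L, IsPrimeDivisor y (bel K Q) → ∀ j,
      ∀ G : Fin n → Derivation ℂ L L, (∀ i, DerReg Q (G i)) →
        ω j G = 0 ∨ -(m1 * dlG K Δ Good c0 Q) ≤ (Q.ord (ω j G) : ℝ))
    {G0 : Fin n → Derivation ℂ L L} (hG0 : ω 0 G0 ≠ 0)
    (hind : AlgebraicIndependent ℂ (fun i : Fin h => ω i.succ G0 / ω 0 G0)) :
    ∃ m0 : ℕ, 1 ≤ m0 ∧ ∃ Ω : Fin (h + 1) → (Fin n → Derivation ℂ K K) → K,
      (∀ j, IsPluri m0 (Ω j)) ∧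
      (∀ j P, IsPrimeDivisor y P → (OrdEq P σ (-(a * Δ P)) → Good P) →
        OrdGe P (Ω j) (-(m0 * Δ P))) ∧
      ∃ E, Ω 0 E ≠ 0 ∧ AlgebraicIndependent ℂ (fun i : Fin h => Ω i.succ E / Ω 0 E) := by
  classical
  have hess := hy.ess
  have hessL : Algebra.EssFiniteType ℂ L := ess_up hess
  have hnL : Algebra.trdeg ℂ L = n := trdeg_up (K := K) hn
  obtain ⟨q, hq, hqΔ⟩ := exists_den_mul hΔ
  obtain ⟨yc, E, hyc, hE⟩ := exists_crd hn
  have hycL : IsTranscendenceBasis ℂ (fun j => algebraMap K L (yc j)) := hyc.algebraMap_comp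
  choose E' hE' using fun i => exists_lift (L := L) hn (E i)
  have hσE : σ E ≠ 0 := by
    intro h0
    apply hσ0
    funext G
    rw [pluri_coord hyc hE hσ.1 G, h0, mul_zero]
    rfl
  -- the pull-back of `σ`
  obtain ⟨τ, hτ⟩ : ∃ τ : (Fin n → Derivation ℂ L L) → L, ∀ D, τ D =
      (Matrix.of fun i j => D i (algebraMap K L (yc j))).det ^ a * algebraMap K L (σ E) :=
    ⟨_, fun _ => rfl⟩
  have hτp : IsPluri a τ := by
    intro A D
    have e1 : (Matrix.of fun a b => (∑ j, A a j • D j) (algebraMap K L (yc b))) =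
        A * Matrix.of fun a b => D a (algebraMap K L (yc b)) := by
      ext a b
      rw [Matrix.of_apply, Matrix.mul_apply, sum_smul_apply]
      rfl
    rw [hτ, hτ, e1, Matrix.det_mul, mul_pow, mul_assoc]
  have hG0d : (Matrix.of fun i j => G0 i (algebraMap K L (yc j))).det ≠ 0 := by
    intro h0
    apply hG0
    rw [pluri_coord hycL (lift_dual hE hE') (hω 0) G0, h0, zero_pow (by omega), zero_mul]
  have hτ0 : τ G0 ≠ 0 := by
    rw [hτ]
    refine mul_ne_zero (pow_ne_zero _ hG0d) ?_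
    rwa [Ne, map_eq_zero]
  obtain ⟨lam, hlam⟩ : ∃ lam : ℕ, lam = q * (m1 * (c0 + 1)) := ⟨_, rfl⟩
  -- the forms
  obtain ⟨W, hW⟩ : ∃ W : Fin (h + 1) → (Fin n → Derivation ℂ L L) → L, ∀ j D, W j D =
      (ω j D * τ D ^ lam) * (ω 0 D * τ D ^ lam) ^ (q - 1) := ⟨_, fun _ _ => rfl⟩
  have hbase : ∀ j, IsPluri (m1 + a * lam) (fun D => ω j D * τ D ^ lam) := fun j =>
    pluri_mul (hω j) (pluri_pow hτp lam)
  have hWp : ∀ j, IsPluri ((m1 + a * lam) * q) (W j) := by
    intro j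
    have h1 := pluri_mul (hbase j) (pluri_pow (hbase 0) (q - 1))
    have e1 : (m1 + a * lam) + (m1 + a * lam) * (q - 1) = (m1 + a * lam) * q := by
      obtain ⟨q', rfl⟩ := Nat.exists_eq_succ_of_ne_zero (by omega : q ≠ 0)
      rw [Nat.succ_eq_add_one, Nat.add_sub_cancel]
      ring
    rw [e1] at h1
    have e2 : W j = fun D => (ω j D * τ D ^ lam) * (ω 0 D * τ D ^ lam) ^ (q - 1) :=
      funext fun D => hW j D
    rw [e2]
    exact h1
  have hord : ∀ P ∈ {P : Place ℂ K | IsPrimeDivisor y P ∧ (OrdEq P σ (-(a * Δ P)) → Good P)}, ∀ (Q : Place ℂ L) (e : ℕ),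
      Over Q P e → ∀ j, ∀ G : Fin n → Derivation ℂ L L, (∀ i, DerReg Q (G i)) →
        ω j G * τ G ^ lam = 0 ∨
          -((m1 + a * lam : ℕ) * (1 - e * (1 - (Δ P : ℝ)))) ≤
            (Q.ord (ω j G * τ G ^ lam) : ℝ) := by
    intro P hP Q e hQ j G hG
    obtain ⟨h1, h2⟩ := bel_eq K hQ
    have hP' : IsPrimeDivisor y (bel K Q) := by
      rw [h1]
      exact hP.1
    by_cases h0 : ω j G * τ G ^ lam = 0
    · exact Or.inl h0
    right
    have h3 := (hreg Q hP' j G hG).resolve_left (left_ne_zero_of_mul h0)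
    obtain ⟨c, h4, h5, h6⟩ := sigma_up hy hn hσ hσ0 hq hqΔ hyc hE hQ hP.1 hG
    rw [← hτ] at h4
    have h7 : (lam : ℝ) * c ≤ (Q.ord (τ G ^ lam) : ℝ) := by
      have h8 := (h4.pow lam).resolve_left (right_ne_zero_of_mul h0)
      exact_mod_cast h8
    rw [Q.ord_mul (left_ne_zero_of_mul h0) (right_ne_zero_of_mul h0)]
    push_cast
    have hl0 : (0 : ℝ) ≤ lam := Nat.cast_nonneg _
    unfold dlG at h3
    rw [h1, h2] at h3
    by_cases hfree : OrdEq P σ (-(a * Δ P))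
    · rw [if_pos (hP.2 hfree)] at h3
      have h8 := mul_le_mul_of_nonneg_left h5 hl0
      nlinarith
    · rw [if_neg fun h => hfree (hGo _ h)] at h3
      have h8 := mul_le_mul_of_nonneg_left (h6 hfree) hl0
      have he : (1 : ℝ) ≤ e := by exact_mod_cast hQ.1
      have hΔ0 : (0 : ℝ) ≤ Δ P := by exact_mod_cast hΔ.1 P hP.1
      have hq1 : (0 : ℝ) < q := by exact_mod_cast hq
      have hm : (0 : ℝ) ≤ m1 := Nat.cast_nonneg _
      have hc : (0 : ℝ) ≤ c0 := Nat.cast_nonneg _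
      have h9 : (lam : ℝ) * (e / q) = m1 * (c0 + 1) * e := by
        rw [hlam]
        push_cast
        field_simp
      have h10 : (m1 : ℝ) * (c0 + 1) * e ≥ m1 * (c0 - (1 - e * (1 - (Δ P : ℝ)))) := by
        have h11 : (c0 - (1 - e * (1 - (Δ P : ℝ))) : ℝ) ≤ (c0 + 1) * e := by
          have h12 : (0 : ℝ) ≤ e * Δ P := mul_nonneg (by linarith) hΔ0
          have h13 : (c0 : ℝ) ≤ c0 * e := le_mul_of_one_le_right hc he
          nlinarith
        have := mul_le_mul_of_nonneg_left h11 hm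
        linarith
      have h14 : (lam : ℝ) * (-(a * (1 - e * (1 - (Δ P : ℝ)))) + e / q) =
          -(a * lam * (1 - e * (1 - (Δ P : ℝ)))) + m1 * (c0 + 1) * e := by
        rw [mul_add, h9]
        ring
      rw [h14] at h8
      nlinarith
  have hWreg : ∀ P ∈ {P : Place ℂ K | IsPrimeDivisor y P ∧ (OrdEq P σ (-(a * Δ P)) → Good P)}, ∀ (Q : Place ℂ L) (e : ℕ),
      Over Q P e → ∀ j, ∀ G : Fin n → Derivation ℂ L L, (∀ i, DerReg Q (G i)) →
        W j G = 0 ∨ -(((m1 + a * lam) * q : ℕ) * (1 - e * (1 - (Δ P : ℝ)))) ≤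
          (Q.ord (W j G) : ℝ) := by
    intro P hP Q e hQ j G hG
    by_cases h0 : W j G = 0
    · exact Or.inl h0
    right
    rw [hW] at h0 ⊢
    have h1 := left_ne_zero_of_mul h0
    have h2 := right_ne_zero_of_mul h0
    have h3 := (hord P hP Q e hQ j G hG).resolve_left h1
    rw [Q.ord_mul h1 h2, Q.ord_pow]
    push_cast
    rcases Nat.eq_zero_or_pos (q - 1) with hq0 | hq0
    · have hq1 : q = 1 := by omega
      rw [hq1]
      simp only [Nat.sub_self, Nat.cast_zero, zero_mul, add_zero, Nat.cast_one, mul_one]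
      push_cast at h3
      exact h3
    · have h4 : ω 0 G * τ G ^ lam ≠ 0 := fun h => h2 (by rw [h, zero_pow (by omega)])
      have h5 := (hord P hP Q e hQ 0 G hG).resolve_left h4
      have h6 : ((q - 1 : ℕ) : ℝ) = q - 1 := by
        rw [Nat.cast_sub hq]
        simp
      have h7 : (0 : ℝ) ≤ q - 1 := by
        rw [← h6]
        exact Nat.cast_nonneg _
      rw [h6]
      have h8 := mul_le_mul_of_nonneg_left h5 h7
      push_cast at h3 h8
      nlinarith
  have hWG0 : W 0 G0 ≠ 0 := by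
    rw [hW]
    exact mul_ne_zero (mul_ne_zero hG0 (pow_ne_zero _ hτ0))
      (pow_ne_zero _ (mul_ne_zero hG0 (pow_ne_zero _ hτ0)))
  have hWind : AlgebraicIndependent ℂ (fun i : Fin h => W i.succ G0 / W 0 G0) := by
    have e1 : (fun i : Fin h => W i.succ G0 / W 0 G0) =
        fun i : Fin h => ω i.succ G0 / ω 0 G0 := by
      funext i
      rw [hW, hW]
      have h1 := pow_ne_zero lam hτ0
      have h2 := pow_ne_zero (q - 1) (mul_ne_zero hG0 h1)
      rw [mul_div_mul_right _ _ h2, mul_div_mul_right _ _ h1]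
    rw [e1]
    exact hind
  obtain ⟨R, Ω, hR, h1, h2, E1, h3, h4⟩ := descend1 (K := K) (L := L) hn
    (X := {P : Place ℂ K | IsPrimeDivisor y P ∧ (OrdEq P σ (-(a * Δ P)) → Good P)}) (fun P hP => (show IsPrimeDivisor y P from hP.1).divisorial hy hn)
    (Δ := Δ) (M := (m1 + a * lam) * q) (fun P hP => by
      obtain ⟨z, hz⟩ := hqΔ P hP.1
      refine ⟨(m1 + a * lam : ℕ) * z, ?_⟩
      push_cast
      rw [← hz]
      ring) hWp hWreg hWG0 hWind
  refine ⟨(m1 + a * lam) * q * R, Nat.mul_pos (Nat.mul_pos (by omega) (by omega)) (by omega), Ω,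
    h1, fun j P hP hPG G hG => h2 P ⟨hP, hPG⟩ j G hG, E1, h3, h4⟩

/-- **Weak abundance** for pairs with a finite cover whose fibres over a base of general type are
very affine. -/
theorem main3 {Δ A : Place ℂ K → ℚ} {a d M r : ℕ}
    (hy : NormalModel y) (hn : Algebra.trdeg ℂ K = n) (hΔ : Effective y Δ)
    (hLC : LogCanonical y n Δ) (hA : Effective y A)
    {σ : (Fin n → Derivation ℂ K K) → K} (hσ : IsSection y n a (a • Δ) σ) (hσ0 : σ ≠ 0)
    {F : IntermediateField ℂ L} (hd : Algebra.trdeg ℂ F = d) {x : Fin d → L}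
    (hxF : ∀ j, x j ∈ F) (hx : AlgebraicIndependent ℂ x) (hM : 0 < M) {φ : Fin (d + 1) → L}
    (hφF : ∀ i, φ i ∈ F) (hφ0 : φ 0 ≠ 0)
    (hφ : AlgebraicIndependent ℂ (fun i : Fin d => φ i.succ / φ 0))
    (hbase : ∀ P, IsPrimeDivisor y P → OrdEq P σ (-(a * Δ P)) → ¬ Diminished y n Δ A P →
      ∀ (Q : Place ℂ L) (e : ℕ), Over Q P e → (¬ ∀ f ∈ F, f ≠ 0 → Q.ord f = 0) →
      ∀ i, ∀ G : Fin d → Derivation ℂ L L, (∀ j, DerReg Q (G j)) →
        φ i * (Matrix.of fun j l => G j (x l)).det ^ M = 0 ∨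
          -(M * (1 - (e : ℚ) * (1 - Δ P))) ≤
            Q.ord (φ i * (Matrix.of fun j l => G j (x l)).det ^ M))
    {t : Fin r → L} (ht : ∀ j, t j ≠ 0)
    (hgen : IntermediateField.adjoin ℂ ({z : L | IsAlgebraic F z} ∪ Set.range t) = ⊤)
    (hb : ∀ P, IsPrimeDivisor y P → OrdEq P σ (-(a * Δ P)) → ¬ Diminished y n Δ A P →
      ∀ (Q : Place ℂ L) (e : ℕ), Over Q P e → (∀ f ∈ F, f ≠ 0 → Q.ord f = 0) →
        (∃ j, Q.ord (t j) ≠ 0) → 1 ≤ Δ P)
    (hram : ∀ P, IsPrimeDivisor y P → OrdEq P σ (-(a * Δ P)) → ¬ Diminished y n Δ A P →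
      ∀ (Q : Place ℂ L) (e : ℕ), Over Q P e → (e : ℚ) * (1 - Δ P) ≤ 1) :
    (kodairaDim y n Δ = ⊥ ∧ numericalDim y n Δ A = ⊥) ∨
      ∃ κ : ℕ, kodairaDim y n Δ = (κ : WithBot ℕ) ∧
        ∀ A, Effective y A → Integral y A → numericalDim y n Δ A = (κ : EReal) := by
  classical
  by_cases hps : ∀ m1 : ℕ, ∃ m' : ℕ, m1 ≤ m' ∧
      ∃ s', IsSection y n m' (m' • Δ + A) s' ∧ s' ≠ 0
  swap
  · exact Or.inl (not_psef hA hps)
  right
  obtain ⟨Good, hGood⟩ : ∃ Good : Place ℂ K → Prop, ∀ P, Good P ↔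
      (OrdEq P σ (-(a * Δ P)) ∧ ¬ Diminished y n Δ A P) := ⟨_, fun _ => Iff.rfl⟩
  have hess := hy.ess
  have hessL : Algebra.EssFiniteType ℂ L := ess_up hess
  have hnL : Algebra.trdeg ℂ L = n := trdeg_up (K := K) hn
  obtain ⟨yc, Ec, hyc, hEc⟩ := exists_crd hn
  -- the fibres
  have hgen' : IntermediateField.adjoin ℂ ((acl ℂ (F : Set L) : Set L) ∪ Set.range t) = ⊤ := by
    rw [← top_le_iff, ← hgen, IntermediateField.adjoin_le_iff]
    rintro x (hx | hx)
    · exact IntermediateField.subset_adjoin _ _ (Or.inl ((acl_closed (F : Set L)).mem_of_le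
        (fun y hy => subset_acl _ hy) hx))
    · exact IntermediateField.subset_adjoin _ _ (Or.inr hx)
  obtain ⟨e, l, M', J, D, u, H, gs⟩ := exists_gs hnL ht hgen'
  -- the constant
  obtain ⟨hbasT, hkF⟩ := basis_tower hxF hx hd gs.bas
  obtain ⟨Dt, Du, hFr⟩ := exists_frame hbasT
  have hx0 : ∀ j, x j ≠ 0 := fun j => hx.ne_zero j
  have hφne : ∀ i, φ i ≠ 0 := by
    intro i
    refine Fin.cases hφ0 (fun i => ?_) i
    intro h0
    have := hφ.ne_zero i
    rw [h0, zero_div] at this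
    exact this rfl
  have hTfin : ({Q : Place ℂ L | IsPrimeDivisor y (bel K Q) ∧
      ((∃ j, Q.ord (x j) ≠ 0) ∨ ∃ i, Q.ord (φ i) ≠ 0)}).Finite := by
    have h1 : (⋃ j, {Q : Place ℂ L | IsPrimeDivisor y (bel K Q) ∧ Q.ord (x j) ≠ 0}).Finite :=
      Set.finite_iUnion fun j => finite_ord_up hy (hx0 j)
    have h2 : (⋃ i, {Q : Place ℂ L | IsPrimeDivisor y (bel K Q) ∧ Q.ord (φ i) ≠ 0}).Finite :=
      Set.finite_iUnion fun i => finite_ord_up hy (hφne i)
    refine (h1.union h2).subset ?_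
    rintro Q ⟨hQ, ⟨j, hj⟩ | ⟨i, hi⟩⟩
    · exact Or.inl (Set.mem_iUnion.2 ⟨j, hQ, hj⟩)
    · exact Or.inr (Set.mem_iUnion.2 ⟨i, hQ, hi⟩)
  let sz : Place ℂ L → ℕ := fun Q => M * (∑ j, ((Q.ord (x j)).natAbs + 1)) +
    ∑ i, (Q.ord (φ i)).natAbs
  obtain ⟨c0, hc0⟩ : ∃ c0 : ℕ, c0 = 1 + ∑ Q ∈ hTfin.toFinset, sz Q := ⟨_, rfl⟩
  have hsz : ∀ Q : Place ℂ L, IsPrimeDivisor y (bel K Q) → ∀ i,
      ∀ G : Fin d → Derivation ℂ L L, (∀ j, DerReg Q (G j)) →
        Ge Q (-(c0 : ℤ)) ((mtx x G).det ^ M * φ i) := by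
    intro Q hQ i G hG
    by_cases hT : (∃ j, Q.ord (x j) ≠ 0) ∨ ∃ i, Q.ord (φ i) ≠ 0
    · have h1 : Ge Q (-(∑ j, (((Q.ord (x j)).natAbs : ℤ) + 1))) (mtx x G).det := by
        rw [← Matrix.det_transpose]
        refine ge_det Q _ _ (fun a _ => -(((Q.ord (x a)).natAbs : ℤ) + 1)) (fun a b => ?_)
          fun τ => ?_
        · change Ge Q (-(((Q.ord (x a)).natAbs : ℤ) + 1)) (G b (x a))
          exact (ge_der_reg (hG b) (x a)).mono (by omega)
        · rw [Finset.sum_neg_distrib]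
          refine neg_le_neg (le_of_eq ?_)
          exact Equiv.sum_comp τ fun i => (((Q.ord (x i)).natAbs : ℤ) + 1)
      have h2 := (h1.pow M).mul (ge_ord Q (φ i))
      refine h2.mono ?_
      have h3 : sz Q ≤ ∑ Q ∈ hTfin.toFinset, sz Q :=
        Finset.single_le_sum (f := sz) (fun _ _ => Nat.zero_le _)
          ((Set.Finite.mem_toFinset hTfin).2 ⟨hQ, hT⟩)
      have h4 : (Q.ord (φ i)).natAbs ≤ ∑ i, (Q.ord (φ i)).natAbs :=
        Finset.single_le_sum (f := fun i => (Q.ord (φ i)).natAbs) (fun _ _ => Nat.zero_le _)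
          (Finset.mem_univ i)
      have h5 : ((M * (∑ j, ((Q.ord (x j)).natAbs + 1)) : ℕ) : ℤ) =
          M * ∑ j, (((Q.ord (x j)).natAbs : ℤ) + 1) := by
        push_cast
        rfl
      have h6 : (M * (∑ j, ((Q.ord (x j)).natAbs + 1)) : ℕ) + (Q.ord (φ i)).natAbs ≤ c0 := by
        rw [hc0]
        have : sz Q = M * (∑ j, ((Q.ord (x j)).natAbs + 1)) + ∑ i, (Q.ord (φ i)).natAbs := rfl
        omega
      have h7 : (M : ℤ) * -(∑ j, (((Q.ord (x j)).natAbs : ℤ) + 1)) =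
          -((M * (∑ j, ((Q.ord (x j)).natAbs + 1)) : ℕ) : ℤ) := by
        rw [h5]
        ring
      rw [h7]
      omega
    · push Not at hT
      have h1 : Ge Q 0 (mtx x G).det :=
        ge_det Q _ _ (fun _ _ => 0) (fun a b => hG a _ (Or.inr (hT.1 b).ge)) fun σ => by simp
      have h2 := (h1.pow M).mul (ge_ord Q (φ i))
      refine h2.mono ?_
      rw [hT.2 i]
      omega
  -- the coefficients
  obtain ⟨δ, hδdef⟩ : ∃ δ : Place ℂ L → ℝ, δ = dlG K Δ Good c0 := ⟨_, rfl⟩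
  have hδfree : ∀ Q : Place ℂ L, Good (bel K Q) →
      δ Q = 1 - ram K Q * (1 - (Δ (bel K Q) : ℝ)) := by
    intro Q h
    rw [hδdef]
    exact if_pos h
  have hδbad : ∀ Q : Place ℂ L, ¬ Good (bel K Q) → δ Q = c0 := by
    intro Q h
    rw [hδdef]
    exact if_neg h
  let X : Set (Place ℂ L) := {Q | IsPrimeDivisor y (bel K Q)}
  have hX : ∀ Q, Q ∈ X ↔ IsPrimeDivisor y (bel K Q) := fun _ => Iff.rfl
  have hc01 : (1 : ℝ) ≤ c0 := by
    rw [hc0]
    push_cast
    have : (0 : ℝ) ≤ ∑ Q ∈ hTfin.toFinset, (sz Q : ℝ) :=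
      Finset.sum_nonneg fun _ _ => Nat.cast_nonneg _
    linarith
  have hδ0 : ∀ Q ∈ X, 0 ≤ δ Q := by
    intro Q hQ
    by_cases hf : Good (bel K Q)
    · rw [hδfree Q hf]
      have h1 := hram _ hQ ((hGood _).1 hf).1 ((hGood _).1 hf).2 Q _ (over_bel K Q)
      have h2 : ((ram K Q : ℝ) * (1 - (Δ (bel K Q) : ℝ))) ≤ 1 := by exact_mod_cast h1
      linarith
    · rw [hδbad Q hf]
      linarith
  -- the polynomials with positive coefficients
  obtain ⟨B, hB⟩ : ∃ B : MvPolynomial (Fin l) M' → Prop, ∀ g, B g ↔ (Irreducible g ∧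
      ∀ Q ∈ X, Adic Q u g → 0 < δ Q) := ⟨_, fun _ => Iff.rfl⟩
  obtain ⟨M1, l', ρ, x', u', fb⟩ := exists_fb hnL gs B
  obtain ⟨μ, c, hc, hbas⟩ := full_basis hnL gs fb
  -- the dimensions
  have hFe : Algebra.trdeg F L = e := by
    have h3 := gs.bas.cardinalMk_eq_trdeg
    rw [Cardinal.mk_fin] at h3
    exact h3.symm
  have hne : n = d + e := by
    have h3 := trdeg_add_eq ℂ F (A := L)
    rw [hd, hFe, hnL] at h3
    exact_mod_cast h3.symm
  have hel : e = l' + (ρ + μ) := by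
    have h3 := hbas.cardinalMk_eq_trdeg
    rw [hFe, Cardinal.mk_sum, Cardinal.mk_sum, Cardinal.mk_fin, Cardinal.mk_fin, Cardinal.mk_fin,
      Cardinal.lift_natCast, Cardinal.lift_natCast, Cardinal.lift_natCast, ← Nat.cast_add,
      Cardinal.lift_natCast, ← Nat.cast_add] at h3
    exact_mod_cast h3.symm
  -- the upper bound
  obtain ⟨E, hE, hEM, hEu⟩ := exists_adapted hnL gs.closed gs.ind gs.top
  have hup : ∀ A, Effective y A → ∃ C : ℕ, ∀ m : ℕ, 1 ≤ m → ∀ (r : ℕ) (f : Fin r → K),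
      LinearIndependent ℂ f → (∀ i, ∃ ω, IsSection y n m (m • Δ + A) ω ∧ ω Ec = f i) →
      r ≤ C * m ^ (d + (ρ + μ)) := by
    intro A hA
    refine upper_cov (L := L) hy hn hΔ hLC gs.ind gs.top fb (fun g hg hBg => ?_) hE hEM hEu
      (by omega) hyc hEc hA
    rw [hB] at hBg
    push Not at hBg
    obtain ⟨Q, hQ, hQg, hQδ⟩ := hBg hg
    refine ⟨bel K Q, Q, ram K Q, hQ, over_bel K Q, hQg, ?_⟩
    by_cases hf : Good (bel K Q)
    · rw [hδfree Q hf] at hQδ
      exact_mod_cast hQδ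
    · rw [hδbad Q hf] at hQδ
      linarith
  let δ₁ : Place ℂ L → ℝ := fun Q => if ∀ f ∈ F, f ≠ 0 → Q.ord f = 0 then 0 else δ Q
  let δ₂ : Place ℂ L → ℝ := fun Q => if ∀ f ∈ F, f ≠ 0 → Q.ord f = 0 then δ Q else 0
  have hδ₁h : ∀ Q : Place ℂ L, (∀ f ∈ F, f ≠ 0 → Q.ord f = 0) → δ₁ Q = 0 := fun Q h => if_pos h
  have hδ₁v : ∀ Q : Place ℂ L, (¬ ∀ f ∈ F, f ≠ 0 → Q.ord f = 0) → δ₁ Q = δ Q :=
    fun Q h => if_neg h
  have hδ₂h : ∀ Q : Place ℂ L, (∀ f ∈ F, f ≠ 0 → Q.ord f = 0) → δ₂ Q = δ Q := fun Q h => if_pos h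
  have hδ₂v : ∀ Q : Place ℂ L, (¬ ∀ f ∈ F, f ≠ 0 → Q.ord f = 0) → δ₂ Q = 0 :=
    fun Q h => if_neg h
  -- the lower bound
  obtain ⟨m, hm, θ, hθ1, hθ2, hθ3, hθ4⟩ := lower gs fb (X := X) (δ := δ₂)
    (by
      intro Q hQ
      by_cases hv : ∀ f ∈ F, f ≠ 0 → Q.ord f = 0
      · rw [hδ₂h Q hv]
        exact hδ0 Q hQ
      · rw [hδ₂v Q hv])
    (by
      rintro Q hQ ⟨hQF, hQt⟩
      rw [hδ₂h Q hQF]
      by_cases hf : Good (bel K Q)
      · rw [hδfree Q hf]
        have h1 := hb _ hQ ((hGood _).1 hf).1 ((hGood _).1 hf).2 Q _ (over_bel K Q) hQF hQt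
        have h2 : (1 : ℝ) ≤ (Δ (bel K Q) : ℝ) := by exact_mod_cast h1
        have h3 : (0 : ℝ) ≤ ram K Q := Nat.cast_nonneg _
        nlinarith
      · rw [hδbad Q hf]
        exact hc01)
    (by
      intro g hg
      rw [hB] at hg
      refine ⟨hg.1, fun Q hQ hQg => ?_⟩
      rw [hδ₂h Q fun f hf hf0 => hQg.triv f (gs.le hf) hf0]
      exact hg.2 Q hQ hQg)
    (fun f hf => finite_ord_up hy hf) hc (by
      have h3 := hbas.1.comp (Sum.inr : Fin ρ ⊕ Fin μ → Fin l' ⊕ (Fin ρ ⊕ Fin μ))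
        Sum.inr_injective
      exact h3)
  -- the forms on the cover
  subst hne
  have hGD : ∀ i, ((liftD (D i) F (gs.dk i)).restrictScalars ℂ) = D i := by
    intro i
    ext f
    rfl
  obtain ⟨w, hw⟩ : ∃ w : Fin (d + 1) → L, ∀ i, w i = φ i / φ 0 := ⟨_, fun _ => rfl⟩
  have hw0 : w 0 = 1 := by rw [hw, div_self hφ0]
  obtain ⟨ω, hω, G0, hG0, hG0i⟩ := hFr.pairs (L := F)
    (fun f hf i => hkF (Du i) (fun j => hFr.ut i j) f hf) hxF
    (X := X) (δ₁ := δ₁) (δ₂ := δ₂) (δ := δ)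
    (by
      intro Q _
      by_cases hv : ∀ f ∈ F, f ≠ 0 → Q.ord f = 0
      · rw [hδ₁h Q hv, hδ₂h Q hv, zero_add]
      · rw [hδ₁v Q hv, hδ₂v Q hv, add_zero])
    hm (θ := fun b G => θ b fun i => (G i).restrictScalars ℂ)
    (fun b => pluri_restrict (hθ1 b) _)
    (by
      intro Q hQ _ G hG b
      exact hθ2 b Q hQ _ (fun i f hf => (G i).map_algebraMap (⟨f, hf⟩ : F))
        (fun i f hf => hG i f hf))
    (by
      refine ⟨fun i => liftD (D i) F (gs.dk i), ?_, ?_⟩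
      · simp only [hGD]
        exact hθ3
      · simp only [hGD]
        exact hθ4)
    hM hφ0 (w := w) hw0
    (by
      have : (fun i : Fin d => w i.succ) = fun i : Fin d => φ i.succ / φ 0 :=
        funext fun i => hw _
      rw [this]
      exact hφ)
    (fun i => by
      rw [hw]
      exact div_mem (hφF i) (hφF 0))
    (by
      intro Q hQ _ G hG i
      have e1 : φ 0 * w i = φ i := by
        rw [hw]
        field_simp
      rw [e1]
      by_cases hv : ∀ f ∈ F, f ≠ 0 → Q.ord f = 0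
      · refine ⟨0, ?_, ?_⟩
        · have h1 : Ge Q 0 (mtx x G).det :=
            ge_det Q _ _ (fun _ _ => 0)
              (fun a b => hG a _ (Or.inr (hv _ (hxF b) (hx0 b)).ge)) fun σ => by simp
          have h2 := (h1.pow M).mul (ge_ord Q (φ i))
          rw [hv _ (hφF i) (hφne i), mul_zero, add_zero] at h2
          exact h2
        · rw [hδ₁h Q hv]
          simp
      · rw [hδ₁v Q hv]
        by_cases hf : Good (bel K Q)
        · have h1 := hbase _ hQ ((hGood _).1 hf).1 ((hGood _).1 hf).2 Q _ (over_bel K Q) hv i G hG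
          have e2 : φ i * (Matrix.of fun j l => G j (x l)).det ^ M = (mtx x G).det ^ M * φ i :=
            mul_comm _ _
          rw [e2] at h1
          rcases h1 with h1 | h1
          · refine ⟨0, Or.inl h1, ?_⟩
            have h2 := hδ0 Q hQ
            have h3 : (0 : ℝ) ≤ M := Nat.cast_nonneg _
            push_cast
            nlinarith
          · refine ⟨_, ge_ord Q _, ?_⟩
            rw [hδfree Q hf]
            exact_mod_cast h1
        · refine ⟨_, hsz Q hQ i G hG, ?_⟩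
          rw [hδbad Q hf]
          push_cast
          have h3 : (1 : ℝ) ≤ M := by exact_mod_cast hM
          have h4 : (0 : ℝ) ≤ c0 := Nat.cast_nonneg _
          nlinarith)
  -- the sections
  obtain ⟨m0, hm0, Ω, hΩ, hΩP, E', hE'0, hE'⟩ := descendG (K := K) (L := L) hy hn hΔ hσ hσ0
    (c0 := c0) (Good := Good) (fun P hP => ((hGood P).1 hP).1) (m1 := M * m) (Nat.mul_pos hM hm)
    (fun j => (hω j).1) (by
      intro Q hQ j G hG
      have h1 := (hω j).2 Q hQ (divisorial_up (over_bel K Q) (hQ.divisorial hy hn)) G hG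
      rw [hδdef] at h1
      exact h1) hG0 hG0i
  have hΩne : ∀ j, Ω j ≠ 0 := by
    intro j h0
    have h1 : Ω j E' = 0 := congrFun h0 E'
    revert h1
    refine Fin.cases ?_ (fun i => ?_) j
    · exact hE'0
    · intro h1
      have := hE'.ne_zero i
      rw [h1, zero_div] at this
      exact this rfl
  have hΩs : ∀ j, IsSection y (d + e) m0 (m0 • Δ) (Ω j) := fun j =>
    no_poles hy hn hΔ hps (hΩ j) (hΩne j) fun P hP => by
      by_cases hD : Diminished y (d + e) Δ A P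
      · exact Or.inr hD
      · exact Or.inl (hΩP j P hP fun h => (hGood P).2 ⟨h, hD⟩)
  have hEfr : IsFrame Ec := fun G =>
    ⟨fun j => G (yc j), (Pool.Agent.W73.PG.PULL.expand yc hyc Ec hEc G).symm⟩
  exact ⟨d + (ρ + μ), dims hΔ hEfr hup hm0 hΩs hE'0 hE'⟩

end

end Pool.Agent.Y172
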