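import Pool.Agent.Y172.R3
import Pool.Agent.Y172.Dim4

/-!
Pluricanonical forms and bounds for pairs with a finite cover whose fibres over a base of general
type are very affine, outside of a set of prime divisors.
-/

set_option autoImplicit false
set_option linter.overlappingInstances false
set_option linter.unusedSectionVars false

open FF Pool.Agent.W602.GT Pool.Agent.W603.LV Pool.Agent.W619.PQ Pool.Agent.TH122.AB
  Pool.Agent.TH585.SV

namespace Pool.Agent.Y172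

section

variable {K L : Type} [Field K] [Field L] [Algebra ℂ K] [Algebra ℂ L]
  [Algebra K L] [IsScalarTower ℂ K L] [FiniteDimensional K L] {N n : ℕ} {y : Fin (N + 1) → K}

/-- **Forms and bounds** for pairs with a finite cover whose fibres over a base of general type are
very affine, outside of the prime divisors which are not good. -/
theorem forms {Δ : Place ℂ K → ℚ} {d d₀ M r : ℕ} (Good : Place ℂ K → Prop)
    (hy : NormalModel y) (hn : Algebra.trdeg ℂ K = n) (hΔ : Effective y Δ)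
    (hLC : LogCanonical y n Δ)
    {F : IntermediateField ℂ L} (hd : Algebra.trdeg ℂ F = d) {x : Fin d → L}
    (hxF : ∀ j, x j ∈ F) (hx : AlgebraicIndependent ℂ x) (hM : 0 < M) {φ : Fin (d₀ + 1) → L}
    (hφF : ∀ i, φ i ∈ F) (hφ0 : φ 0 ≠ 0)
    (hφ : AlgebraicIndependent ℂ (fun i : Fin d₀ => φ i.succ / φ 0))
    (hbase : ∀ P, IsPrimeDivisor y P → Good P →
      ∀ (Q : Place ℂ L) (e : ℕ), Over Q P e → (¬ ∀ f ∈ F, f ≠ 0 → Q.ord f = 0) →
      ∀ i, ∀ G : Fin d → Derivation ℂ L L, (∀ j, DerReg Q (G j)) →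
        φ i * (Matrix.of fun j l => G j (x l)).det ^ M = 0 ∨
          -(M * (1 - (e : ℚ) * (1 - Δ P))) ≤
            Q.ord (φ i * (Matrix.of fun j l => G j (x l)).det ^ M))
    {t : Fin r → L} (ht : ∀ j, t j ≠ 0)
    (hgen : IntermediateField.adjoin ℂ ({z : L | IsAlgebraic F z} ∪ Set.range t) = ⊤)
    (hb : ∀ P, IsPrimeDivisor y P → Good P →
      ∀ (Q : Place ℂ L) (e : ℕ), Over Q P e → (∀ f ∈ F, f ≠ 0 → Q.ord f = 0) →
        (∃ j, Q.ord (t j) ≠ 0) → 1 ≤ Δ P)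
    (hram : ∀ P, IsPrimeDivisor y P → Good P →
      ∀ (Q : Place ℂ L) (e : ℕ), Over Q P e → (e : ℚ) * (1 - Δ P) ≤ 1)
    {yc : Fin n → K} {Ec : Fin n → Derivation ℂ K K} (hyc : IsTranscendenceBasis ℂ yc)
    (hEc : ∀ i j, Ec i (yc j) = if i = j then 1 else 0) :
    ∃ g : ℕ, (∀ A, Effective y A → ∃ C : ℕ, ∀ m : ℕ, 1 ≤ m → ∀ (r : ℕ) (f : Fin r → K),
      LinearIndependent ℂ f → (∀ i, ∃ ω, IsSection y n m (m • Δ + A) ω ∧ ω Ec = f i) →
      r ≤ C * m ^ (d + g)) ∧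
      ∃ m0 : ℕ, 1 ≤ m0 ∧ ∃ Ω : Fin (d₀ + g + 1) → (Fin n → Derivation ℂ K K) → K,
        (∀ j, IsPluri m0 (Ω j)) ∧
        (∀ j P, IsPrimeDivisor y P → Good P → OrdGe P (Ω j) (-(m0 * Δ P))) ∧
        ∃ E, Ω 0 E ≠ 0 ∧
          AlgebraicIndependent ℂ (fun i : Fin (d₀ + g) => Ω i.succ E / Ω 0 E) := by
  classical
  have hess := hy.ess
  have hessL : Algebra.EssFiniteType ℂ L := ess_up hess
  have hnL : Algebra.trdeg ℂ L = n := trdeg_up (K := K) hn
  -- the fibres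
  have hgen' : IntermediateField.adjoin ℂ ((acl ℂ (F : Set L) : Set L) ∪ Set.range t) = ⊤ := by
    rw [← top_le_iff, ← hgen, IntermediateField.adjoin_le_iff]
    rintro x (hx | hx)
    · exact IntermediateField.subset_adjoin _ _ (Or.inl ((acl_closed (F : Set L)).mem_of_le
        (fun y hy => subset_acl _ hy) hx))
    · exact IntermediateField.subset_adjoin _ _ (Or.inr hx)
  obtain ⟨e, l, M', J, D, u, H, gs⟩ := exists_gs hnL ht hgen'
  -- the constant
  obtain ⟨hbasT, hkF⟩ := basis_tower hxF hx hd gs.bas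
  obtain ⟨Dt, Du, hFr⟩ := exists_frame hbasT
  have hx0 : ∀ j, x j ≠ 0 := fun j => hx.ne_zero j
  have hφne : ∀ i, φ i ≠ 0 := by
    intro i
    refine Fin.cases hφ0 (fun i => ?_) i
    intro h0
    have := hφ.ne_zero i
    rw [h0, zero_div] at this
    exact this rfl
  have hTfin : ({Q : Place ℂ L | IsPrimeDivisor y (bel K Q) ∧
      ((∃ j, Q.ord (x j) ≠ 0) ∨ ∃ i, Q.ord (φ i) ≠ 0)}).Finite := by
    have h1 : (⋃ j, {Q : Place ℂ L | IsPrimeDivisor y (bel K Q) ∧ Q.ord (x j) ≠ 0}).Finite :=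
      Set.finite_iUnion fun j => finite_ord_up hy (hx0 j)
    have h2 : (⋃ i, {Q : Place ℂ L | IsPrimeDivisor y (bel K Q) ∧ Q.ord (φ i) ≠ 0}).Finite :=
      Set.finite_iUnion fun i => finite_ord_up hy (hφne i)
    refine (h1.union h2).subset ?_
    rintro Q ⟨hQ, ⟨j, hj⟩ | ⟨i, hi⟩⟩
    · exact Or.inl (Set.mem_iUnion.2 ⟨j, hQ, hj⟩)
    · exact Or.inr (Set.mem_iUnion.2 ⟨i, hQ, hi⟩)
  let sz : Place ℂ L → ℕ := fun Q => M * (∑ j, ((Q.ord (x j)).natAbs + 1)) +
    ∑ i, (Q.ord (φ i)).natAbs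
  obtain ⟨c0, hc0⟩ : ∃ c0 : ℕ, c0 = 1 + ∑ Q ∈ hTfin.toFinset, sz Q := ⟨_, rfl⟩
  have hsz : ∀ Q : Place ℂ L, IsPrimeDivisor y (bel K Q) → ∀ i,
      ∀ G : Fin d → Derivation ℂ L L, (∀ j, DerReg Q (G j)) →
        Ge Q (-(c0 : ℤ)) ((mtx x G).det ^ M * φ i) := by
    intro Q hQ i G hG
    by_cases hT : (∃ j, Q.ord (x j) ≠ 0) ∨ ∃ i, Q.ord (φ i) ≠ 0
    · have h1 : Ge Q (-(∑ j, (((Q.ord (x j)).natAbs : ℤ) + 1))) (mtx x G).det := by
        rw [← Matrix.det_transpose]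
        refine ge_det Q _ _ (fun a _ => -(((Q.ord (x a)).natAbs : ℤ) + 1)) (fun a b => ?_)
          fun τ => ?_
        · change Ge Q (-(((Q.ord (x a)).natAbs : ℤ) + 1)) (G b (x a))
          exact (ge_der_reg (hG b) (x a)).mono (by omega)
        · rw [Finset.sum_neg_distrib]
          refine neg_le_neg (le_of_eq ?_)
          exact Equiv.sum_comp τ fun i => (((Q.ord (x i)).natAbs : ℤ) + 1)
      have h2 := (h1.pow M).mul (ge_ord Q (φ i))
      refine h2.mono ?_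
      have h3 : sz Q ≤ ∑ Q ∈ hTfin.toFinset, sz Q :=
        Finset.single_le_sum (f := sz) (fun _ _ => Nat.zero_le _)
          ((Set.Finite.mem_toFinset hTfin).2 ⟨hQ, hT⟩)
      have h4 : (Q.ord (φ i)).natAbs ≤ ∑ i, (Q.ord (φ i)).natAbs :=
        Finset.single_le_sum (f := fun i => (Q.ord (φ i)).natAbs) (fun _ _ => Nat.zero_le _)
          (Finset.mem_univ i)
      have h5 : ((M * (∑ j, ((Q.ord (x j)).natAbs + 1)) : ℕ) : ℤ) =
          M * ∑ j, (((Q.ord (x j)).natAbs : ℤ) + 1) := by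
        push_cast
        rfl
      have h6 : (M * (∑ j, ((Q.ord (x j)).natAbs + 1)) : ℕ) + (Q.ord (φ i)).natAbs ≤ c0 := by
        rw [hc0]
        have : sz Q = M * (∑ j, ((Q.ord (x j)).natAbs + 1)) + ∑ i, (Q.ord (φ i)).natAbs := rfl
        omega
      have h7 : (M : ℤ) * -(∑ j, (((Q.ord (x j)).natAbs : ℤ) + 1)) =
          -((M * (∑ j, ((Q.ord (x j)).natAbs + 1)) : ℕ) : ℤ) := by
        rw [h5]
        ring
      rw [h7]
      omega
    · push Not at hT
      have h1 : Ge Q 0 (mtx x G).det :=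
        ge_det Q _ _ (fun _ _ => 0) (fun a b => hG a _ (Or.inr (hT.1 b).ge)) fun σ => by simp
      have h2 := (h1.pow M).mul (ge_ord Q (φ i))
      refine h2.mono ?_
      rw [hT.2 i]
      omega
  -- the coefficients
  obtain ⟨δ, hδdef⟩ : ∃ δ : Place ℂ L → ℝ, δ = dlG K Δ Good c0 := ⟨_, rfl⟩
  have hδfree : ∀ Q : Place ℂ L, Good (bel K Q) →
      δ Q = 1 - ram K Q * (1 - (Δ (bel K Q) : ℝ)) := by
    intro Q h
    rw [hδdef]
    exact if_pos h
  have hδbad : ∀ Q : Place ℂ L, ¬ Good (bel K Q) → δ Q = c0 := by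
    intro Q h
    rw [hδdef]
    exact if_neg h
  let X : Set (Place ℂ L) := {Q | IsPrimeDivisor y (bel K Q)}
  have hX : ∀ Q, Q ∈ X ↔ IsPrimeDivisor y (bel K Q) := fun _ => Iff.rfl
  have hc01 : (1 : ℝ) ≤ c0 := by
    rw [hc0]
    push_cast
    have : (0 : ℝ) ≤ ∑ Q ∈ hTfin.toFinset, (sz Q : ℝ) :=
      Finset.sum_nonneg fun _ _ => Nat.cast_nonneg _
    linarith
  have hδ0 : ∀ Q ∈ X, 0 ≤ δ Q := by
    intro Q hQ
    by_cases hf : Good (bel K Q)
    · rw [hδfree Q hf]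
      have h1 := hram _ hQ hf Q _ (over_bel K Q)
      have h2 : ((ram K Q : ℝ) * (1 - (Δ (bel K Q) : ℝ))) ≤ 1 := by exact_mod_cast h1
      linarith
    · rw [hδbad Q hf]
      linarith
  -- the polynomials with positive coefficients
  obtain ⟨B, hB⟩ : ∃ B : MvPolynomial (Fin l) M' → Prop, ∀ g, B g ↔ (Irreducible g ∧
      ∀ Q ∈ X, Adic Q u g → 0 < δ Q) := ⟨_, fun _ => Iff.rfl⟩
  obtain ⟨M1, l', ρ, x', u', fb⟩ := exists_fb hnL gs B
  obtain ⟨μ, c, hc, hbas⟩ := full_basis hnL gs fb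
  -- the dimensions
  have hFe : Algebra.trdeg F L = e := by
    have h3 := gs.bas.cardinalMk_eq_trdeg
    rw [Cardinal.mk_fin] at h3
    exact h3.symm
  have hne : n = d + e := by
    have h3 := trdeg_add_eq ℂ F (A := L)
    rw [hd, hFe, hnL] at h3
    exact_mod_cast h3.symm
  have hel : e = l' + (ρ + μ) := by
    have h3 := hbas.cardinalMk_eq_trdeg
    rw [hFe, Cardinal.mk_sum, Cardinal.mk_sum, Cardinal.mk_fin, Cardinal.mk_fin, Cardinal.mk_fin,
      Cardinal.lift_natCast, Cardinal.lift_natCast, Cardinal.lift_natCast, ← Nat.cast_add,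
      Cardinal.lift_natCast, ← Nat.cast_add] at h3
    exact_mod_cast h3.symm
  -- the upper bound
  obtain ⟨E, hE, hEM, hEu⟩ := exists_adapted hnL gs.closed gs.ind gs.top
  have hup : ∀ A, Effective y A → ∃ C : ℕ, ∀ m : ℕ, 1 ≤ m → ∀ (r : ℕ) (f : Fin r → K),
      LinearIndependent ℂ f → (∀ i, ∃ ω, IsSection y n m (m • Δ + A) ω ∧ ω Ec = f i) →
      r ≤ C * m ^ (d + (ρ + μ)) := by
    intro A hA
    refine upper_cov (L := L) hy hn hΔ hLC gs.ind gs.top fb (fun g hg hBg => ?_) hE hEM hEu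
      (by omega) hyc hEc hA
    rw [hB] at hBg
    push Not at hBg
    obtain ⟨Q, hQ, hQg, hQδ⟩ := hBg hg
    refine ⟨bel K Q, Q, ram K Q, hQ, over_bel K Q, hQg, ?_⟩
    by_cases hf : Good (bel K Q)
    · rw [hδfree Q hf] at hQδ
      exact_mod_cast hQδ
    · rw [hδbad Q hf] at hQδ
      linarith
  let δ₁ : Place ℂ L → ℝ := fun Q => if ∀ f ∈ F, f ≠ 0 → Q.ord f = 0 then 0 else δ Q
  let δ₂ : Place ℂ L → ℝ := fun Q => if ∀ f ∈ F, f ≠ 0 → Q.ord f = 0 then δ Q else 0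
  have hδ₁h : ∀ Q : Place ℂ L, (∀ f ∈ F, f ≠ 0 → Q.ord f = 0) → δ₁ Q = 0 := fun Q h => if_pos h
  have hδ₁v : ∀ Q : Place ℂ L, (¬ ∀ f ∈ F, f ≠ 0 → Q.ord f = 0) → δ₁ Q = δ Q :=
    fun Q h => if_neg h
  have hδ₂h : ∀ Q : Place ℂ L, (∀ f ∈ F, f ≠ 0 → Q.ord f = 0) → δ₂ Q = δ Q := fun Q h => if_pos h
  have hδ₂v : ∀ Q : Place ℂ L, (¬ ∀ f ∈ F, f ≠ 0 → Q.ord f = 0) → δ₂ Q = 0 :=
    fun Q h => if_neg h
  -- the lower bound
  obtain ⟨m, hm, θ, hθ1, hθ2, hθ3, hθ4⟩ := lower gs fb (X := X) (δ := δ₂)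
    (by
      intro Q hQ
      by_cases hv : ∀ f ∈ F, f ≠ 0 → Q.ord f = 0
      · rw [hδ₂h Q hv]
        exact hδ0 Q hQ
      · rw [hδ₂v Q hv])
    (by
      rintro Q hQ ⟨hQF, hQt⟩
      rw [hδ₂h Q hQF]
      by_cases hf : Good (bel K Q)
      · rw [hδfree Q hf]
        have h1 := hb _ hQ hf Q _ (over_bel K Q) hQF hQt
        have h2 : (1 : ℝ) ≤ (Δ (bel K Q) : ℝ) := by exact_mod_cast h1
        have h3 : (0 : ℝ) ≤ ram K Q := Nat.cast_nonneg _
        nlinarith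
      · rw [hδbad Q hf]
        exact hc01)
    (by
      intro g hg
      rw [hB] at hg
      refine ⟨hg.1, fun Q hQ hQg => ?_⟩
      rw [hδ₂h Q fun f hf hf0 => hQg.triv f (gs.le hf) hf0]
      exact hg.2 Q hQ hQg)
    (fun f hf => finite_ord_up hy hf) hc (by
      have h3 := hbas.1.comp (Sum.inr : Fin ρ ⊕ Fin μ → Fin l' ⊕ (Fin ρ ⊕ Fin μ))
        Sum.inr_injective
      exact h3)
  -- the forms on the cover
  subst hne
  have hGD : ∀ i, ((liftD (D i) F (gs.dk i)).restrictScalars ℂ) = D i := by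
    intro i
    ext f
    rfl
  obtain ⟨w, hw⟩ : ∃ w : Fin (d₀ + 1) → L, ∀ i, w i = φ i / φ 0 := ⟨_, fun _ => rfl⟩
  have hw0 : w 0 = 1 := by rw [hw, div_self hφ0]
  obtain ⟨ω, hω, G0, hG0, hG0i⟩ := hFr.pairs (L := F)
    (fun f hf i => hkF (Du i) (fun j => hFr.ut i j) f hf) hxF
    (X := X) (δ₁ := δ₁) (δ₂ := δ₂) (δ := δ)
    (by
      intro Q _
      by_cases hv : ∀ f ∈ F, f ≠ 0 → Q.ord f = 0
      · rw [hδ₁h Q hv, hδ₂h Q hv, zero_add]
      · rw [hδ₁v Q hv, hδ₂v Q hv, add_zero])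
    hm (θ := fun b G => θ b fun i => (G i).restrictScalars ℂ)
    (fun b => pluri_restrict (hθ1 b) _)
    (by
      intro Q hQ _ G hG b
      exact hθ2 b Q hQ _ (fun i f hf => (G i).map_algebraMap (⟨f, hf⟩ : F))
        (fun i f hf => hG i f hf))
    (by
      refine ⟨fun i => liftD (D i) F (gs.dk i), ?_, ?_⟩
      · simp only [hGD]
        exact hθ3
      · simp only [hGD]
        exact hθ4)
    hM hφ0 (w := w) hw0
    (by
      have : (fun i : Fin d₀ => w i.succ) = fun i : Fin d₀ => φ i.succ / φ 0 :=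
        funext fun i => hw _
      rw [this]
      exact hφ)
    (fun i => by
      rw [hw]
      exact div_mem (hφF i) (hφF 0))
    (by
      intro Q hQ _ G hG i
      have e1 : φ 0 * w i = φ i := by
        rw [hw]
        field_simp
      rw [e1]
      by_cases hv : ∀ f ∈ F, f ≠ 0 → Q.ord f = 0
      · refine ⟨0, ?_, ?_⟩
        · have h1 : Ge Q 0 (mtx x G).det :=
            ge_det Q _ _ (fun _ _ => 0)
              (fun a b => hG a _ (Or.inr (hv _ (hxF b) (hx0 b)).ge)) fun σ => by simp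
          have h2 := (h1.pow M).mul (ge_ord Q (φ i))
          rw [hv _ (hφF i) (hφne i), mul_zero, add_zero] at h2
          exact h2
        · rw [hδ₁h Q hv]
          simp
      · rw [hδ₁v Q hv]
        by_cases hf : Good (bel K Q)
        · have h1 := hbase _ hQ hf Q _ (over_bel K Q) hv i G hG
          have e2 : φ i * (Matrix.of fun j l => G j (x l)).det ^ M = (mtx x G).det ^ M * φ i :=
            mul_comm _ _
          rw [e2] at h1
          rcases h1 with h1 | h1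
          · refine ⟨0, Or.inl h1, ?_⟩
            have h2 := hδ0 Q hQ
            have h3 : (0 : ℝ) ≤ M := Nat.cast_nonneg _
            push_cast
            nlinarith
          · refine ⟨_, ge_ord Q _, ?_⟩
            rw [hδfree Q hf]
            exact_mod_cast h1
        · refine ⟨_, hsz Q hQ i G hG, ?_⟩
          rw [hδbad Q hf]
          push_cast
          have h3 : (1 : ℝ) ≤ M := by exact_mod_cast hM
          have h4 : (0 : ℝ) ≤ c0 := Nat.cast_nonneg _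
          nlinarith)
  -- the sections
  have hone : IsSection y (d + e) 0 (0 • Δ)
      (fun _ : Fin (d + e) → Derivation ℂ K K => (1 : K)) := by
    rw [zero_smul]
    exact isSection_one
  obtain ⟨m0, hm0, Ω, hΩ, hΩP, E', hE'0, hE'⟩ := descendG (K := K) (L := L) hy hn hΔ hone
    (fun h => one_ne_zero (congrFun h fun _ => 0))
    (c0 := c0) (Good := Good) (fun P _ => by
      refine ⟨fun E _ => Or.inr ?_, fun _ => 0, fun i f _ => P.reg_zero, one_ne_zero, ?_⟩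
      · rw [P.ord_one]
        simp
      · rw [P.ord_one]
        simp) (m1 := M * m) (Nat.mul_pos hM hm)
    (fun j => (hω j).1) (by
      intro Q hQ j G hG
      have h1 := (hω j).2 Q hQ (divisorial_up (over_bel K Q) (hQ.divisorial hy hn)) G hG
      rw [hδdef] at h1
      exact h1) hG0 hG0i
  refine ⟨ρ + μ, hup, m0, hm0, Ω, hΩ, fun j P hP hPG => hΩP j P hP fun _ => hPG, E', hE'0, hE'⟩

end

end Pool.Agent.Y172
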