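import Pool.Agent.Y172.Nil2
import Pool.Agent.Y172.Lim

/-!
Abundance for `K_X + Δ - t Γ`, `0 ≤ t < 1`, if `K_X + Δ - Γ` is pseudo-effective.
-/

set_option autoImplicit false
set_option linter.overlappingInstances false
set_option linter.unusedSectionVars false

open FF Pool.Agent.W602.GT Pool.Agent.W603.LV

namespace Pool.Agent.Y172

section

variable {K : Type} [Field K] [Algebra ℂ K] {N : ℕ} {y : Fin (N + 1) → K} {n : ℕ}

/-- **The Kodaira dimension and the numerical dimension.** -/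
theorem dims3 {k : ℕ} {Δ : Place ℂ K → ℚ}
    (hΔ : {P | IsPrimeDivisor y P ∧ Δ P ≠ 0}.Finite)
    {D : Fin n → Derivation ℂ K K} (hD : IsFrame D)
    (hup : ∀ A, Effective y A → ∃ C : ℕ, ∀ m : ℕ, 1 ≤ m → ∀ (r : ℕ) (f : Fin r → K),
      LinearIndependent ℂ f → (∀ i, ∃ ω, IsSection y n m (m • Δ + A) ω ∧ ω D = f i) →
      r ≤ C * m ^ k)
    {m0 : ℕ} (hm0 : 1 ≤ m0) {ω : Fin (k + 1) → (Fin n → Derivation ℂ K K) → K}
    (hω : ∀ j, IsSection y n m0 (m0 • Δ) (ω j)) {E : Fin n → Derivation ℂ K K}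
    (hE : ω 0 E ≠ 0) (hind : AlgebraicIndependent ℂ (fun i : Fin k => ω i.succ E / ω 0 E)) :
    kodairaDim y n Δ = (k : WithBot ℕ) ∧
      ∀ A, Effective y A → Integral y A → numericalDim y n Δ A = (k : EReal) := by
  classical
  -- a common denominator
  obtain ⟨d0, hd0, hint⟩ : ∃ d0 : ℕ, 1 ≤ d0 ∧ ∀ t : ℕ, Integral y ((t * d0) • Δ) := by
    let S := hΔ.toFinset
    refine ⟨∏ P ∈ S, (Δ P).den, Nat.pos_of_ne_zero (Finset.prod_ne_zero_iff.2 fun P _ =>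
      (Δ P).den_ne_zero), fun t P hP => ?_⟩
    by_cases h0 : Δ P = 0
    · exact ⟨0, by simp [h0]⟩
    have hPS : P ∈ S := by
      rw [Set.Finite.mem_toFinset]
      exact ⟨hP, h0⟩
    refine ⟨t * (∏ Q ∈ S.erase P, (Δ Q).den : ℕ) * (Δ P).num, ?_⟩
    rw [← Finset.prod_erase_mul _ _ hPS]
    have h1 : ((Δ P).den : ℚ) * Δ P = (Δ P).num := by
      rw [mul_comm]
      exact Rat.mul_den_eq_num (Δ P)
    simp only [Pi.smul_apply, nsmul_eq_mul]
    push_cast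
    rw [← h1]
    ring
  have hzero : Effective y (0 : Place ℂ K → ℚ) :=
    ⟨fun _ _ => le_rfl, Set.finite_empty.subset (by rintro P ⟨-, h⟩; exact h rfl)⟩
  -- the lower bound
  obtain ⟨M, hM⟩ : ∃ M : ℕ, M = (k + 1) * d0 * m0 := ⟨_, rfl⟩
  have hM1 : 1 ≤ M := by
    rw [hM]
    exact Nat.mul_pos (Nat.mul_pos (Nat.succ_pos k) hd0) hm0
  have hlow : ∀ A, Effective y A → ∀ t : ℕ, 1 ≤ t →
      t ^ k ≤ h0 y n (t * M) ((t * M) • Δ + A) := by
    intro A hA t ht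
    obtain ⟨C, hC⟩ := hup A hA
    have htM : 1 ≤ t * M := Nat.mul_pos ht hM1
    obtain ⟨hfin, -⟩ := finite_h0 hD (hC (t * M) htM)
    let T := (k + 1) * d0 * t
    let b : (Fin k → Fin (t + 1)) → Fin (k + 1) → ℕ := fun a =>
      Fin.cons (T - ∑ i, (a i : ℕ)) fun i => (a i : ℕ)
    have hle : ∀ a : Fin k → Fin (t + 1), ∑ i, (a i : ℕ) ≤ T := by
      intro a
      have h1 : ∑ i, (a i : ℕ) ≤ ∑ _i : Fin k, t :=
        Finset.sum_le_sum fun i _ => Nat.lt_succ_iff.1 (a i).2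
      rw [Finset.sum_const, Finset.card_univ, Fintype.card_fin, smul_eq_mul] at h1
      refine h1.trans ?_
      have h2 : k * t ≤ (k + 1) * d0 * t :=
        Nat.mul_le_mul_right _ ((Nat.le_succ k).trans (Nat.le_mul_of_pos_right _ hd0))
      exact h2
    have hsum : ∀ a, ∑ i, b a i = T := by
      intro a
      rw [Fin.sum_univ_succ]
      simp only [b, Fin.cons_zero, Fin.cons_succ]
      exact Nat.sub_add_cancel (hle a)
    let v : (Fin k → Fin (t + 1)) → (Fin n → Derivation ℂ K K) → K := fun a E =>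
      ∏ i, ω i E ^ b a i
    have hv : ∀ a, IsSection y n (t * M) ((t * M) • Δ + A) (v a) := by
      intro a
      have h1 := isSection_prod hω (b a)
      rw [hsum] at h1
      have e1 : T * m0 = t * M := by
        rw [hM]
        ring
      rw [e1, smul_smul, e1] at h1
      refine ⟨h1.1, fun P hP => (h1.2 P hP).mono ?_⟩
      have := hA.1 P hP
      simp only [Pi.add_apply]
      linarith
    have hvE : ∀ a, v a E = ω 0 E ^ T * ∏ i : Fin k, (ω i.succ E / ω 0 E) ^ (a i : ℕ) := by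
      intro a
      change ∏ i, ω i E ^ b a i = _
      rw [Fin.prod_univ_succ]
      simp only [b, Fin.cons_zero, Fin.cons_succ, div_pow, Finset.prod_div_distrib]
      have h1 : ω 0 E ^ T = ω 0 E ^ (T - ∑ i, (a i : ℕ)) * ∏ i, ω 0 E ^ (a i : ℕ) := by
        rw [Finset.prod_pow_eq_pow_sum, ← pow_add, Nat.sub_add_cancel (hle a)]
      rw [h1]
      have h2 : ∏ i, ω 0 E ^ (a i : ℕ) ≠ 0 := Finset.prod_ne_zero_iff.2 fun i _ => pow_ne_zero _ hE
      field_simp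
    have hvind : LinearIndependent ℂ v := by
      have h1 : LinearIndependent ℂ fun a : Fin k → Fin (t + 1) =>
          ∏ i : Fin k, (ω i.succ E / ω 0 E) ^ (a i : ℕ) :=
        (mono_indep hind).comp (fun (a : Fin k → Fin (t + 1)) i => (a i : ℕ)) (by
          intro a a' h
          funext i
          exact Fin.ext (congrFun h i))
      have h2 : LinearIndependent ℂ fun a => v a E := by
        have h3 := h1.map' (LinearMap.mulLeft ℂ (ω 0 E ^ T)) (by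
          rw [LinearMap.ker_eq_bot]
          exact fun a b hab => mul_left_cancel₀ (pow_ne_zero _ hE) hab)
        have h4 : (fun a => v a E) = (LinearMap.mulLeft ℂ (ω 0 E ^ T)) ∘
            fun a : Fin k → Fin (t + 1) => ∏ i : Fin k, (ω i.succ E / ω 0 E) ^ (a i : ℕ) := by
          funext a
          exact hvE a
        rw [h4]
        exact h3
      exact LinearIndependent.of_comp (LinearMap.proj E) h2
    have h1 := le_h0 hfin hvind hv
    rw [Fintype.card_fun, Fintype.card_fin, Fintype.card_fin] at h1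
    exact (Nat.pow_le_pow_left (Nat.le_succ t) k).trans h1
  have hint' : ∀ A, Integral y A → ∀ t : ℕ, Integral y ((t * M) • Δ + A) := by
    intro A hA t P hP
    obtain ⟨z, hz⟩ := hint (t * (k + 1) * m0) P hP
    obtain ⟨z', hz'⟩ := hA P hP
    refine ⟨z + z', ?_⟩
    have e1 : t * M = t * (k + 1) * m0 * d0 := by
      rw [hM]
      ring
    rw [Pi.add_apply, hz', e1, hz]
    push_cast
    ring
  have hzint : Integral y (0 : Place ℂ K → ℚ) := fun P _ => ⟨0, by simp⟩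
  constructor
  · obtain ⟨C, hC⟩ := hup 0 hzero
    have hlow0 := hlow 0 hzero
    have hint0 := hint' 0 hzint
    simp only [add_zero] at hlow0 hint0 hC
    unfold kodairaDim
    rw [if_neg]
    · congr 1
      exact kappa_eq (I := {m : ℕ | 1 ≤ m ∧ Integral y (m • Δ)})
        (h := fun m => h0 y n m (m • Δ)) (C := C) hM1
        (fun t ht => ⟨Nat.mul_pos ht hM1, hint0 t⟩) hlow0
        fun m _ hm => (finite_h0 hD (hC m hm)).2
    · intro hcon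
      have h1 := hcon (1 * M) (by omega) (hint0 1)
      have h2 := hlow0 1 le_rfl
      rw [h1, one_pow] at h2
      omega
  · intro A hA hAint
    obtain ⟨C, hC⟩ := hup A hA
    exact nu_eq (I := {m : ℕ | 1 ≤ m ∧ Integral y (m • Δ + A)})
      (h := fun m => h0 y n m (m • Δ + A)) (C := C) hM1
      (fun t ht => ⟨Nat.mul_pos ht hM1, hint' A hAint t⟩) (hlow A hA)
      fun m _ hm => (finite_h0 hD (hC m hm)).2


variable {Δ Γ A : Place ℂ K → ℚ}

/-- the poles along `Γ` are bounded by a multiple of `Γ` -/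
theorem exists_mult {k m0 : ℕ} (hy : NormalModel y) (hn : Algebra.trdeg ℂ K = n)
    (hΓ : Effective y Γ) {Ω : Fin (k + 1) → (Fin n → Derivation ℂ K K) → K}
    (hΩ : ∀ j, IsPluri m0 (Ω j))
    (h : ∀ j P, IsPrimeDivisor y P → Γ P = 0 → OrdGe P (Ω j) (-(m0 * Δ P))) :
    ∃ c : ℕ, 1 ≤ c ∧ ∀ j, IsSection y n m0 (m0 • Δ + c • Γ) (Ω j) := by
  classical
  have hess := hy.ess
  have hloc : ∀ P, IsPrimeDivisor y P → ∃ (yP : Fin n → K) (EP : Fin n → Derivation ℂ K K)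
      (i0 : Fin n), Loc P yP EP i0 := fun P hP => exists_loc hn (hP.divisorial hy hn)
  choose! yP EP iP hl using hloc
  obtain ⟨T, hT⟩ : ∃ T : Finset (Place ℂ K), ∀ P, P ∈ T ↔ (IsPrimeDivisor y P ∧ Γ P ≠ 0) :=
    ⟨hΓ.2.toFinset, fun P => by
      rw [Set.Finite.mem_toFinset]
      rfl⟩
  let u : Fin (k + 1) → Place ℂ K → ℚ := fun j P => (-(m0 * Δ P) - P.ord (Ω j (EP P))) / Γ P
  obtain ⟨c, hc⟩ : ∃ c : ℕ, c = 1 + ∑ P ∈ T, ∑ j, ⌈u j P⌉₊ := ⟨_, rfl⟩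
  refine ⟨c, by omega, fun j => ⟨hΩ j, fun P hP => ?_⟩⟩
  have e1 : ((m0 • Δ + c • Γ) P : ℚ) = m0 * Δ P + c * Γ P := by
    simp only [Pi.add_apply, Pi.smul_apply]
    simp only [nsmul_eq_mul]
  rw [e1]
  by_cases hPT : P ∈ T
  · have hΓ0 : 0 < Γ P := lt_of_le_of_ne (hΓ.1 P hP) (Ne.symm ((hT P).1 hPT).2)
    rw [ordGe_iff (hl P hP) (hΩ j)]
    right
    have h1 : ⌈u j P⌉₊ ≤ c := by
      have h2 : ⌈u j P⌉₊ ≤ ∑ j, ⌈u j P⌉₊ :=
        Finset.single_le_sum (f := fun j => ⌈u j P⌉₊) (fun _ _ => Nat.zero_le _)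
          (Finset.mem_univ j)
      have h3 : ∑ j, ⌈u j P⌉₊ ≤ ∑ P ∈ T, ∑ j, ⌈u j P⌉₊ :=
        Finset.single_le_sum (f := fun P => ∑ j, ⌈u j P⌉₊) (fun _ _ => Nat.zero_le _) hPT
      omega
    have h4 : u j P ≤ c := (Nat.le_ceil _).trans (by exact_mod_cast h1)
    change (-(m0 * Δ P) - P.ord (Ω j (EP P))) / Γ P ≤ c at h4
    rw [div_le_iff₀ hΓ0] at h4
    linarith
  · have hΓ0 : Γ P = 0 := by
      by_contra hcon
      exact hPT ((hT P).2 ⟨hP, hcon⟩)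
    rw [hΓ0, mul_zero, add_zero]
    exact h j P hP hΓ0

/-- a number below one which bounds finitely many numbers below one -/
theorem exists_lt_one (T : Finset (Place ℂ K)) (u : Place ℂ K → ℚ) (h : ∀ P ∈ T, u P < 1) :
    ∃ t : ℚ, t < 1 ∧ ∀ P ∈ T, u P ≤ t := by
  classical
  induction T using Finset.induction_on with
  | empty => exact ⟨0, one_pos, by simp⟩
  | insert P T _ ih =>
    obtain ⟨t, h1, h2⟩ := ih fun Q hQ => h Q (Finset.mem_insert_of_mem hQ)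
    refine ⟨max t (u P), max_lt h1 (h P (Finset.mem_insert_self _ _)), fun Q hQ => ?_⟩
    rcases Finset.mem_insert.1 hQ with rfl | hQ'
    · exact le_max_right _ _
    · exact (h2 Q hQ').trans (le_max_left _ _)

/-- the sections near `Γ` -/
theorem transfer_prep {k m0 : ℕ} (hy : NormalModel y) (hn : Algebra.trdeg ℂ K = n)
    {yc : Fin n → K} {Ec : Fin n → Derivation ℂ K K}
    (hyc : IsTranscendenceBasis ℂ yc) (hEc : ∀ i j, Ec i (yc j) = if i = j then 1 else 0)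
    (hΔ : {P | IsPrimeDivisor y P ∧ Δ P ≠ 0}.Finite) (hΓ : Effective y Γ) (hA : Effective y A)
    (hps : ∀ m1 : ℕ, ∃ m : ℕ, m1 ≤ m ∧ ∃ s, IsSection y n m (m • (Δ - Γ) + A) s ∧ s ≠ 0)
    (hup : ∀ A, Effective y A → ∃ C : ℕ, ∀ m : ℕ, 1 ≤ m → ∀ (r : ℕ) (f : Fin r → K),
      LinearIndependent ℂ f → (∀ i, ∃ ω, IsSection y n m (m • Δ + A) ω ∧ ω Ec = f i) →
      r ≤ C * m ^ k)
    (hm0 : 1 ≤ m0) {Ω : Fin (k + 1) → (Fin n → Derivation ℂ K K) → K}
    (hΩp : ∀ j, IsPluri m0 (Ω j))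
    (hΩ : ∀ j P, IsPrimeDivisor y P → Γ P = 0 → OrdGe P (Ω j) (-(m0 * Δ P)))
    {E : Fin n → Derivation ℂ K K} (h0E : Ω 0 E ≠ 0)
    (hindE : AlgebraicIndependent ℂ (fun i : Fin k => Ω i.succ E / Ω 0 E)) :
    ∃ c : ℕ, 1 ≤ c ∧ (∀ j, IsSection y n m0 (m0 • Δ + c • Γ) (Ω j)) ∧ Ω 0 Ec ≠ 0 ∧
      AlgebraicIndependent ℂ (fun i : Fin k => Ω i.succ Ec / Ω 0 Ec) ∧
      ∀ t : ℚ, t < 1 → ∃ a : ℕ, 1 ≤ a ∧ ∃ σ, IsSection y n a (a • (Δ - t • Γ)) σ ∧ σ Ec ≠ 0 := by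
  classical
  obtain ⟨c, hc, hΩs⟩ := exists_mult (Δ := Δ) hy hn hΓ hΩp hΩ
  -- the frame
  have hdet : ∀ j, Ω j E = (Matrix.of fun i j => E i (yc j) : Matrix (Fin n) (Fin n) K).det ^ m0 *
      Ω j Ec := fun j => pluri_coord hyc hEc (hΩp j) E
  have hd0 : (Matrix.of fun i j => E i (yc j) : Matrix (Fin n) (Fin n) K).det ^ m0 ≠ 0 := by
    intro h
    apply h0E
    rw [hdet, h, zero_mul]
  have h0 : Ω 0 Ec ≠ 0 := by
    intro h
    apply h0E
    rw [hdet, h, mul_zero]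
  have hind : AlgebraicIndependent ℂ (fun i : Fin k => Ω i.succ Ec / Ω 0 Ec) := by
    have e : (fun i : Fin k => Ω i.succ Ec / Ω 0 Ec) = fun i : Fin k => Ω i.succ E / Ω 0 E := by
      funext i
      rw [hdet, hdet, mul_div_mul_left _ _ hd0]
    rw [e]
    exact hindE
  have hne0 : ∀ {m : ℕ} {s : (Fin n → Derivation ℂ K K) → K}, IsPluri m s → s ≠ 0 → s Ec ≠ 0 := by
    intro m s hs hs0 h
    apply hs0
    funext G
    rw [pluri_coord hyc hEc hs G, h, mul_zero]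
    rfl
  have hmA : Effective y (m0 • A) := by
    refine ⟨fun P hP => ?_, hA.2.subset ?_⟩
    · rw [Pi.smul_apply]
      exact nsmul_nonneg (hA.1 P hP) _
    · rintro P ⟨h1, h2⟩
      refine ⟨h1, fun h3 => h2 ?_⟩
      rw [Pi.smul_apply, h3, smul_zero]
  have hps' : ∀ m1 : ℕ, ∃ m : ℕ, m1 ≤ m ∧
      ∃ s, IsSection y n (m * m0) ((m * m0) • (Δ - Γ) + m0 • A) s ∧ s Ec ≠ 0 := by
    intro m1
    obtain ⟨m, hm, s, hs, hs0⟩ := hps m1
    refine ⟨m, hm, fun E => s E ^ m0, ?_, pow_ne_zero _ (hne0 hs.1 hs0)⟩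
    refine (hs.pow m0).of_le (mul_comm _ _) fun P _ => le_of_eq ?_
    simp only [Pi.add_apply, Pi.smul_apply, Pi.sub_apply]
    simp only [nsmul_eq_mul]
    push_cast
    ring
  exact ⟨c, hc, hΩs, h0, hind, fun t ht =>
    exists_vanish hy hn hyc hEc hΔ hΓ hmA hps' hup hm0 hc hΩs h0 hind ht⟩

/-- **Transfer.** -/
theorem transfer {k m0 : ℕ} (hy : NormalModel y) (hn : Algebra.trdeg ℂ K = n)
    {yc : Fin n → K} {Ec : Fin n → Derivation ℂ K K}
    (hyc : IsTranscendenceBasis ℂ yc) (hEc : ∀ i j, Ec i (yc j) = if i = j then 1 else 0)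
    (hΔ : {P | IsPrimeDivisor y P ∧ Δ P ≠ 0}.Finite) (hΓ : Effective y Γ) (hA : Effective y A)
    (hps : ∀ m1 : ℕ, ∃ m : ℕ, m1 ≤ m ∧ ∃ s, IsSection y n m (m • (Δ - Γ) + A) s ∧ s ≠ 0)
    (hup : ∀ A, Effective y A → ∃ C : ℕ, ∀ m : ℕ, 1 ≤ m → ∀ (r : ℕ) (f : Fin r → K),
      LinearIndependent ℂ f → (∀ i, ∃ ω, IsSection y n m (m • Δ + A) ω ∧ ω Ec = f i) →
      r ≤ C * m ^ k)
    (hm0 : 1 ≤ m0) {Ω : Fin (k + 1) → (Fin n → Derivation ℂ K K) → K}
    (hΩp : ∀ j, IsPluri m0 (Ω j))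
    (hΩ : ∀ j P, IsPrimeDivisor y P → Γ P = 0 → OrdGe P (Ω j) (-(m0 * Δ P)))
    {E : Fin n → Derivation ℂ K K} (h0E : Ω 0 E ≠ 0)
    (hindE : AlgebraicIndependent ℂ (fun i : Fin k => Ω i.succ E / Ω 0 E))
    {Δ' : Place ℂ K → ℚ} (hΔ1 : ∀ P, IsPrimeDivisor y P → Γ P = 0 → Δ' P = Δ P)
    (hΔ2 : ∀ P, IsPrimeDivisor y P → Γ P ≠ 0 → Δ P - Γ P < Δ' P) :
    (∃ a : ℕ, 1 ≤ a ∧ ∃ σ, IsSection y n a (a • Δ') σ ∧ σ ≠ 0) ∧
      kodairaDim y n Δ' = (k : WithBot ℕ) ∧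
        ∀ A, Effective y A → Integral y A → numericalDim y n Δ' A = (k : EReal) := by
  classical
  obtain ⟨c, hc, hΩs, h0, hind, hvan⟩ := transfer_prep hy hn hyc hEc hΔ hΓ hA hps hup hm0 hΩp hΩ
    h0E hindE
  have hEfr : IsFrame Ec := fun G =>
    ⟨fun j => G (yc j), (Pool.Agent.W73.PG.PULL.expand yc hyc Ec hEc G).symm⟩
  -- the bounds
  obtain ⟨T, hT⟩ : ∃ T : Finset (Place ℂ K), ∀ P, P ∈ T ↔ (IsPrimeDivisor y P ∧ Γ P ≠ 0) :=
    ⟨hΓ.2.toFinset, fun P => by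
      rw [Set.Finite.mem_toFinset]
      rfl⟩
  have hTpos : ∀ P ∈ T, 0 < Γ P := fun P hP =>
    lt_of_le_of_ne (hΓ.1 P ((hT P).1 hP).1) (Ne.symm ((hT P).1 hP).2)
  obtain ⟨t, ht1, htP⟩ := exists_lt_one T (fun P => (Δ P - Δ' P) / Γ P) (fun P hP => by
    rw [div_lt_one (hTpos P hP)]
    have := hΔ2 P ((hT P).1 hP).1 ((hT P).1 hP).2
    linarith)
  have hlow : ∀ P, IsPrimeDivisor y P → Δ P - t * Γ P ≤ Δ' P := by
    intro P hP
    by_cases hPT : P ∈ T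
    · have h1 := htP P hPT
      rw [div_le_iff₀ (hTpos P hPT)] at h1
      linarith
    · have hΓ0 : Γ P = 0 := by
        by_contra hcon
        exact hPT ((hT P).2 ⟨hP, hcon⟩)
      rw [hΔ1 P hP hΓ0, hΓ0]
      linarith
  obtain ⟨u, hu⟩ : ∃ u : ℕ, ∀ P, IsPrimeDivisor y P → Δ' P ≤ Δ P + u * Γ P := by
    refine ⟨∑ P ∈ T, ⌈(Δ' P - Δ P) / Γ P⌉₊, fun P hP => ?_⟩
    by_cases hPT : P ∈ T
    · have h1 : ⌈(Δ' P - Δ P) / Γ P⌉₊ ≤ ∑ P ∈ T, ⌈(Δ' P - Δ P) / Γ P⌉₊ :=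
        Finset.single_le_sum (f := fun P => ⌈(Δ' P - Δ P) / Γ P⌉₊) (fun _ _ => Nat.zero_le _) hPT
      have h2 : (Δ' P - Δ P) / Γ P ≤ ((∑ P ∈ T, ⌈(Δ' P - Δ P) / Γ P⌉₊ : ℕ) : ℚ) :=
        (Nat.le_ceil _).trans (by exact_mod_cast h1)
      rw [div_le_iff₀ (hTpos P hPT)] at h2
      linarith
    · have hΓ0 : Γ P = 0 := by
        by_contra hcon
        exact hPT ((hT P).2 ⟨hP, hcon⟩)
      rw [hΔ1 P hP hΓ0, hΓ0, mul_zero, add_zero]
  -- sections of a multiple of `K_X + Δ'`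
  obtain ⟨t', htt', ht'1⟩ := exists_between ht1
  obtain ⟨a, ha, σ, hσ, hσ0⟩ := hvan t' ht'1
  obtain ⟨a1, ha1, σ1, hσ1, hσ10⟩ := hvan (1 / 2) (by norm_num)
  have haq : (0 : ℚ) < a := by exact_mod_cast ha
  have ha1q : (1 : ℚ) ≤ a1 := by exact_mod_cast ha1
  obtain ⟨q, hq⟩ := exists_nat_gt ((c + m0 * t) / (a * (t' - t)))
  have ha0 : (0 : ℚ) < a * (t' - t) := mul_pos haq (by linarith)
  have hq' : c + m0 * t ≤ q * (a * (t' - t)) := by
    rw [div_lt_iff₀ ha0] at hq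
    exact hq.le
  have hfinS : {P | IsPrimeDivisor y P ∧ Δ' P ≠ 0}.Finite := by
    refine (hΔ.union hΓ.2).subset ?_
    rintro P ⟨h1, h2⟩
    by_contra hcon
    simp only [Set.mem_union, not_or, Set.mem_ofPred_eq, not_and, not_not] at hcon
    apply h2
    rw [hΔ1 P h1 (hcon.2 h1), hcon.1 h1]
  refine ⟨⟨a, ha, σ, hσ.of_le rfl fun P hP => ?_, fun h => hσ0 (by rw [h]; rfl)⟩, ?_⟩
  · have hΓ0 := hΓ.1 P hP
    have h1 := hlow P hP
    have h2 : t * Γ P ≤ t' * Γ P := mul_le_mul_of_nonneg_right htt'.le hΓ0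
    simp only [Pi.smul_apply, Pi.sub_apply]
    simp only [nsmul_eq_mul, smul_eq_mul]
    exact mul_le_mul_of_nonneg_left (by linarith) haq.le
  refine dims3 (k := k) (Δ := Δ') hfinS hEfr (fun A' hA' => ?_) (m0 := m0 + q * a)
    (by omega) (ω := fun j E => Ω j E * σ E ^ q) (fun j => ?_) (E := Ec)
    (mul_ne_zero h0 (pow_ne_zero _ hσ0)) ?_
  · obtain ⟨C, hC⟩ := hup A' hA'
    refine ⟨C * (1 + 2 * u * a1) ^ k, fun m hm r f hf hω => ?_⟩
    have hmul : LinearIndependent ℂ fun i => σ1 Ec ^ (2 * u * m) * f i :=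
      hf.map' (LinearMap.mulLeft ℂ (σ1 Ec ^ (2 * u * m))) (by
        rw [LinearMap.ker_eq_bot]
        exact fun a b hab => mul_left_cancel₀ (pow_ne_zero _ hσ10) hab)
    have h1 := hC (m + 2 * u * m * a1) (by omega) r _ hmul fun i => by
      obtain ⟨ω, hω1, hω2⟩ := hω i
      refine ⟨fun E => ω E * σ1 E ^ (2 * u * m), ?_, by
        change ω Ec * σ1 Ec ^ (2 * u * m) = _
        rw [hω2, mul_comm]⟩
      refine (hω1.mul (hσ1.pow (2 * u * m))).of_le rfl fun P hP => ?_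
      have hΓ0 := hΓ.1 P hP
      have h2 := hu P hP
      simp only [Pi.add_apply, Pi.smul_apply, Pi.sub_apply]
      simp only [nsmul_eq_mul, smul_eq_mul]
      push_cast
      have h3 : (0 : ℚ) ≤ m := Nat.cast_nonneg _
      have h4 := mul_le_mul_of_nonneg_left h2 h3
      have h5 : (0 : ℚ) ≤ (a1 - 1) * (u * m * Γ P) := mul_nonneg (by linarith) (by positivity)
      nlinarith
    have h6 : m + 2 * u * m * a1 = (1 + 2 * u * a1) * m := by ring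
    rw [h6, mul_pow] at h1
    calc r ≤ _ := h1
      _ = _ := by ring
  · refine ((hΩs j).mul (hσ.pow q)).of_le rfl fun P hP => ?_
    have hΓ0 := hΓ.1 P hP
    simp only [Pi.add_apply, Pi.smul_apply, Pi.sub_apply]
    simp only [nsmul_eq_mul, smul_eq_mul]
    push_cast
    have h1 := mul_le_mul_of_nonneg_right hq' hΓ0
    have h2 := hlow P hP
    have h3 : (0 : ℚ) ≤ m0 + q * a := by positivity
    have h4 := mul_le_mul_of_nonneg_left h2 h3
    nlinarith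
  · have e : (fun i : Fin k => Ω i.succ Ec * σ Ec ^ q / (Ω 0 Ec * σ Ec ^ q)) =
        fun i : Fin k => Ω i.succ Ec / Ω 0 Ec := by
      funext i
      rw [mul_div_mul_right _ _ (pow_ne_zero _ hσ0)]
    rw [e]
    exact hind

open scoped Classical in
/-- The Iitaka dimension of the divisor `D` (the sections of `0 K_X + m D` are the rational functions
`f` with `div f + m D ≥ 0`). -/
noncomputable def iitakaDim (y : Fin (N + 1) → K) (n : ℕ) (D : Place ℂ K → ℚ) : WithBot ℕ :=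
  if ∀ m : ℕ, 1 ≤ m → Integral y (m • D) → h0 y n 0 (m • D) = 0 then ⊥ else
    ((sSup {k : ℕ | 0 < Filter.limsup (fun m : ℕ =>
      (h0 y n 0 (m • D) : ENNReal) / (m : ENNReal) ^ k)
      (Filter.atTop ⊓ Filter.principal {m : ℕ | 1 ≤ m ∧ Integral y (m • D)})} : ℕ) : WithBot ℕ)

/-- **The Iitaka dimension of the divisors with support in `Γ`.** -/
theorem transferG {k m0 : ℕ} (hy : NormalModel y) (hn : Algebra.trdeg ℂ K = n)
    {yc : Fin n → K} {Ec : Fin n → Derivation ℂ K K}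
    (hyc : IsTranscendenceBasis ℂ yc) (hEc : ∀ i j, Ec i (yc j) = if i = j then 1 else 0)
    (hΔ : {P | IsPrimeDivisor y P ∧ Δ P ≠ 0}.Finite) (hΓ : Effective y Γ) (hA : Effective y A)
    (hps : ∀ m1 : ℕ, ∃ m : ℕ, m1 ≤ m ∧ ∃ s, IsSection y n m (m • (Δ - Γ) + A) s ∧ s ≠ 0)
    (hup : ∀ A, Effective y A → ∃ C : ℕ, ∀ m : ℕ, 1 ≤ m → ∀ (r : ℕ) (f : Fin r → K),
      LinearIndependent ℂ f → (∀ i, ∃ ω, IsSection y n m (m • Δ + A) ω ∧ ω Ec = f i) →
      r ≤ C * m ^ k)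
    (hm0 : 1 ≤ m0) {Ω : Fin (k + 1) → (Fin n → Derivation ℂ K K) → K}
    (hΩp : ∀ j, IsPluri m0 (Ω j))
    (hΩ : ∀ j P, IsPrimeDivisor y P → Γ P = 0 → OrdGe P (Ω j) (-(m0 * Δ P)))
    {E : Fin n → Derivation ℂ K K} (h0E : Ω 0 E ≠ 0)
    (hindE : AlgebraicIndependent ℂ (fun i : Fin k => Ω i.succ E / Ω 0 E))
    {G : Place ℂ K → ℚ} (hGΓ : ∀ P, IsPrimeDivisor y P → Γ P = 0 → G P ≤ 0) :
    iitakaDim y n G ≤ (k : WithBot ℕ) := by
  classical
  obtain ⟨c, hc, hΩs, -, hind, hvan⟩ := transfer_prep hy hn hyc hEc hΔ hΓ hA hps hup hm0 hΩp hΩ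
    h0E hindE
  have hEfr : IsFrame Ec := fun G =>
    ⟨fun j => G (yc j), (Pool.Agent.W73.PG.PULL.expand yc hyc Ec hEc G).symm⟩
  obtain ⟨T, hT⟩ : ∃ T : Finset (Place ℂ K), ∀ P, P ∈ T ↔ (IsPrimeDivisor y P ∧ Γ P ≠ 0) :=
    ⟨hΓ.2.toFinset, fun P => by
      rw [Set.Finite.mem_toFinset]
      rfl⟩
  have hTpos : ∀ P ∈ T, 0 < Γ P := fun P hP =>
    lt_of_le_of_ne (hΓ.1 P ((hT P).1 hP).1) (Ne.symm ((hT P).1 hP).2)
  obtain ⟨u, hu⟩ : ∃ u : ℕ, ∀ P, IsPrimeDivisor y P → G P ≤ u * Γ P := by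
    refine ⟨∑ P ∈ T, ⌈G P / Γ P⌉₊, fun P hP => ?_⟩
    by_cases hPT : P ∈ T
    · have h1 : ⌈G P / Γ P⌉₊ ≤ ∑ P ∈ T, ⌈G P / Γ P⌉₊ :=
        Finset.single_le_sum (f := fun P => ⌈G P / Γ P⌉₊) (fun _ _ => Nat.zero_le _) hPT
      have h2 : G P / Γ P ≤ ((∑ P ∈ T, ⌈G P / Γ P⌉₊ : ℕ) : ℚ) :=
        (Nat.le_ceil _).trans (by exact_mod_cast h1)
      rw [div_le_iff₀ (hTpos P hPT)] at h2
      linarith
    · have hΓ0 : Γ P = 0 := by
        by_contra hcon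
        exact hPT ((hT P).2 ⟨hP, hcon⟩)
      rw [hΓ0, mul_zero]
      exact hGΓ P hP hΓ0
  obtain ⟨a1, ha1, σ1, hσ1, hσ10⟩ := hvan (1 / 2) (by norm_num)
  have ha1q : (1 : ℚ) ≤ a1 := by exact_mod_cast ha1
  have hzero : Effective y (0 : Place ℂ K → ℚ) :=
    ⟨fun _ _ => le_rfl, Set.finite_empty.subset (by rintro P ⟨-, h⟩; exact h rfl)⟩
  obtain ⟨C, hC⟩ := hup 0 hzero
  have hbd : ∀ m : ℕ, 1 ≤ m → h0 y n 0 (m • G) ≤ (C * ((2 * u + 1) * a1) ^ k) * m ^ k := by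
    intro m hm
    refine (finite_h0 hEfr fun r f hf hω => ?_).2
    have hmul : LinearIndependent ℂ fun i => σ1 Ec ^ ((2 * u + 1) * m) * f i :=
      hf.map' (LinearMap.mulLeft ℂ (σ1 Ec ^ ((2 * u + 1) * m))) (by
        rw [LinearMap.ker_eq_bot]
        exact fun a b hab => mul_left_cancel₀ (pow_ne_zero _ hσ10) hab)
    have h1 := hC ((2 * u + 1) * m * a1) (Nat.mul_pos (Nat.mul_pos (by omega) hm) ha1) r _
      hmul fun i => by
        obtain ⟨ω, hω1, hω2⟩ := hω i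
        refine ⟨fun E => ω E * σ1 E ^ ((2 * u + 1) * m), ?_, by
          change ω Ec * σ1 Ec ^ ((2 * u + 1) * m) = _
          rw [hω2, mul_comm]⟩
        refine (hω1.mul (hσ1.pow ((2 * u + 1) * m))).of_le (by ring) fun P hP => ?_
        have hΓ0 := hΓ.1 P hP
        have h2 := hu P hP
        simp only [Pi.add_apply, Pi.smul_apply, Pi.sub_apply]
        simp only [nsmul_eq_mul, smul_eq_mul]
        change _ ≤ _ + (0 : ℚ)
        push_cast
        have h3 : (0 : ℚ) ≤ m := Nat.cast_nonneg _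
        have h4 := mul_le_mul_of_nonneg_left h2 h3
        have h5 : (0 : ℚ) ≤ (a1 - 1) * (u * m * Γ P) := mul_nonneg (by linarith) (by positivity)
        have h6 : (0 : ℚ) ≤ a1 * m * Γ P := by positivity
        nlinarith
    have h6 : (2 * u + 1) * m * a1 = ((2 * u + 1) * a1) * m := by ring
    rw [h6, mul_pow] at h1
    calc r ≤ _ := h1
      _ = _ := by ring
  unfold iitakaDim
  split_ifs
  · exact bot_le
  · refine WithBot.coe_le_coe.2 (csSup_le' ?_)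
    exact kappa_le (I := {m : ℕ | 1 ≤ m ∧ Integral y (m • G)})
      (h := fun m => h0 y n 0 (m • G)) (C := C * ((2 * u + 1) * a1) ^ k) fun m _ hm => hbd m hm

end

end Pool.Agent.Y172
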