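import Pool.Agent.Y172.Loc3
import Pool.Agent.W603.LV.Ord

/-!
Sections of `m (K_X + Δ) + A`: their coefficients with respect to a fixed frame.
-/

set_option autoImplicit false

open FF Pool.Agent.W602.GT Pool.Agent.W603.LV

namespace Pool.Agent.Y172

section

variable {K : Type} [Field K] [Algebra ℂ K] {N : ℕ} {y : Fin (N + 1) → K}

/-- a derivation maps a coordinate ring into itself after multiplication by a function -/
theorem exists_den (hy : NormalModel y) {j : Fin (N + 1)} (hj : y j ≠ 0) (D : Derivation ℂ K K) :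
    ∃ h ∈ chart y j, h ≠ 0 ∧ ∀ f ∈ chart y j, h * D f ∈ chart y j := by
  classical
  have hfr := hy.frac hj
  have h1 : ∀ i, ∃ b ∈ chart y j, b ≠ 0 ∧ b * D (y i / y j) ∈ chart y j := by
    intro i
    obtain ⟨a, b, hb, hab⟩ := IsFractionRing.div_surjective (chart y j) (D (y i / y j))
    have hb0 : (b : K) ≠ 0 := fun h => nonZeroDivisors.ne_zero hb (Subtype.ext h)
    have hab' : (a : K) / b = D (y i / y j) := hab
    refine ⟨b, b.2, hb0, ?_⟩
    rw [← hab', mul_div_cancel₀ _ hb0]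
    exact a.2
  choose b hb hb0 hbD using h1
  refine ⟨∏ i, b i, (chart y j).prod_mem fun i _ => hb i,
    Finset.prod_ne_zero_iff.2 fun i _ => hb0 i, fun f hf => ?_⟩
  induction hf using Algebra.adjoin_induction with
  | mem x hx =>
    obtain ⟨i, rfl⟩ := hx
    rw [← Finset.prod_erase_mul _ _ (Finset.mem_univ i), mul_assoc]
    exact (chart y j).mul_mem ((chart y j).prod_mem fun i _ => hb i) (hbD i)
  | algebraMap r =>
    rw [D.map_algebraMap, mul_zero]
    exact (chart y j).zero_mem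
  | add x z _ _ hx hz =>
    rw [map_add, mul_add]
    exact (chart y j).add_mem hx hz
  | mul x z hx' hz' hx hz =>
    rw [D.leibniz, smul_eq_mul, smul_eq_mul]
    have e : (∏ i, b i) * (x * D z + z * D x) = x * ((∏ i, b i) * D z) + z * ((∏ i, b i) * D x) := by
      ring
    rw [e]
    exact (chart y j).add_mem ((chart y j).mul_mem hx' hz) ((chart y j).mul_mem hz' hx)

theorem exists_den_frame (hy : NormalModel y) {j : Fin (N + 1)} (hj : y j ≠ 0) {n : ℕ}
    (D : Fin n → Derivation ℂ K K) :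
    ∃ h ∈ chart y j, h ≠ 0 ∧ ∀ i, ∀ f ∈ chart y j, h * D i f ∈ chart y j := by
  classical
  choose h h1 h2 h3 using fun i => exists_den hy hj (D i)
  refine ⟨∏ i, h i, (chart y j).prod_mem fun i _ => h1 i,
    Finset.prod_ne_zero_iff.2 fun i _ => h2 i, fun i f hf => ?_⟩
  rw [← Finset.prod_erase_mul _ _ (Finset.mem_univ i), mul_assoc]
  exact (chart y j).mul_mem ((chart y j).prod_mem fun i _ => h1 i) (h3 i f hf)

/-- such a derivation is regular at the prime divisors in the chart -/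
theorem derReg_of_chart {j : Fin (N + 1)} {P : Place ℂ K} (hP : IsPrimeDivisor y P)
    (hc : Centred y j P) {D : Derivation ℂ K K} (hD : ∀ f ∈ chart y j, D f ∈ chart y j) :
    DerReg P D := by
  intro f hf
  obtain ⟨a, ha, b, hb, hb0, hbo, hab⟩ := (mem_localRing hc).1 (hP f hf)
  have h1 : D f = (D a - f * D b) / b := by
    rw [← hab, D.leibniz, smul_eq_mul, smul_eq_mul]
    field_simp
    ring
  rw [h1, div_eq_mul_inv]
  refine P.reg_mul ?_ (Or.inr (by rw [P.ord_inv, hbo, neg_zero]))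
  rw [sub_eq_add_neg]
  exact P.reg_add (hc.reg _ (hD a ha)) (P.reg_neg (P.reg_mul hf (hc.reg _ (hD b hb))))

/-- scaling of the vector fields -/
theorem pluri_smul {n m : ℕ} {ω : (Fin n → Derivation ℂ K K) → K} (hω : IsPluri m ω) (h : K)
    (D : Fin n → Derivation ℂ K K) : ω (fun i => h • D i) = (h ^ n) ^ m * ω D := by
  classical
  have h1 := hω (Matrix.diagonal fun _ => h) D
  rw [Matrix.det_diagonal, Finset.prod_const, Finset.card_univ, Fintype.card_fin] at h1
  rw [← h1]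
  congr 1
  funext i
  rw [Finset.sum_eq_single i]
  · rw [Matrix.diagonal_apply_eq]
  · intro l _ hl
    rw [Matrix.diagonal_apply_ne _ hl.symm, zero_smul]
  · intro h
    exact absurd (Finset.mem_univ i) h

/-- **The coefficients of the sections**, in a chart. -/
theorem sec_chart (hy : NormalModel y) {n : ℕ} {Δ A : Place ℂ K → ℚ} (hΔ : Effective y Δ)
    (hA : Effective y A) (D : Fin n → Derivation ℂ K K) {j : Fin (N + 1)} (hj : y j ≠ 0) :
    ∃ s ∈ chart y j, s ≠ 0 ∧ ∀ m : ℕ, 1 ≤ m → ∀ ω, IsSection y n m (m • Δ + A) ω →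
      ∀ Q, Centred y j Q → ω D * s ^ m ∈ localRing y Q := by
  classical
  obtain ⟨h, hh, hh0, hD⟩ := exists_den_frame hy hj D
  obtain ⟨s, hs, hs0, hsP⟩ := exists_high (y := y) (j := j)
    (S := {P | IsPrimeDivisor y P ∧ Centred y j P ∧ (Δ P ≠ 0 ∨ A P ≠ 0)})
    ((hΔ.2.union hA.2).subset (by
      rintro P ⟨h1, -, h2 | h2⟩
      · exact Or.inl ⟨h1, h2⟩
      · exact Or.inr ⟨h1, h2⟩))
    (fun P hP => hP.2.1) (fun P hP => hP.1) (fun P => ⌈Δ P + A P⌉.toNat)
  refine ⟨h ^ n * s, (chart y j).mul_mem ((chart y j).pow_mem hh _) hs,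
    mul_ne_zero (pow_ne_zero _ hh0) hs0, fun m hm ω hω Q hQ => ?_⟩
  refine mem_localRing_of_reg hy fun P hP hPQ => ?_
  have hc := hPQ.centred hQ
  have h1 := hω.2 P hP (fun i => h • D i) fun i => derReg_of_chart hP hc fun f hf => hD i f hf
  have e1 : ω D * (h ^ n * s) ^ m = ω (fun i => h • D i) * s ^ m := by
    rw [pluri_smul hω.1]
    ring
  rw [e1]
  rcases h1 with h1 | h1
  · rw [h1, zero_mul]
    exact P.reg_zero
  by_cases h0 : ω (fun i => h • D i) = 0
  · rw [h0, zero_mul]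
    exact P.reg_zero
  right
  rw [P.ord_mul h0 (pow_ne_zero _ hs0), P.ord_pow]
  have hm' : (1 : ℚ) ≤ m := by exact_mod_cast hm
  have hs1 := (P.reg_iff hs0).1 (hc.reg s hs)
  have hs2 : Δ P + A P ≤ P.ord s := by
    by_cases hS : Δ P ≠ 0 ∨ A P ≠ 0
    · have h2 := hsP P ⟨hP, hc, hS⟩
      have h3 : (Δ P + A P : ℚ) ≤ ((⌈Δ P + A P⌉.toNat : ℤ) : ℚ) :=
        (Int.le_ceil _).trans (by exact_mod_cast Int.self_le_toNat _)
      exact h3.trans (by exact_mod_cast h2)
    · push Not at hS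
      rw [hS.1, hS.2, add_zero]
      exact_mod_cast hs1
  have h4 : ((m • Δ + A) P : ℚ) = m * Δ P + A P := by
    simp
  rw [h4] at h1
  have hA0 := hA.1 P hP
  have h5 : (0 : ℚ) ≤ (P.ord (ω fun i => h • D i) : ℚ) + m * (P.ord s : ℚ) := by
    nlinarith
  exact_mod_cast h5

/-- the coefficients of the sections at all places -/
theorem sec_all (hy : NormalModel y) {n : ℕ} {Δ A : Place ℂ K → ℚ} (hΔ : Effective y Δ)
    (hA : Effective y A) (D : Fin n → Derivation ℂ K K) (P : Place ℂ K) :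
    ∃ C : ℕ, ∀ m : ℕ, 1 ≤ m → ∀ ω, IsSection y n m (m • Δ + A) ω →
      Ge P (-((C * m : ℕ) : ℤ)) (ω D) := by
  obtain ⟨j, hj⟩ := exists_centred hy P
  obtain ⟨s, hs, hs0, h⟩ := sec_chart hy hΔ hA D hj.1
  have hs1 := (P.reg_iff hs0).1 (hj.reg s hs)
  refine ⟨(P.ord s).toNat, fun m hm ω hω => ?_⟩
  have h1 := localRing_reg (h m hm ω hω P hj)
  by_cases h0 : ω D = 0
  · exact Or.inl h0
  right
  have h2 := h1.resolve_left (mul_ne_zero h0 (pow_ne_zero _ hs0))
  rw [P.ord_mul h0 (pow_ne_zero _ hs0), P.ord_pow] at h2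
  push_cast
  rw [Int.toNat_of_nonneg hs1]
  linarith

/-- a finite set of functions which controls the regularity of the coefficients of the sections -/
theorem sec_fin (hy : NormalModel y) {n : ℕ} {Δ A : Place ℂ K → ℚ} (hΔ : Effective y Δ)
    (hA : Effective y A) (D : Fin n → Derivation ℂ K K) :
    ∃ S : Finset K, ∀ P : Place ℂ K, (∀ s ∈ S, P.Reg s) → ∀ m : ℕ, 1 ≤ m → ∀ ω,
      IsSection y n m (m • Δ + A) ω → P.Reg (ω D) := by
  classical
  obtain ⟨j, hj⟩ := hy.ne
  obtain ⟨s, hs, hs0, h⟩ := sec_chart hy hΔ hA D hj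
  refine ⟨insert s⁻¹ (Finset.univ.image fun i => y i / y j), fun P hP m hm ω hω => ?_⟩
  have hc : Centred y j P := ⟨hj, fun i => hP _ (Finset.mem_insert_of_mem
    (Finset.mem_image_of_mem _ (Finset.mem_univ i)))⟩
  have h1 := localRing_reg (h m hm ω hω P hc)
  have h2 : P.Reg (s⁻¹ ^ m) := by
    have h3 := hP _ (Finset.mem_insert_self _ _)
    right
    rw [P.ord_pow]
    have := (P.reg_iff (inv_ne_zero hs0)).1 h3
    positivity
  have e : ω D = ω D * s ^ m * s⁻¹ ^ m := by
    rw [mul_assoc, ← mul_pow, mul_inv_cancel₀ hs0, one_pow, mul_one]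
  rw [e]
  exact P.reg_mul h1 h2

end

end Pool.Agent.Y172
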