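import Pool.Agent.Y172.Bas
import Pool.Agent.Y172.Dim
import Pool.Agent.W619.Y.Parts

/-!
Upper bounds for the sections: logarithmic frames and places of irreducible polynomials.
-/

set_option autoImplicit false
set_option linter.unusedSectionVars false

open FF Pool.Agent.W602.GT Pool.Agent.W603.LV Pool.Agent.TH122.AB

namespace Pool.Agent.Y172

section

variable {k K : Type} [Field k] [CharZero k] [Field K] [Algebra k K]

/-- the field is finite over the field generated by a transcendence basis -/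
theorem fd_basis [Algebra.EssFiniteType k K] {n : ℕ} {Z : Fin n → K}
    (hZ : IsTranscendenceBasis k Z) :
    FiniteDimensional (IntermediateField.adjoin k (Set.range Z)) K := by
  set K0 := IntermediateField.adjoin k (Set.range Z) with hK0
  have hess : Algebra.EssFiniteType K0 K := Algebra.EssFiniteType.of_comp k K0 K
  have halg : Algebra.IsAlgebraic K0 K := hZ.isAlgebraic_field
  obtain ⟨s, hs⟩ := IntermediateField.fg_top K0 K
  have h1 : FiniteDimensional K0 (IntermediateField.adjoin K0 (s : Set K)) :=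
    IntermediateField.finiteDimensional_adjoin fun x _ => (halg.isAlgebraic x).isIntegral
  rw [hs] at h1
  exact h1.equiv IntermediateField.topEquiv.toLinearEquiv

/-- **Discrepancies on logarithmic vector fields.** -/
theorem log_ge [Algebra.EssFiniteType k K] {n : ℕ} (hn : Algebra.trdeg k K = n) {Q : Place k K}
    (hQ : Divisorial n Q) {r : ℕ} {η : (Fin n → Derivation k K K) → K} (hη : IsPluri r η)
    (hge : ∀ E : Fin n → Derivation k K K, (∀ i, DerReg Q (E i)) →
      η E = 0 ∨ -(r : ℚ) ≤ Q.ord (η E))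
    {D : Fin n → Derivation k K K} (hD : ∀ i, DerLog Q (D i)) : Ge Q 0 (η D) := by
  classical
  obtain ⟨y, E, i0, hy, hE, hyi, hyr, hEr⟩ := Pool.Agent.W619.Y.pFRAME.{0, 0} k K n hn
    (fun y hy => fd_basis hy) Q hQ
  have hexp : D = fun i => ∑ j, (Matrix.of fun i j => D i (y j)) i j • E j := by
    funext i
    refine der_ext y hy fun a => ?_
    rw [sum_smul_apply, Finset.sum_eq_single a]
    · rw [hE, if_pos rfl, mul_one]
      rfl
    · intro b _ hb
      rw [hE, if_neg hb, mul_zero]
    · intro h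
      exact absurd (Finset.mem_univ a) h
  have h1 : η D = (Matrix.of fun i j => D i (y j)).det ^ r * η E := by
    conv_lhs => rw [hexp]
    exact hη _ _
  have h2 : Ge Q 1 (Matrix.of fun i j => D i (y j)).det := by
    rw [← Matrix.det_transpose]
    refine ge_det Q _ 1 (fun a _ => if a = i0 then 1 else 0) (fun a b => ?_) fun σ => ?_
    · change Ge Q (if a = i0 then 1 else 0) (D b (y a))
      split_ifs with ha
      · rw [ha]
        exact DerLog.ge (hD b) (Or.inr (by rw [hyi]))
      · exact DerLog.ge (hD b) (hyr a)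
    · have h3 : ∑ i, (if σ i = i0 then (1 : ℤ) else 0) = 1 := by
        rw [Finset.sum_eq_single (σ.symm i0)]
        · simp
        · intro i _ hi
          rw [if_neg]
          intro h
          exact hi (by rw [← h]; simp)
        · intro h
          exact absurd (Finset.mem_univ _) h
      exact h3.ge
  have h3 : Ge Q (-(r : ℤ)) (η E) := by
    rcases hge E (fun i => hEr i) with h | h
    · exact Or.inl h
    · right
      have h4 : ((-(r : ℤ) : ℤ) : ℚ) ≤ Q.ord (η E) := by
        push_cast
        exact h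
      exact_mod_cast h4
  rw [h1]
  have h4 := (h2.pow r).mul h3
  have e : (r : ℤ) * 1 + -(r : ℤ) = 0 := by ring
  rw [e] at h4
  exact h4

variable {M : IntermediateField k K} {l : ℕ} {u : Fin l → K}

/-- a place which is trivial on `M` as a place over `M` -/
def liftP (P : Place k K) (M : IntermediateField k K) (h : ∀ m ∈ M, m ≠ 0 → P.ord m = 0) :
    Place M K where
  ord := P.ord
  ord_zero := P.ord_zero
  ord_mul := P.ord_mul
  ord_add := P.ord_add
  ord_const := fun {c} hc => h c c.2 fun h0 => hc (Subtype.ext h0)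
  surj := P.surj

/-- a place over `M` as a place over `k` -/
def dropP (M : IntermediateField k K) (P : Place M K) : Place k K where
  ord := P.ord
  ord_zero := P.ord_zero
  ord_mul := P.ord_mul
  ord_add := P.ord_add
  ord_const := fun {c} hc => P.ord_const (c := algebraMap k M c) (by
    rwa [Ne, map_eq_zero])
  surj := P.surj

theorem Adic.triv {P : Place k K} {g : MvPolynomial (Fin l) M} (h : Adic P u g) :
    ∀ m ∈ M, m ≠ 0 → P.ord m = 0 := by
  intro m hm hm0
  have h1 : ∀ m' : M, m' ≠ 0 → 0 ≤ P.ord (m' : K) := by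
    intro m' hm'
    have h2 := (h (MvPolynomial.C m') (by rwa [Ne, MvPolynomial.C_eq_zero])).1
    rwa [MvPolynomial.aeval_C] at h2
  have hm' : (⟨m, hm⟩ : M) ≠ 0 := fun h => hm0 (congrArg Subtype.val h)
  have h2 := h1 ⟨m, hm⟩ hm'
  have h3 := h1 (⟨m, hm⟩)⁻¹ (inv_ne_zero hm')
  change 0 ≤ P.ord m at h2
  change 0 ≤ P.ord (m⁻¹) at h3
  rw [P.ord_inv] at h3
  omega

theorem gens_of_top (hind : AlgebraicIndependent M u)
    (htop : IntermediateField.adjoin k ((M : Set K) ∪ Set.range u) = ⊤) :
    Gens (k := M) u := by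
  have h1 : IntermediateField.adjoin M (Set.range u) = ⊤ := by
    rw [← IntermediateField.restrictScalars_eq_top_iff (K := k), ← top_le_iff, ← htop,
      IntermediateField.adjoin_le_iff]
    rintro y (hy | hy)
    · exact (IntermediateField.adjoin M (Set.range u)).algebraMap_mem ⟨y, hy⟩
    · exact IntermediateField.subset_adjoin M _ hy
  refine ⟨hind, fun z => ?_⟩
  have hz : z ∈ IntermediateField.adjoin M (Set.range u) := by
    rw [h1]
    trivial
  rw [IntermediateField.mem_adjoin_range_iff] at hz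
  obtain ⟨P, Q, hPQ⟩ := hz
  by_cases hQ : Q = 0
  · refine ⟨0, 1, one_ne_zero, ?_⟩
    rw [hPQ, hQ, map_zero, div_zero, zero_div]
  · exact ⟨P, Q, hQ, hPQ⟩

/-- derivations which preserve the polynomials -/
theorem der_poly_mem {D : Derivation k K K} (hDM : ∀ x ∈ M, D x ∈ M)
    (hDu : ∀ j, ∃ γ ∈ M, D (u j) = γ * u j) (A : MvPolynomial (Fin l) M) :
    ∃ A' : MvPolynomial (Fin l) M, D (MvPolynomial.aeval u A) = MvPolynomial.aeval u A' := by
  induction A using MvPolynomial.induction_on with
  | C m =>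
    refine ⟨MvPolynomial.C ⟨D m, hDM _ m.2⟩, ?_⟩
    rw [MvPolynomial.aeval_C, MvPolynomial.aeval_C]
    rfl
  | add p q hp hq =>
    obtain ⟨p', hp⟩ := hp
    obtain ⟨q', hq⟩ := hq
    exact ⟨p' + q', by rw [map_add, map_add, hp, hq, map_add]⟩
  | mul_X p j hp =>
    obtain ⟨p', hp⟩ := hp
    obtain ⟨γ, hγ, h1⟩ := hDu j
    refine ⟨p' * MvPolynomial.X j + p * (MvPolynomial.C ⟨γ, hγ⟩ * MvPolynomial.X j), ?_⟩
    rw [map_mul, MvPolynomial.aeval_X, D.leibniz, hp, h1, map_add, map_mul, map_mul, map_mul,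
      MvPolynomial.aeval_X, MvPolynomial.aeval_C]
    simp only [smul_eq_mul]
    change MvPolynomial.aeval u p * (γ * u j) + u j * MvPolynomial.aeval u p' =
      MvPolynomial.aeval u p' * u j + MvPolynomial.aeval u p * (γ * u j)
    ring

/-- they are regular at the places of the irreducible polynomials -/
theorem Adic.derReg (hG : Gens (k := M) u) {P : Place k K} {g : MvPolynomial (Fin l) M}
    (hg : Irreducible g) (h : Adic P u g) {D : Derivation k K K} (hDM : ∀ x ∈ M, D x ∈ M)
    (hDu : ∀ j, ∃ γ ∈ M, D (u j) = γ * u j) : DerReg P D := by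
  intro f hf
  obtain ⟨A, B, hB, hgB, rfl⟩ := frac_of_reg hG hg (v := liftP P M h.triv) h hf
  obtain ⟨A', hA'⟩ := der_poly_mem hDM hDu A
  obtain ⟨B', hB'⟩ := der_poly_mem hDM hDu B
  have hB0 := hG.ne hB
  have hBo : P.ord (MvPolynomial.aeval u B) = 0 := (h B hB).2.2 hgB
  have hnn : ∀ C : MvPolynomial (Fin l) M, P.Reg (MvPolynomial.aeval u C) := by
    intro C
    by_cases hC : C = 0
    · left
      rw [hC, map_zero]
    · exact Or.inr (h C hC).1
  have h1 : D (MvPolynomial.aeval u A / MvPolynomial.aeval u B) =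
      MvPolynomial.aeval u (B * A' - A * B') * (MvPolynomial.aeval u B)⁻¹ ^ 2 := by
    rw [Derivation.leibniz_div, hA', hB', map_sub, map_mul, map_mul]
    simp only [smul_eq_mul]
    ring
  rw [h1]
  refine P.reg_mul (hnn _) (Or.inr ?_)
  rw [P.ord_pow, P.ord_inv, hBo]
  simp

/-- **Denominators.** -/
theorem denom (hG : Gens (k := M) u) {B : MvPolynomial (Fin l) M → Prop} {f : K} (hf : f ≠ 0)
    (h : ∀ g : MvPolynomial (Fin l) M, Irreducible g → ¬ B g → ∃ P : Place k K, Adic P u g ∧
      P.Reg f) :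
    ∃ A C : MvPolynomial (Fin l) M, C ≠ 0 ∧ (∀ g, Irreducible g → g ∣ C → B g) ∧
      f * MvPolynomial.aeval u C = MvPolynomial.aeval u A := by
  classical
  obtain ⟨A0, C0, hC0, hf0⟩ := hG.gen f
  have hA0 : A0 ≠ 0 := by
    rintro rfl
    rw [map_zero, zero_div] at hf0
    exact hf hf0
  obtain ⟨A, C, R, hrel, hA, hC⟩ := UniqueFactorizationMonoid.exists_reduced_factors A0 hA0 C0
  have hR : R ≠ 0 := by
    rintro rfl
    rw [zero_mul] at hA
    exact hA0 hA.symm
  have hC1 : C ≠ 0 := by
    rintro rfl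
    rw [mul_zero] at hC
    exact hC0 hC.symm
  have hA1 : A ≠ 0 := by
    rintro rfl
    rw [mul_zero] at hA
    exact hA0 hA.symm
  have hf1 : f * MvPolynomial.aeval u C = MvPolynomial.aeval u A := by
    rw [hf0, ← hA, ← hC, map_mul, map_mul]
    have h1 := hG.ne hR
    have h2 := hG.ne hC1
    field_simp
  refine ⟨A, C, hC1, fun g hg hgC => ?_, hf1⟩
  by_contra hB
  obtain ⟨P, hP, hPf⟩ := h g hg hB
  have hgA : ¬ g ∣ A := fun h => hg.not_isUnit (hrel h hgC)
  have h1 := congrArg P.ord hf1
  rw [P.ord_mul hf (hG.ne hC1), (hP A hA1).2.2 hgA] at h1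
  have h2 := (P.reg_iff hf).1 hPf
  have h3 := (hP C hC1).1
  have h4 : P.ord (MvPolynomial.aeval u C) = 0 := by omega
  exact (hP C hC1).2.1 h4 hgC

end

end Pool.Agent.Y172
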