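import Pool.Agent.Y172.UpA

/-!
The order of a section on logarithmic vector fields at a place over a log canonical pair.
-/

set_option autoImplicit false
set_option linter.unusedSectionVars false

open FF Pool.Agent.W602.GT Pool.Agent.W603.LV Pool.Agent.TH122.AB

namespace Pool.Agent.Y172

section

variable {K : Type} [Field K] [Algebra ℂ K] {N : ℕ} {y : Fin (N + 1) → K} {n : ℕ}

theorem NormalModel.ess (hy : NormalModel y) : Algebra.EssFiniteType ℂ K := by
  obtain ⟨j, hj⟩ := hy.ne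
  have h2 : (⊤ : IntermediateField ℂ K).FG := by
    rw [← hy.field j hj]
    exact ⟨(Set.finite_range fun i => y i / y j).toFinset, by rw [Set.Finite.coe_toFinset]⟩
  exact IntermediateField.fg_top_iff.1 h2

/-- some prime divisor passes through the centre -/
theorem exists_through (hy : NormalModel y) (Q : Place ℂ K) :
    ∃ P, IsPrimeDivisor y P ∧ Through y P Q := by
  by_contra hcon
  push Not at hcon
  obtain ⟨π, hπ0, hπ⟩ := Q.surj
  have h1 : π⁻¹ ∈ localRing y Q :=
    mem_localRing_of_reg hy fun P hP hPQ => absurd hPQ (hcon P hP)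
  have h2 := (Q.reg_iff (inv_ne_zero hπ0)).1 (localRing_reg h1)
  rw [Q.ord_inv, hπ] at h2
  omega

/-- **The order of a section on logarithmic vector fields.** -/
theorem lc_bound (hy : NormalModel y) (hn : Algebra.trdeg ℂ K = n) {Δ A : Place ℂ K → ℚ}
    (hLC : LogCanonical y n Δ) (hA : Effective y A) {Q : Place ℂ K} (hQ : Divisorial n Q)
    {D : Fin n → Derivation ℂ K K} (hD : IsFrame D) (hDlog : ∀ i, DerLog Q (D i)) :
    ∃ B : ℕ, ∀ m : ℕ, 1 ≤ m → ∀ ω, IsSection y n m (m • Δ + A) ω → Ge Q (-(B : ℤ)) (ω D) := by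
  classical
  have hess := hy.ess
  obtain ⟨r, hr, η, hη, hηP, hηQ⟩ := hLC Q hQ
  have hηD : η D ≠ 0 := by
    intro h
    obtain ⟨P, hP, hPQ⟩ := exists_through hy Q
    obtain ⟨-, E, -, hE0, -⟩ := hηP P hP hPQ
    have h1 := pluri_zero hD hη h
    rw [h1] at hE0
    exact hE0 rfl
  have hηQD : Ge Q 0 (η D) := log_ge hn hQ hη (fun E hE => by
    rcases hηQ E hE with h | h
    · exact Or.inl h
    · exact Or.inr h) hDlog
  have hηo := hηQD.resolve_left hηD
  obtain ⟨j, hj⟩ := exists_centred hy Q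
  obtain ⟨s, hs, hs0, hsP⟩ := exists_high (y := y) (j := j)
    (S := {P | IsPrimeDivisor y P ∧ Centred y j P ∧ A P ≠ 0})
    (hA.2.subset (by
      rintro P ⟨h1, -, h2⟩
      exact ⟨h1, h2⟩)) (fun P hP => hP.2.1) (fun P hP => hP.1) (fun P => ⌈A P⌉₊)
  have hsQ := (Q.reg_iff hs0).1 (hj.reg s hs)
  refine ⟨(Q.ord s).toNat, fun m hm ω hω => ?_⟩
  by_cases hωD : ω D = 0
  · exact Or.inl hωD
  right
  obtain ⟨F, hF⟩ : ∃ F, F = ω D ^ r * s ^ r / η D ^ m := ⟨_, rfl⟩
  have h1 : ω D ^ r ≠ 0 := pow_ne_zero _ hωD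
  have h2 : s ^ r ≠ 0 := pow_ne_zero _ hs0
  have h3 : η D ^ m ≠ 0 := pow_ne_zero _ hηD
  have hF0 : F ≠ 0 := by
    rw [hF]
    exact div_ne_zero (mul_ne_zero h1 h2) h3
  have hFreg : F ∈ localRing y Q := by
    refine mem_localRing_of_reg hy fun P hP hPQ => ?_
    have hPc := hPQ.centred hj
    obtain ⟨-, E, hE, hE0, hEo⟩ := hηP P hP hPQ
    choose C hC using fun i => hD (E i)
    have e1 : E = fun i => ∑ j, Matrix.of C i j • D j := funext hC
    have hE1 : η E = (Matrix.of C).det ^ r * η D := by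
      conv_lhs => rw [e1]
      exact hη _ _
    have hE2 : ω E = (Matrix.of C).det ^ m * ω D := by
      conv_lhs => rw [e1]
      exact hω.1 _ _
    obtain ⟨c, hc⟩ : ∃ c, c = (Matrix.of C).det := ⟨_, rfl⟩
    rw [← hc] at hE1 hE2
    have hc0 : c ≠ 0 := by
      rintro rfl
      rw [zero_pow hr.ne', zero_mul] at hE1
      exact hE0 hE1
    have hωE : ω E ≠ 0 := by
      rw [hE2]
      exact mul_ne_zero (pow_ne_zero _ hc0) hωD
    have hF' : F = ω E ^ r * s ^ r / η E ^ m := by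
      rw [hF, hE1, hE2, mul_pow, mul_pow, ← pow_mul, ← pow_mul, mul_comm r m]
      have h4 : c ^ (m * r) ≠ 0 := pow_ne_zero _ hc0
      field_simp
    have h4 : -((m • Δ + A) P) ≤ (P.ord (ω E) : ℚ) :=
      ((hω.2 P hP E hE).resolve_left hωE)
    have h5 : A P ≤ (P.ord s : ℚ) := by
      by_cases hAP : A P = 0
      · rw [hAP]
        have := (P.reg_iff hs0).1 (hPc.reg s hs)
        exact_mod_cast this
      · have h6 := hsP P ⟨hP, hPc, hAP⟩
        have h7 : A P ≤ (⌈A P⌉₊ : ℚ) := Nat.le_ceil _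
        exact h7.trans (by exact_mod_cast h6)
    rw [P.reg_iff hF0, hF', P.ord_div (mul_ne_zero (pow_ne_zero _ hωE) h2) (pow_ne_zero _ hE0),
      P.ord_mul (pow_ne_zero _ hωE) h2, P.ord_pow, P.ord_pow, P.ord_pow]
    have h6 : (0 : ℚ) ≤ (r * P.ord (ω E) + r * P.ord s - m * P.ord (η E) : ℚ) := by
      rw [hEo]
      have e : (m • Δ + A) P = m * Δ P + A P := by
        rw [Pi.add_apply, Pi.smul_apply, nsmul_eq_mul]
      rw [e] at h4
      have hr' : (0 : ℚ) < r := by exact_mod_cast hr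
      nlinarith
    exact_mod_cast h6
  have h4 := (Q.reg_iff hF0).1 (localRing_reg hFreg)
  rw [hF, Q.ord_div (mul_ne_zero h1 h2) h3, Q.ord_mul h1 h2, Q.ord_pow, Q.ord_pow,
    Q.ord_pow] at h4
  have h5 : 0 ≤ (r : ℤ) * (Q.ord (ω D) + Q.ord s) := by
    have h6 : 0 ≤ (m : ℤ) * Q.ord (η D) := mul_nonneg (Int.natCast_nonneg m) hηo
    linarith
  have h6 : 0 ≤ Q.ord (ω D) + Q.ord s := by
    by_contra hcon
    push Not at hcon
    have hr' : (0 : ℤ) < r := by exact_mod_cast hr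
    nlinarith
  omega

end

end Pool.Agent.Y172
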