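import Pool.Agent.Y172.UpB

/-!
Laurent polynomials over the field of the Iitaka fibration, and their places.
-/

set_option autoImplicit false
set_option linter.unusedSectionVars false

open FF Pool.Agent.W602.GT Pool.Agent.W603.LV Pool.Agent.TH122.AB

namespace Pool.Agent.Y172

section

variable {k K : Type} [Field k] [CharZero k] [Field K] [Algebra k K]
variable {M M1 : IntermediateField k K} {l l' ρ : ℕ} {u : Fin l → K}
  {B : MvPolynomial (Fin l) M → Prop} {x : Fin ρ → K} {u' : Fin l' → K}

theorem Fb.u'_ne (fb : Fb M M1 u B x u') (j : Fin l') : u' j ≠ 0 := fb.ui.ne_zero j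

/-- monomials in terms of the coordinates of the fibre -/
theorem Fb.mono_eq (fb : Fb M M1 u B x u') (a : Fin l → ℤ) :
    ∃ m ∈ M1, ∃ c : Fin l' → ℤ, mono u a = m * mono u' c := by
  choose m hm c hc using fb.uc
  refine ⟨mono m a, mono_mem hm a, ∑ i, a i • c i, ?_⟩
  rw [mono_sum fb.u'_ne, mono, mono, ← Finset.prod_mul_distrib]
  refine Finset.prod_congr rfl fun i _ => ?_
  rw [mono_smul, hc i, mul_zpow]

/-- the Laurent polynomials -/
def Lau (M1 : IntermediateField k K) (u' : Fin l' → K) : Submodule M1 K :=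
  Submodule.span M1 (Set.range (mono u'))

theorem lau_single {m : K} (hm : m ∈ M1) (c : Fin l' → ℤ) : m * mono u' c ∈ Lau M1 u' := by
  have h1 := (Lau M1 u').smul_mem (⟨m, hm⟩ : M1) (Submodule.subset_span ⟨c, rfl⟩)
  exact h1

theorem lau_mul (hu' : ∀ j, u' j ≠ 0) {f : K} (hf : f ∈ Lau M1 u') {m : K} (hm : m ∈ M1)
    (c : Fin l' → ℤ) : f * (m * mono u' c) ∈ Lau M1 u' := by
  induction hf using Submodule.span_induction with
  | mem f hf =>
    obtain ⟨a, rfl⟩ := hf
    have h1 : mono u' a * (m * mono u' c) = m * mono u' (a + c) := by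
      rw [mono_add hu']
      ring
    rw [h1]
    exact lau_single hm _
  | zero =>
    rw [zero_mul]
    exact zero_mem _
  | add f g _ _ h1 h2 =>
    rw [add_mul]
    exact add_mem h1 h2
  | smul b f _ h1 =>
    rw [smul_mul_assoc]
    exact (Lau M1 u').smul_mem b h1

theorem Fb.poly_lau (fb : Fb M M1 u B x u') (A : MvPolynomial (Fin l) M) :
    MvPolynomial.aeval u A ∈ Lau M1 u' := by
  rw [aeval_eq]
  refine Submodule.sum_mem _ fun a _ => ?_
  obtain ⟨m, hm, c, hc⟩ := fb.mono_eq fun i => (a i : ℤ)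
  rw [trm, hc, ← mul_assoc]
  exact lau_single (mul_mem (fb.le (Subtype.coe_prop _)) hm) _

/-- products of the polynomials with the property `B` are monomials up to elements of `M1` -/
theorem Fb.unit_prod (fb : Fb M M1 u B x u') (hind : AlgebraicIndependent M u)
    (C : MvPolynomial (Fin l) M) : C ≠ 0 → (∀ g, Irreducible g → g ∣ C → B g) →
      ∃ m ∈ M1, ∃ a : Fin l → ℤ, MvPolynomial.aeval u C = m * mono u a := by
  classical
  have hu0 : ∀ j, u j ≠ 0 := fun j => hind.ne_zero j
  induction C using WfDvdMonoid.induction_on_irreducible with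
  | zero => exact fun h => absurd rfl h
  | unit C hC =>
    intro _ _
    rw [MvPolynomial.isUnit_iff_eq_C_of_isReduced] at hC
    obtain ⟨c, -, rfl⟩ := hC
    refine ⟨c, fb.le c.2, 0, ?_⟩
    rw [MvPolynomial.aeval_C, mono_zero, mul_one]
    rfl
  | mul C g hC0 hg ih =>
    intro _ hB
    obtain ⟨m, hm, a, ha⟩ := ih hC0 fun g' hg' h => hB g' hg' (h.mul_left g)
    have hgB := hB g hg (dvd_mul_right g C)
    obtain ⟨b, hb⟩ := MvPolynomial.support_nonempty.2 hg.ne_zero
    have hgu : MvPolynomial.aeval u g ≠ 0 := fun h =>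
      hg.ne_zero ((injective_iff_map_eq_zero _).1 hind g h)
    have h1 : trm u g b / MvPolynomial.aeval u g ∈ M1 := fb.TT_le ⟨g, hgB, b, hb, rfl⟩
    have h2 := trm_ne hu0 hb
    refine ⟨m * (((MvPolynomial.coeff b g : M) : K) * (trm u g b / MvPolynomial.aeval u g)⁻¹),
      mul_mem hm (mul_mem (fb.le (Subtype.coe_prop _)) (inv_mem h1)),
      (fun i => (b i : ℤ)) + a, ?_⟩
    rw [map_mul, ha, mono_add hu0, inv_div]
    have h3 : MvPolynomial.aeval u g = ((MvPolynomial.coeff b g : M) : K) *
        (MvPolynomial.aeval u g / trm u g b) * mono u (fun i => (b i : ℤ)) := by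
      have h4 : ((MvPolynomial.coeff b g : M) : K) * mono u (fun i => (b i : ℤ)) = trm u g b := rfl
      calc MvPolynomial.aeval u g = trm u g b * (MvPolynomial.aeval u g / trm u g b) := by
            field_simp
        _ = _ := by
            rw [← h4]
            ring
    conv_lhs => rw [h3]
    ring

/-- functions with denominators with the property `B` are Laurent polynomials -/
theorem Fb.lau_of_denom (fb : Fb M M1 u B x u') (hind : AlgebraicIndependent M u) {f : K}
    {A C : MvPolynomial (Fin l) M} (hC : C ≠ 0) (hCB : ∀ g, Irreducible g → g ∣ C → B g)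
    (hf : f * MvPolynomial.aeval u C = MvPolynomial.aeval u A) : f ∈ Lau M1 u' := by
  have hu0 : ∀ j, u j ≠ 0 := fun j => hind.ne_zero j
  obtain ⟨m, hm, a, ha⟩ := fb.unit_prod hind C hC hCB
  have hC0 : MvPolynomial.aeval u C ≠ 0 := fun h => hC ((injective_iff_map_eq_zero _).1 hind C h)
  have hm0 : m ≠ 0 := by
    rintro rfl
    rw [zero_mul] at ha
    exact hC0 ha
  obtain ⟨m', hm', c, hc⟩ := fb.mono_eq (-a)
  have h1 : f = MvPolynomial.aeval u A * ((m⁻¹ * m') * mono u' c) := by
    rw [← hf, ha, mul_assoc m⁻¹ m', ← hc, mono_neg hu0]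
    have := mono_ne hu0 a
    field_simp
  rw [h1]
  exact lau_mul fb.u'_ne (fb.poly_lau A) (mul_mem (inv_mem hm) hm') c

/-- the place of the degree in one variable -/
theorem deg_place {v : Fin l' → K} (hG : Gens (k := M1) v) (j : Fin l') :
    ∃ Q : Place M1 K, ∀ P : MvPolynomial (Fin l') M1, P ≠ 0 →
      Q.ord (MvPolynomial.aeval v P) = -(MvPolynomial.degreeOf j P : ℤ) := by
  classical
  refine exists_place hG (ν := fun P => -(MvPolynomial.degreeOf j P : ℤ)) ⟨?_, ?_, ?_⟩
    ⟨1, MvPolynomial.X j, one_ne_zero, MvPolynomial.X_ne_zero _, ?_⟩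
  · intro P Q hP hQ
    rw [MvPolynomial.degreeOf_mul_eq hP hQ]
    push_cast
    ring
  · intro P Q _ _ _
    have h1 := MvPolynomial.degreeOf_add_le j P Q
    have h2 : (MvPolynomial.degreeOf j (P + Q) : ℤ) ≤
        max (MvPolynomial.degreeOf j P : ℤ) (MvPolynomial.degreeOf j Q : ℤ) := by
      exact_mod_cast h1
    rw [min_neg_neg]
    exact neg_le_neg h2
  · intro c _
    rw [MvPolynomial.degreeOf_C]
    simp
  · rw [MvPolynomial.degreeOf_X, if_pos rfl, MvPolynomial.degreeOf_one]
    simp

end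

end Pool.Agent.Y172
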