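import Pool.Agent.Y172.UpC

/-!
The places of the torus fibres, and the adapted frame.
-/

set_option autoImplicit false
set_option linter.unusedSectionVars false

open FF Pool.Agent.W602.GT Pool.Agent.W603.LV Pool.Agent.TH122.AB

namespace Pool.Agent.Y172

section

variable {k K : Type} [Field k] [CharZero k] [Field K] [Algebra k K]

/-- an independent family is part of a transcendence basis -/
theorem exists_basis_ext₀ {ι : Type} {t : ι → K}
    (ht : AlgebraicIndependent k t) : ∃ (κ : Type) (s : κ → K),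
      IsTranscendenceBasis k (Sum.elim t s) := by
  obtain ⟨S, hS1, hS2⟩ := exists_isTranscendenceBasis_superset (s := Set.range t)
    ht.coe_range
  classical
  refine ⟨(S \ Set.range t : Set K), Subtype.val, ?_⟩
  have hinj : Function.Injective t := ht.injective
  let f : ι ⊕ (S \ Set.range t : Set K) → S := Sum.elim (fun i => ⟨t i, hS1 ⟨i, rfl⟩⟩)
    fun s => ⟨s, s.2.1⟩
  have hf : Function.Bijective f := by
    constructor
    · rintro (i | s) (j | s') h
      · exact congrArg _ (hinj (congrArg Subtype.val h))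
      · exact absurd ⟨i, congrArg Subtype.val h⟩ s'.2.2
      · exact absurd ⟨j, (congrArg Subtype.val h).symm⟩ s.2.2
      · have h' := congrArg Subtype.val h
        exact congrArg Sum.inr (Subtype.ext h')
    · rintro ⟨x, hx⟩
      by_cases h : x ∈ Set.range t
      · obtain ⟨i, rfl⟩ := h
        exact ⟨Sum.inl i, rfl⟩
      · exact ⟨Sum.inr ⟨x, hx, h⟩, rfl⟩
  have h1 : IsTranscendenceBasis k ((Subtype.val : S → K) ∘ (Equiv.ofBijective f hf)) :=
    hS2.comp_equiv _
  convert h1 using 1
  funext x
  rcases x with i | s <;> rfl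

theorem basis_of_kill₀ {ι : Type} {t : ι → K} (ht : AlgebraicIndependent k t)
    (h : ∀ D : Derivation k K K, (∀ i, D (t i) = 0) → D = 0) : IsTranscendenceBasis k t := by
  obtain ⟨κ, s, hs⟩ := exists_basis_ext₀ ht
  have hκ : IsEmpty κ := by
    by_contra hne
    rw [not_isEmpty_iff] at hne
    obtain ⟨D, h2⟩ := exists_der _ hs (Sum.elim (fun _ => 0) fun _ => 1)
    have h3 := h D fun i => h2 (Sum.inl i)
    have h4 := h2 (Sum.inr hne.some)
    rw [h3] at h4
    simp at h4
  have h1 := hs.comp_equiv (Equiv.sumEmpty ι κ).symm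
  exact h1

/-- **Coordinates of a closed subfield.** -/
theorem exists_coord {n : ℕ} (hn : Algebra.trdeg k K = n) {M : IntermediateField k K}
    (hM : Closed M) : ∃ (κ : ℕ) (z : Fin κ → K), (∀ i, z i ∈ M) ∧ AlgebraicIndependent k z ∧
      M = acl k (Set.range z) ∧ ∀ (l : ℕ) (u : Fin l → K), AlgebraicIndependent M u →
        AlgebraicIndependent k (Sum.elim u z) := by
  obtain ⟨κ, z, hzM, hzi, hzk⟩ := pick hn ⊥ (M : Set K)
  have hz : AlgebraicIndependent k z :=
    hzi.restrictScalars (R := k) (algebraMap k (⊥ : IntermediateField k K)).injective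
  refine ⟨κ, z, hzM, hz, ?_, fun l u hu => ?_⟩
  · apply le_antisymm
    · intro y hy
      by_contra hcon
      obtain ⟨E, hE1, hE2⟩ := exists_der_ne (acl_closed (Set.range z)) hcon
      have h1 := hzk E (fun x hx => by
        rw [IntermediateField.mem_bot] at hx
        obtain ⟨c, rfl⟩ := hx
        exact E.map_algebraMap c) (fun i => hE1 _ (subset_acl _ ⟨i, rfl⟩)) y hy
      rw [hE2] at h1
      exact one_ne_zero h1
    · refine acl_le hM ?_
      rintro y ⟨i, rfl⟩
      exact hzM i
  · have h1 := tower (bot_le : ⊥ ≤ M) hzi hzM hu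
    exact h1.restrictScalars (R := k) (algebraMap k (⊥ : IntermediateField k K)).injective

/-- the coordinates of the subfield and of the fibre -/
theorem full_coord {M : IntermediateField k K} {κ l : ℕ} {z : Fin κ → K}
    (hMz : M = acl k (Set.range z)) {u : Fin l → K} (h : AlgebraicIndependent k (Sum.elim u z))
    (htop : IntermediateField.adjoin k ((M : Set K) ∪ Set.range u) = ⊤) :
    IsTranscendenceBasis k (Sum.elim u z) := by
  refine basis_of_kill₀ h fun D hD => ?_
  have h1 : Kills D M := by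
    rw [hMz]
    refine kills_acl ?_
    rintro y ⟨i, rfl⟩
    exact hD (Sum.inr i)
  have h2 : IntermediateField.adjoin k ((M : Set K) ∪ Set.range u) ≤ consts D := by
    rw [IntermediateField.adjoin_le_iff]
    rintro y (hy | ⟨j, rfl⟩)
    · exact h1 y hy
    · exact hD (Sum.inl j)
  rw [htop] at h2
  ext y
  exact h2 (x := y) trivial

theorem card_coord {n : ℕ} (hn : Algebra.trdeg k K = n) {κ l : ℕ} {u : Fin l → K} {z : Fin κ → K}
    (h : IsTranscendenceBasis k (Sum.elim u z)) : n = κ + l := by
  have h1 := h.cardinalMk_eq_trdeg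
  rw [hn, Cardinal.mk_sum, Cardinal.mk_fin, Cardinal.mk_fin, Cardinal.lift_natCast,
    Cardinal.lift_natCast, ← Nat.cast_add] at h1
  have h2 : l + κ = n := by exact_mod_cast h1
  omega

/-- **The adapted frame.** -/
theorem exists_adapted {n : ℕ} (hn : Algebra.trdeg k K = n) {M : IntermediateField k K}
    (hM : Closed M) {l : ℕ} {u : Fin l → K} (hu : AlgebraicIndependent M u)
    (htop : IntermediateField.adjoin k ((M : Set K) ∪ Set.range u) = ⊤) :
    ∃ D : Fin n → Derivation k K K, (∀ E : Derivation k K K, ∃ a : Fin n → K,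
      E = ∑ j, a j • D j) ∧ (∀ i, ∀ x ∈ M, D i x ∈ M) ∧
      ∀ i j, ∃ γ ∈ M, D i (u j) = γ * u j := by
  classical
  obtain ⟨κ, z, hzM, hz, hMz, hext⟩ := exists_coord hn hM
  have hb := full_coord hMz (hext l u hu) htop
  have hnκ := card_coord hn hb
  have hu0 : ∀ j, u j ≠ 0 := fun j => hu.ne_zero j
  obtain ⟨w, hw⟩ : ∃ w : Fin l ⊕ Fin κ → K, w = Sum.elim u fun _ => 1 := ⟨_, rfl⟩
  have hw0 : ∀ s, w s ≠ 0 := by
    rintro (j | i)
    · rw [hw]
      exact hu0 j
    · rw [hw]
      exact one_ne_zero
  choose D hD using fun s : Fin l ⊕ Fin κ => exists_der _ hb fun s' => if s = s' then w s else 0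
  have hDM : ∀ s, ∀ y ∈ M, D s y ∈ M := by
    intro s
    rw [hMz]
    refine stab_acl ?_
    rintro y ⟨i, rfl⟩
    have h1 := hD s (Sum.inr i)
    simp only [Sum.elim_inr] at h1
    rw [h1]
    split_ifs with h2
    · rw [h2, hw]
      exact one_mem _
    · exact zero_mem _
  have hDu : ∀ s j, ∃ γ ∈ M, D s (u j) = γ * u j := by
    intro s j
    have h1 := hD s (Sum.inl j)
    simp only [Sum.elim_inl] at h1
    by_cases h2 : s = Sum.inl j
    · refine ⟨1, one_mem _, ?_⟩
      rw [h1, if_pos h2, h2, hw, one_mul]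
      rfl
    · refine ⟨0, zero_mem _, ?_⟩
      rw [h1, if_neg h2, zero_mul]
  let e : Fin n ≃ Fin l ⊕ Fin κ := (finCongr (by omega : n = l + κ)).trans finSumFinEquiv.symm
  refine ⟨fun i => D (e i), fun E => ?_, fun i => hDM _, fun i => hDu _⟩
  refine ⟨fun i => E (Sum.elim u z (e i)) / w (e i), ?_⟩
  refine der_ext _ hb fun s => ?_
  rw [sum_smul_apply, Finset.sum_eq_single (e.symm s)]
  · rw [hD, if_pos (e.apply_symm_apply s), e.apply_symm_apply, div_mul_cancel₀ _ (hw0 s)]
  · intro i _ hi
    rw [hD, if_neg, mul_zero]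
    intro h
    exact hi (e.injective (by rw [h, e.apply_symm_apply]))
  · intro h
    exact absurd (Finset.mem_univ _) h

variable {M1 : IntermediateField k K} {l' : ℕ}

/-- terms at the place of the degree -/
theorem deg_trm {v : Fin l' → K} {j : Fin l'} {Q : Place M1 K}
    (hQ : ∀ P : MvPolynomial (Fin l') M1, P ≠ 0 →
      Q.ord (MvPolynomial.aeval v P) = -(MvPolynomial.degreeOf j P : ℤ))
    (P : MvPolynomial (Fin l') M1) {b : Fin l' →₀ ℕ} (hb : b ∈ P.support) :
    Q.ord (MvPolynomial.aeval v P) ≤ Q.ord (trm v P b) := by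
  classical
  have hP : P ≠ 0 := by
    rintro rfl
    simp at hb
  have h1 : trm v P b = MvPolynomial.aeval v
      (MvPolynomial.monomial b (MvPolynomial.coeff b P)) := by
    rw [MvPolynomial.aeval_monomial, Finsupp.prod_fintype _ _ fun _ => pow_zero _, trm, mono]
    simp only [zpow_natCast]
    rfl
  have h2 : MvPolynomial.monomial b (MvPolynomial.coeff b P) ≠ 0 := by
    rw [Ne, MvPolynomial.monomial_eq_zero]
    exact MvPolynomial.mem_support_iff.1 hb
  rw [h1, hQ P hP, hQ _ h2]
  have h3 : MvPolynomial.degreeOf j (MvPolynomial.monomial b (MvPolynomial.coeff b P)) ≤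
      MvPolynomial.degreeOf j P := by
    rw [MvPolynomial.degreeOf_eq_sup]
    refine Finset.sup_le fun b' hb' => ?_
    have h4 : b' = b := by
      have := MvPolynomial.support_monomial_subset hb'
      simpa using this
    rw [h4]
    exact MvPolynomial.monomial_le_degreeOf j hb
  omega

/-- derivations which preserve the subfield are logarithmic at the place of the degree -/
theorem deg_log {v : Fin l' → K} (hG : Gens (k := M1) v) {j : Fin l'} {Q : Place M1 K}
    (hQ : ∀ P : MvPolynomial (Fin l') M1, P ≠ 0 →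
      Q.ord (MvPolynomial.aeval v P) = -(MvPolynomial.degreeOf j P : ℤ))
    {D : Derivation k K K} (hDM : ∀ x ∈ M1, D x ∈ M1)
    (hDu : ∀ j, ∃ γ ∈ M1, D (v j) = γ * v j) : DerLog (dropP M1 Q) D := by
  classical
  have hv0 : ∀ j, v j ≠ 0 := fun j => hG.ind.ne_zero j
  have hM : ∀ m ∈ M1, Ge (dropP M1 Q) 0 m := by
    intro m hm
    have := Q.reg_const (⟨m, hm⟩ : M1)
    exact this
  -- the terms are eigenvectors
  have htrm : ∀ (P : MvPolynomial (Fin l') M1) (b : Fin l' →₀ ℕ), b ∈ P.support →
      ∃ γ ∈ M1, D (trm v P b) = γ * trm v P b := by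
    intro P b hb
    choose γ hγM hγ using hDu
    have hc : ((MvPolynomial.coeff b P : M1) : K) ≠ 0 := fun h =>
      MvPolynomial.mem_support_iff.1 hb (Subtype.ext h)
    refine ⟨D ((MvPolynomial.coeff b P : M1) : K) / ((MvPolynomial.coeff b P : M1) : K) +
      ∑ i, ((b i : ℤ) : K) * γ i, add_mem (div_mem (hDM _ (Subtype.coe_prop _))
        (Subtype.coe_prop _)) (sum_mem fun i _ => mul_mem (by
          have := M1.algebraMap_mem ((b i : ℤ) : k)
          rwa [map_intCast] at this) (hγM i)), ?_⟩
    rw [trm, D.leibniz, logd_mono D hv0]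
    simp only [hγ, smul_eq_mul]
    have h1 : ∀ i, γ i * v i / v i = γ i := fun i => mul_div_cancel_right₀ _ (hv0 i)
    simp only [h1]
    field_simp
    ring
  have hpoly : ∀ P : MvPolynomial (Fin l') M1, P ≠ 0 →
      Ge (dropP M1 Q) 0 (D (MvPolynomial.aeval v P) / MvPolynomial.aeval v P) := by
    intro P hP
    have hP0 := hG.ne hP
    have h1 : Ge (dropP M1 Q) ((dropP M1 Q).ord (MvPolynomial.aeval v P))
        (D (MvPolynomial.aeval v P)) := by
      conv_rhs => rw [aeval_eq, map_sum]
      refine Ge.sum _ _ fun b hb => ?_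
      obtain ⟨γ, hγ, h2⟩ := htrm P b hb
      rw [h2]
      have h3 : Ge (dropP M1 Q) ((dropP M1 Q).ord (MvPolynomial.aeval v P)) (trm v P b) :=
        Or.inr (deg_trm hQ P hb)
      have h4 := (hM γ hγ).mul h3
      rwa [zero_add] at h4
    have h2 := ge_div hP0 h1
    rwa [sub_self] at h2
  intro f
  by_cases hf : f = 0
  · rw [hf, map_zero, zero_div]
    exact (dropP M1 Q).reg_zero
  obtain ⟨A, C, hC, rfl⟩ := hG.gen f
  have hA : A ≠ 0 := by
    rintro rfl
    rw [map_zero, zero_div] at hf
    exact hf rfl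
  have hA0 := hG.ne hA
  have hC0 := hG.ne hC
  have h1 : D (MvPolynomial.aeval v A / MvPolynomial.aeval v C) /
      (MvPolynomial.aeval v A / MvPolynomial.aeval v C) =
      D (MvPolynomial.aeval v A) / MvPolynomial.aeval v A -
        D (MvPolynomial.aeval v C) / MvPolynomial.aeval v C := by
    rw [Derivation.leibniz_div]
    simp only [smul_eq_mul]
    field_simp
  rw [h1]
  exact (hpoly A hA).sub (hpoly C hC)

/-- the place of the degree is divisorial -/
theorem deg_div {n : ℕ} {v : Fin l' → K} (hG : Gens (k := M1) v) {j : Fin l'} {Q : Place M1 K}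
    (hQ : ∀ P : MvPolynomial (Fin l') M1, P ≠ 0 →
      Q.ord (MvPolynomial.aeval v P) = -(MvPolynomial.degreeOf j P : ℤ))
    {κ : ℕ} {z : Fin κ → K} (hzM : ∀ i, z i ∈ M1)
    (hvz : AlgebraicIndependent k (Sum.elim v z)) (hn : n = κ + l') :
    Divisorial n (dropP M1 Q) := by
  classical
  have hl : 0 < l' := Nat.pos_of_ne_zero fun h => by
    subst h
    exact j.elim0
  have hcard : Fintype.card (Fin (n - 1)) = Fintype.card ({i : Fin l' // i ≠ j} ⊕ Fin κ) := by
    rw [Fintype.card_fin, Fintype.card_sum, Fintype.card_fin]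
    have h1 : Fintype.card {i : Fin l' // i ≠ j} = l' - 1 := by
      rw [Fintype.card_subtype_compl]
      simp
    rw [h1]
    omega
  let e := Fintype.equivOfCardEq hcard
  let w : {i : Fin l' // i ≠ j} ⊕ Fin κ → K := Sum.elim (fun i => v i) z
  have hw : AlgebraicIndependent k w := by
    have h1 := hvz.comp (Sum.map (Subtype.val : {i : Fin l' // i ≠ j} → Fin l') id)
      (Function.Injective.sumMap Subtype.val_injective Function.injective_id)
    convert h1 using 1
    funext s
    rcases s with i | i <;> rfl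
  refine ⟨fun i => w (e i), fun F hF => ?_⟩
  have hind := hw.comp e e.injective
  have h0 : MvPolynomial.aeval (fun i => w (e i)) F ≠ 0 := fun h =>
    hF ((injective_iff_map_eq_zero _).1 hind F h)
  refine ⟨h0, ?_⟩
  -- a polynomial which does not contain the variable
  let G : MvPolynomial {i : Fin l' // i ≠ j} M1 := MvPolynomial.aeval
    (fun i => (Sum.elim (fun i => MvPolynomial.X i) fun a => MvPolynomial.C (⟨z a, hzM a⟩ : M1) :
      {i : Fin l' // i ≠ j} ⊕ Fin κ → MvPolynomial {i : Fin l' // i ≠ j} M1) (e i)) F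
  have hG1 : MvPolynomial.aeval v (MvPolynomial.rename Subtype.val G) =
      MvPolynomial.aeval (fun i => w (e i)) F := by
    rw [aeval_rename_val]
    have h1 : ((MvPolynomial.aeval (fun i : {i : Fin l' // i ≠ j} => v i) :
        MvPolynomial {i : Fin l' // i ≠ j} M1 →ₐ[M1] K).restrictScalars k).comp
        (MvPolynomial.aeval (fun i => (Sum.elim (fun i => MvPolynomial.X i)
          fun a => MvPolynomial.C (⟨z a, hzM a⟩ : M1) :
          {i : Fin l' // i ≠ j} ⊕ Fin κ → MvPolynomial {i : Fin l' // i ≠ j} M1) (e i))) =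
        MvPolynomial.aeval fun i => w (e i) := by
      apply MvPolynomial.algHom_ext
      intro i
      rw [AlgHom.comp_apply, MvPolynomial.aeval_X, MvPolynomial.aeval_X, AlgHom.restrictScalars_apply]
      rcases e i with a | a
      · simp [w]
      · simp only [Sum.elim_inr, w]
        rw [MvPolynomial.aeval_C]
        rfl
    exact congrArg (fun φ => φ F) h1
  have hG0 : MvPolynomial.rename (Subtype.val : {i : Fin l' // i ≠ j} → Fin l') G ≠ 0 := by
    intro h
    rw [h, map_zero] at hG1
    exact h0 hG1.symm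
  change Q.ord _ = 0
  rw [← hG1, hQ _ hG0]
  have h2 : MvPolynomial.degreeOf j (MvPolynomial.rename Subtype.val G) = 0 := by
    rw [MvPolynomial.degreeOf_eq_sup, ← Nat.bot_eq_zero, Finset.sup_eq_bot_iff]
    intro b hb
    have h3 := MvPolynomial.coeff_rename_ne_zero _ _ _ (MvPolynomial.mem_support_iff.1 hb)
    obtain ⟨b', hb', -⟩ := h3
    rw [← hb']
    rw [Finsupp.mapDomain_of_notMem_range]
    · rfl
    · rintro ⟨i, hi⟩
      exact i.2 hi
  rw [h2]
  simp

end

end Pool.Agent.Y172
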