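import Pool.Agent.Y172.Dim4
import Pool.Agent.Y172.Dim3
import Pool.Agent.W602.GT.Lam

/-!
Derivations whose field of constants is a given closed field, and the orders of the coefficients of
linear combinations.
-/

set_option autoImplicit false
set_option linter.overlappingInstances false
set_option linter.unusedSectionVars false

open FF Pool.Agent.W602.GT Pool.Agent.W603.LV MvPolynomial

namespace Pool.Agent.Y172

section const

variable {k K : Type} [Field k] [Field K] [Algebra k K]

/-- The derivation which multiplies the elements of a transcendence basis by constants which are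
linearly independent over the rational numbers has only algebraic constants. -/
theorem alg_of_der [CharZero k] {w : ℕ} (t : Fin w → K)
    (ht : IsTranscendenceBasis k t) (lam : Fin w → k)
    (hlam : ∀ a b : Fin w →₀ ℕ, ∑ j, (a j : k) * lam j = ∑ j, (b j : k) * lam j → a = b)
    (D : Derivation k K K) (hD : ∀ j, D (t j) = algebraMap k K (lam j) * t j) {h : K}
    (hh : D h = 0) : IsAlgebraic k h := by
  classical
  have halg := alg_of_basis t ht
  let _ : Algebra (MvPolynomial (Fin w) k) K :=
    ((aeval t : MvPolynomial (Fin w) k →ₐ[k] K) : MvPolynomial (Fin w) k →+* K).toAlgebra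
  obtain ⟨P, hP, hPh⟩ := halg.isAlgebraic h
  let mon : (Fin w →₀ ℕ) → K := fun a => ∏ j, t j ^ a j
  have hmon0 : ∀ a, mon a ≠ 0 := by
    intro a
    refine Finset.prod_ne_zero_iff.mpr fun j _ => pow_ne_zero _ ?_
    exact ht.1.ne_zero j
  have hDmon : ∀ a, D (mon a) = algebraMap k K (∑ j, (a j : k) * lam j) * mon a := by
    intro a
    have hpow : ∀ (j : Fin w) (n : ℕ), D (t j ^ n) = algebraMap k K (n * lam j) * t j ^ n := by
      intro j n
      rw [D.leibniz_pow, hD]
      cases n with
      | zero => simp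
      | succ n =>
        simp only [nsmul_eq_mul, smul_eq_mul, Nat.add_sub_cancel, map_mul, map_natCast]
        ring
    have hs : ∀ s : Finset (Fin w), D (∏ j ∈ s, t j ^ a j)
        = algebraMap k K (∑ j ∈ s, (a j : k) * lam j) * ∏ j ∈ s, t j ^ a j := by
      intro s
      induction s using Finset.induction_on with
      | empty => simp
      | insert j s hj ih =>
        rw [Finset.prod_insert hj, Finset.sum_insert hj, D.leibniz, ih, hpow]
        simp only [smul_eq_mul, map_add]
        ring
    exact hs Finset.univ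
  have hlin : LinearIndependent (consts D) mon := by
    apply Module.End.eigenvectors_linearIndependent' ((overConsts D).toLinearMap)
      (fun a => algebraMap k (consts D) (∑ j, (a j : k) * lam j))
    · intro a b hab
      exact hlam a b ((algebraMap k (consts D)).injective hab)
    · intro a
      rw [Module.End.hasEigenvector_iff, Module.End.mem_eigenspace_iff]
      refine ⟨?_, hmon0 a⟩
      change D (mon a) = _
      rw [hDmon]
      rfl
  -- the coefficients
  set N := P.natDegree + 1 with hN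
  have hcoef : ∀ a : Fin w →₀ ℕ,
      D (∑ n ∈ Finset.range N, algebraMap k K (coeff a (P.coeff n)) * h ^ n) = 0 := by
    intro a
    rw [map_sum]
    refine Finset.sum_eq_zero fun n _ => ?_
    rw [D.leibniz, D.leibniz_pow, hh, D.map_algebraMap]
    simp
  let c : (Fin w →₀ ℕ) → consts D := fun a =>
    ⟨∑ n ∈ Finset.range N, algebraMap k K (coeff a (P.coeff n)) * h ^ n, hcoef a⟩
  set S : Finset (Fin w →₀ ℕ) := (Finset.range N).biUnion fun n => (P.coeff n).support with hS
  have hexp : ∀ n ∈ Finset.range N, aeval t (P.coeff n)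
      = ∑ a ∈ S, algebraMap k K (coeff a (P.coeff n)) * mon a := by
    intro n hn
    rw [MvPolynomial.aeval_def, MvPolynomial.eval₂_eq']
    apply Finset.sum_subset
    · exact Finset.subset_biUnion_of_mem (fun n => (P.coeff n).support) hn
    · intro a _ ha
      rw [MvPolynomial.notMem_support_iff.mp ha, map_zero, zero_mul]
  have hsum : ∑ a ∈ S, c a • mon a = 0 := by
    have h1 : Polynomial.aeval h P = ∑ n ∈ Finset.range N, aeval t (P.coeff n) * h ^ n := by
      rw [Polynomial.aeval_eq_sum_range]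
      rfl
    rw [hPh] at h1
    calc ∑ a ∈ S, c a • mon a
        = ∑ a ∈ S, ∑ n ∈ Finset.range N,
            (algebraMap k K (coeff a (P.coeff n)) * h ^ n) * mon a := by
          refine Finset.sum_congr rfl fun a _ => ?_
          rw [← Finset.sum_mul]
          rfl
      _ = ∑ n ∈ Finset.range N, ∑ a ∈ S,
            (algebraMap k K (coeff a (P.coeff n)) * h ^ n) * mon a := Finset.sum_comm
      _ = ∑ n ∈ Finset.range N, aeval t (P.coeff n) * h ^ n := by
          refine Finset.sum_congr rfl fun n hn => ?_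
          rw [hexp n hn, Finset.sum_mul]
          exact Finset.sum_congr rfl fun a _ => by ring
      _ = 0 := h1.symm
  have hc := linearIndependent_iff'.mp hlin S c hsum
  obtain ⟨n, hn⟩ : ∃ n, P.coeff n ≠ 0 := by
    by_contra hcon
    push Not at hcon
    exact hP (Polynomial.ext fun n => by rw [hcon n, Polynomial.coeff_zero])
  have hnN : n ∈ Finset.range N := by
    rw [Finset.mem_range, hN]
    exact Nat.lt_succ_of_le (Polynomial.le_natDegree_of_ne_zero hn)
  obtain ⟨a, ha⟩ : ∃ a, coeff a (P.coeff n) ≠ 0 := MvPolynomial.ne_zero_iff.mp hn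
  have haS : a ∈ S := by
    rw [hS, Finset.mem_biUnion]
    exact ⟨n, hnN, MvPolynomial.mem_support_iff.mpr ha⟩
  have hca := congrArg (Subtype.val) (hc a haS)
  refine ⟨∑ m ∈ Finset.range N, Polynomial.C (coeff a (P.coeff m)) * Polynomial.X ^ m, ?_, ?_⟩
  · intro h0
    have h1 := congrArg (fun q => Polynomial.coeff q n) h0
    simp only [Polynomial.finsetSum_coeff, Polynomial.coeff_C_mul_X_pow, Polynomial.coeff_zero]
      at h1
    rw [Finset.sum_ite_eq, if_pos hnN] at h1
    exact ha h1
  · rw [map_sum]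
    simp only [map_mul, Polynomial.aeval_C, map_pow, Polynomial.aeval_X]
    exact hca

end const

section

variable {K : Type} [Field K] [Algebra ℂ K] {n : ℕ}

/-- a derivation with a given field of constants -/
theorem exists_der_consts (hn : Algebra.trdeg ℂ K = n) {M : IntermediateField ℂ K}
    (hM : Closed M) : ∃ D : Derivation M K K, ∀ h, D h = 0 → h ∈ M := by
  obtain ⟨w, hw⟩ : ∃ w : ℕ, Algebra.trdeg M K = w := by
    have h1 := trdeg_add_eq ℂ M (A := K)
    rw [hn] at h1
    have h2 : Algebra.trdeg M K < Cardinal.aleph0 := by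
      refine lt_of_le_of_lt (self_le_add_left _ _) (h1 ▸ Cardinal.natCast_lt_aleph0)
    obtain ⟨w, hw⟩ := Cardinal.lt_aleph0.1 h2
    exact ⟨w, hw⟩
  obtain ⟨t, -, ht, -⟩ := exists_crd (k := M) (K := K) hw
  obtain ⟨lam, hlam⟩ := exists_lam ℂ w
  obtain ⟨D, hD⟩ := exists_der t ht fun j => algebraMap M K (algebraMap ℂ M (lam j)) * t j
  refine ⟨D, fun h hh => hM h ?_⟩
  refine alg_of_der t ht (fun j => algebraMap ℂ M (lam j)) (fun a b hab => ?_) D hD hh
  apply hlam a b
  apply (algebraMap ℂ M).injective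
  simpa only [map_sum, map_mul, map_natCast] using hab

/-- **Cramer's rule** for the coefficients of a linear combination. -/
theorem cramer_ge {P : Place ℂ K} {D : Derivation ℂ K K} {r : ℕ} {g h : Fin r → K}
    (hD : ∀ j, D (h j) = 0) {N b : ℤ} (hb : 0 ≤ b)
    (hΦ : ∀ i : Fin r, Ge P N ((⇑D)^[(i : ℕ)] (∑ j, h j * g j)))
    (hg : ∀ (i : Fin r) (l : Fin r), Ge P (-b) ((⇑D)^[(i : ℕ)] (g l))) (hW : wr D g ≠ 0)
    (j : Fin r) : Ge P (N - r * b - P.ord (wr D g)) (h j) := by
  classical
  have hit : ∀ i : ℕ, (⇑D)^[i] (∑ j, h j * g j) = ∑ j, h j * (⇑D)^[i] (g j) := by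
    intro i
    induction i with
    | zero => rfl
    | succ i ih =>
      rw [Function.iterate_succ_apply', ih, map_sum]
      refine Finset.sum_congr rfl fun j _ => ?_
      rw [D.leibniz, hD, Function.iterate_succ_apply']
      simp
  have h1 : ((wm (n := r) D g).updateRow j (∑ l, h l • (wm (n := r) D g) l)).det =
      h j * wr D g := by
    rw [Matrix.det_updateRow_sum]
    rfl
  have h2 : Ge P (N - r * b) ((wm (n := r) D g).updateRow j (∑ l, h l • (wm (n := r) D g) l)).det := by
    refine ge_det P _ _ (fun a _ => if a = j then N else -b) (fun a i => ?_) fun σ => ?_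
    · by_cases ha : a = j
      · subst ha
        rw [Matrix.updateRow_self, if_pos rfl]
        have e1 : (∑ l, h l • (wm (n := r) D g) l) i = (⇑D)^[(i : ℕ)] (∑ j, h j * g j) := by
          rw [hit, Finset.sum_apply]
          rfl
        rw [e1]
        exact hΦ i
      · rw [Matrix.updateRow_ne ha, if_neg ha]
        exact hg i a
    · have h3 : ∑ i, (fun a : Fin r => if a = j then N else -b) (σ i) =
          ∑ a : Fin r, if a = j then N else -b :=
        Equiv.sum_comp σ (fun a : Fin r => if a = j then N else -b)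
      change _ ≤ ∑ i, (fun a : Fin r => if a = j then N else -b) (σ i)
      rw [h3]
      have h4 : ∀ a : Fin r, (if a = j then N else -b) = (if a = j then N + b else 0) + -b := by
        intro a
        split_ifs <;> ring
      rw [Finset.sum_congr rfl fun a _ => h4 a, Finset.sum_add_distrib, Finset.sum_ite_eq',
        if_pos (Finset.mem_univ _), Finset.sum_const, Finset.card_univ, Fintype.card_fin,
        nsmul_eq_mul]
      linarith
  rw [h1, mul_comm (h j)] at h2
  exact Ge.of_mul hW h2

theorem ge_der {P : Place ℂ K} {D : Derivation ℂ K K} (hD : DerReg P D) {N : ℤ} {f : K}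
    (hf : Ge P N f) : Ge P (N - 1) (D f) := by
  rcases hf with rfl | hf
  · left
    rw [map_zero]
  · exact (ge_der_reg hD f).mono (by omega)

/-- the loss of order under a derivation -/
theorem exists_loss {N' : ℕ} {y : Fin (N' + 1) → K} (hy : NormalModel y) {P : Place ℂ K}
    (hP : IsPrimeDivisor y P) (D : Derivation ℂ K K) :
    ∃ c : ℕ, ∀ (N : ℤ) (f : K), Ge P N f → Ge P (N - c) (D f) := by
  obtain ⟨j, hj⟩ := exists_centred hy P
  obtain ⟨s, hs, hs0, hsD⟩ := exists_den hy hj.1 D
  have h1 : DerReg P (s • D) := derReg_of_chart hP hj fun f hf => hsD f hf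
  have hs1 := (P.reg_iff hs0).1 (hj.reg s hs)
  refine ⟨(P.ord s).toNat + 1, fun N f hf => ?_⟩
  have h2 := ge_der h1 hf
  change Ge P (N - 1) (s * D f) at h2
  refine (Ge.of_mul hs0 h2).mono ?_
  push_cast
  rw [Int.toNat_of_nonneg hs1]
  linarith

theorem loss_iter {P : Place ℂ K} {D : Derivation ℂ K K} {c : ℕ}
    (hc : ∀ (N : ℤ) (f : K), Ge P N f → Ge P (N - c) (D f)) {N : ℤ} {f : K} (hf : Ge P N f) (i : ℕ) :
    Ge P (N - i * c) ((⇑D)^[i] f) := by
  induction i with
  | zero => simpa using hf
  | succ i ih =>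
    rw [Function.iterate_succ_apply']
    refine (hc _ _ ih).mono ?_
    push_cast
    linarith

/-- bounded loss at a prime divisor -/
theorem coef_loss {N' : ℕ} {y : Fin (N' + 1) → K} (hy : NormalModel y) {P : Place ℂ K}
    (hP : IsPrimeDivisor y P) (D : Derivation ℂ K K) {r : ℕ} {g : Fin r → K} (hW : wr D g ≠ 0) :
    ∃ C : ℕ, ∀ (N : ℤ) (h : Fin r → K), (∀ j, D (h j) = 0) → Ge P N (∑ j, h j * g j) →
      ∀ j, Ge P (N - C) (h j) := by
  obtain ⟨c, hc⟩ := exists_loss hy hP D
  obtain ⟨b, hb⟩ : ∃ b : ℕ, b = ∑ l, (P.ord (g l)).natAbs + r * c := ⟨_, rfl⟩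
  refine ⟨r * c + r * b + (P.ord (wr D g)).natAbs, fun N h hD hN j => ?_⟩
  have h1 := cramer_ge (P := P) (D := D) (g := g) hD (N := N - r * c) (b := b) (by positivity)
    (fun i => (loss_iter hc hN i).mono (by
      have h2 : ((i : ℕ) : ℤ) * c ≤ r * c :=
        mul_le_mul_of_nonneg_right (by exact_mod_cast i.2.le) (by positivity)
      linarith))
    (fun i l => (loss_iter hc (ge_ord P (g l)) i).mono (by
      have h2 : ((i : ℕ) : ℤ) * c ≤ r * c :=
        mul_le_mul_of_nonneg_right (by exact_mod_cast i.2.le) (by positivity)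
      have h3 : (P.ord (g l)).natAbs ≤ ∑ l, (P.ord (g l)).natAbs :=
        Finset.single_le_sum (f := fun l => (P.ord (g l)).natAbs) (fun _ _ => Nat.zero_le _)
          (Finset.mem_univ l)
      have h4 : (b : ℤ) = (∑ l, (P.ord (g l)).natAbs : ℕ) + r * c := by
        rw [hb]
        push_cast
        rfl
      have h5 : ((P.ord (g l)).natAbs : ℤ) ≤ (∑ l, (P.ord (g l)).natAbs : ℕ) := by
        exact_mod_cast h3
      have h6 : -((P.ord (g l)).natAbs : ℤ) ≤ P.ord (g l) := by omega
      linarith)) hW j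
  refine h1.mono ?_
  push_cast
  have h6 : P.ord (wr D g) ≤ |P.ord (wr D g)| := le_abs_self _
  linarith

/-- no loss at almost all prime divisors -/
theorem coef_reg {N' : ℕ} {y : Fin (N' + 1) → K} (hy : NormalModel y) (D : Derivation ℂ K K)
    {r : ℕ} {g : Fin r → K} (hW : wr D g ≠ 0) :
    ∃ T : Set (Place ℂ K), T.Finite ∧ ∀ P, IsPrimeDivisor y P → P ∉ T →
      ∀ h : Fin r → K, (∀ j, D (h j) = 0) → Ge P 0 (∑ j, h j * g j) → ∀ j, Ge P 0 (h j) := by
  classical
  obtain ⟨j0, hj0⟩ := hy.ne
  obtain ⟨s, hs, hs0, hsD⟩ := exists_den hy hj0 D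
  have hfin : ∀ f : K, ({P : Place ℂ K | IsPrimeDivisor y P ∧ f ≠ 0 ∧ P.ord f ≠ 0}).Finite := by
    intro f
    by_cases hf : f = 0
    · refine Set.finite_empty.subset ?_
      rintro P ⟨-, h, -⟩
      exact h hf
    · refine (finite_ord hy hf).subset ?_
      rintro P ⟨h1, -, h2⟩
      exact ⟨h1, h2⟩
  refine ⟨(⋃ i, {P : Place ℂ K | IsPrimeDivisor y P ∧ y i / y j0 ≠ 0 ∧ P.ord (y i / y j0) ≠ 0}) ∪
    ({P : Place ℂ K | IsPrimeDivisor y P ∧ s ≠ 0 ∧ P.ord s ≠ 0} ∪
    ((⋃ l, {P : Place ℂ K | IsPrimeDivisor y P ∧ g l ≠ 0 ∧ P.ord (g l) ≠ 0}) ∪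
      {P : Place ℂ K | IsPrimeDivisor y P ∧ wr D g ≠ 0 ∧ P.ord (wr D g) ≠ 0})),
    (Set.finite_iUnion fun i => hfin _).union ((hfin _).union
      ((Set.finite_iUnion fun i => hfin _).union (hfin _))), fun P hP hPT h hD hΦ j => ?_⟩
  simp only [Set.mem_union, Set.mem_iUnion, not_or, not_exists, Set.mem_ofPred_eq, not_and,
    not_not] at hPT
  obtain ⟨h1, h2, h3, h4⟩ := hPT
  have hreg : ∀ f : K, (f ≠ 0 → P.ord f = 0) → Ge P 0 f := by
    intro f hf
    by_cases hf0 : f = 0
    · exact Or.inl hf0
    · exact Or.inr (hf hf0).ge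
  have hc : Centred y j0 P := ⟨hj0, fun i => hreg _ (h1 i hP)⟩
  have hs1 : P.ord s = 0 := h2 hP hs0
  have hreg' : DerReg P (s • D) := derReg_of_chart hP hc fun f hf => hsD f hf
  have hDr : ∀ f, Ge P 0 f → Ge P 0 (D f) := by
    intro f hf
    have h5 : Ge P 0 (s * D f) := hreg' f hf
    have h6 := Ge.of_mul hs0 h5
    rwa [hs1, sub_zero] at h6
  have hit : ∀ (i : ℕ) (f : K), Ge P 0 f → Ge P 0 ((⇑D)^[i] f) := by
    intro i f hf
    induction i with
    | zero => exact hf
    | succ i ih =>
      rw [Function.iterate_succ_apply']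
      exact hDr _ ih
  have h5 := cramer_ge (P := P) (D := D) (g := g) hD (N := 0) (b := 0) le_rfl
    (fun i => hit i _ hΦ) (fun i l => by
      rw [neg_zero]
      exact hit i _ (hreg _ (h3 l hP))) hW j
  rw [h4 hP hW] at h5
  simpa using h5

/-- a place which is trivial on a field is trivial on the algebraic elements -/
theorem ord_alg {P : Place ℂ K} {F : IntermediateField ℂ K} (hF : ∀ f ∈ F, f ≠ 0 → P.ord f = 0)
    {x : K} (hx : IsAlgebraic F x) (hx0 : x ≠ 0) : P.ord x = 0 := by
  have key : ∀ z : K, IsAlgebraic F z → P.Reg z := by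
    intro z hz
    have hint := hz.isIntegral
    let φ : F →+* P.O := (algebraMap F K).codRestrict P.O.toSubring fun m => by
      change P.Reg (m : K)
      by_cases hm : (m : K) = 0
      · exact Or.inl hm
      · exact Or.inr (hF m m.2 hm).ge
    have h1 : IsIntegral P.O z := by
      have h2 := IsIntegral.map_of_comp_eq φ (RingHom.id K) (by
        ext m
        rfl) hint
      exact h2
    obtain ⟨z', hz'⟩ := IsIntegrallyClosed.isIntegral_iff.1 h1
    rw [← hz']
    exact z'.2
  have h1 := (P.reg_iff hx0).1 (key x hx)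
  have h2 := (P.reg_iff (inv_ne_zero hx0)).1 (key x⁻¹ hx.inv)
  rw [P.ord_inv] at h2
  omega

end

end Pool.Agent.Y172
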